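import Pool.Agent.H389R3.HeeschCorona

set_option autoImplicit false

/-! Connected version: open frames with a thin channel and open plugs. -/

namespace Pool.Agent.H389R3.HC

open Set Metric Pool.Agent.H389R3.Heesch

/-- the shape of the channels: direction and two width parameters -/
structure Par (n : ℕ) where
  i₀ : Fin n
  i₁ : Fin n
  h01 : i₀ ≠ i₁
  w₀ : ℝ
  w₁ : ℝ

/-- half side of the cavity -/
noncomputable def aa (n : ℕ) : ℝ := 1 / (100 * n)

/-- bound for the width of the channels -/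
noncomputable def ww (n : ℕ) : ℝ := 1 / (10000 * n ^ 3)

/-- admissible parameters -/
structure Par.Good {n : ℕ} (pr : Par n) : Prop where
  hn : 2 ≤ n
  h0 : 0 ≤ pr.w₀
  h1 : 0 ≤ pr.w₁
  h0' : pr.w₀ ≤ ww n
  h1' : pr.w₁ ≤ ww n
  hpos : 0 < pr.w₀ + pr.w₁

variable {n : ℕ}

/-- width of the channel at height `t` -/
noncomputable def om (pr : Par n) (t : ℝ) : ℝ := pr.w₀ + pr.w₁ * (t - aa n)

/-- distance of the coordinate `l` of `x` from the centre of the cell `c` -/
noncomputable def ax (c : Fin n → ℤ) (x : E n) (l : Fin n) : ℝ := |x l - ctr c l|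

lemma ax_nonneg (c : Fin n → ℤ) (x : E n) (l : Fin n) : 0 ≤ ax c x l := abs_nonneg _

lemma continuous_ax (c : Fin n → ℤ) (l : Fin n) : Continuous fun x : E n => ax c x l := by
  unfold ax
  fun_prop

/-- the open plug of the cell `c` -/
def P (pr : Par n) (c : Fin n → ℤ) : Set (E n) :=
  {x | (∀ l, ax c x l < 1 / 2) ∧
    ((∀ l, ax c x l < aa n) ∨ (∀ l, l ≠ pr.i₁ → ax c x l < om pr (ax c x pr.i₁)))}

/-- the open frame of the cell `c` -/
def G (pr : Par n) (c : Fin n → ℤ) : Set (E n) :=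
  {x | (∀ l, ax c x l < 1 / 2) ∧
    ((∃ l, aa n < ax c x l) ∧ (∃ l, l ≠ pr.i₁ ∧ om pr (ax c x pr.i₁) < ax c x l))}

/-- the open cell -/
def C (c : Fin n → ℤ) : Set (E n) := {x | ∀ l, ax c x l < 1 / 2}

/-- the closed cell -/
def K (c : Fin n → ℤ) : Set (E n) := {x | ∀ l, ax c x l ≤ 1 / 2}

lemma n_pos (hn : 2 ≤ n) : (2 : ℝ) ≤ n := by exact_mod_cast hn

lemma aa_pos (hn : 2 ≤ n) : 0 < aa n := by
  have := n_pos hn
  unfold aa; positivity

lemma aa_le (hn : 2 ≤ n) : aa n ≤ 1 / 200 := by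
  have := n_pos hn
  unfold aa
  rw [div_le_div_iff₀ (by positivity) (by norm_num)]
  linarith

lemma ww_pos (hn : 2 ≤ n) : 0 < ww n := by
  have := n_pos hn
  unfold ww; positivity

lemma aa_mul (hn : 2 ≤ n) : (n : ℝ) * aa n = 1 / 100 := by
  have := n_pos hn
  unfold aa; field_simp

/-- `n w = a / (100 n)` -/
lemma ww_mul (hn : 2 ≤ n) : (n : ℝ) ^ 2 * ww n = aa n / 100 := by
  have := n_pos hn
  unfold aa ww; field_simp; norm_num

lemma ww_mul2 (hn : 2 ≤ n) : (n : ℝ) * ww n ≤ aa n / 200 := by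
  have h := ww_mul hn
  have h2 := n_pos hn
  have h3 := ww_pos hn
  nlinarith [mul_pos (by linarith : (0 : ℝ) < n) h3]

lemma ww_le (hn : 2 ≤ n) : ww n ≤ aa n / 400 := by
  have h := ww_mul2 hn
  have h2 := n_pos hn
  have h3 := ww_pos hn
  nlinarith

lemma om_le (pr : Par n) (hp : pr.Good) {t : ℝ} (ht : t ≤ 1) : om pr t ≤ 2 * ww n := by
  have h1 := hp.h0'
  have h2 := hp.h1'
  have h3 := hp.h1
  have h4 := aa_pos hp.hn
  unfold om
  nlinarith

lemma om_pos (pr : Par n) (hp : pr.Good) {t : ℝ} (ht : 1 / 10 ≤ t) : 0 < om pr t := by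
  have h1 := hp.h0
  have h3 := hp.h1
  have h4 := aa_le hp.hn
  have h5 := hp.hpos
  unfold om
  rcases eq_or_lt_of_le h1 with h | h
  · rw [← h] at h5 ⊢
    have : 0 < t - aa n := by linarith
    nlinarith
  · have : 0 ≤ pr.w₁ * (t - aa n) := mul_nonneg h3 (by linarith)
    linarith

lemma om_affine (pr : Par n) (s t u : ℝ) :
    om pr ((1 - s) * t + s * u) = (1 - s) * om pr t + s * om pr u := by
  unfold om; ring

lemma isOpen_C (c : Fin n → ℤ) : IsOpen (C c) := by
  have : (C c : Set (E n)) = ⋂ l, {x | ax c x l < 1 / 2} := by ext x; simp [C]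
  rw [this]
  exact isOpen_iInter_of_finite fun l => isOpen_lt (continuous_ax c l) continuous_const

lemma isClosed_K (c : Fin n → ℤ) : IsClosed (K c : Set (E n)) := by
  have : (K c : Set (E n)) = ⋂ l, {x | ax c x l ≤ 1 / 2} := by ext x; simp [K]
  rw [this]
  exact isClosed_iInter fun l => isClosed_le (continuous_ax c l) continuous_const

lemma continuous_om (pr : Par n) : Continuous (om pr) := by
  unfold om; fun_prop

lemma isOpen_P (pr : Par n) (c : Fin n → ℤ) : IsOpen (P pr c) := by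
  have : P pr c = C c ∩ ((⋂ l, {x | ax c x l < aa n}) ∪
      ⋂ l, {x | l ≠ pr.i₁ → ax c x l < om pr (ax c x pr.i₁)}) := by
    ext x; simp [P, C]
  rw [this]
  refine (isOpen_C c).inter (IsOpen.union ?_ ?_)
  · exact isOpen_iInter_of_finite fun l => isOpen_lt (continuous_ax c l) continuous_const
  · refine isOpen_iInter_of_finite fun l => ?_
    by_cases hl : l = pr.i₁
    · simp [hl]
    · simp only [ne_eq, hl, not_false_eq_true, forall_true_left]
      exact isOpen_lt (continuous_ax c l) ((continuous_om pr).comp (continuous_ax c _))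

lemma isOpen_G (pr : Par n) (c : Fin n → ℤ) : IsOpen (G pr c) := by
  have : G pr c = C c ∩ ((⋃ l, {x | aa n < ax c x l}) ∩
      ⋃ l, {x | l ≠ pr.i₁ ∧ om pr (ax c x pr.i₁) < ax c x l}) := by
    ext x; simp [G, C]
  rw [this]
  refine (isOpen_C c).inter (IsOpen.inter ?_ ?_)
  · exact isOpen_iUnion fun l => isOpen_lt continuous_const (continuous_ax c l)
  · refine isOpen_iUnion fun l => ?_
    by_cases hl : l = pr.i₁
    · simp [hl]
    · simp only [ne_eq, hl, not_false_eq_true, true_and]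
      exact isOpen_lt ((continuous_om pr).comp (continuous_ax c _)) (continuous_ax c l)

lemma G_subset (pr : Par n) (c : Fin n → ℤ) : G pr c ⊆ C c := fun _ hx => hx.1

lemma P_subset (pr : Par n) (c : Fin n → ℤ) : P pr c ⊆ C c := fun _ hx => hx.1

lemma C_subset_K (c : Fin n → ℤ) : (C c : Set (E n)) ⊆ K c := fun _ hx l => (hx l).le

lemma disjoint_G_P (pr : Par n) (c : Fin n → ℤ) : Disjoint (G pr c) (P pr c) := by
  rw [Set.disjoint_left]
  rintro x ⟨-, ⟨l, hl⟩, l', hl', hl''⟩ ⟨-, h | h⟩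
  · exact absurd (h l) (not_lt.2 hl.le)
  · exact absurd (h l' hl') (not_lt.2 hl''.le)

lemma disjoint_C {c c' : Fin n → ℤ} (h : c ≠ c') : Disjoint (C c : Set (E n)) (C c') := by
  rw [Set.disjoint_left]
  intro x hx hx'
  obtain ⟨l, hl⟩ := Function.ne_iff.1 h
  have h1 : |x l - ((c l : ℝ) + 1 / 2)| < 1 / 2 := hx l
  have h2 : |x l - ((c' l : ℝ) + 1 / 2)| < 1 / 2 := hx' l
  rw [abs_lt] at h1 h2
  have h3 : ((c l : ℝ)) < c' l + 1 := by linarith
  have h4 : ((c' l : ℝ)) < c l + 1 := by linarith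
  have h5 : c l < c' l + 1 := by exact_mod_cast h3
  have h6 : c' l < c l + 1 := by exact_mod_cast h4
  omega

/-- a point given by its coordinates relative to the centre of `c` -/
noncomputable def pt (c : Fin n → ℤ) (v : Fin n → ℝ) : E n := (φ n).symm (fun l => ctr c l + v l)

lemma pt_apply (c : Fin n → ℤ) (v : Fin n → ℝ) (l : Fin n) : pt c v l = ctr c l + v l := rfl

lemma ax_pt (c : Fin n → ℤ) (v : Fin n → ℝ) (l : Fin n) : ax c (pt c v) l = |v l| := by
  unfold ax; rw [pt_apply]; simp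

lemma seg_coord (x y : E n) (s : ℝ) (l : Fin n) :
    (AffineMap.lineMap x y s : E n) l = (1 - s) * x l + s * y l := by
  rw [AffineMap.lineMap_apply_module]
  simp

/-- points of the segment from `x` to the point with coordinates `v`, when `v` has the signs of
`x` -/
lemma ax_seg {c : Fin n → ℤ} {x : E n} {v : Fin n → ℝ} {l : Fin n}
    (hv : 0 ≤ (x l - ctr c l) * v l) {s : ℝ} (hs0 : 0 ≤ s) (hs1 : s ≤ 1) :
    ax c (AffineMap.lineMap x (pt c v) s : E n) l = (1 - s) * ax c x l + s * |v l| := by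
  unfold ax
  rw [seg_coord, pt_apply,
    show (1 - s) * x l + s * (ctr c l + v l) - ctr c l = (1 - s) * (x l - ctr c l) + s * v l by ring]
  set y := x l - ctr c l
  have h1 : 0 ≤ (1 - s) * y * (s * v l) := by
    have : (1 - s) * y * (s * v l) = ((1 - s) * s) * (y * v l) := by ring
    rw [this]
    exact mul_nonneg (mul_nonneg (by linarith) hs0) hv
  have h2 : |(1 - s) * y + s * v l| = |(1 - s) * y| + |s * v l| := by
    rcases abs_cases ((1 - s) * y) with ⟨e1, e2⟩ | ⟨e1, e2⟩ <;>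
      rcases abs_cases (s * v l) with ⟨e3, e4⟩ | ⟨e3, e4⟩ <;>
      rcases abs_cases ((1 - s) * y + s * v l) with ⟨e5, e6⟩ | ⟨e5, e6⟩ <;>
      rw [e1, e3, e5] <;> nlinarith
  rw [h2, abs_mul, abs_mul, abs_of_nonneg (by linarith : 0 ≤ 1 - s), abs_of_nonneg hs0]

/-- the corner of the cell with the signs of `x` -/
noncomputable def cor (c : Fin n → ℤ) (x : E n) : Fin n → ℝ :=
  fun l => if 0 ≤ x l - ctr c l then 2 / 5 else -(2 / 5)

lemma cor_abs (c : Fin n → ℤ) (x : E n) (l : Fin n) : |cor c x l| = 2 / 5 := by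
  unfold cor
  split_ifs
  · norm_num
  · norm_num

lemma cor_sign (c : Fin n → ℤ) (x : E n) (l : Fin n) : 0 ≤ (x l - ctr c l) * cor c x l := by
  unfold cor
  split_ifs with h
  · exact mul_nonneg h (by norm_num)
  · push Not at h
    nlinarith

/-- the segment from a point of the closed frame to the corner lies in the frame -/
lemma seg_G {pr : Par n} (hp : pr.Good) {c : Fin n → ℤ} {x : E n} (hx : x ∈ K c)
    (h1 : ∃ l, aa n ≤ ax c x l) (h2 : ∃ l, l ≠ pr.i₁ ∧ om pr (ax c x pr.i₁) ≤ ax c x l)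
    {s : ℝ} (hs0 : 0 < s) (hs1 : s ≤ 1) :
    (AffineMap.lineMap x (pt c (cor c x)) s : E n) ∈ G pr c := by
  have key : ∀ l, ax c (AffineMap.lineMap x (pt c (cor c x)) s : E n) l =
      (1 - s) * ax c x l + s * (2 / 5) := by
    intro l
    rw [ax_seg (cor_sign c x l) hs0.le hs1, cor_abs]
  have ha := aa_le hp.hn
  refine ⟨?_, ?_, ?_⟩
  · intro l
    rw [key]
    have := hx l
    nlinarith
  · obtain ⟨l, hl⟩ := h1
    refine ⟨l, ?_⟩
    rw [key]
    nlinarith
  · obtain ⟨l, hl, hl'⟩ := h2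
    refine ⟨l, hl, ?_⟩
    rw [key, key, om_affine]
    have h3 := om_le pr hp (t := 2 / 5) (by norm_num)
    have h4 := ww_le hp.hn
    nlinarith

lemma mem_closure_of_seg {S : Set (E n)} {x y : E n}
    (h : ∀ s : ℝ, 0 < s → s ≤ 1 → (AffineMap.lineMap x y s : E n) ∈ S) : x ∈ closure S := by
  have h1 : Filter.Tendsto (fun s : ℝ => (AffineMap.lineMap x y s : E n)) (nhdsWithin 0 (Ioi 0))
      (nhds x) := by
    have h2 : Continuous (fun s : ℝ => (AffineMap.lineMap x y s : E n)) :=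
      AffineMap.lineMap_continuous
    have h3 := h2.tendsto 0
    simp only [AffineMap.lineMap_apply_zero] at h3
    exact h3.mono_left nhdsWithin_le_nhds
  refine mem_closure_of_tendsto h1 ?_
  have h4 : Ioc (0 : ℝ) 1 ∈ nhdsWithin (0 : ℝ) (Ioi 0) := Ioc_mem_nhdsGT one_pos
  filter_upwards [h4] with s hs
  exact h s hs.1 hs.2

lemma mem_cl_G {pr : Par n} (hp : pr.Good) {c : Fin n → ℤ} {x : E n} (hx : x ∈ K c)
    (h1 : ∃ l, aa n ≤ ax c x l) (h2 : ∃ l, l ≠ pr.i₁ ∧ om pr (ax c x pr.i₁) ≤ ax c x l) :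
    x ∈ closure (G pr c) :=
  mem_closure_of_seg fun _ hs0 hs1 => seg_G hp hx h1 h2 hs0 hs1

/-- the point of the axis of the channel at height `2 / 5` on the side of `x` -/
noncomputable def axi (pr : Par n) (c : Fin n → ℤ) (x : E n) : Fin n → ℝ :=
  fun l => if l = pr.i₁ then cor c x l else 0

lemma axi_sign (pr : Par n) (c : Fin n → ℤ) (x : E n) (l : Fin n) :
    0 ≤ (x l - ctr c l) * axi pr c x l := by
  unfold axi
  split_ifs
  · exact cor_sign c x l
  · simp

lemma seg_P {pr : Par n} (hp : pr.Good) {c : Fin n → ℤ} {x : E n} (hx : x ∈ K c)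
    (h : ∀ l, l ≠ pr.i₁ → ax c x l ≤ om pr (ax c x pr.i₁))
    {s : ℝ} (hs0 : 0 < s) (hs1 : s ≤ 1) :
    (AffineMap.lineMap x (pt c (axi pr c x)) s : E n) ∈ P pr c := by
  have k1 : ax c (AffineMap.lineMap x (pt c (axi pr c x)) s : E n) pr.i₁ =
      (1 - s) * ax c x pr.i₁ + s * (2 / 5) := by
    rw [ax_seg (axi_sign pr c x _) hs0.le hs1]
    simp [axi, cor_abs]
  have k2 : ∀ l, l ≠ pr.i₁ → ax c (AffineMap.lineMap x (pt c (axi pr c x)) s : E n) l =
      (1 - s) * ax c x l := by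
    intro l hl
    rw [ax_seg (axi_sign pr c x _) hs0.le hs1]
    simp [axi, hl]
  refine ⟨?_, Or.inr ?_⟩
  · intro l
    by_cases hl : l = pr.i₁
    · rw [hl, k1]
      have := hx pr.i₁
      nlinarith
    · rw [k2 l hl]
      have := hx l
      have := ax_nonneg c x l
      nlinarith
  · intro l hl
    rw [k1, k2 l hl, om_affine]
    have h3 := om_pos pr hp (t := 2 / 5) (by norm_num)
    have h4 := h l hl
    nlinarith

lemma seg_cube {pr : Par n} (hp : pr.Good) {c : Fin n → ℤ} {x : E n}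
    (h : ∀ l, ax c x l ≤ aa n) {s : ℝ} (hs0 : 0 < s) (hs1 : s ≤ 1) :
    (AffineMap.lineMap x (pt c 0) s : E n) ∈ P pr c := by
  have ha := aa_le hp.hn
  have ha' := aa_pos hp.hn
  have k1 : ∀ l, ax c (AffineMap.lineMap x (pt c 0) s : E n) l = (1 - s) * ax c x l := by
    intro l
    rw [ax_seg (by simp) hs0.le hs1]
    simp
  have k2 : ∀ l, ax c (AffineMap.lineMap x (pt c 0) s : E n) l < aa n := by
    intro l
    rw [k1]
    have := h l
    have := ax_nonneg c x l
    nlinarith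
  exact ⟨fun l => (k2 l).trans (by linarith), Or.inl k2⟩

lemma mem_cl_P {pr : Par n} (hp : pr.Good) {c : Fin n → ℤ} {x : E n} (hx : x ∈ K c)
    (h : (∀ l, ax c x l ≤ aa n) ∨ ∀ l, l ≠ pr.i₁ → ax c x l ≤ om pr (ax c x pr.i₁)) :
    x ∈ closure (P pr c) := by
  rcases h with h | h
  · exact mem_closure_of_seg fun _ hs0 hs1 => seg_cube hp h hs0 hs1
  · exact mem_closure_of_seg fun _ hs0 hs1 => seg_P hp hx h hs0 hs1

lemma K_subset {pr : Par n} (hp : pr.Good) (c : Fin n → ℤ) :
    (K c : Set (E n)) ⊆ closure (G pr c) ∪ closure (P pr c) := by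
  intro x hx
  by_cases h1 : ∃ l, aa n ≤ ax c x l
  · by_cases h2 : ∃ l, l ≠ pr.i₁ ∧ om pr (ax c x pr.i₁) ≤ ax c x l
    · exact Or.inl (mem_cl_G hp hx h1 h2)
    · push Not at h2
      exact Or.inr (mem_cl_P hp hx (Or.inr fun l hl => (h2 l hl).le))
  · push Not at h1
    exact Or.inr (mem_cl_P hp hx (Or.inl fun l => (h1 l).le))

/-- the open shape with frames `F` and plugs `D` -/
def W (pr : Par n) (F D : Finset (Fin n → ℤ)) : Set (E n) := (⋃ c ∈ F, G pr c) ∪ (⋃ c ∈ D, P pr c)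

/-- the body with frames `F` and plugs `D` -/
def body (pr : Par n) (F D : Finset (Fin n → ℤ)) : Set (E n) := closure (W pr F D)

variable {pr : Par n} {F D F' D' : Finset (Fin n → ℤ)}

lemma isOpen_W : IsOpen (W pr F D) :=
  (isOpen_biUnion fun _ _ => isOpen_G _ _).union (isOpen_biUnion fun _ _ => isOpen_P _ _)

lemma mem_W {x : E n} :
    x ∈ W pr F D ↔ (∃ c ∈ F, x ∈ G pr c) ∨ (∃ c ∈ D, x ∈ P pr c) := by
  simp [W]

lemma disjoint_W (h1 : Disjoint F F') (h2 : Disjoint D D') :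
    Disjoint (W pr F D) (W pr F' D') := by
  rw [Set.disjoint_left]
  intro x hx hx'
  rw [mem_W] at hx hx'
  rcases hx with ⟨c, hc, hx⟩ | ⟨c, hc, hx⟩ <;> rcases hx' with ⟨c', hc', hx'⟩ | ⟨c', hc', hx'⟩
  · by_cases h : c = c'
    · subst h; exact Finset.disjoint_left.1 h1 hc hc'
    · exact Set.disjoint_left.1 (disjoint_C h) hx.1 hx'.1
  · by_cases h : c = c'
    · subst h; exact Set.disjoint_left.1 (disjoint_G_P _ _) hx hx'
    · exact Set.disjoint_left.1 (disjoint_C h) hx.1 hx'.1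
  · by_cases h : c = c'
    · subst h; exact Set.disjoint_left.1 (disjoint_G_P _ _) hx' hx
    · exact Set.disjoint_left.1 (disjoint_C h) hx.1 hx'.1
  · by_cases h : c = c'
    · subst h; exact Finset.disjoint_left.1 h2 hc hc'
    · exact Set.disjoint_left.1 (disjoint_C h) hx.1 hx'.1

lemma floor_mem_K (x : E n) : x ∈ K (fun l => ⌊x l⌋) := by
  intro l
  unfold ax ctr
  have h1 := Int.floor_le (x l)
  have h2 := Int.lt_floor_add_one (x l)
  rw [abs_le]
  constructor <;> linarith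

lemma K_bound {c : Fin n → ℤ} {x : E n} (hx : x ∈ K c) (l : Fin n) :
    (c l : ℝ) ≤ x l ∧ x l ≤ c l + 1 := by
  have := hx l
  unfold ax ctr at this
  rw [abs_le] at this
  constructor <;> linarith [this.1, this.2]

lemma isCompact_K (c : Fin n → ℤ) : IsCompact (K c : Set (E n)) := by
  have h : (K c : Set (E n)) = φ n ⁻¹' (Set.Icc (fun l => (c l : ℝ)) (fun l => c l + 1)) := by
    ext x
    constructor
    · intro hx
      exact ⟨fun l => (K_bound hx l).1, fun l => (K_bound hx l).2⟩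
    · rintro ⟨h1, h2⟩ l
      have h3 : (c l : ℝ) ≤ x l := h1 l
      have h4 : x l ≤ c l + 1 := h2 l
      unfold ax ctr
      rw [abs_le]
      constructor <;> linarith
  rw [h]
  exact (φ n).toHomeomorph.isCompact_preimage.2 isCompact_Icc

lemma body_subset : body pr F D ⊆ ⋃ c ∈ F ∪ D, K c := by
  have hcl : IsClosed (⋃ c ∈ F ∪ D, K (n := n) c) :=
    Set.Finite.isClosed_biUnion (F ∪ D).finite_toSet (fun c _ => isClosed_K c)
  apply closure_minimal _ hcl
  intro x hx
  rw [mem_W] at hx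
  simp only [mem_iUnion]
  rcases hx with ⟨c, hc, hx⟩ | ⟨c, hc, hx⟩
  · exact ⟨c, Finset.mem_union_left _ hc, C_subset_K _ hx.1⟩
  · exact ⟨c, Finset.mem_union_right _ hc, C_subset_K _ hx.1⟩

lemma isCompact_body : IsCompact (body pr F D) :=
  ((F ∪ D).finite_toSet.isCompact_biUnion (fun c _ => isCompact_K c)).of_isClosed_subset
    isClosed_closure body_subset

lemma W_subset_interior : W pr F D ⊆ interior (body pr F D) :=
  interior_maximal subset_closure isOpen_W

lemma closure_interior_body : closure (interior (body pr F D)) = body pr F D := by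
  apply subset_antisymm
  · exact closure_minimal interior_subset isClosed_closure
  · exact closure_mono W_subset_interior

lemma ctr_mem_P (hp : pr.Good) (c : Fin n → ℤ) : pt c 0 ∈ P pr c := by
  have ha := aa_pos hp.hn
  refine ⟨fun l => ?_, Or.inl fun l => ?_⟩
  · rw [ax_pt]; simp
  · rw [ax_pt]; simpa using ha

lemma cor_mem_G (hp : pr.Good) (c : Fin n → ℤ) {v : Fin n → ℝ} (hv : ∀ l, |v l| = 2 / 5) :
    pt c v ∈ G pr c := by
  have ha := aa_le hp.hn
  have h3 := om_le pr hp (t := 2 / 5) (by norm_num)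
  have h4 := ww_le hp.hn
  refine ⟨fun l => ?_, ⟨pr.i₁, ?_⟩, ⟨pr.i₀, pr.h01, ?_⟩⟩
  · rw [ax_pt, hv]; norm_num
  · rw [ax_pt, hv]; linarith
  · rw [ax_pt, ax_pt, hv, hv]; linarith

end Pool.Agent.H389R3.HC
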