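import Pool.Agent.H389R3.HC1

set_option autoImplicit false

namespace Pool.Agent.H389R3.HC

open Set Metric Pool.Agent.H389R3.Heesch

variable {n : ℕ} {pr : Par n} {F D F' D' : Finset (Fin n → ℤ)}

lemma dist_le_of_coord {x y : E n} {δ : ℝ} (hδ : 0 ≤ δ) (h : ∀ l, |x l - y l| ≤ δ) :
    dist x y ≤ n * δ := by
  rcases Nat.eq_zero_or_pos n with hn | hn
  · subst hn
    have : x = y := by ext l; exact l.elim0
    simp [this]
  have hn' : (1 : ℝ) ≤ n := by exact_mod_cast hn
  rw [EuclideanSpace.dist_eq]
  calc √(∑ i, dist (x i) (y i) ^ 2) ≤ √((n * δ) ^ 2) := by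
        apply Real.sqrt_le_sqrt
        calc ∑ i, dist (x i) (y i) ^ 2 ≤ ∑ _i : Fin n, δ ^ 2 := by
              apply Finset.sum_le_sum
              intro i _
              rw [Real.dist_eq]
              exact pow_le_pow_left₀ (abs_nonneg _) (h i) 2
          _ = n * δ ^ 2 := by simp
          _ ≤ (n * δ) ^ 2 := by nlinarith [sq_nonneg δ]
    _ = n * δ := Real.sqrt_sq (by positivity)

lemma abs_coord_le (x y : E n) (l : Fin n) : |x l - y l| ≤ dist x y :=
  abs_coord_le_dist x y l

/-- outward shift of all coordinates but possibly one -/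
lemma shift (c : Fin n → ℤ) (x : E n) (d : Fin n → ℝ) (δ : ℝ) (hδ : 0 ≤ δ)
    (hd : ∀ l, |d l| ≤ δ) (hd' : ∀ l, 0 ≤ ax c x l + d l) :
    ∃ x' : E n, (∀ l, ax c x' l = ax c x l + d l) ∧ dist x x' ≤ n * δ := by
  refine ⟨(φ n).symm (fun l => x l + (if 0 ≤ x l - ctr c l then d l else - d l)), ?_, ?_⟩
  · intro l
    have h1 : ((φ n).symm (fun l => x l + (if 0 ≤ x l - ctr c l then d l else - d l))) l =
        x l + (if 0 ≤ x l - ctr c l then d l else - d l) := rfl
    have h2 := hd' l
    unfold ax at h2 ⊢
    rw [h1]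
    by_cases h : 0 ≤ x l - ctr c l
    · rw [if_pos h]
      rw [abs_of_nonneg h] at h2 ⊢
      rw [show x l + d l - ctr c l = x l - ctr c l + d l by ring, abs_of_nonneg h2]
    · rw [if_neg h]
      push Not at h
      rw [abs_of_neg h] at h2 ⊢
      rw [show x l + -d l - ctr c l = -(-(x l - ctr c l) + d l) by ring, abs_neg,
        abs_of_nonneg h2]
  · apply dist_le_of_coord hδ
    intro l
    have h1 : ((φ n).symm (fun l => x l + (if 0 ≤ x l - ctr c l then d l else - d l))) l =
        x l + (if 0 ≤ x l - ctr c l then d l else - d l) := rfl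
    rw [h1]
    have := hd l
    split_ifs
    · rw [show x l - (x l + d l) = -(d l) by ring, abs_neg]; exact this
    · rw [show x l - (x l + -d l) = d l by ring]; exact this

lemma isLinear_coord (l : Fin n) : IsLinearMap ℝ (fun z : E n => z l) := by
  constructor
  · intro a b; rfl
  · intro a b; rfl

lemma convex_C (c : Fin n → ℤ) : Convex ℝ (C c : Set (E n)) := by
  have : (C c : Set (E n)) = ⋂ l, ({z : E n | z l < ctr c l + 1 / 2} ∩
      {z : E n | ctr c l - 1 / 2 < z l}) := by
    ext x
    simp only [C, ax, abs_lt, mem_iInter, mem_inter_iff, mem_ofPred_eq]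
    constructor
    · intro h l; constructor <;> linarith [(h l).1, (h l).2]
    · intro h l; constructor <;> linarith [(h l).1, (h l).2]
  rw [this]
  exact convex_iInter fun l => (convex_halfSpace_lt (isLinear_coord l) _).inter
    (convex_halfSpace_gt (isLinear_coord l) _)

/-- every point of an open frame lies in a convex part of it that contains a ball of radius
`1 / 5`. -/
lemma exists_block (hp : pr.Good) {c : Fin n → ℤ} {x : E n} (hx : x ∈ G pr c) :
    ∃ B : Set (E n), Convex ℝ B ∧ B ⊆ G pr c ∧ x ∈ B ∧ ∃ p, ball p (1 / 5) ⊆ B ∧ dist x p ≤ n := by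
  obtain ⟨hxC, ⟨k, hk⟩, ⟨l, hl, hl'⟩⟩ := hx
  have ha := aa_le hp.hn
  have ha' := aa_pos hp.hn
  have hn0 : (2 : ℝ) ≤ n := n_pos hp.hn
  have hw := ww_le hp.hn
  have hw' := ww_pos hp.hn
  have hdist : ∀ p : E n, p ∈ C c → dist x p ≤ n := by
    intro p hpc
    have := dist_le_of_coord (x := x) (y := p) (δ := 1) zero_le_one (by
      intro m
      have h1 := hxC m
      have h2 := hpc m
      unfold ax at h1 h2
      rw [abs_lt] at h1 h2
      rw [abs_le]
      constructor <;> linarith [h1.1, h1.2, h2.1, h2.2])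
    linarith
  -- a transversal coordinate with a large value, or the channel direction
  by_cases hcase : ∃ m, m ≠ pr.i₁ ∧ aa n < ax c x m
  · obtain ⟨m, hm, hm'⟩ := hcase
    have main : ∀ σ : ℝ, (σ = 1 ∨ σ = -1) → aa n < σ * (x m - ctr c m) →
        ∃ B : Set (E n), Convex ℝ B ∧ B ⊆ G pr c ∧ x ∈ B ∧
          ∃ p, ball p (1 / 5) ⊆ B ∧ dist x p ≤ n := by
      intro σ hσ hσx
      have hσ2 : σ * σ = 1 := by rcases hσ with rfl | rfl <;> norm_num
      have hσa : ∀ y : ℝ, σ * y ≤ |y| := by
        intro y
        rcases hσ with rfl | rfl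
        · rw [one_mul]; exact le_abs_self y
        · rw [neg_one_mul]; exact neg_le_abs y
      have hconv : Convex ℝ (C c ∩ {z : E n | aa n + σ * ctr c m < σ * z m}) := by
        refine (convex_C c).inter ?_
        have : IsLinearMap ℝ (fun z : E n => σ * z m) := by
          constructor
          · intro a b; simp; ring
          · intro a b; simp; ring
        exact convex_halfSpace_gt this _
      have hpp : ∀ z ∈ ball (pt c (fun t => if t = m then σ / 4 else 0)) (1 / 5),
          z ∈ C c ∩ {z : E n | aa n + σ * ctr c m < σ * z m} := by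
        intro z hz
        have h1 : ∀ t, |z t - pt c (fun t => if t = m then σ / 4 else 0) t| < 1 / 5 :=
          fun t => (abs_coord_le _ _ t).trans_lt (mem_ball.1 hz)
        constructor
        · intro t
          have h2 := h1 t
          rw [pt_apply] at h2
          unfold ax
          by_cases ht : t = m
          · subst ht
            simp only [if_true] at h2
            rw [abs_lt] at h2 ⊢
            rcases hσ with rfl | rfl <;> constructor <;> linarith [h2.1, h2.2]
          · simp only [ht, if_false, add_zero] at h2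
            linarith
        · have h2 := h1 m
          rw [pt_apply] at h2
          simp only [if_true] at h2
          simp only [mem_ofPred_eq]
          rw [abs_lt] at h2
          rcases hσ with rfl | rfl <;> linarith [h2.1, h2.2]
      refine ⟨_, hconv, ?_, ⟨hxC, ?_⟩, _, hpp, hdist _ ?_⟩
      · rintro z ⟨hz1, hz2⟩
        simp only [mem_ofPred_eq] at hz2
        have h3 : aa n < ax c z m := by
          have := hσa (z m - ctr c m)
          unfold ax
          linarith
        refine ⟨hz1, ⟨m, h3⟩, ⟨m, hm, ?_⟩⟩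
        have h4 := om_le pr hp (t := ax c z pr.i₁) ((hz1 pr.i₁).le.trans (by norm_num))
        linarith
      · simp only [mem_ofPred_eq]; linarith
      · exact (hpp _ (mem_ball_self (by norm_num))).1
    unfold ax at hm'
    rcases lt_abs.1 hm' with h | h
    · exact main 1 (Or.inl rfl) (by linarith)
    · exact main (-1) (Or.inr rfl) (by linarith)
  · push Not at hcase
    have hk1 : k = pr.i₁ := by
      by_contra h
      exact absurd hk (not_lt.2 (hcase k h))
    subst hk1
    have main : ∀ σ τ : ℝ, (σ = 1 ∨ σ = -1) → (τ = 1 ∨ τ = -1) →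
        τ * (x pr.i₁ - ctr c pr.i₁) = ax c x pr.i₁ → σ * (x l - ctr c l) = ax c x l →
        ∃ B : Set (E n), Convex ℝ B ∧ B ⊆ G pr c ∧ x ∈ B ∧
          ∃ p, ball p (1 / 5) ⊆ B ∧ dist x p ≤ n := by
      intro σ τ hσ hτ e1 e2
      have hσa : ∀ y : ℝ, σ * y ≤ |y| := by
        intro y
        rcases hσ with rfl | rfl
        · rw [one_mul]; exact le_abs_self y
        · rw [neg_one_mul]; exact neg_le_abs y
      have hτa : ∀ y : ℝ, τ * y ≤ |y| := by
        intro y
        rcases hτ with rfl | rfl
        · rw [one_mul]; exact le_abs_self y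
        · rw [neg_one_mul]; exact neg_le_abs y
      have hconv : Convex ℝ ((C c ∩ {z : E n | aa n + τ * ctr c pr.i₁ < τ * z pr.i₁}) ∩
          {z : E n | pr.w₀ - pr.w₁ * (τ * ctr c pr.i₁ + aa n) + σ * ctr c l <
            σ * z l - pr.w₁ * (τ * z pr.i₁)}) := by
        refine ((convex_C c).inter ?_).inter ?_
        · have : IsLinearMap ℝ (fun z : E n => τ * z pr.i₁) := by
            constructor
            · intro a b; simp; ring
            · intro a b; simp; ring
          exact convex_halfSpace_gt this _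
        · have : IsLinearMap ℝ (fun z : E n => σ * z l - pr.w₁ * (τ * z pr.i₁)) := by
            constructor
            · intro a b; simp; ring
            · intro a b; simp; ring
          exact convex_halfSpace_gt this _
      have hpp : ∀ z ∈ ball (pt c (fun t => if t = l then σ / 4 else if t = pr.i₁ then τ / 4
          else 0)) (1 / 5),
          z ∈ (C c ∩ {z : E n | aa n + τ * ctr c pr.i₁ < τ * z pr.i₁}) ∩
          {z : E n | pr.w₀ - pr.w₁ * (τ * ctr c pr.i₁ + aa n) + σ * ctr c l <
            σ * z l - pr.w₁ * (τ * z pr.i₁)} := by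
        intro z hz
        have h1 : ∀ t, |z t - pt c (fun t => if t = l then σ / 4 else if t = pr.i₁ then τ / 4
            else 0) t| < 1 / 5 :=
          fun t => (abs_coord_le _ _ t).trans_lt (mem_ball.1 hz)
        have hl1 := h1 l
        have hi1 := h1 pr.i₁
        rw [pt_apply] at hl1 hi1
        simp only [if_true, Ne.symm hl, if_false] at hl1 hi1
        rw [abs_lt] at hl1 hi1
        have q1 : 1 / 20 < σ * (z l - ctr c l) ∧ σ * (z l - ctr c l) < 9 / 20 := by
          rcases hσ with rfl | rfl <;> constructor <;> linarith [hl1.1, hl1.2]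
        have q2 : 1 / 20 < τ * (z pr.i₁ - ctr c pr.i₁) ∧
            τ * (z pr.i₁ - ctr c pr.i₁) < 9 / 20 := by
          rcases hτ with rfl | rfl <;> constructor <;> linarith [hi1.1, hi1.2]
        refine ⟨⟨?_, ?_⟩, ?_⟩
        · intro t
          unfold ax
          by_cases ht : t = l
          · subst ht
            rw [abs_lt]
            rcases hσ with rfl | rfl <;> constructor <;> linarith [hl1.1, hl1.2]
          · by_cases ht' : t = pr.i₁
            · subst ht'
              rw [abs_lt]
              rcases hτ with rfl | rfl <;> constructor <;> linarith [hi1.1, hi1.2]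
            · have h2 := h1 t
              rw [pt_apply] at h2
              simp only [ht, ht', if_false, add_zero] at h2
              linarith
        · simp only [mem_ofPred_eq]
          linarith [q2.1]
        · simp only [mem_ofPred_eq]
          have h5 := hp.h0'
          have h6 := hp.h1'
          have h7 := hp.h1
          have h8 : pr.w₁ * (τ * (z pr.i₁ - ctr c pr.i₁) - aa n) ≤ pr.w₁ * 1 :=
            mul_le_mul_of_nonneg_left (by linarith [q2.2]) h7
          have h9 : pr.w₁ * (τ * (z pr.i₁ - ctr c pr.i₁) - aa n) =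
            pr.w₁ * (τ * z pr.i₁) - pr.w₁ * (τ * ctr c pr.i₁ + aa n) := by ring
          linarith [q1.1]
      refine ⟨_, hconv, ?_, ⟨⟨hxC, ?_⟩, ?_⟩, _, hpp, hdist _ ?_⟩
      · rintro z ⟨⟨hz1, hz2⟩, hz3⟩
        simp only [mem_ofPred_eq] at hz2 hz3
        have h2 := hτa (z pr.i₁ - ctr c pr.i₁)
        have h3 : aa n < τ * (z pr.i₁ - ctr c pr.i₁) := by linarith
        refine ⟨hz1, ⟨pr.i₁, ?_⟩, ⟨l, hl, ?_⟩⟩
        · unfold ax; linarith
        · have h4 : τ * (z pr.i₁ - ctr c pr.i₁) = ax c z pr.i₁ := by
            unfold ax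
            rcases hτ with rfl | rfl
            · rw [one_mul, abs_of_pos (by linarith)]
            · rw [abs_of_neg (by linarith)]; ring
          have h5 := hσa (z l - ctr c l)
          change om pr (ax c z pr.i₁) < |z l - ctr c l|
          rw [← h4]
          unfold om
          linarith
      · simp only [mem_ofPred_eq]; linarith
      · simp only [mem_ofPred_eq]
        have h4 : om pr (ax c x pr.i₁) < ax c x l := hl'
        rw [← e1, ← e2] at h4
        unfold om at h4
        linarith
      · exact (hpp _ (mem_ball_self (by norm_num))).1.1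
    have sg : ∀ y : ℝ, ∃ σ : ℝ, (σ = 1 ∨ σ = -1) ∧ σ * y = |y| := by
      intro y
      rcases abs_cases y with ⟨h, -⟩ | ⟨h, -⟩
      · exact ⟨1, Or.inl rfl, by rw [h]; ring⟩
      · exact ⟨-1, Or.inr rfl, by rw [h]; ring⟩
    obtain ⟨σ, hσ, hσ'⟩ := sg (x l - ctr c l)
    obtain ⟨τ, hτ, hτ'⟩ := sg (x pr.i₁ - ctr c pr.i₁)
    exact main σ τ hσ hτ hτ' hσ'

/-- Lemma 1: frames of a copy do not come near the centre of a cavity. -/
lemma frame_far (hp : pr.Good) (g : E n ≃ᵢ E n) (hg : ∀ x ∈ W pr F D, g x ∉ W pr F D)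
    {a c : Fin n → ℤ} (ha : a ∈ F) (hc : c ∈ F) {x : E n} (hx : x ∈ G pr c)
    (hgx : dist (g x) (pt a 0) < aa n / 4) : False := by
  obtain ⟨B, hB, hBG, hxB, p, hpB, hdist⟩ := exists_block hp hx
  have h0 := aa_le hp.hn
  have h0' := aa_pos hp.hn
  have hn0 : (2 : ℝ) ≤ n := n_pos hp.hn
  have hw := ww_le hp.hn
  have hw' := ww_pos hp.hn
  have haa := aa_mul hp.hn
  have hww := ww_mul hp.hn
  have hww2 := ww_mul2 hp.hn
  set γ : ℝ → E n := fun s => g (AffineMap.lineMap x p s) with hγ
  have hγc : Continuous γ := g.continuous.comp AffineMap.lineMap_continuous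
  -- balls around the points of the segment
  have hball : ∀ s : ℝ, 0 < s → s ≤ 1 → ∀ z, dist z (γ s) < s / 5 → z ∉ G pr a := by
    intro s hs0 hs1 z hz hza
    set u := g.symm z with hu
    have h1 : dist u (AffineMap.lineMap x p s) < s / 5 := by
      rw [← g.dist_eq, hu, g.apply_symm_apply]
      exact hz
    -- `u` lies in `B`
    have h2 : u ∈ B := by
      set p' : E n := p + s⁻¹ • (u - AffineMap.lineMap x p s) with hp'
      have h3 : p' ∈ ball p (1 / 5) := by
        rw [mem_ball, dist_eq_norm, hp', add_sub_cancel_left, norm_smul, norm_inv,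
          Real.norm_of_nonneg hs0.le, inv_mul_lt_iff₀ hs0, ← dist_eq_norm]
        linarith
      have h4 : u = AffineMap.lineMap x p' s := by
        rw [hp', AffineMap.lineMap_apply_module, AffineMap.lineMap_apply_module, smul_add,
          smul_smul, mul_inv_cancel₀ hs0.ne', one_smul]
        abel
      rw [h4]
      exact hB.lineMap_mem hxB (hpB h3) ⟨hs0.le, hs1⟩
    have h5 := hg u (mem_W.2 (Or.inl ⟨c, hc, hBG h2⟩))
    rw [hu, g.apply_symm_apply] at h5
    exact h5 (mem_W.2 (Or.inl ⟨a, ha, hza⟩))
  have hax0 : ∀ l, ax a (g x) l < aa n / 4 := by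
    intro l
    have := abs_coord_le (g x) (pt a 0) l
    rw [pt_apply] at this
    simp only [Pi.zero_apply, add_zero] at this
    unfold ax
    linarith
  by_cases hex : ∃ s ∈ Icc (0 : ℝ) 1, ∃ l, aa n ≤ ax a (γ s) l
  · obtain ⟨s₁, ⟨hs₁0, hs₁1⟩, l, hl⟩ := hex
    -- first exit time
    set S : Set ℝ := {s | s ∈ Icc (0 : ℝ) 1 ∧ ∃ l, aa n ≤ ax a (γ s) l} with hS
    have hSc : IsCompact S := by
      have : S = Icc 0 1 ∩ ⋃ l, {s | aa n ≤ ax a (γ s) l} := by
        ext s; simp [hS]
      rw [this]
      exact isCompact_Icc.inter_right (isClosed_iUnion_of_finite fun l =>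
        isClosed_le continuous_const ((continuous_ax a l).comp hγc))
    obtain ⟨s, hsS, hsmin⟩ := hSc.exists_isLeast ⟨s₁, ⟨hs₁0, hs₁1⟩, l, hl⟩
    obtain ⟨⟨hs0, hs1⟩, m, hm⟩ := hsS
    have hs0' : 0 < s := by
      rcases eq_or_lt_of_le hs0 with h | h
      · exfalso
        rw [← h, hγ] at hm
        simp only [AffineMap.lineMap_apply_zero] at hm
        linarith [hax0 m]
      · exact h
    have hle : ∀ l, ax a (γ s) l ≤ aa n := by
      intro l
      by_contra hcon
      push Not at hcon
      -- by the intermediate value theorem there is a smaller exit time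
      have h1 : ContinuousOn (fun t => ax a (γ t) l) (Icc 0 s) :=
        ((continuous_ax a l).comp hγc).continuousOn
      have h2 := intermediate_value_Icc hs0 h1
      have h3 : aa n ∈ Icc (ax a (γ 0) l) (ax a (γ s) l) := by
        refine ⟨?_, hcon.le⟩
        rw [hγ]
        simp only [AffineMap.lineMap_apply_zero]
        linarith [hax0 l]
      obtain ⟨t, ht, hta⟩ := h2 h3
      have h4 : s ≤ t := hsmin ⟨⟨ht.1, ht.2.trans hs1⟩, l, (le_of_eq hta.symm)⟩
      have h5 : t = s := le_antisymm ht.2 h4
      rw [h5] at hta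
      simp only at hta
      linarith
    -- `s` is not small
    have hsn : 3 * aa n / 4 ≤ s * n := by
      have h1 : dist (γ s) (γ 0) ≤ s * n := by
        rw [hγ]
        simp only
        rw [g.dist_eq, dist_lineMap_lineMap, Real.dist_eq, sub_zero, abs_of_pos hs0']
        exact mul_le_mul_of_nonneg_left hdist hs0
      have h2 : aa n - aa n / 4 ≤ dist (γ s) (γ 0) := by
        refine le_trans ?_ (abs_coord_le (γ s) (γ 0) m)
        have h3 : ax a (γ 0) m < aa n / 4 := by
          rw [hγ]; simp only [AffineMap.lineMap_apply_zero]; exact hax0 m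
        unfold ax at hm h3
        have h4 : |γ s m - ctr a m| ≤ |γ s m - γ 0 m| + |γ 0 m - ctr a m| := by
          calc |γ s m - ctr a m| = |(γ s m - γ 0 m) + (γ 0 m - ctr a m)| := by ring_nf
            _ ≤ _ := abs_add_le _ _
        linarith
      linarith
    obtain ⟨e, he, hed⟩ := shift a (γ s) (fun _ => 4 * ww n) (4 * ww n) (by positivity)
      (fun l => by rw [abs_of_pos (by positivity)])
      (fun l => by have := ax_nonneg a (γ s) l; positivity)
    refine hball s hs0' hs1 e ?_ ⟨?_, ⟨m, ?_⟩, ⟨pr.i₀, pr.h01, ?_⟩⟩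
    · rw [dist_comm]
      refine lt_of_le_of_lt hed ?_
      have h6 : (n : ℝ) ^ 2 * ww n = aa n / 100 := hww
      have h7 : n * (4 * ww n) * n = 4 * (aa n / 100) := by rw [← h6]; ring
      have h8 : (0 : ℝ) < n := by linarith
      by_contra hcon
      push Not at hcon
      have h9 : s / 5 * n ≤ n * (4 * ww n) * n := mul_le_mul_of_nonneg_right hcon h8.le
      rw [h7] at h9
      linarith
    · intro l
      rw [he]
      have := hle l
      linarith
    · rw [he]
      linarith
    · rw [he, he]
      have h1 := hle pr.i₁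
      have h2 := om_le pr hp (t := ax a (γ s) pr.i₁ + 4 * ww n) (by linarith)
      have := ax_nonneg a (γ s) pr.i₀
      linarith
  · push Not at hex
    have h1 := hex 1 ⟨zero_le_one, le_rfl⟩
    obtain ⟨e, he, hed⟩ := shift a (γ 1) (fun _ => 2 * aa n) (2 * aa n) (by positivity)
      (fun l => by rw [abs_of_pos (by positivity)])
      (fun l => by have := ax_nonneg a (γ 1) l; positivity)
    refine hball 1 one_pos le_rfl e ?_ ⟨?_, ⟨pr.i₀, ?_⟩, ⟨pr.i₀, pr.h01, ?_⟩⟩
    · rw [dist_comm]
      refine lt_of_le_of_lt hed ?_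
      linarith
    · intro l
      rw [he]
      have := h1 l
      linarith
    · rw [he]
      have := ax_nonneg a (γ 1) pr.i₀
      linarith
    · rw [he, he]
      have h2 := om_le pr hp (t := ax a (γ 1) pr.i₁ + 2 * aa n) (by have := h1 pr.i₁; linarith)
      have := ax_nonneg a (γ 1) pr.i₀
      linarith

end Pool.Agent.H389R3.HC
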