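import Pool.Agent.H389R3.HC2

set_option autoImplicit false

namespace Pool.Agent.H389R3.HC

open Set Metric MeasureTheory Pool.Agent.H389R3.Heesch

variable {n : ℕ} {pr : Par n} {F D F' D' : Finset (Fin n → ℤ)}

lemma ball_subset_P (hp : pr.Good) (c : Fin n → ℤ) : ball (pt c 0) (aa n) ⊆ P pr c := by
  intro z hz
  have h0 := aa_le hp.hn
  have h1 : ∀ l, ax c z l < aa n := by
    intro l
    have h2 := (abs_coord_le z (pt c 0) l).trans_lt (mem_ball.1 hz)
    rw [pt_apply] at h2
    simp only [Pi.zero_apply, add_zero] at h2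
    exact h2
  exact ⟨fun l => (h1 l).trans (by linarith), Or.inl h1⟩

lemma sq_dist (x y : E n) : dist x y ^ 2 = ∑ l, (x l - y l) ^ 2 := by
  rw [EuclideanSpace.dist_eq, Real.sq_sqrt (by positivity)]
  apply Finset.sum_congr rfl
  intro l _
  rw [Real.dist_eq, sq_abs]

lemma sq_dist_pt (c : Fin n → ℤ) (x : E n) : dist x (pt c 0) ^ 2 = ∑ l, (ax c x l) ^ 2 := by
  rw [sq_dist]
  apply Finset.sum_congr rfl
  intro l _
  rw [pt_apply]
  simp [ax, sq_abs]

/-- shift of one coordinate -/
lemma shift1 (c : Fin n → ℤ) (x : E n) (k : Fin n) (d : ℝ) (hd : 0 ≤ ax c x k + d) :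
    ∃ x' : E n, ax c x' k = ax c x k + d ∧ (∀ l, l ≠ k → ax c x' l = ax c x l) ∧
      dist x x' ≤ |d| := by
  obtain ⟨x', h1, -⟩ : ∃ x' : E n, (∀ l, x' l = if l = k then
      x l + (if 0 ≤ x l - ctr c l then d else - d) else x l) ∧ True :=
    ⟨(φ n).symm (fun l => if l = k then x l + (if 0 ≤ x l - ctr c l then d else - d) else x l),
      fun l => rfl, trivial⟩
  refine ⟨x', ?_, ?_, ?_⟩
  · have h2 := h1 k
    rw [if_pos rfl] at h2
    unfold ax at hd ⊢
    rw [h2]
    by_cases h : 0 ≤ x k - ctr c k
    · rw [if_pos h]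
      rw [abs_of_nonneg h] at hd ⊢
      rw [show x k + d - ctr c k = x k - ctr c k + d by ring, abs_of_nonneg hd]
    · rw [if_neg h]
      push Not at h
      rw [abs_of_neg h] at hd ⊢
      rw [show x k + -d - ctr c k = -(-(x k - ctr c k) + d) by ring, abs_neg,
        abs_of_nonneg hd]
  · intro l hl
    unfold ax
    rw [h1 l, if_neg hl]
  · have h2 : dist x x' ^ 2 = |d| ^ 2 := by
      rw [sq_dist, Finset.sum_eq_single k]
      · rw [h1 k, if_pos rfl]
        split_ifs <;> simp
      · intro l _ hl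
        rw [h1 l, if_neg hl]
        simp
      · intro h; exact absurd (Finset.mem_univ _) h
    exact le_of_sq_le_sq h2.le (abs_nonneg d)

/-- plugs are small -/
lemma plug_small (hp : pr.Good) {c : Fin n → ℤ} {x : E n} (hx : x ∈ P pr c) :
    dist x (pt c 0) ≤ 1 / 2 + aa n / 50 := by
  have h0 := aa_le hp.hn
  have h0' := aa_pos hp.hn
  have hn0 : (2 : ℝ) ≤ n := n_pos hp.hn
  have haa := aa_mul hp.hn
  have hww2 := ww_mul2 hp.hn
  have hw' := ww_pos hp.hn
  rcases hx with ⟨hx, h | h⟩
  · have h1 := dist_le_of_coord (x := x) (y := pt c 0) (δ := aa n) h0'.le (fun l => by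
      rw [pt_apply]; simp only [Pi.zero_apply, add_zero]; exact (h l).le)
    linarith
  · -- compare with the point of the axis
    set v : Fin n → ℝ := fun l => if l = pr.i₁ then x l - ctr c l else 0 with hv
    have h1 := dist_le_of_coord (x := x) (y := pt c v) (δ := 2 * ww n) (by positivity) (by
      intro l
      rw [pt_apply, hv]
      by_cases hl : l = pr.i₁
      · simp only [hl, if_true]
        rw [show x pr.i₁ - (ctr c pr.i₁ + (x pr.i₁ - ctr c pr.i₁)) = 0 by ring, abs_zero]
        positivity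
      · simp only [hl, if_false, add_zero]
        have h2 := h l hl
        have h3 := om_le pr hp (t := ax c x pr.i₁) ((hx pr.i₁).le.trans (by norm_num))
        exact (h2.le).trans h3)
    have h2 : dist (pt c v) (pt c 0) ≤ 1 / 2 := by
      have h3 : dist (pt c v) (pt c 0) ^ 2 ≤ (1 / 2) ^ 2 := by
        rw [sq_dist_pt, Finset.sum_eq_single pr.i₁]
        · rw [ax_pt, hv]
          simp only [if_true]
          exact pow_le_pow_left₀ (abs_nonneg _) (hx pr.i₁).le 2
        · intro l _ hl
          rw [ax_pt, hv]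
          simp [hl]
        · intro h; exact absurd (Finset.mem_univ _) h
      exact le_of_sq_le_sq h3 (by norm_num)
    have h4 := dist_triangle x (pt c v) (pt c 0)
    nlinarith

/-- Lemma 3: a plug of a copy that comes near the centre of a cavity has its centre in the
cavity. -/
lemma plug_center (hp : pr.Good) (g : E n ≃ᵢ E n) (hg : ∀ x ∈ W pr F D, g x ∉ W pr F D)
    {a b : Fin n → ℤ} (ha : a ∈ F) (hb : b ∈ D) {x : E n} (hx : x ∈ P pr b)
    (hgx : dist (g x) (pt a 0) < aa n / 4) : dist (g (pt b 0)) (pt a 0) ≤ 1 / 100 := by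
  have h0 := aa_le hp.hn
  have h0' := aa_pos hp.hn
  have hn0 : (2 : ℝ) ≤ n := n_pos hp.hn
  have haa := aa_mul hp.hn
  have hww2 := ww_mul2 hp.hn
  have hww := ww_le hp.hn
  have hw' := ww_pos hp.hn
  set z := g (pt b 0) with hz
  have hball : ∀ y, dist z y < aa n → y ∉ G pr a := by
    intro y hy hya
    have h1 : g.symm y ∈ P pr b := by
      apply ball_subset_P hp
      rw [mem_ball, ← g.dist_eq, g.apply_symm_apply, dist_comm]
      exact hy
    have h2 := hg _ (mem_W.2 (Or.inr ⟨b, hb, h1⟩))
    rw [g.apply_symm_apply] at h2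
    exact h2 (mem_W.2 (Or.inl ⟨a, ha, hya⟩))
  have hzd : dist z (pt a 0) ≤ 1 / 2 + 27 * aa n / 100 := by
    have h1 : dist z (g x) ≤ 1 / 2 + aa n / 50 := by
      rw [hz, g.dist_eq, dist_comm]
      exact plug_small hp hx
    have h2 := dist_triangle z (g x) (pt a 0)
    linarith
  have hax : ∀ l, ax a z l ≤ dist z (pt a 0) := by
    intro l
    have := abs_coord_le z (pt a 0) l
    rw [pt_apply] at this
    simpa [ax] using this
  by_cases hall : ∀ l, ax a z l ≤ aa n
  · have h1 := dist_le_of_coord (x := z) (y := pt a 0) h0'.le (fun l => by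
      rw [pt_apply]; simp only [Pi.zero_apply, add_zero]; exact hall l)
    linarith
  · exfalso
    push Not at hall
    obtain ⟨m, hm⟩ := hall
    by_cases hbig : ∃ k, 9 / 20 ≤ ax a z k
    · obtain ⟨k, hk⟩ := hbig
      -- the other coordinates are small
      have hoth : ∀ l, l ≠ k → ax a z l ≤ 1 / 4 := by
        intro l hl
        have h1 : ax a z l ^ 2 + ax a z k ^ 2 ≤ dist z (pt a 0) ^ 2 := by
          rw [sq_dist_pt, ← Finset.sum_pair (f := fun l => ax a z l ^ 2) hl]
          exact Finset.sum_le_sum_of_subset_of_nonneg (Finset.subset_univ _)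
            (fun i _ _ => sq_nonneg _)
        have h2 : dist z (pt a 0) ^ 2 ≤ (1 / 2 + 27 / 20000) ^ 2 :=
          pow_le_pow_left₀ dist_nonneg (by linarith) 2
        have h3 : (9 / 20 : ℝ) ^ 2 ≤ ax a z k ^ 2 := pow_le_pow_left₀ (by norm_num) hk 2
        by_contra hcon
        push Not at hcon
        have h4 : (1 / 4 : ℝ) ^ 2 < ax a z l ^ 2 := pow_lt_pow_left₀ hcon (by norm_num) (by norm_num)
        norm_num at h2 h3 h4
        linarith
      obtain ⟨e₁, he₁, he₁', hed₁⟩ := shift1 a z k (-(3 * aa n / 10)) (by linarith)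
      obtain ⟨e, he, hed⟩ := shift a e₁ (fun l => if l = k then 0 else 4 * ww n)
        (4 * ww n) (by positivity)
        (fun l => by
          by_cases hl : l = k
          · simp only [hl, if_true, abs_zero]; positivity
          · simp only [hl, if_false]
            rw [abs_of_pos (by positivity)])
        (fun l => by
          by_cases hl : l = k
          · subst hl; simp only [if_true, add_zero]; exact ax_nonneg _ _ _
          · simp only [hl, if_false]
            have := ax_nonneg a e₁ l
            positivity)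
      have hek : ax a e k = ax a z k - 3 * aa n / 10 := by
        rw [he k, he₁]; simp; ring
      have hel : ∀ l, l ≠ k → ax a e l = ax a z l + 4 * ww n := by
        intro l hl
        rw [he l, he₁' l hl, if_neg hl]
      refine hball e ?_ ⟨?_, ⟨k, ?_⟩, ⟨pr.i₀, pr.h01, ?_⟩⟩
      · have h1 := dist_triangle z e₁ e
        rw [abs_neg, abs_of_pos (by positivity)] at hed₁
        nlinarith
      · intro l
        by_cases hl : l = k
        · rw [hl, hek]
          have := hax k
          linarith
        · rw [hel l hl]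
          have := hoth l hl
          linarith
      · rw [hek]; linarith
      · have h1 : om pr (ax a e pr.i₁) ≤ 2 * ww n := by
          apply om_le pr hp
          by_cases hl : pr.i₁ = k
          · rw [hl, hek]
            have := hax k
            linarith
          · rw [hel _ hl]
            have := hoth _ hl
            linarith
        by_cases hl : pr.i₀ = k
        · rw [hl, hek]; linarith
        · rw [hel _ hl]
          have := ax_nonneg a z pr.i₀
          linarith
    · push Not at hbig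
      obtain ⟨e, he, hed⟩ := shift a z (fun _ => 4 * ww n) (4 * ww n) (by positivity)
        (fun l => by rw [abs_of_pos (by positivity)])
        (fun l => by have := ax_nonneg a z l; positivity)
      refine hball e ?_ ⟨?_, ⟨m, ?_⟩, ⟨pr.i₀, pr.h01, ?_⟩⟩
      · nlinarith
      · intro l
        rw [he]
        have := hbig l
        linarith
      · rw [he]; linarith
      · have h1 : om pr (ax a e pr.i₁) ≤ 2 * ww n := by
          apply om_le pr hp
          rw [he]
          have := hbig pr.i₁
          linarith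
        have h2 := ax_nonneg a z pr.i₀
        rw [he pr.i₀]
        linarith

/-- Lemma 2: the centres of cavities of disjoint copies are not close. -/
lemma centers_far (hp : pr.Good) (g : E n ≃ᵢ E n) {a b : Fin n → ℤ}
    (hgx : dist (g (pt b 0)) (pt a 0) ≤ 1 / 50) :
    ∃ y ∈ G pr b, g y ∈ G pr a := by
  have h0 := aa_le hp.hn
  have h0' := aa_pos hp.hn
  have hn0 : (2 : ℝ) ≤ n := n_pos hp.hn
  have haa := aa_mul hp.hn
  have hww2 := ww_mul2 hp.hn
  have hww := ww_le hp.hn
  have hw' := ww_pos hp.hn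
  set v₁ : Fin n → ℝ := fun l => if l = pr.i₀ then 3 / 10 else 0 with hv₁
  set v₂ : Fin n → ℝ := fun l => if l = pr.i₀ then 3 / 10 else if l = pr.i₁ then 1 / 5 else 0
    with hv₂
  have h10 : pr.i₁ ≠ pr.i₀ := pr.h01.symm
  have m1 : pt b v₁ ∈ G pr b := by
    refine ⟨fun l => ?_, ⟨pr.i₀, ?_⟩, ⟨pr.i₀, pr.h01, ?_⟩⟩
    · rw [ax_pt, hv₁]; simp only; split_ifs <;> norm_num
    · rw [ax_pt, hv₁]; simp only [if_true]; norm_num; linarith
    · rw [ax_pt, ax_pt, hv₁]
      simp only [if_true, if_neg h10, abs_zero]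
      have := om_le pr hp (t := 0) zero_le_one
      rw [abs_of_pos (by norm_num)]; linarith
  have m2 : pt b v₂ ∈ G pr b := by
    refine ⟨fun l => ?_, ⟨pr.i₀, ?_⟩, ⟨pr.i₀, pr.h01, ?_⟩⟩
    · rw [ax_pt, hv₂]; simp only; split_ifs <;> norm_num
    · rw [ax_pt, hv₂]; simp only [if_true]; norm_num; linarith
    · rw [ax_pt, ax_pt, hv₂]
      simp only [if_true, if_neg h10]
      have := om_le pr hp (t := |1 / 5|) (by norm_num)
      rw [abs_of_pos (show (0 : ℝ) < 3 / 10 by norm_num)]; linarith
  -- distances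
  have d1 : dist (pt b v₁) (pt b 0) = 3 / 10 := by
    have : dist (pt b v₁) (pt b 0) ^ 2 = (3 / 10) ^ 2 := by
      rw [sq_dist_pt, Finset.sum_eq_single pr.i₀]
      · rw [ax_pt, hv₁]; simp
      · intro l _ hl
        rw [ax_pt, hv₁]; simp [hl]
      · intro h; exact absurd (Finset.mem_univ _) h
    exact (pow_left_inj₀ dist_nonneg (by norm_num) (by norm_num)).1 this
  have d12 : dist (pt b v₁) (pt b v₂) = 1 / 5 := by
    have : dist (pt b v₁) (pt b v₂) ^ 2 = (1 / 5) ^ 2 := by
      rw [sq_dist, Finset.sum_eq_single pr.i₁]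
      · rw [pt_apply, pt_apply, hv₁, hv₂]; simp [h10]
      · intro l _ hl
        rw [pt_apply, pt_apply, hv₁, hv₂]
        simp [hl]
      · intro h; exact absurd (Finset.mem_univ _) h
    exact (pow_left_inj₀ dist_nonneg (by norm_num) (by norm_num)).1 this
  have d2 : dist (pt b v₂) (pt b 0) ^ 2 = 13 / 100 := by
    rw [sq_dist_pt, ← Finset.sum_subset (Finset.subset_univ {pr.i₀, pr.i₁}),
      Finset.sum_pair pr.h01]
    · rw [ax_pt, ax_pt, hv₂]
      simp only [if_true, if_neg h10]
      norm_num
    · intro l _ hl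
      simp only [Finset.mem_insert, Finset.mem_singleton, not_or] at hl
      rw [ax_pt, hv₂]
      simp [hl.1, hl.2]
  have d2a : dist (pt b v₂) (pt b 0) ≤ 361 / 1000 :=
    le_of_sq_le_sq (by rw [d2]; norm_num) (by norm_num)
  have d2b : 3 / 10 ≤ dist (pt b v₂) (pt b 0) := by
    by_contra hcon
    push Not at hcon
    have := pow_lt_pow_left₀ hcon dist_nonneg (show 2 ≠ 0 by norm_num)
    rw [d2] at this
    norm_num at this
  -- a point with the right distance is in the frame unless it is in the channel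
  have main : ∀ y : E n, 3 / 10 ≤ dist y (pt b 0) → dist y (pt b 0) ≤ 361 / 1000 →
      g y ∉ G pr a → (∀ l, l ≠ pr.i₁ → ax a (g y) l ≤ 2 * ww n) ∧
        ax a (g y) pr.i₁ ≤ 381 / 1000 ∧ 27 / 100 ≤ ax a (g y) pr.i₁ := by
    intro y hy1 hy2 hy3
    have e1 : dist (g y) (pt a 0) ≤ 381 / 1000 := by
      have := dist_triangle (g y) (g (pt b 0)) (pt a 0)
      rw [g.dist_eq] at this
      linarith
    have e2 : 28 / 100 ≤ dist (g y) (pt a 0) := by
      have := dist_triangle (g y) (pt a 0) (g (pt b 0))
      rw [g.dist_eq, dist_comm (pt a 0)] at this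
      linarith
    have hax : ∀ l, ax a (g y) l ≤ 381 / 1000 := by
      intro l
      have := abs_coord_le (g y) (pt a 0) l
      rw [pt_apply] at this
      simp only [Pi.zero_apply, add_zero] at this
      exact this.trans e1
    have f1 : ∃ l, aa n < ax a (g y) l := by
      by_contra hcon
      push Not at hcon
      have := dist_le_of_coord (x := g y) (y := pt a 0) h0'.le (fun l => by
        rw [pt_apply]; simp only [Pi.zero_apply, add_zero]; exact hcon l)
      linarith
    have f2 : ∀ l, l ≠ pr.i₁ → ax a (g y) l ≤ 2 * ww n := by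
      intro l hl
      by_contra hcon
      push Not at hcon
      apply hy3
      refine ⟨fun l => (hax l).trans_lt (by norm_num), f1, l, hl, ?_⟩
      exact (om_le pr hp ((hax _).trans (by norm_num))).trans_lt hcon
    refine ⟨f2, hax _, ?_⟩
    -- compare with the axis
    set v : Fin n → ℝ := fun l => if l = pr.i₁ then g y l - ctr a l else 0 with hv
    have h1 := dist_le_of_coord (x := g y) (y := pt a v) (δ := 2 * ww n) (by positivity) (by
      intro l
      rw [pt_apply, hv]
      by_cases hl : l = pr.i₁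
      · simp only [hl, if_true]
        rw [show (g y) pr.i₁ - (ctr a pr.i₁ + ((g y) pr.i₁ - ctr a pr.i₁)) = 0 by ring, abs_zero]
        positivity
      · simp only [hl, if_false, add_zero]
        exact f2 l hl)
    have h2 : dist (pt a v) (pt a 0) = ax a (g y) pr.i₁ := by
      have h3 : dist (pt a v) (pt a 0) ^ 2 = (ax a (g y) pr.i₁) ^ 2 := by
        rw [sq_dist_pt, Finset.sum_eq_single pr.i₁]
        · rw [ax_pt, hv]
          simp [ax]
        · intro l _ hl
          rw [ax_pt, hv]
          simp [hl]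
        · intro h; exact absurd (Finset.mem_univ _) h
      exact (pow_left_inj₀ dist_nonneg (ax_nonneg _ _ _) (by norm_num)).1 h3
    have h4 := dist_triangle (g y) (pt a v) (pt a 0)
    nlinarith
  by_contra hcon
  push Not at hcon
  obtain ⟨f1, f2, f3⟩ := main _ (by rw [d1]) (by rw [d1]; norm_num) (hcon _ m1)
  obtain ⟨k1, k2, k3⟩ := main _ d2b d2a (hcon _ m2)
  -- the two points are too close or too far
  have hd : dist (g (pt b v₁)) (g (pt b v₂)) = 1 / 5 := by rw [g.dist_eq, d12]
  have e1 := abs_coord_le (g (pt b v₁)) (g (pt b v₂)) pr.i₁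
  rw [hd] at e1
  set y₁ := g (pt b v₁)
  set y₂ := g (pt b v₂)
  -- lower bound for the distance along the axis
  have e2 : (39 / 200 : ℝ) ≤ |y₁ pr.i₁ - y₂ pr.i₁| := by
    by_contra hlt
    push Not at hlt
    have e3 : dist y₁ y₂ ^ 2 ≤ (y₁ pr.i₁ - y₂ pr.i₁) ^ 2 + n * (4 * ww n) ^ 2 := by
      rw [sq_dist, ← Finset.add_sum_erase _ _ (Finset.mem_univ pr.i₁)]
      gcongr
      calc ∑ l ∈ Finset.univ.erase pr.i₁, (y₁ l - y₂ l) ^ 2
          ≤ ∑ _l ∈ Finset.univ.erase pr.i₁, (4 * ww n) ^ 2 := by
            apply Finset.sum_le_sum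
            intro l hl
            have hl' := Finset.ne_of_mem_erase hl
            have g1 := f1 l hl'
            have g2 := k1 l hl'
            unfold ax at g1 g2
            rw [← sq_abs]
            apply pow_le_pow_left₀ (abs_nonneg _)
            calc |y₁ l - y₂ l| = |(y₁ l - ctr a l) - (y₂ l - ctr a l)| := by ring_nf
              _ ≤ |y₁ l - ctr a l| + |y₂ l - ctr a l| := abs_sub _ _
              _ ≤ _ := by linarith
        _ = ((Finset.univ.erase pr.i₁).card : ℝ) * (4 * ww n) ^ 2 := by simp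
        _ ≤ n * (4 * ww n) ^ 2 := by
            apply mul_le_mul_of_nonneg_right _ (sq_nonneg _)
            have : (Finset.univ.erase pr.i₁).card ≤ n := by
              calc (Finset.univ.erase pr.i₁).card ≤ (Finset.univ : Finset (Fin n)).card :=
                    Finset.card_le_card (Finset.erase_subset _ _)
                _ = n := by simp
            exact_mod_cast this
    rw [hd] at e3
    have e4 : (y₁ pr.i₁ - y₂ pr.i₁) ^ 2 ≤ (39 / 200) ^ 2 := by
      rw [← sq_abs]
      exact pow_le_pow_left₀ (abs_nonneg _) hlt.le 2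
    have e5 : (n : ℝ) * (4 * ww n) ^ 2 ≤ 1 / 10000 := by
      have : (n : ℝ) * (4 * ww n) ^ 2 = 16 * (n * ww n) * ww n := by ring
      rw [this]
      have h7 : ww n ≤ 1 / 100 := by linarith
      have h8 : (n : ℝ) * ww n ≤ 1 / 10000 := by linarith
      have h9 : 0 ≤ (n : ℝ) * ww n := by positivity
      nlinarith
    norm_num at e3 e4
    linarith
  unfold ax at f2 f3 k2 k3
  rcases abs_cases (y₁ pr.i₁ - ctr a pr.i₁) with ⟨a1, a2⟩ | ⟨a1, a2⟩ <;>
    rcases abs_cases (y₂ pr.i₁ - ctr a pr.i₁) with ⟨b1, b2⟩ | ⟨b1, b2⟩ <;>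
    rcases abs_cases (y₁ pr.i₁ - y₂ pr.i₁) with ⟨c1, c2⟩ | ⟨c1, c2⟩ <;>
    rw [a1] at f2 f3 <;> rw [b1] at k2 k3 <;> rw [c1] at e1 e2 <;> linarith

end Pool.Agent.H389R3.HC
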