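import Pool.Agent.H389R3.HC3

set_option autoImplicit false

namespace Pool.Agent.H389R3.HC

open Set Metric MeasureTheory Pool.Agent.H389R3.Heesch

variable {n : ℕ} {pr : Par n} {F D F' D' : Finset (Fin n → ℤ)}

lemma G_nonempty (hp : pr.Good) (c : Fin n → ℤ) : pt c (fun _ => 2 / 5) ∈ G pr c :=
  cor_mem_G hp c (fun _ => by norm_num)

theorem not_tiles (hp : pr.Good) (hcard : D.card < F.card) : ¬ TilesSpace (body pr F D) := by
  rintro ⟨P', -, ⟨hcong, hdisj⟩, hcov⟩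
  have hn := hp.hn
  have hFne : F.Nonempty := Finset.card_pos.1 (by omega)
  obtain ⟨a₀, ha₀⟩ := hFne
  choose g hg using fun Q : P' => hcong Q.1 Q.2
  have hsep : ∀ Q Q' : P', Q ≠ Q' → ∀ x ∈ W pr F D, ∀ y ∈ W pr F D, g Q x ≠ g Q' y := by
    intro Q Q' hne x hx y hy h
    have h1 : ∀ R : P', ∀ z ∈ W pr F D, g R z ∈ interior R.1 := by
      intro R z hz
      have h2 : g R '' W pr F D ⊆ interior R.1 := by
        apply interior_maximal
        · rw [← hg R]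
          exact image_mono subset_closure
        · exact (g R).toHomeomorph.isOpenMap _ isOpen_W
      exact h2 ⟨z, hz, rfl⟩
    have h2 := hdisj Q.1 Q.2 Q'.1 Q'.2 (fun h => hne (Subtype.ext h))
    exact Set.disjoint_left.1 h2 (h1 Q x hx) (h ▸ h1 Q' y hy)
  -- the comparison isometries
  have hcomp : ∀ Q Q' : P', Q ≠ Q' → ∀ x ∈ W pr F D, ((g Q').trans (g Q).symm) x ∉ W pr F D := by
    intro Q Q' hne x hx hmem
    refine hsep Q Q' hne _ hmem x hx ?_
    simp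
  -- base point
  obtain ⟨z₀, hz₀⟩ : (W pr F D).Nonempty := ⟨_, mem_W.2 (Or.inl ⟨a₀, ha₀, G_nonempty hp a₀⟩)⟩
  obtain ⟨r₀, hr₀, hball⟩ := Metric.isOpen_iff.1 isOpen_W z₀ hz₀
  obtain ⟨d, hd⟩ : ∃ d : ℝ, (body pr F D ∪ ⋃ a ∈ F ∪ D, K a) ⊆ closedBall z₀ d := by
    have : Bornology.IsBounded (body pr F D ∪ ⋃ a ∈ F ∪ D, K a : Set (E n)) :=
      isCompact_body.isBounded.union
        ((F ∪ D).finite_toSet.isCompact_biUnion (fun c _ => isCompact_K c)).isBounded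
    exact this.subset_closedBall z₀
  have hd0 : 0 ≤ d := by
    have : z₀ ∈ closedBall z₀ d := hd (Or.inl (subset_closure hz₀))
    simpa using this
  have hcd : ∀ c ∈ F ∪ D, dist (pt c 0) z₀ ≤ d := by
    intro c hc
    refine mem_closedBall.1 (hd (Or.inr ?_))
    simp only [mem_iUnion]
    exact ⟨c, hc, fun l => by rw [ax_pt]; simp⟩
  have ha4 : 0 < aa n / 4 := by have := aa_pos hn; positivity
  -- every cavity contains the centre of a plug
  have hfill : ∀ (Q : P') (a : F), ∃ (Q' : P') (b : D),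
      dist (g Q' (pt b.1 0)) (g Q (pt a.1 0)) ≤ 1 / 100 := by
    intro Q a
    have h1 : g Q (pt a.1 0) ∈ ⋃₀ P' := hcov ▸ mem_univ _
    obtain ⟨R, hR, hmem⟩ := h1
    have h2 : g Q (pt a.1 0) ∈ closure (g ⟨R, hR⟩ '' W pr F D) := by
      have e := (g ⟨R, hR⟩).toHomeomorph.image_closure (W pr F D)
      have e2 := hg ⟨R, hR⟩
      change g ⟨R, hR⟩ '' closure (W pr F D) = R at e2
      change g ⟨R, hR⟩ '' closure (W pr F D) = closure (g ⟨R, hR⟩ '' W pr F D) at e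
      rw [← e, e2]
      exact hmem
    obtain ⟨_, ⟨y, hy, rfl⟩, hyd⟩ := Metric.mem_closure_iff.1 h2 (aa n / 4) ha4
    rw [dist_comm] at hyd
    by_cases hne : (⟨R, hR⟩ : P') = Q
    · rw [hne] at hyd
      rw [(g Q).dist_eq] at hyd
      have hyP : y ∈ P pr a.1 := ball_subset_P hp a.1 (by
        rw [mem_ball]
        have := aa_pos hn
        linarith)
      rcases mem_W.1 hy with ⟨c, hc, hy'⟩ | ⟨c, hc, hy'⟩
      · exfalso
        by_cases h6 : c = a.1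
        · rw [h6] at hy'
          exact Set.disjoint_left.1 (disjoint_G_P _ _) hy' hyP
        · exact Set.disjoint_left.1 (disjoint_C h6) hy'.1 hyP.1
      · have h6 : c = a.1 := by
          by_contra h6
          exact Set.disjoint_left.1 (disjoint_C h6) hy'.1 hyP.1
        refine ⟨Q, ⟨c, hc⟩, ?_⟩
        simp only
        rw [h6, dist_self]
        norm_num
    · have hne' : Q ≠ ⟨R, hR⟩ := fun h => hne h.symm
      have hyd' : dist (((g ⟨R, hR⟩).trans (g Q).symm) y) (pt a.1 0) < aa n / 4 := by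
        change dist ((g Q).symm (g ⟨R, hR⟩ y)) (pt a.1 0) < aa n / 4
        rw [← (g Q).dist_eq, (g Q).apply_symm_apply]
        exact hyd
      rcases mem_W.1 hy with ⟨c, hc, hy'⟩ | ⟨c, hc, hy'⟩
      · exact (frame_far hp _ (hcomp Q ⟨R, hR⟩ hne') a.2 hc hy' hyd').elim
      · have h7 := plug_center hp _ (hcomp Q ⟨R, hR⟩ hne') a.2 hc hy' hyd'
        refine ⟨⟨R, hR⟩, ⟨c, hc⟩, ?_⟩
        change dist ((g Q).symm (g ⟨R, hR⟩ (pt c 0))) (pt a.1 0) ≤ 1 / 100 at h7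
        rw [← (g Q).dist_eq, (g Q).apply_symm_apply] at h7
        exact h7
  choose Q' b hQb using hfill
  -- injectivity
  have hinj : ∀ Q₁ a₁ Q₂ a₂, Q' Q₁ a₁ = Q' Q₂ a₂ → b Q₁ a₁ = b Q₂ a₂ → Q₁ = Q₂ ∧ a₁ = a₂ := by
    intro Q₁ a₁ Q₂ a₂ h1 h2
    have h3 := hQb Q₁ a₁
    have h4 := hQb Q₂ a₂
    rw [← h1, ← h2] at h4
    have h5 : dist (g Q₁ (pt a₁.1 0)) (g Q₂ (pt a₂.1 0)) ≤ 1 / 50 := by
      have := dist_triangle_left (g Q₁ (pt a₁.1 0)) (g Q₂ (pt a₂.1 0))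
        (g (Q' Q₁ a₁) (pt (b Q₁ a₁).1 0))
      linarith
    by_cases hQ : Q₁ = Q₂
    · subst hQ
      refine ⟨rfl, ?_⟩
      by_contra ha
      have hne : a₁.1 ≠ a₂.1 := fun h => ha (Subtype.ext h)
      obtain ⟨l, hl⟩ := Function.ne_iff.1 hne
      rw [(g Q₁).dist_eq] at h5
      have h6 := abs_coord_le (pt a₁.1 0) (pt a₂.1 0) l
      rw [pt_apply, pt_apply] at h6
      simp only [Pi.zero_apply, add_zero, ctr] at h6
      rw [show ((a₁.1 l : ℝ)) + 1 / 2 - ((a₂.1 l : ℝ) + 1 / 2) = ((a₁.1 l - a₂.1 l : ℤ) : ℝ) by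
        push_cast; ring, ← Int.cast_abs] at h6
      have h7 : (1 : ℤ) ≤ |a₁.1 l - a₂.1 l| := Int.one_le_abs (by omega)
      have h8 : (1 : ℝ) ≤ ((|a₁.1 l - a₂.1 l| : ℤ) : ℝ) := by exact_mod_cast h7
      linarith
    · exfalso
      have h6 : dist (((g Q₂).trans (g Q₁).symm) (pt a₂.1 0)) (pt a₁.1 0) ≤ 1 / 50 := by
        change dist ((g Q₁).symm (g Q₂ (pt a₂.1 0))) (pt a₁.1 0) ≤ 1 / 50
        rw [← (g Q₁).dist_eq, (g Q₁).apply_symm_apply, dist_comm]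
        exact h5
      obtain ⟨y, hy1, hy2⟩ := centers_far hp _ h6
      exact hcomp Q₁ Q₂ hQ y (mem_W.2 (Or.inl ⟨a₂.1, a₂.2, hy1⟩))
        (mem_W.2 (Or.inl ⟨a₁.1, a₁.2, hy2⟩))
  -- distances
  have hdist : ∀ Q a, dist (g (Q' Q a) z₀) (g Q z₀) ≤ 2 * d + 1 := by
    intro Q a
    have h1 : dist (g (Q' Q a) (pt (b Q a).1 0)) (g (Q' Q a) z₀) ≤ d := by
      rw [(g (Q' Q a)).dist_eq]
      exact hcd _ (Finset.mem_union_right _ (b Q a).2)
    have h2 : dist (g Q (pt a.1 0)) (g Q z₀) ≤ d := by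
      rw [(g Q).dist_eq]
      exact hcd _ (Finset.mem_union_left _ a.2)
    have h3 := hQb Q a
    have h4 := dist_triangle (g (Q' Q a) (pt (b Q a).1 0)) (g Q (pt a.1 0)) (g Q z₀)
    have h5 := dist_triangle_left (g (Q' Q a) z₀) (g Q z₀) (g (Q' Q a) (pt (b Q a).1 0))
    linarith
  have hballs : ∀ Q R : P', Q ≠ R → Disjoint (ball (g Q z₀) r₀) (ball (g R z₀) r₀) := by
    intro Q R hQR
    rw [Set.disjoint_left]
    intro x hx hx'
    rw [← (g Q).image_ball] at hx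
    rw [← (g R).image_ball] at hx'
    obtain ⟨u, hu, rfl⟩ := hx
    obtain ⟨v, hv, hvu⟩ := hx'
    exact hsep R Q hQR.symm v (hball hv) u (hball hu) hvu
  -- the counting function
  obtain ⟨R₀, hR₀, -⟩ : z₀ ∈ ⋃₀ P' := hcov ▸ mem_univ _
  set ρ₀ : ℝ := dist (g ⟨R₀, hR₀⟩ z₀) 0 with hρ₀
  have hρ₀0 : 0 ≤ ρ₀ := dist_nonneg
  set d' : ℝ := 2 * d + 1 with hd'
  have hd'0 : 0 ≤ d' := by positivity
  let N : ℕ → Set P' := fun m => {Q | dist (g Q z₀) 0 ≤ ρ₀ + d' * m}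
  have hNb : ∀ m (s : Finset P'), (∀ Q ∈ s, Q ∈ N m) →
      (s.card : ℝ) ≤ ((ρ₀ + d' * m + r₀) / r₀) ^ n := by
    intro m s hs
    exact card_bound hn hr₀ hballs (by positivity) s hs
  have hNfin : ∀ m, (N m).Finite := by
    intro m
    by_contra hinf
    have hinf' : (N m).Infinite := hinf
    obtain ⟨s, hs1, hs2⟩ := hinf'.exists_subset_card_eq
      (⌊((ρ₀ + d' * m + r₀) / r₀) ^ n⌋₊ + 1)
    have h1 := hNb m s (fun Q hQ => hs1 hQ)
    rw [hs2] at h1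
    have h2 := Nat.lt_floor_add_one (((ρ₀ + d' * m + r₀) / r₀) ^ n)
    push_cast at h1
    linarith
  let M : ℕ → ℕ := fun m => (hNfin m).toFinset.card
  have hM0 : 1 ≤ M 0 := by
    refine Finset.card_pos.2 ⟨⟨R₀, hR₀⟩, ?_⟩
    rw [Set.Finite.mem_toFinset]
    show dist (g ⟨R₀, hR₀⟩ z₀) 0 ≤ ρ₀ + d' * ((0 : ℕ) : ℝ)
    simp [hρ₀]
  have hrec : ∀ m, F.card * M m ≤ D.card * M (m + 1) := by
    intro m
    have h1 : ((hNfin m).toFinset ×ˢ F.attach).card ≤
        ((hNfin (m + 1)).toFinset ×ˢ D.attach).card := by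
      refine Finset.card_le_card_of_injOn (fun p => (Q' p.1 p.2, b p.1 p.2)) ?_ ?_
      · rintro ⟨Q, a⟩ hQa
        simp only [Finset.coe_product, Set.mem_prod, Finset.mem_coe, Set.Finite.mem_toFinset,
          Finset.mem_attach, and_true] at hQa ⊢
        have hQ : dist (g Q z₀) 0 ≤ ρ₀ + d' * m := hQa
        have h2 := hdist Q a
        show dist (g (Q' Q a) z₀) 0 ≤ ρ₀ + d' * ((m + 1 : ℕ) : ℝ)
        push_cast
        calc dist (g (Q' Q a) z₀) 0 ≤ dist (g (Q' Q a) z₀) (g Q z₀) + dist (g Q z₀) 0 :=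
              dist_triangle _ _ _
          _ ≤ _ := by linarith
      · rintro ⟨Q₁, a₁⟩ _ ⟨Q₂, a₂⟩ _ h
        simp only [Prod.mk.injEq] at h
        obtain ⟨h3, h4⟩ := hinj _ _ _ _ h.1 h.2
        rw [h3, h4]
    rw [Finset.card_product, Finset.card_product, Finset.card_attach, Finset.card_attach] at h1
    calc F.card * M m = (hNfin m).toFinset.card * F.card := mul_comm _ _
      _ ≤ _ := h1
      _ = _ := mul_comm _ _
  have hDpos : 0 < D.card := by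
    by_contra h
    have h1 : D.card = 0 := by omega
    have h2 := hrec 0
    rw [h1, zero_mul] at h2
    have h3 : 0 < F.card * M 0 := Nat.mul_pos (by omega) (by omega)
    omega
  refine growth_contradiction (n := n) hDpos hcard (M := M) hM0 hrec
    (C := (ρ₀ + d' + r₀) / r₀) ?_
  intro m
  refine (hNb m _ (fun Q hQ => (Set.Finite.mem_toFinset _).1 hQ)).trans ?_
  apply pow_le_pow_left₀ (by positivity)
  rw [div_mul_eq_mul_div]
  apply div_le_div_of_nonneg_right _ hr₀.le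
  have hm : (0 : ℝ) ≤ m := Nat.cast_nonneg m
  nlinarith [mul_nonneg hρ₀0 hm, mul_nonneg hr₀.le hm, mul_nonneg hd'0 hm]

end Pool.Agent.H389R3.HC
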