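import Pool.Agent.H389R3.HC4

set_option autoImplicit false

namespace Pool.Agent.H389R3.HC

open Set Metric Pool.Agent.H389R3.Heesch

variable {n : ℕ} {i₀ i₁ : Fin n} {q : ℤ}

variable (i₀ i₁ q)

/-- least cell of the bar of the tile with index `v` -/
def bs (v : Fin n → ℤ) : Fin n → ℤ := Function.update v i₀ (v i₀ * (q + 1) - v i₁ % q)

/-- position of the column of the tile with index `v` -/
def sg (v : Fin n → ℤ) : ℤ := if v i₀ < v i₁ % q then q else 0

variable {i₀ i₁ q}

lemma bs_i0 (v : Fin n → ℤ) : bs i₀ i₁ q v i₀ = v i₀ * (q + 1) - v i₁ % q := by simp [bs]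

lemma bs_ne (v : Fin n → ℤ) {l : Fin n} (hl : l ≠ i₀) : bs i₀ i₁ q v l = v l := by
  simp [bs, hl]

lemma sg_cases (v : Fin n → ℤ) :
    (v i₀ < v i₁ % q ∧ sg i₀ i₁ q v = q) ∨ (v i₁ % q ≤ v i₀ ∧ sg i₀ i₁ q v = 0) := by
  unfold sg
  by_cases h : v i₀ < v i₁ % q
  · left; exact ⟨h, if_pos h⟩
  · right; exact ⟨by omega, if_neg h⟩

lemma disj_F' (h01 : i₀ ≠ i₁) (hq : 0 < q) {v v' : Fin n → ℤ} (hne : v ≠ v') :
    Disjoint (Fs i₀ q (bs i₀ i₁ q v)) (Fs i₀ q (bs i₀ i₁ q v')) := by
  rw [Finset.disjoint_left]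
  intro c hc hc'
  rw [mem_Fs, bs_i0] at hc hc'
  apply hne
  have h1 : ∀ l, l ≠ i₀ → v l = v' l := by
    intro l hl
    have e1 := hc.1 l hl
    have e2 := hc'.1 l hl
    rw [bs_ne _ hl] at e1 e2
    omega
  have h2 := h1 i₁ h01.symm
  rw [h2] at hc
  obtain ⟨-, h3, h4⟩ := hc
  obtain ⟨-, h5, h6⟩ := hc'
  have h7 : v i₀ = v' i₀ := by
    rcases lt_trichotomy (v i₀) (v' i₀) with hlt | heq | hgt
    · have : (v i₀ + 1) * (q + 1) ≤ v' i₀ * (q + 1) :=
        mul_le_mul_of_nonneg_right (by omega) (by omega)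
      nlinarith
    · exact heq
    · have : (v' i₀ + 1) * (q + 1) ≤ v i₀ * (q + 1) :=
        mul_le_mul_of_nonneg_right (by omega) (by omega)
      nlinarith
  ext l
  by_cases hl : l = i₀
  · subst hl; exact h7
  · exact h1 l hl

lemma disj_D' (h01 : i₀ ≠ i₁) (hq : 0 < q) {v v' : Fin n → ℤ} (hne : v ≠ v') :
    Disjoint (Ds i₀ i₁ q (bs i₀ i₁ q v) (sg i₀ i₁ q v))
      (Ds i₀ i₁ q (bs i₀ i₁ q v') (sg i₀ i₁ q v')) := by
  rw [Finset.disjoint_left]
  intro c hc hc'
  rw [mem_Ds h01, bs_i0, bs_ne _ h01.symm] at hc hc'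
  obtain ⟨h1, h2, h3, h4⟩ := hc
  obtain ⟨h1', h2', h3', h4'⟩ := hc'
  apply hne
  have hrest : ∀ l, l ≠ i₀ → l ≠ i₁ → v l = v' l := by
    intro l hl hl'
    have e1 := h1 l hl hl'
    have e2 := h1' l hl hl'
    rw [bs_ne _ hl] at e1 e2
    omega
  have a1 := Int.emod_nonneg (v i₁) hq.ne'
  have a2 := Int.emod_lt_of_pos (v i₁) hq
  have b1 := Int.emod_nonneg (v' i₁) hq.ne'
  have b2 := Int.emod_lt_of_pos (v' i₁) hq
  have main : v i₀ = v' i₀ ∧ v i₁ % q = v' i₁ % q := by
    rcases sg_cases (i₀ := i₀) (i₁ := i₁) (q := q) v with ⟨c1, c2⟩ | ⟨c1, c2⟩ <;>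
      rcases sg_cases (i₀ := i₀) (i₁ := i₁) (q := q) v' with ⟨d1, d2⟩ | ⟨d1, d2⟩
    · -- both have column at `q`
      rw [c2] at h2
      rw [d2] at h2'
      have := eq_of_bounds (h := q + 1) (κ := v i₀) (κ' := v' i₀) (r := q - v i₁ % q)
        (r' := q - v' i₁ % q) (by omega) (by omega) (by omega) (by omega) (by linarith)
      omega
    · exfalso
      rw [c2] at h2
      rw [d2] at h2'
      -- `v i₀ * (q+1) - t + q = v' i₀ * (q+1) - t'`
      by_cases h0 : v' i₁ % q = 0
      · have := eq_of_bounds (h := q + 1) (κ := v i₀) (κ' := v' i₀) (r := q - v i₁ % q)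
          (r' := 0) (by omega) (by omega) (by omega) (by omega) (by linarith)
        omega
      · have := eq_of_bounds (h := q + 1) (κ := v i₀) (κ' := v' i₀ - 1) (r := q - v i₁ % q)
          (r' := q + 1 - v' i₁ % q) (by omega) (by omega) (by omega) (by omega) (by linarith)
        omega
    · exfalso
      rw [c2] at h2
      rw [d2] at h2'
      by_cases h0 : v i₁ % q = 0
      · have := eq_of_bounds (h := q + 1) (κ := v' i₀) (κ' := v i₀) (r := q - v' i₁ % q)
          (r' := 0) (by omega) (by omega) (by omega) (by omega) (by linarith)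
        omega
      · have := eq_of_bounds (h := q + 1) (κ := v' i₀) (κ' := v i₀ - 1) (r := q - v' i₁ % q)
          (r' := q + 1 - v i₁ % q) (by omega) (by omega) (by omega) (by omega) (by linarith)
        omega
    · rw [c2] at h2
      rw [d2] at h2'
      have := eq_of_bounds (h := q + 1) (κ := v i₀) (κ' := v' i₀) (r := q - v i₁ % q)
        (r' := q - v' i₁ % q) (by omega) (by omega) (by omega) (by omega) (by linarith)
      omega
  have hrow := row_eq main.2 h3 h4 h3' h4'
  ext l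
  by_cases hl : l = i₀
  · subst hl; exact main.1
  · by_cases hl' : l = i₁
    · subst hl'; exact hrow
    · exact hrest l hl hl'

/-- every cell belongs to the bar of some tile -/
lemma cover_F' (h01 : i₀ ≠ i₁) (hq : 0 < q) (c : Fin n → ℤ) :
    ∃ v : Fin n → ℤ, c ∈ Fs i₀ q (bs i₀ i₁ q v) ∧ (∀ l, l ≠ i₀ → v l = c l) ∧
      |v i₀| ≤ |c i₀| + q := by
  have b1 := Int.emod_nonneg (c i₁) hq.ne'
  have b2 := Int.emod_lt_of_pos (c i₁) hq
  have e1 := Int.emod_add_mul_ediv (c i₀ + c i₁ % q) (q + 1)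
  have e2 := Int.emod_nonneg (c i₀ + c i₁ % q) (show q + 1 ≠ 0 by omega)
  have e3 := Int.emod_lt_of_pos (c i₀ + c i₁ % q) (show 0 < q + 1 by omega)
  refine ⟨Function.update c i₀ ((c i₀ + c i₁ % q) / (q + 1)), ?_, ?_, ?_⟩
  · rw [mem_Fs, bs_i0]
    refine ⟨fun l hl => by rw [bs_ne _ hl]; simp [hl], ?_, ?_⟩
    · simp only [Function.update_self, ne_eq, h01.symm, not_false_eq_true,
        Function.update_of_ne]
      linarith
    · simp only [Function.update_self, ne_eq, h01.symm, not_false_eq_true,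
        Function.update_of_ne]
      linarith
  · intro l hl; simp [hl]
  · simp only [Function.update_self]
    set d := (c i₀ + c i₁ % q) / (q + 1) with hd
    rw [abs_le]
    have hab := abs_nonneg (c i₀)
    have hle := le_abs_self (c i₀)
    have hneg := neg_abs_le (c i₀)
    constructor
    · by_contra hlt
      push Not at hlt
      nlinarith
    · by_contra hlt
      push Not at hlt
      nlinarith

/-- every cell of the middle region belongs to the column of some tile -/
lemma cover_D' (h01 : i₀ ≠ i₁) (hq : 0 < q) (c : Fin n → ℤ) (hc1 : -q ≤ c i₀)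
    (hc2 : c i₀ ≤ (q - 1) * (q + 1)) :
    ∃ v : Fin n → ℤ, c ∈ Ds i₀ i₁ q (bs i₀ i₁ q v) (sg i₀ i₁ q v) ∧
      (∀ l, l ≠ i₀ → |v l| ≤ |c l| + q) ∧ |v i₀| ≤ q + 2 := by
  -- write `c i₀ = j (q + 1) - r`
  set j := (c i₀ + q) / (q + 1) with hj
  set r := q - (c i₀ + q) % (q + 1) with hr
  have e1 : (c i₀ + q) % (q + 1) + (q + 1) * j = c i₀ + q := Int.emod_add_mul_ediv (c i₀ + q) (q + 1)
  have e2 : 0 ≤ (c i₀ + q) % (q + 1) := Int.emod_nonneg _ (show q + 1 ≠ 0 by omega)
  have e3 : (c i₀ + q) % (q + 1) < q + 1 := Int.emod_lt_of_pos _ (show 0 < q + 1 by omega)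
  have e4 : c i₀ = j * (q + 1) - r := by rw [hr]; linarith
  have r0 : 0 ≤ r := by omega
  have r1 : r ≤ q := by omega
  have hj1 : 0 ≤ j := by
    by_contra hlt
    push Not at hlt
    nlinarith
  have hj2 : j ≤ q - 1 := by
    by_contra hlt
    push Not at hlt
    nlinarith
  -- a general row of level `t` for the cell
  have hrow : ∀ t : ℤ, 0 ≤ t → t < q → ∃ y : ℤ, y % q = t ∧ y ≤ c i₁ ∧ c i₁ < y + q := by
    intro t h1 h2
    refine ⟨c i₁ - (c i₁ - t) % q, ?_, ?_, ?_⟩
    · have : c i₁ - (c i₁ - t) % q = t + q * ((c i₁ - t) / q) := by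
        have := Int.emod_add_mul_ediv (c i₁ - t) q
        linarith
      rw [this, Int.add_mul_emod_self_left]
      exact Int.emod_eq_of_lt h1 h2
    · have := Int.emod_nonneg (c i₁ - t) hq.ne'
      omega
    · have := Int.emod_lt_of_pos (c i₁ - t) hq
      omega
  -- general construction
  have hcon : ∀ κ t : ℤ, 0 ≤ t → t < q →
      c i₀ = κ * (q + 1) - t + (if κ < t then q else 0) → -(q + 2) ≤ κ → κ ≤ q + 2 →
      ∃ v : Fin n → ℤ, c ∈ Ds i₀ i₁ q (bs i₀ i₁ q v) (sg i₀ i₁ q v) ∧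
        (∀ l, l ≠ i₀ → |v l| ≤ |c l| + q) ∧ |v i₀| ≤ q + 2 := by
    intro κ t h1 h2 h3 h4 h5
    obtain ⟨y, hy1, hy2, hy3⟩ := hrow t h1 h2
    have hv0 : Function.update (Function.update c i₁ y) i₀ κ i₀ = κ := by simp
    have hv1 : Function.update (Function.update c i₁ y) i₀ κ i₁ = y := by simp [h01.symm]
    refine ⟨Function.update (Function.update c i₁ y) i₀ κ, ?_, ?_, ?_⟩
    · rw [mem_Ds h01, bs_i0, bs_ne _ h01.symm]
      unfold sg
      rw [hv0, hv1, hy1]
      refine ⟨?_, h3, hy2, hy3⟩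
      intro l hl hl'
      rw [bs_ne _ hl]
      simp [hl, hl']
    · intro l hl
      by_cases hl' : l = i₁
      · subst hl'
        rw [hv1]
        have := abs_nonneg (c l)
        have := le_abs_self (c l)
        have := neg_abs_le (c l)
        rw [abs_le]; constructor <;> omega
      · simp only [ne_eq, hl, not_false_eq_true, Function.update_of_ne, hl']
        omega
    · rw [hv0, abs_le]; constructor <;> omega
  by_cases hjr : j < r
  · apply hcon (j - 1) (r - 1) (by omega) (by omega) _ (by omega) (by omega)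
    rw [if_pos (by omega), e4]
    ring
  · apply hcon j r r0 (by omega) _ (by omega) (by omega)
    rw [if_neg (by omega), e4]
    ring

/-- tile with index `v` -/
noncomputable def tile (pr : Par n) (q : ℤ) (v : Fin n → ℤ) : Set (E n) :=
  body pr (Fs pr.i₀ q (bs pr.i₀ pr.i₁ q v))
    (Ds pr.i₀ pr.i₁ q (bs pr.i₀ pr.i₁ q v) (sg pr.i₀ pr.i₁ q v))

variable {pr : Par n}

lemma image_body (g : E n ≃ᵢ E n) (γ : (Fin n → ℤ) → (Fin n → ℤ))
    (hγ : ∀ x c l, ax (γ c) (g x) l = ax c x l)
    (F D : Finset (Fin n → ℤ)) : g '' body pr F D = body pr (F.image γ) (D.image γ) := by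
  have hF : ∀ x c, g x ∈ G pr (γ c) ↔ x ∈ G pr c := by
    intro x c
    simp only [G, mem_ofPred_eq, hγ]
  have hD : ∀ x c, g x ∈ P pr (γ c) ↔ x ∈ P pr c := by
    intro x c
    simp only [P, mem_ofPred_eq, hγ]
  have hW : ∀ x, g x ∈ W pr (F.image γ) (D.image γ) ↔ x ∈ W pr F D := by
    intro x
    rw [mem_W, mem_W]
    simp only [Finset.mem_image, exists_exists_and_eq_and, hF, hD]
  have hW' : g '' W pr F D = W pr (F.image γ) (D.image γ) := by
    ext z
    constructor
    · rintro ⟨x, hx, rfl⟩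
      exact (hW x).2 hx
    · intro hz
      refine ⟨g.symm z, (hW _).1 (by simpa using hz), by simp⟩
  have e := g.toHomeomorph.image_closure (W pr F D)
  change g '' closure (W pr F D) = closure (g '' W pr F D) at e
  unfold body
  rw [e, hW']

lemma congruent_translate' (F D : Finset (Fin n → ℤ)) (w : Fin n → ℤ) :
    Congruent (body pr F D) (body pr (F.image (fun c => c + w)) (D.image (fun c => c + w))) := by
  refine ⟨IsometryEquiv.addRight ((φ n).symm (fun l => (w l : ℝ))), image_body _ _ ?_ _ _⟩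
  intro x c l
  unfold ax
  have h1 : ctr (c + w) l = ctr c l + w l := by
    simp [ctr]
    ring
  have h2 : (IsometryEquiv.addRight ((φ n).symm (fun l => (w l : ℝ))) x) l = x l + w l := rfl
  rw [h1, h2]
  congr 1
  ring

lemma congruent_reflect' (i₀ : Fin n) (F D : Finset (Fin n → ℤ)) (m : ℤ) :
    Congruent (body pr F D) (body pr (F.image (fun c => Function.update c i₀ (m - c i₀)))
      (D.image (fun c => Function.update c i₀ (m - c i₀)))) := by
  let g₁ : E n ≃ᵢ E n := (LinearIsometryEquiv.piLpCongrRight 2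
    (fun l => if l = i₀ then LinearIsometryEquiv.neg ℝ else LinearIsometryEquiv.refl ℝ ℝ)).toIsometryEquiv
  have hg : ∀ (x : E n) l, (g₁ x) l = if l = i₀ then - x l else x l := by
    intro x l
    show (if l = i₀ then LinearIsometryEquiv.neg ℝ else LinearIsometryEquiv.refl ℝ ℝ :
      ℝ ≃ₗᵢ[ℝ] ℝ) (x l) = _
    by_cases h : l = i₀
    · simp [h]
    · simp [h]
  have h1 : g₁ '' body pr F D = body pr (F.image (fun c => Function.update c i₀ (-1 - c i₀)))
      (D.image (fun c => Function.update c i₀ (-1 - c i₀))) := by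
    apply image_body
    intro x c l
    unfold ax
    rw [hg]
    by_cases h : l = i₀
    · subst h
      rw [← abs_neg]
      simp only [if_true, ctr, Function.update_self]
      congr 1
      push_cast
      ring
    · simp [h, ctr]
  have h2 := congruent_translate' (pr := pr) (F.image (fun c => Function.update c i₀ (-1 - c i₀)))
    (D.image (fun c => Function.update c i₀ (-1 - c i₀))) (Function.update 0 i₀ (m + 1))
  have h3 : ∀ S : Finset (Fin n → ℤ), ((S.image (fun c => Function.update c i₀ (-1 - c i₀))).image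
      (fun c => c + Function.update (0 : Fin n → ℤ) i₀ (m + 1))) =
      S.image (fun c => Function.update c i₀ (m - c i₀)) := by
    intro S
    rw [Finset.image_image]
    congr 1
    ext c l
    by_cases h : l = i₀
    · subst h; simp; ring
    · simp [h]
  rw [h3, h3] at h2
  exact congruent_trans ⟨g₁, h1⟩ h2

lemma congruent_base' (w : Fin n → ℤ) {s : ℤ} (hs : s = q ∨ s = 0) :
    Congruent (body pr (Fs pr.i₀ q 0) (Ds pr.i₀ pr.i₁ q 0 q) : Set (E n))
      (body pr (Fs pr.i₀ q w) (Ds pr.i₀ pr.i₁ q w s)) := by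
  have h01 := pr.h01
  have h1 := congruent_translate' (pr := pr) (Fs pr.i₀ q 0) (Ds pr.i₀ pr.i₁ q 0 q) w
  have e1 : (Fs pr.i₀ q 0).image (fun c => c + w) = Fs pr.i₀ q w := by
    ext c
    rw [Finset.mem_image, mem_Fs]
    constructor
    · rintro ⟨a, ha, rfl⟩
      rw [mem_Fs] at ha
      simp only [Pi.zero_apply] at ha
      refine ⟨fun l hl => by simp [ha.1 l hl], ?_, ?_⟩ <;> simp only [Pi.add_apply] <;> omega
    · rintro ⟨h1, h2, h3⟩
      refine ⟨c - w, ?_, by simp⟩
      rw [mem_Fs]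
      simp only [Pi.zero_apply, Pi.sub_apply]
      refine ⟨fun l hl => by rw [h1 l hl]; simp, ?_, ?_⟩ <;> omega
  have e2 : (Ds pr.i₀ pr.i₁ q 0 q).image (fun c => c + w) = Ds pr.i₀ pr.i₁ q w q := by
    ext c
    rw [Finset.mem_image, mem_Ds h01]
    constructor
    · rintro ⟨a, ha, rfl⟩
      rw [mem_Ds h01] at ha
      simp only [Pi.zero_apply] at ha
      refine ⟨fun l hl hl' => by simp [ha.1 l hl hl'], ?_, ?_, ?_⟩ <;>
        simp only [Pi.add_apply] <;> omega
    · rintro ⟨h1, h2, h3, h4⟩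
      refine ⟨c - w, ?_, by simp⟩
      rw [mem_Ds h01]
      simp only [Pi.zero_apply, Pi.sub_apply]
      refine ⟨fun l hl hl' => by rw [h1 l hl hl']; simp, ?_, ?_, ?_⟩ <;> omega
  rw [e1, e2] at h1
  rcases hs with rfl | rfl
  · exact h1
  · refine congruent_trans h1 ?_
    have h2 := congruent_reflect' (pr := pr) pr.i₀ (Fs pr.i₀ q w) (Ds pr.i₀ pr.i₁ q w q)
      (2 * w pr.i₀ + q)
    have e3 : (Fs pr.i₀ q w).image (fun c => Function.update c pr.i₀ (2 * w pr.i₀ + q - c pr.i₀)) =
        Fs pr.i₀ q w := by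
      ext c
      rw [Finset.mem_image]
      constructor
      · rintro ⟨a, ha, rfl⟩
        rw [mem_Fs] at ha ⊢
        refine ⟨fun l hl => by simp [hl, ha.1 l hl], ?_, ?_⟩ <;>
          simp only [Function.update_self] <;> omega
      · intro hc
        rw [mem_Fs] at hc
        refine ⟨Function.update c pr.i₀ (2 * w pr.i₀ + q - c pr.i₀), ?_, ?_⟩
        · rw [mem_Fs]
          refine ⟨fun l hl => by simp [hl, hc.1 l hl], ?_, ?_⟩ <;>
            simp only [Function.update_self] <;> omega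
        · ext l
          by_cases h : l = pr.i₀
          · subst h; simp
          · simp [h]
    have e4 : (Ds pr.i₀ pr.i₁ q w q).image
        (fun c => Function.update c pr.i₀ (2 * w pr.i₀ + q - c pr.i₀)) =
        Ds pr.i₀ pr.i₁ q w 0 := by
      ext c
      rw [Finset.mem_image]
      constructor
      · rintro ⟨a, ha, rfl⟩
        rw [mem_Ds h01] at ha ⊢
        refine ⟨fun l hl hl' => by simp [hl, ha.1 l hl hl'], ?_, ?_, ?_⟩ <;>
          simp only [Function.update_self, ne_eq, h01.symm, not_false_eq_true,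
            Function.update_of_ne] <;> omega
      · intro hc
        rw [mem_Ds h01] at hc
        refine ⟨Function.update c pr.i₀ (2 * w pr.i₀ + q - c pr.i₀), ?_, ?_⟩
        · rw [mem_Ds h01]
          refine ⟨fun l hl hl' => by simp [hl, hc.1 l hl hl'], ?_, ?_, ?_⟩ <;>
            simp only [Function.update_self, ne_eq, h01.symm, not_false_eq_true,
            Function.update_of_ne] <;> omega
        · ext l
          by_cases h : l = pr.i₀
          · subst h; simp
          · simp [h]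
    rw [e3, e4] at h2
    exact h2

lemma sg_or (v : Fin n → ℤ) : sg i₀ i₁ q v = q ∨ sg i₀ i₁ q v = 0 := by
  rcases sg_cases (i₀ := i₀) (i₁ := i₁) (q := q) v with h | h
  · exact Or.inl h.2
  · exact Or.inr h.2

lemma congruent_tile' (v v' : Fin n → ℤ) :
    Congruent (tile pr q v : Set (E n)) (tile pr q v') :=
  congruent_trans (congruent_symm (congruent_base' _ (sg_or v)))
    (congruent_base' _ (sg_or v'))

lemma tile_disjoint' (hq : 0 < q) {v v' : Fin n → ℤ} (hne : v ≠ v') :
    Disjoint (interior (tile pr q v : Set (E n))) (interior (tile pr q v')) :=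
  disjoint_interior_closure isOpen_W
    (disjoint_W (disj_F' pr.h01 hq hne) (disj_D' pr.h01 hq hne))

lemma tile_extent' (hq : 0 < q) {v : Fin n → ℤ} {x : E n}
    (hx : x ∈ (tile pr q v : Set (E n))) (l : Fin n) :
    |x l - bs pr.i₀ pr.i₁ q v l| ≤ q + 2 := by
  have h1 := body_subset hx
  simp only [mem_iUnion, Finset.mem_union] at h1
  obtain ⟨c, hc, hxc⟩ := h1
  have h2 := K_bound hxc l
  set w := bs pr.i₀ pr.i₁ q v with hw
  have h3 : w l - 1 ≤ c l ∧ c l ≤ w l + q + 1 := by
    rcases hc with hc | hc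
    · rw [mem_Fs] at hc
      by_cases hl : l = pr.i₀
      · subst hl; constructor <;> omega
      · rw [hc.1 l hl]; constructor <;> omega
    · rw [mem_Ds pr.h01] at hc
      by_cases hl : l = pr.i₀
      · subst hl
        rcases sg_or (i₀ := pr.i₀) (i₁ := pr.i₁) (q := q) v with hs | hs <;> rw [hs] at hc <;>
          constructor <;> omega
      · by_cases hl' : l = pr.i₁
        · subst hl'; constructor <;> omega
        · rw [hc.1 l hl hl']; constructor <;> omega
  have h4 : ((w l : ℝ)) - 1 ≤ c l := by exact_mod_cast h3.1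
  have h5 : ((c l : ℝ)) ≤ w l + q + 1 := by exact_mod_cast h3.2
  rw [abs_le]
  have : (0 : ℝ) < q := by exact_mod_cast hq
  constructor <;> linarith [h2.1, h2.2]

lemma corona_bound' (hq : 0 < q) {S : Set (Fin n → ℤ)}
    {v₀ : Fin n → ℤ} {k : ℕ} {Q : Set (E n)}
    (hQ : Q ∈ corona (tile pr q '' S) (tile pr q v₀) k) :
    ∃ v, Q = tile pr q v ∧ ∀ l, |(bs pr.i₀ pr.i₁ q v l : ℝ) - bs pr.i₀ pr.i₁ q v₀ l| ≤
      2 * (q + 2) * k := by
  obtain ⟨m, c, hmk, h0, hmQ, hP, hint⟩ := hQ
  have hq' : (0 : ℝ) < q := by exact_mod_cast hq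
  have key : ∀ i, i ≤ m → ∃ v, c i = tile pr q v ∧
      ∀ l, |(bs pr.i₀ pr.i₁ q v l : ℝ) - bs pr.i₀ pr.i₁ q v₀ l| ≤ 2 * (q + 2) * i := by
    intro i
    induction i with
    | zero => intro _; exact ⟨v₀, h0, fun l => by simp⟩
    | succ i ih =>
      intro hi
      obtain ⟨v, hv, hb⟩ := ih (by omega)
      obtain ⟨v', -, hv'⟩ := hP (i + 1) hi
      obtain ⟨x, hx, hx'⟩ := hint i (by omega)
      rw [hv] at hx
      rw [← hv'] at hx'
      refine ⟨v', hv'.symm, fun l => ?_⟩
      have h1 := abs_le.1 (tile_extent' hq hx l)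
      have h2 := abs_le.1 (tile_extent' hq hx' l)
      have h3 := abs_le.1 (hb l)
      push_cast
      rw [abs_le]
      constructor <;> nlinarith [h1.1, h1.2, h2.1, h2.2, h3.1, h3.2]
  obtain ⟨v, hv, hb⟩ := key m le_rfl
  refine ⟨v, by rw [← hmQ, hv], fun l => (hb l).trans ?_⟩
  have : (m : ℝ) ≤ k := by exact_mod_cast hmk
  nlinarith

lemma exists_tile' (hp : pr.Good) {p : ℤ} (hp0 : 0 < p) {z : E n}
    (hz₀ : |z pr.i₀ - (p * (2 * p + 1) : ℤ)| < (((p - 1) * (2 * p + 1) : ℤ) : ℝ))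
    (hz : ∀ l, l ≠ pr.i₀ → |z l| < (((p - 1) * (2 * p + 1) : ℤ) : ℝ)) :
    ∃ v ∈ boxSet n (2 * (p * (2 * p + 1)) + 2 * p + 2), z ∈ tile pr (2 * p) v := by
  have h01 := pr.h01
  set R : ℤ := p * (2 * p + 1) with hR
  set R' : ℤ := (p - 1) * (2 * p + 1) with hR'
  have hRR : R' = R - (2 * p + 1) := by rw [hR, hR']; ring
  set c : Fin n → ℤ := fun l => ⌊z l⌋ with hc
  have hzc := K_subset hp c (floor_mem_K z)
  have hc0 : 0 ≤ c pr.i₀ := by
    rw [hc]
    apply Int.floor_nonneg.2
    have := (abs_lt.1 hz₀).1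
    rw [hRR] at this
    push_cast at this
    have hp' : (0 : ℝ) < p := by exact_mod_cast hp0
    linarith
  have hc1 : c pr.i₀ < R + R' := by
    rw [hc]
    apply Int.floor_lt.2
    have := (abs_lt.1 hz₀).2
    push_cast at this ⊢
    linarith
  have hcl : ∀ l, l ≠ pr.i₀ → |c l| ≤ R := by
    intro l hl
    have h1 := abs_lt.1 (hz l hl)
    have h2 : ((R' : ℤ) : ℝ) ≤ R := by exact_mod_cast (by omega : R' ≤ R)
    rw [abs_le]
    constructor
    · apply Int.le_floor.2
      push_cast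
      linarith [h1.1]
    · have : c l < R + 1 := by
        apply Int.floor_lt.2
        push_cast
        linarith [h1.2]
      omega
  have hRp : 0 < R := by positivity
  rcases hzc with h | h
  · obtain ⟨v, hv, hv1, hv2⟩ := cover_F' (q := 2 * p) h01 (by omega) c
    refine ⟨v, ?_, ?_⟩
    · intro l
      by_cases hl : l = pr.i₀
      · subst hl
        rw [abs_of_nonneg hc0] at hv2
        omega
      · rw [hv1 l hl]
        have := hcl l hl
        omega
    · refine closure_mono ?_ h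
      intro y hy
      exact mem_W.2 (Or.inl ⟨c, hv, hy⟩)
  · obtain ⟨v, hv, hv1, hv2⟩ := cover_D' (q := 2 * p) h01 (by omega) c (by omega) (by
      have : (2 * p - 1) * (2 * p + 1) = R + R' := by rw [hR, hR']; ring
      omega)
    refine ⟨v, ?_, ?_⟩
    · intro l
      by_cases hl : l = pr.i₀
      · subst hl
        omega
      · have h1 := hv1 l hl
        have h2 := hcl l hl
        omega
    · refine closure_mono ?_ h
      intro y hy
      exact mem_W.2 (Or.inr ⟨c, hv, hy⟩)

theorem surrounded' (hp : pr.Good) (k : ℕ) {p : ℤ} (hpk : p = 4 * k + 8) :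
    Surrounded (tile pr (2 * p) (Function.update 0 pr.i₀ p) : Set (E n)) k := by
  have h01 := pr.h01
  set v₀ : Fin n → ℤ := Function.update 0 pr.i₀ p with hv₀
  set R : ℤ := p * (2 * p + 1) with hR
  set R' : ℤ := (p - 1) * (2 * p + 1) with hR'
  have hp0 : 0 < p := by omega
  have hv₀0 : v₀ pr.i₀ = p := by simp [hv₀]
  have hv₀1 : ∀ l, l ≠ pr.i₀ → v₀ l = 0 := fun l hl => by simp [hv₀, hl]
  have hb0 : bs pr.i₀ pr.i₁ (2 * p) v₀ pr.i₀ = R := by
    rw [bs_i0, hv₀0, hv₀1 _ h01.symm]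
    simp [hR]
  have hb1 : ∀ l, l ≠ pr.i₀ → bs pr.i₀ pr.i₁ (2 * p) v₀ l = 0 := fun l hl => by
    rw [bs_ne _ hl, hv₀1 l hl]
  have hRp : p ≤ R := by nlinarith
  set N : ℤ := 2 * R + 2 * p + 2 with hN
  have hfin : (tile pr (2 * p) '' boxSet n N : Set (Set (E n))).Finite :=
    (boxSet_finite N).image _
  refine ⟨tile pr (2 * p) '' boxSet n N, hfin, ⟨?_, ?_⟩, ⟨v₀, ?_, rfl⟩, ?_⟩
  · rintro _ ⟨v, -, rfl⟩
    exact congruent_tile' _ _
  · rintro _ ⟨v, -, rfl⟩ _ ⟨v', -, rfl⟩ hne
    exact tile_disjoint' (by omega) (fun h => hne (by rw [h]))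
  · intro l
    by_cases hl : l = pr.i₀
    · subst hl
      rw [hv₀0, abs_of_pos hp0]
      omega
    · rw [hv₀1 l hl]
      simp
      omega
  · intro j hj1 hjk x hx
    obtain ⟨Q, hQ, hxQ⟩ := hx
    have hQb := corona_bound' (by omega) hQ
    obtain ⟨v, hv, hb⟩ := hQb
    -- `x` is well inside the covered region
    have hxb : ∀ l, |x l - bs pr.i₀ pr.i₁ (2 * p) v₀ l| < (R' : ℝ) := by
      intro l
      have h1 := abs_le.1 (tile_extent' (by omega) (hv ▸ hxQ) l)
      have h2 := abs_le.1 (hb l)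
      have h3 : ((j - 1 : ℕ) : ℝ) ≤ k := by exact_mod_cast (by omega : j - 1 ≤ k)
      have h4 : ((2 * (2 * p + 2) * k + (2 * p + 2) : ℤ) : ℝ) < (R' : ℝ) := by
        have : 2 * (2 * p + 2) * k + (2 * p + 2) < R' := by
          rw [hR', hpk]
          nlinarith
        exact_mod_cast this
      push_cast at h1 h2 h4 ⊢
      have hp' : (0 : ℝ) < p := by exact_mod_cast hp0
      have h5 : (2 : ℝ) * (2 * p + 2) * ((j - 1 : ℕ) : ℝ) ≤ 2 * (2 * p + 2) * k :=
        mul_le_mul_of_nonneg_left h3 (by positivity)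
      rw [abs_lt]
      constructor <;> linarith [h1.1, h1.2, h2.1, h2.2]
    -- the neighbourhood
    set Z : Set (E n) := ⋃₀ {T ∈ tile pr (2 * p) '' boxSet n N | x ∉ T} with hZ
    have hZc : IsClosed Z := by
      rw [hZ, sUnion_eq_biUnion]
      apply Set.Finite.isClosed_biUnion (hfin.subset (fun T hT => hT.1))
      rintro T ⟨⟨v', -, rfl⟩, -⟩
      exact isClosed_closure
    have hO : IsOpen (Zᶜ ∩ {z : E n | ∀ l, |z l - bs pr.i₀ pr.i₁ (2 * p) v₀ l| < (R' : ℝ)}) := by
      refine hZc.isOpen_compl.inter ?_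
      have : {z : E n | ∀ l, |z l - bs pr.i₀ pr.i₁ (2 * p) v₀ l| < (R' : ℝ)} =
          ⋂ l, {z : E n | |z l - bs pr.i₀ pr.i₁ (2 * p) v₀ l| < (R' : ℝ)} := by
        ext z; simp
      rw [this]
      apply isOpen_iInter_of_finite
      intro l
      exact isOpen_lt (by fun_prop) continuous_const
    refine mem_interior.2 ⟨_, ?_, hO, ?_, hxb⟩
    · rintro z ⟨hzZ, hz⟩
      obtain ⟨v', hv', hzv'⟩ := exists_tile' hp hp0 (z := z)
        (by have := hz pr.i₀; rw [hb0] at this; exact this)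
        (fun l hl => by
          have := hz l
          rw [hb1 l hl, Int.cast_zero, sub_zero] at this
          exact this)
      refine ⟨tile pr (2 * p) v', ?_, hzv'⟩
      have hxv' : x ∈ tile pr (2 * p) v' := by
        by_contra hcon
        exact hzZ ⟨_, ⟨⟨v', hv', rfl⟩, hcon⟩, hzv'⟩
      obtain ⟨m, c, hmk, h0, hmQ, hP, hint⟩ := hQ
      refine ⟨m + 1, fun i => if i ≤ m then c i else tile pr (2 * p) v', by omega, by simp [h0],
        by simp, ?_, ?_⟩
      · intro i hi
        by_cases h : i ≤ m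
        · simp only [h, if_true]; exact hP i h
        · simp only [h, if_false]; exact ⟨v', hv', rfl⟩
      · intro i hi
        by_cases h : i + 1 ≤ m
        · simp only [h, if_true, (by omega : i ≤ m)]; exact hint i (by omega)
        · have : i = m := by omega
          subst this
          simp only [le_refl, if_true, h, if_false]
          exact ⟨x, by rw [hmQ]; exact hxQ, hxv'⟩
    · rintro ⟨T, ⟨-, hT⟩, hxT⟩
      exact hT hxT

end Pool.Agent.H389R3.HC
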