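import Pool.Agent.H389R3.HC5

set_option autoImplicit false

namespace Pool.Agent.H389R3.HC

open Set Metric Pool.Agent.H389R3.Heesch

variable {n : ℕ} {pr : Par n} {F D : Finset (Fin n → ℤ)} {q : ℤ}

lemma joined_seg {S : Set (E n)} {x y : E n}
    (h : ∀ s : ℝ, 0 ≤ s → s ≤ 1 → (AffineMap.lineMap x y s : E n) ∈ S) : JoinedIn S x y := by
  apply JoinedIn.of_segment_subset
  rw [segment_eq_image_lineMap]
  rintro _ ⟨s, hs, rfl⟩
  exact h s hs.1 hs.2

lemma ax_seg_pt (c : Fin n → ℤ) (u v : Fin n → ℝ) (s : ℝ) (l : Fin n) :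
    ax c (AffineMap.lineMap (pt c u) (pt c v) s : E n) l = |(1 - s) * u l + s * v l| := by
  unfold ax
  rw [seg_coord, pt_apply, pt_apply]
  congr 1
  ring

lemma segG2 (hp : pr.Good) (c : Fin n → ℤ) {u v : Fin n → ℝ} (hu : ∀ l, |u l| ≤ 2 / 5)
    (hv : ∀ l, |v l| ≤ 2 / 5) {m : Fin n} (hm : m ≠ pr.i₁) (hmu : |u m| = 2 / 5)
    (hmv : v m = u m) {s : ℝ} (hs0 : 0 ≤ s) (hs1 : s ≤ 1) :
    (AffineMap.lineMap (pt c u) (pt c v) s : E n) ∈ G pr c := by
  have ha := aa_le hp.hn
  have h4 := ww_le hp.hn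
  have key : ∀ l, ax c (AffineMap.lineMap (pt c u) (pt c v) s : E n) l ≤ 2 / 5 := by
    intro l
    rw [ax_seg_pt]
    have h1 := abs_le.1 (hu l)
    have h2 := abs_le.1 (hv l)
    rw [abs_le]
    constructor <;> nlinarith [h1.1, h1.2, h2.1, h2.2]
  have km : ax c (AffineMap.lineMap (pt c u) (pt c v) s : E n) m = 2 / 5 := by
    rw [ax_seg_pt, hmv, show (1 - s) * u m + s * u m = u m by ring, hmu]
  refine ⟨fun l => (key l).trans_lt (by norm_num), ⟨m, ?_⟩, ⟨m, hm, ?_⟩⟩
  · rw [km]; linarith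
  · rw [km]
    have := om_le pr hp ((key pr.i₁).trans (by norm_num))
    linarith

/-- a point of a frame is joined in the frame to its corner -/
lemma joined_cor (hp : pr.Good) {c : Fin n → ℤ} {x : E n} (hx : x ∈ G pr c) :
    JoinedIn (G pr c) x (pt c (cor c x)) := by
  apply joined_seg
  intro s hs0 hs1
  rcases eq_or_lt_of_le hs0 with h | h
  · rw [← h, AffineMap.lineMap_apply_zero]; exact hx
  · obtain ⟨h1, ⟨l, hl⟩, ⟨m, hm, hm'⟩⟩ := hx
    exact seg_G hp (C_subset_K _ h1) ⟨l, hl.le⟩ ⟨m, hm, hm'.le⟩ h hs1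

/-- the standard corner -/
noncomputable def sc (n : ℕ) : Fin n → ℝ := fun _ => 2 / 5

lemma sc_abs (l : Fin n) : |sc n l| = 2 / 5 := by
  unfold sc; norm_num

/-- corners with the same coordinate `m ≠ i₁` are joined in the frame -/
lemma joined_corners (hp : pr.Good) (c : Fin n → ℤ) {u v : Fin n → ℝ} (hu : ∀ l, |u l| = 2 / 5)
    (hv : ∀ l, |v l| = 2 / 5) {m : Fin n} (hm : m ≠ pr.i₁) (hmv : v m = u m) :
    JoinedIn (G pr c) (pt c u) (pt c v) :=
  joined_seg fun _ hs0 hs1 => segG2 hp c (fun l => (hu l).le) (fun l => (hv l).le) hm (hu m) hmv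
    hs0 hs1

/-- In dimension at least three every frame is path connected. -/
lemma frame_joined (hp : pr.Good) {m : Fin n} (hm : m ≠ pr.i₁) (hm' : m ≠ pr.i₀)
    {c : Fin n → ℤ} {x : E n} (hx : x ∈ G pr c) : JoinedIn (G pr c) x (pt c (sc n)) := by
  refine (joined_cor hp hx).trans ?_
  set u := cor c x with hu
  set v : Fin n → ℝ := fun l => if l = m then u m else 2 / 5 with hv
  have hua : ∀ l, |u l| = 2 / 5 := cor_abs c x
  have hva : ∀ l, |v l| = 2 / 5 := by
    intro l
    rw [hv]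
    simp only
    split_ifs
    · exact hua m
    · norm_num
  refine (joined_corners hp c hua hva hm (by rw [hv]; simp)).trans ?_
  refine joined_corners hp c hva sc_abs pr.h01 ?_
  rw [hv]
  simp only [Ne.symm hm', if_false]
  rfl

lemma G_sub_int {c : Fin n → ℤ} (hc : c ∈ F) : G pr c ⊆ interior (body pr F D) := by
  refine Subset.trans ?_ W_subset_interior
  intro x hx
  exact mem_W.2 (Or.inl ⟨c, hc, hx⟩)

lemma P_sub_int {c : Fin n → ℤ} (hc : c ∈ D) : P pr c ⊆ interior (body pr F D) := by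
  refine Subset.trans ?_ W_subset_interior
  intro x hx
  exact mem_W.2 (Or.inr ⟨c, hc, hx⟩)

lemma clG_sub {c : Fin n → ℤ} (hc : c ∈ F) : closure (G pr c) ⊆ body pr F D := by
  apply closure_mono
  intro x hx
  exact mem_W.2 (Or.inl ⟨c, hc, hx⟩)

lemma clP_sub {c : Fin n → ℤ} (hc : c ∈ D) : closure (P pr c) ⊆ body pr F D := by
  apply closure_mono
  intro x hx
  exact mem_W.2 (Or.inr ⟨c, hc, hx⟩)

lemma C_sub_int (hp : pr.Good) {c : Fin n → ℤ} (hc : c ∈ F) (hc' : c ∈ D) :
    C c ⊆ interior (body pr F D) := by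
  apply interior_maximal _ (isOpen_C c)
  intro x hx
  rcases K_subset hp c (C_subset_K c hx) with h | h
  · exact clG_sub hc h
  · exact clP_sub hc' h

/-- own cell -/
lemma own_joined (hp : pr.Good) {c : Fin n → ℤ} (hc : c ∈ F) (hc' : c ∈ D) :
    JoinedIn (interior (body pr F D)) (pt c (sc n)) (pt c 0) := by
  apply JoinedIn.mono _ (C_sub_int hp hc hc')
  apply joined_seg
  intro s hs0 hs1 l
  rw [ax_seg_pt]
  simp only [sc, Pi.zero_apply, mul_zero, add_zero]
  rw [abs_of_nonneg (by nlinarith)]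
  nlinarith

lemma pt_mem_C (c : Fin n → ℤ) {v : Fin n → ℝ} (hv : ∀ l, |v l| ≤ 2 / 5) : pt c v ∈ C c := by
  intro l
  rw [ax_pt]
  have := hv l
  linarith

/-- plugs are path connected when the channels have positive width -/
lemma plug_joined (hp : pr.Good) (h1 : pr.w₁ = 0) {c : Fin n → ℤ} {x : E n} (hx : x ∈ P pr c) :
    JoinedIn (P pr c) x (pt c 0) := by
  apply joined_seg
  intro s hs0 hs1
  have k1 : ∀ l, ax c (AffineMap.lineMap x (pt c 0) s : E n) l = (1 - s) * ax c x l := by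
    intro l
    rw [ax_seg (by simp) hs0 hs1]
    simp
  have k2 : ∀ l, ax c (AffineMap.lineMap x (pt c 0) s : E n) l ≤ ax c x l := by
    intro l
    rw [k1]
    have := ax_nonneg c x l
    nlinarith
  refine ⟨fun l => (k2 l).trans_lt (hx.1 l), ?_⟩
  rcases hx.2 with h | h
  · exact Or.inl fun l => (k2 l).trans_lt (h l)
  · right
    intro l hl
    refine (k2 l).trans_lt ?_
    have := h l hl
    unfold om at this ⊢
    rw [h1, zero_mul] at this ⊢
    exact this

section bar

variable {w : Fin n → ℤ} {s : ℤ}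

lemma own_mem (hq : 0 < q) (hs : s = q ∨ s = 0) :
    Function.update w pr.i₀ (w pr.i₀ + s) ∈ Fs pr.i₀ q w ∧
    Function.update w pr.i₀ (w pr.i₀ + s) ∈ Ds pr.i₀ pr.i₁ q w s := by
  rw [mem_Fs, mem_Ds pr.h01]
  refine ⟨⟨fun l hl => by simp [hl], ?_, ?_⟩, ⟨fun l hl hl' => by simp [hl], by simp, ?_, ?_⟩⟩
  · simp only [Function.update_self]; omega
  · simp only [Function.update_self]; omega
  · rw [Function.update_of_ne pr.h01.symm]
  · rw [Function.update_of_ne pr.h01.symm]; omega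

/-- in dimension at least three the frames of a bar are joined inside the body -/
lemma bar_joined (hp : pr.Good) {m : Fin n} (hm : m ≠ pr.i₁) (hm' : m ≠ pr.i₀)
    {c c' : Fin n → ℤ} (hc : c ∈ Fs pr.i₀ q w) (hc' : c' ∈ Fs pr.i₀ q w) :
    JoinedIn (interior (body pr (Fs pr.i₀ q w) D)) (pt c (sc n)) (pt c' (sc n)) := by
  have ha := aa_le hp.hn
  have hww := ww_le hp.hn
  set LS : Set (E n) := ({x | ctr w m + 1 / 5 < x m} ∩ {x | (w pr.i₀ : ℝ) < x pr.i₀}) ∩
    ({x | x pr.i₀ < w pr.i₀ + q + 1} ∩ ⋂ l, {x | l ≠ pr.i₀ → ax w x l < 1 / 2}) with hLS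
  have hLSo : IsOpen LS := by
    refine ((isOpen_lt continuous_const (by fun_prop)).inter
      (isOpen_lt continuous_const (by fun_prop))).inter
      ((isOpen_lt (by fun_prop) continuous_const).inter (isOpen_iInter_of_finite fun l => ?_))
    by_cases hl : l = pr.i₀
    · simp [hl]
    · simp only [ne_eq, hl, not_false_eq_true, forall_true_left]
      exact isOpen_lt (continuous_ax w l) continuous_const
  have hLSb : LS ⊆ interior (body pr (Fs pr.i₀ q w) D) := by
    apply interior_maximal _ hLSo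
    rintro x ⟨⟨h1, h2⟩, h3, h4⟩
    simp only [mem_ofPred_eq] at h1 h2 h3
    rw [mem_iInter] at h4
    set d : Fin n → ℤ := Function.update w pr.i₀ ⌊x pr.i₀⌋ with hd
    have hdF : d ∈ Fs pr.i₀ q w := by
      rw [mem_Fs, hd]
      refine ⟨fun l hl => by simp [hl], ?_, ?_⟩
      · simp only [Function.update_self]
        exact Int.le_floor.2 h2.le
      · simp only [Function.update_self]
        have : ⌊x pr.i₀⌋ < w pr.i₀ + q + 1 := Int.floor_lt.2 (by push_cast; exact h3)
        omega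
    have hax : ∀ l, l ≠ pr.i₀ → ax d x l = ax w x l := by
      intro l hl
      unfold ax ctr
      rw [hd, Function.update_of_ne hl]
    have hK : x ∈ K d := by
      intro l
      by_cases hl : l = pr.i₀
      · subst hl
        unfold ax ctr
        rw [hd, Function.update_self]
        have h1 := Int.floor_le (x pr.i₀)
        have h2 := Int.lt_floor_add_one (x pr.i₀)
        rw [abs_le]
        constructor <;> linarith
      · rw [hax l hl]
        exact (h4 l hl).le
    have hm1 : 1 / 5 < ax w x m := by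
      unfold ax
      rw [lt_abs]
      left; linarith
    refine clG_sub hdF (mem_cl_G hp hK ⟨m, ?_⟩ ⟨m, hm, ?_⟩)
    · rw [hax m hm']; linarith
    · rw [hax m hm']
      have := om_le pr hp ((hK pr.i₁).trans (by norm_num))
      linarith
  apply JoinedIn.mono _ hLSb
  rw [mem_Fs] at hc hc'
  apply joined_seg
  intro t ht0 ht1
  have hco : ∀ l, l ≠ pr.i₀ → (AffineMap.lineMap (pt c (sc n)) (pt c' (sc n)) t : E n) l =
      ctr w l + 2 / 5 := by
    intro l hl
    rw [seg_coord, pt_apply, pt_apply]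
    unfold ctr sc
    rw [hc.1 l hl, hc'.1 l hl]
    ring
  have hc1 : ((w pr.i₀ : ℤ) : ℝ) ≤ c pr.i₀ ∧ ((c pr.i₀ : ℤ) : ℝ) ≤ w pr.i₀ + q := by
    constructor
    · exact_mod_cast hc.2.1
    · exact_mod_cast hc.2.2
  have hc2 : ((w pr.i₀ : ℤ) : ℝ) ≤ c' pr.i₀ ∧ ((c' pr.i₀ : ℤ) : ℝ) ≤ w pr.i₀ + q := by
    constructor
    · exact_mod_cast hc'.2.1
    · exact_mod_cast hc'.2.2
  have hi : (AffineMap.lineMap (pt c (sc n)) (pt c' (sc n)) t : E n) pr.i₀ =
      (1 - t) * c pr.i₀ + t * c' pr.i₀ + 9 / 10 := by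
    rw [seg_coord, pt_apply, pt_apply]
    unfold ctr sc
    ring
  refine ⟨⟨?_, ?_⟩, ?_, ?_⟩
  · simp only [mem_ofPred_eq]
    rw [hco m hm']
    linarith
  · simp only [mem_ofPred_eq]
    rw [hi]
    nlinarith [hc1.1, hc2.1]
  · simp only [mem_ofPred_eq]
    rw [hi]
    nlinarith [hc1.2, hc2.2]
  · rw [mem_iInter]
    intro l hl
    show ax w _ l < 1 / 2
    unfold ax
    rw [hco l hl]
    rw [show ctr w l + 2 / 5 - ctr w l = (2 / 5 : ℝ) by ring]
    rw [abs_of_pos] <;> norm_num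

/-- the plugs of a column are joined inside the body, channels of positive width -/
lemma col_joined (hp : pr.Good) (h1 : pr.w₁ = 0)
    {c c' : Fin n → ℤ} (hc : c ∈ Ds pr.i₀ pr.i₁ q w s) (hc' : c' ∈ Ds pr.i₀ pr.i₁ q w s) :
    JoinedIn (interior (body pr F (Ds pr.i₀ pr.i₁ q w s))) (pt c 0) (pt c' 0) := by
  have hw0 : 0 < pr.w₀ := by have := hp.hpos; rw [h1] at this; linarith
  have hww := ww_le hp.hn
  have haa := aa_le hp.hn
  have h01 := pr.h01
  set LR : Set (E n) := ({x | (w pr.i₁ : ℝ) < x pr.i₁} ∩ {x | x pr.i₁ < w pr.i₁ + q}) ∩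
    ⋂ l, {x | l ≠ pr.i₁ → ax c x l < pr.w₀} with hLR
  have hLRo : IsOpen LR := by
    refine ((isOpen_lt continuous_const (by fun_prop)).inter
      (isOpen_lt (by fun_prop) continuous_const)).inter (isOpen_iInter_of_finite fun l => ?_)
    by_cases hl : l = pr.i₁
    · simp [hl]
    · simp only [ne_eq, hl, not_false_eq_true, forall_true_left]
      exact isOpen_lt (continuous_ax c l) continuous_const
  have hc2 := hc
  have hc2' := hc'
  rw [mem_Ds h01] at hc2 hc2'
  have hLRb : LR ⊆ interior (body pr F (Ds pr.i₀ pr.i₁ q w s)) := by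
    apply interior_maximal _ hLRo
    rintro x ⟨⟨h2, h3⟩, h4⟩
    simp only [mem_ofPred_eq] at h2 h3
    rw [mem_iInter] at h4
    set d : Fin n → ℤ := Function.update c pr.i₁ ⌊x pr.i₁⌋ with hd
    have hdD : d ∈ Ds pr.i₀ pr.i₁ q w s := by
      rw [mem_Ds h01, hd]
      refine ⟨fun l hl hl' => by rw [Function.update_of_ne hl']; exact hc2.1 l hl hl', ?_, ?_, ?_⟩
      · rw [Function.update_of_ne h01]; exact hc2.2.1
      · simp only [Function.update_self]
        exact Int.le_floor.2 h2.le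
      · simp only [Function.update_self]
        exact Int.floor_lt.2 (by push_cast; exact h3)
    have hax : ∀ l, l ≠ pr.i₁ → ax d x l = ax c x l := by
      intro l hl
      unfold ax ctr
      rw [hd, Function.update_of_ne hl]
    have hK : x ∈ K d := by
      intro l
      by_cases hl : l = pr.i₁
      · subst hl
        unfold ax ctr
        rw [hd, Function.update_self]
        have h1 := Int.floor_le (x pr.i₁)
        have h2 := Int.lt_floor_add_one (x pr.i₁)
        rw [abs_le]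
        constructor <;> linarith
      · rw [hax l hl]
        have h5 : ax c x l < pr.w₀ := h4 l hl
        have := hp.h0'
        linarith
    refine clP_sub hdD (mem_cl_P hp hK (Or.inr fun l hl => ?_))
    rw [hax l hl]
    unfold om
    rw [h1, zero_mul, add_zero]
    exact (h4 l hl).le
  apply JoinedIn.mono _ hLRb
  apply joined_seg
  intro t ht0 ht1
  have hco : ∀ l, l ≠ pr.i₁ → (AffineMap.lineMap (pt c 0) (pt c' 0) t : E n) l =
      ctr c l := by
    intro l hl
    rw [seg_coord, pt_apply, pt_apply]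
    have : c' l = c l := by
      by_cases hl' : l = pr.i₀
      · rw [hl', hc2.2.1, hc2'.2.1]
      · rw [hc2.1 l hl' hl, hc2'.1 l hl' hl]
    unfold ctr
    rw [this]
    simp only [Pi.zero_apply]
    ring
  have hi : (AffineMap.lineMap (pt c 0) (pt c' 0) t : E n) pr.i₁ =
      (1 - t) * c pr.i₁ + t * c' pr.i₁ + 1 / 2 := by
    rw [seg_coord, pt_apply, pt_apply]
    unfold ctr
    simp only [Pi.zero_apply]
    ring
  have e1 : ((w pr.i₁ : ℤ) : ℝ) ≤ c pr.i₁ ∧ ((c pr.i₁ : ℤ) : ℝ) ≤ w pr.i₁ + q - 1 := by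
    constructor
    · exact_mod_cast hc2.2.2.1
    · have := hc2.2.2.2
      have h5 : c pr.i₁ ≤ w pr.i₁ + q - 1 := by omega
      exact_mod_cast h5
  have e2 : ((w pr.i₁ : ℤ) : ℝ) ≤ c' pr.i₁ ∧ ((c' pr.i₁ : ℤ) : ℝ) ≤ w pr.i₁ + q - 1 := by
    constructor
    · exact_mod_cast hc2'.2.2.1
    · have := hc2'.2.2.2
      have h5 : c' pr.i₁ ≤ w pr.i₁ + q - 1 := by omega
      exact_mod_cast h5
  refine ⟨⟨?_, ?_⟩, ?_⟩
  · simp only [mem_ofPred_eq]
    rw [hi]
    nlinarith [e1.1, e2.1]
  · simp only [mem_ofPred_eq]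
    rw [hi]
    nlinarith [e1.2, e2.2]
  · rw [mem_iInter]
    intro l hl
    show ax c _ l < pr.w₀
    unfold ax
    rw [hco l hl, sub_self, abs_zero]
    exact hw0

/-- In dimension at least three, with channels of positive width, the tile has connected
interior. -/
theorem connected_interior (hp : pr.Good) (h1 : pr.w₁ = 0) {m : Fin n} (hm : m ≠ pr.i₁)
    (hm' : m ≠ pr.i₀) (hq : 0 < q) (hs : s = q ∨ s = 0) :
    IsConnected (interior (body pr (Fs pr.i₀ q w) (Ds pr.i₀ pr.i₁ q w s))) := by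
  obtain ⟨ho1, ho2⟩ := own_mem (pr := pr) (w := w) hq hs
  set c₀ := Function.update w pr.i₀ (w pr.i₀ + s) with hc₀
  set I := interior (body pr (Fs pr.i₀ q w) (Ds pr.i₀ pr.i₁ q w s)) with hI
  have hbase : ∀ x ∈ W pr (Fs pr.i₀ q w) (Ds pr.i₀ pr.i₁ q w s), JoinedIn I (pt c₀ 0) x := by
    intro x hx
    rcases mem_W.1 hx with ⟨c, hc, hx⟩ | ⟨c, hc, hx⟩
    · have j1 : JoinedIn I x (pt c (sc n)) := (frame_joined hp hm hm' hx).mono (G_sub_int hc)
      have j2 : JoinedIn I (pt c (sc n)) (pt c₀ (sc n)) := bar_joined hp hm hm' hc ho1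
      have j3 : JoinedIn I (pt c₀ (sc n)) (pt c₀ 0) := own_joined hp ho1 ho2
      exact ((j1.trans j2).trans j3).symm
    · have j1 : JoinedIn I x (pt c 0) := (plug_joined hp h1 hx).mono (P_sub_int hc)
      have j2 : JoinedIn I (pt c 0) (pt c₀ 0) := col_joined hp h1 hc ho2
      exact (j1.trans j2).symm
  have hpath : IsPathConnected I := by
    refine ⟨pt c₀ 0, P_sub_int ho2 (ctr_mem_P hp c₀), ?_⟩
    intro x hx
    obtain ⟨r, hr, hball⟩ := Metric.isOpen_iff.1 isOpen_interior x hx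
    have hcl : x ∈ closure (W pr (Fs pr.i₀ q w) (Ds pr.i₀ pr.i₁ q w s)) := interior_subset hx
    obtain ⟨y, hyW, hyx⟩ := Metric.mem_closure_iff.1 hcl r hr
    have j1 := hbase y hyW
    have j2 : JoinedIn I y x := by
      apply JoinedIn.of_segment_subset
      refine Subset.trans ?_ hball
      apply (convex_ball x r).segment_subset
      · rw [mem_ball, dist_comm]; exact hyx
      · exact mem_ball_self hr
    exact j1.trans j2
  exact hpath.isConnected

end bar

end Pool.Agent.H389R3.HC
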