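import Pool.Agent.H389R3.HC6

set_option autoImplicit false

namespace Pool.Agent.H389R3.HC

open Set Metric Pool.Agent.H389R3.Heesch

variable {n : ℕ} {pr : Par n} {F D : Finset (Fin n → ℤ)} {q : ℤ}

/-- the apex of the channel at the cavity -/
noncomputable def apx (pr : Par n) : Fin n → ℝ := fun l => if l = pr.i₁ then aa n else 0

lemma apex_joined (hp : pr.Good) (h0 : pr.w₀ = 0) (c : Fin n → ℤ) {v : Fin n → ℝ}
    (hv : ∀ l, |v l| = 2 / 5) (hv1 : v pr.i₁ = 2 / 5) :
    JoinedIn (closure (G pr c)) (pt c v) (pt c (apx pr)) := by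
  have ha := aa_le hp.hn
  have ha' := aa_pos hp.hn
  have hww := ww_le hp.hn
  apply joined_seg
  intro s hs0 hs1
  have k1 : ax c (AffineMap.lineMap (pt c v) (pt c (apx pr)) s : E n) pr.i₁ =
      (1 - s) * (2 / 5) + s * aa n := by
    rw [ax_seg_pt, hv1]
    simp only [apx, if_true]
    rw [abs_of_nonneg]
    have : 0 ≤ (1 - s) * (2 / 5 : ℝ) := mul_nonneg (by linarith) (by norm_num)
    have : 0 ≤ s * aa n := mul_nonneg hs0 ha'.le
    linarith
  have k2 : ∀ l, l ≠ pr.i₁ → ax c (AffineMap.lineMap (pt c v) (pt c (apx pr)) s : E n) l =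
      (1 - s) * (2 / 5) := by
    intro l hl
    rw [ax_seg_pt]
    simp only [apx, hl, if_false, mul_zero, add_zero]
    rw [abs_mul, hv, abs_of_nonneg (by linarith)]
  refine mem_cl_G hp ?_ ⟨pr.i₁, ?_⟩ ⟨pr.i₀, pr.h01, ?_⟩
  · intro l
    by_cases hl : l = pr.i₁
    · rw [hl, k1]; nlinarith
    · rw [k2 l hl]; nlinarith
  · rw [k1]; nlinarith
  · rw [k1, k2 _ pr.h01]
    unfold om
    rw [h0, zero_add]
    have h1 := hp.h1
    have h2 := hp.h1'
    have h3 : (1 - s) * (2 / 5) + s * aa n - aa n = (1 - s) * (2 / 5 - aa n) := by ring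
    rw [h3]
    have h4 : 0 ≤ (1 - s) * (2 / 5 - aa n) := mul_nonneg (by linarith) (by linarith)
    have h5 : pr.w₁ * ((1 - s) * (2 / 5 - aa n)) ≤ 1 * ((1 - s) * (2 / 5 - aa n)) :=
      mul_le_mul_of_nonneg_right (by linarith) h4
    nlinarith

lemma frame_joined' (hp : pr.Good) (h0 : pr.w₀ = 0) {c : Fin n → ℤ} {x : E n} (hx : x ∈ G pr c) :
    JoinedIn (closure (G pr c)) x (pt c (sc n)) := by
  refine ((joined_cor hp hx).mono subset_closure).trans ?_
  set u := cor c x with hu
  set v : Fin n → ℝ := fun l => if l = pr.i₀ then u pr.i₀ else 2 / 5 with hv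
  have hua : ∀ l, |u l| = 2 / 5 := cor_abs c x
  have hva : ∀ l, |v l| = 2 / 5 := by
    intro l
    rw [hv]
    simp only
    split_ifs
    · exact hua _
    · norm_num
  refine ((joined_corners hp c hua hva pr.h01 (by rw [hv]; simp)).mono subset_closure).trans ?_
  refine (apex_joined hp h0 c hva ?_).trans (apex_joined hp h0 c sc_abs rfl).symm
  rw [hv]
  simp [pr.h01.symm]

lemma plug_joined' (hp : pr.Good) (h0 : pr.w₀ = 0) {c : Fin n → ℤ} {x : E n} (hx : x ∈ P pr c) :
    JoinedIn (closure (P pr c)) x (pt c 0) := by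
  rcases hx.2 with h | h
  · apply JoinedIn.mono _ subset_closure
    apply joined_seg
    intro s hs0 hs1
    rcases eq_or_lt_of_le hs0 with h' | h'
    · rw [← h', AffineMap.lineMap_apply_zero]; exact hx
    · exact seg_cube hp (fun l => (h l).le) h' hs1
  · have j1 : JoinedIn (closure (P pr c)) x (pt c (axi pr c x)) := by
      apply JoinedIn.mono _ subset_closure
      apply joined_seg
      intro s hs0 hs1
      rcases eq_or_lt_of_le hs0 with h' | h'
      · rw [← h', AffineMap.lineMap_apply_zero]; exact hx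
      · exact seg_P hp (C_subset_K _ hx.1) (fun l hl => (h l hl).le) h' hs1
    refine j1.trans ?_
    apply joined_seg
    intro s hs0 hs1
    have k1 : ax c (AffineMap.lineMap (pt c (axi pr c x)) (pt c 0) s : E n) pr.i₁ =
        (1 - s) * (2 / 5) := by
      rw [ax_seg_pt]
      simp only [axi, if_true, Pi.zero_apply, mul_zero, add_zero]
      rw [abs_mul, cor_abs, abs_of_nonneg (by linarith)]
    have k2 : ∀ l, l ≠ pr.i₁ → ax c (AffineMap.lineMap (pt c (axi pr c x)) (pt c 0) s : E n) l =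
        0 := by
      intro l hl
      rw [ax_seg_pt]
      simp [axi, hl]
    refine mem_cl_P hp ?_ ?_
    · intro l
      by_cases hl : l = pr.i₁
      · rw [hl, k1]; nlinarith
      · rw [k2 l hl]; norm_num
    · by_cases hcase : (1 - s) * (2 / 5) ≤ aa n
      · left
        intro l
        by_cases hl : l = pr.i₁
        · rw [hl, k1]; exact hcase
        · rw [k2 l hl]; exact (aa_pos hp.hn).le
      · right
        intro l hl
        rw [k2 l hl, k1]
        unfold om
        rw [h0, zero_add]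
        push Not at hcase
        exact mul_nonneg hp.h1 (by linarith)

section bar

variable {w : Fin n → ℤ} {s : ℤ}

lemma next_joined (hp : pr.Good) (h0 : pr.w₀ = 0) {c : Fin n → ℤ} (hc : c ∈ F)
    (hc' : Function.update c pr.i₀ (c pr.i₀ + 1) ∈ F) :
    JoinedIn (body pr F D) (pt c (sc n))
      (pt (Function.update c pr.i₀ (c pr.i₀ + 1)) (sc n)) := by
  set c' := Function.update c pr.i₀ (c pr.i₀ + 1) with hc'd
  set v : Fin n → ℝ := fun l => if l = pr.i₀ then -(2 / 5) else 2 / 5 with hv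
  have ha := aa_le hp.hn
  have hww := ww_le hp.hn
  have hva : ∀ l, |v l| = 2 / 5 := by
    intro l
    rw [hv]
    simp only
    split_ifs <;> norm_num
  have j1 : JoinedIn (body pr F D) (pt c (sc n)) (pt c' v) := by
    apply joined_seg
    intro t ht0 ht1
    set x : E n := AffineMap.lineMap (pt c (sc n)) (pt c' v) t with hx
    have hco : ∀ l, l ≠ pr.i₀ → x l = ctr c l + 2 / 5 := by
      intro l hl
      rw [hx, seg_coord, pt_apply, pt_apply, hv]
      unfold ctr sc
      rw [hc'd, Function.update_of_ne hl]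
      simp only [hl, if_false]
      ring
    have hi : x pr.i₀ = c pr.i₀ + 9 / 10 + t / 5 := by
      rw [hx, seg_coord, pt_apply, pt_apply, hv]
      unfold ctr sc
      rw [hc'd, Function.update_self]
      simp only [if_true]
      push_cast
      ring
    by_cases hcase : t ≤ 1 / 2
    · have k1 : ax c x pr.i₀ = 2 / 5 + t / 5 := by
        unfold ax ctr
        rw [hi, show (c pr.i₀ : ℝ) + 9 / 10 + t / 5 - (c pr.i₀ + 1 / 2) = 2 / 5 + t / 5 by ring,
          abs_of_nonneg (by linarith)]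
      have k2 : ∀ l, l ≠ pr.i₀ → ax c x l = 2 / 5 := by
        intro l hl
        unfold ax
        rw [hco l hl, show ctr c l + 2 / 5 - ctr c l = (2 / 5 : ℝ) by ring]
        norm_num
      have hK : x ∈ K c := by
        intro l
        by_cases hl : l = pr.i₀
        · rw [hl, k1]; linarith
        · rw [k2 l hl]; norm_num
      refine clG_sub hc (mem_cl_G hp hK ⟨pr.i₀, ?_⟩ ⟨pr.i₀, pr.h01, ?_⟩)
      · rw [k1]; linarith
      · rw [k1]
        have := om_le pr hp ((hK pr.i₁).trans (by norm_num))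
        linarith
    · push Not at hcase
      have k1 : ax c' x pr.i₀ = 3 / 5 - t / 5 := by
        unfold ax ctr
        rw [hi, hc'd, Function.update_self]
        push_cast
        rw [show (c pr.i₀ : ℝ) + 9 / 10 + t / 5 - (c pr.i₀ + 1 + 1 / 2) = -(3 / 5 - t / 5) by ring,
          abs_neg, abs_of_nonneg (by linarith)]
      have k2 : ∀ l, l ≠ pr.i₀ → ax c' x l = 2 / 5 := by
        intro l hl
        unfold ax
        rw [hco l hl]
        unfold ctr
        rw [hc'd, Function.update_of_ne hl,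
          show (c l : ℝ) + 1 / 2 + 2 / 5 - (c l + 1 / 2) = (2 / 5 : ℝ) by ring]
        norm_num
      have hK : x ∈ K c' := by
        intro l
        by_cases hl : l = pr.i₀
        · rw [hl, k1]; linarith
        · rw [k2 l hl]; norm_num
      refine clG_sub hc' (mem_cl_G hp hK ⟨pr.i₀, ?_⟩ ⟨pr.i₀, pr.h01, ?_⟩)
      · rw [k1]; linarith
      · rw [k1]
        have := om_le pr hp ((hK pr.i₁).trans (by norm_num))
        linarith
  refine j1.trans ?_
  apply JoinedIn.mono _ (clG_sub hc')
  refine (apex_joined hp h0 c' hva ?_).trans (apex_joined hp h0 c' sc_abs rfl).symm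
  rw [hv]
  simp [pr.h01.symm]

lemma bar_joined' (hp : pr.Good) (h0 : pr.w₀ = 0) {c : Fin n → ℤ} (hc : c ∈ Fs pr.i₀ q w) :
    JoinedIn (body pr (Fs pr.i₀ q w) D) (pt w (sc n)) (pt c (sc n)) := by
  have key : ∀ j : ℕ, (j : ℤ) ≤ q → JoinedIn (body pr (Fs pr.i₀ q w) D) (pt w (sc n))
      (pt (Function.update w pr.i₀ (w pr.i₀ + j)) (sc n)) := by
    intro j
    induction j with
    | zero =>
      intro hj
      have : Function.update w pr.i₀ (w pr.i₀ + ((0 : ℕ) : ℤ)) = w := by simp
      rw [this]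
      refine JoinedIn.refl ?_
      apply clG_sub (c := w) _ (subset_closure _)
      · rw [mem_Fs]; exact ⟨fun _ _ => rfl, le_rfl, by push_cast at hj; omega⟩
      · exact G_nonempty hp w
    | succ j ih =>
      intro hj
      push_cast at hj
      refine (ih (by omega)).trans ?_
      have h1 : Function.update w pr.i₀ (w pr.i₀ + (j : ℤ)) ∈ Fs pr.i₀ q w := by
        rw [mem_Fs]
        refine ⟨fun l hl => by simp [hl], ?_, ?_⟩ <;> simp only [Function.update_self] <;> omega
      have h2 : Function.update w pr.i₀ (w pr.i₀ + ((j + 1 : ℕ) : ℤ)) =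
          Function.update (Function.update w pr.i₀ (w pr.i₀ + (j : ℤ))) pr.i₀
            ((Function.update w pr.i₀ (w pr.i₀ + (j : ℤ))) pr.i₀ + 1) := by
        rw [Function.update_self, Function.update_idem]
        congr 1
        push_cast
        ring
      rw [h2]
      apply next_joined hp h0 h1
      rw [← h2, mem_Fs]
      refine ⟨fun l hl => by simp [hl], ?_, ?_⟩ <;> simp only [Function.update_self] <;>
        push_cast <;> omega
  rw [mem_Fs] at hc
  have h3 := key (c pr.i₀ - w pr.i₀).toNat (by omega)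
  have h4 : Function.update w pr.i₀ (w pr.i₀ + ((c pr.i₀ - w pr.i₀).toNat : ℤ)) = c := by
    ext l
    by_cases hl : l = pr.i₀
    · subst hl; simp only [Function.update_self]; omega
    · simp [hl, hc.1 l hl]
  rw [h4] at h3
  exact h3

/-- the plugs of a column are joined inside the body -/
lemma col_joined' (hp : pr.Good) (h0 : pr.w₀ = 0)
    {c c' : Fin n → ℤ} (hc : c ∈ Ds pr.i₀ pr.i₁ q w s) (hc' : c' ∈ Ds pr.i₀ pr.i₁ q w s) :
    JoinedIn (body pr F (Ds pr.i₀ pr.i₁ q w s)) (pt c 0) (pt c' 0) := by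
  have h01 := pr.h01
  have hc2 := hc
  have hc2' := hc'
  rw [mem_Ds h01] at hc2 hc2'
  apply joined_seg
  intro t ht0 ht1
  set x : E n := AffineMap.lineMap (pt c 0) (pt c' 0) t with hx
  have hco : ∀ l, l ≠ pr.i₁ → x l = ctr c l := by
    intro l hl
    rw [hx, seg_coord, pt_apply, pt_apply]
    have : c' l = c l := by
      by_cases hl' : l = pr.i₀
      · rw [hl', hc2.2.1, hc2'.2.1]
      · rw [hc2.1 l hl' hl, hc2'.1 l hl' hl]
    unfold ctr
    rw [this]
    simp only [Pi.zero_apply]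
    ring
  have hi : x pr.i₁ = (1 - t) * c pr.i₁ + t * c' pr.i₁ + 1 / 2 := by
    rw [hx, seg_coord, pt_apply, pt_apply]
    unfold ctr
    simp only [Pi.zero_apply]
    ring
  have e1 : ((w pr.i₁ : ℤ) : ℝ) ≤ c pr.i₁ ∧ ((c pr.i₁ : ℤ) : ℝ) ≤ w pr.i₁ + q - 1 := by
    constructor
    · exact_mod_cast hc2.2.2.1
    · have := hc2.2.2.2
      have h5 : c pr.i₁ ≤ w pr.i₁ + q - 1 := by omega
      exact_mod_cast h5
  have e2 : ((w pr.i₁ : ℤ) : ℝ) ≤ c' pr.i₁ ∧ ((c' pr.i₁ : ℤ) : ℝ) ≤ w pr.i₁ + q - 1 := by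
    constructor
    · exact_mod_cast hc2'.2.2.1
    · have := hc2'.2.2.2
      have h5 : c' pr.i₁ ≤ w pr.i₁ + q - 1 := by omega
      exact_mod_cast h5
  have b1 : (w pr.i₁ : ℝ) + 1 / 2 ≤ x pr.i₁ := by rw [hi]; nlinarith [e1.1, e2.1]
  have b2 : x pr.i₁ ≤ w pr.i₁ + q - 1 / 2 := by rw [hi]; nlinarith [e1.2, e2.2]
  set d : Fin n → ℤ := Function.update c pr.i₁ ⌊x pr.i₁⌋ with hd
  have hdD : d ∈ Ds pr.i₀ pr.i₁ q w s := by
    rw [mem_Ds h01, hd]
    refine ⟨fun l hl hl' => by rw [Function.update_of_ne hl']; exact hc2.1 l hl hl', ?_, ?_, ?_⟩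
    · rw [Function.update_of_ne h01]; exact hc2.2.1
    · simp only [Function.update_self]
      exact Int.le_floor.2 (by linarith)
    · simp only [Function.update_self]
      exact Int.floor_lt.2 (by push_cast; linarith)
  have hax : ∀ l, l ≠ pr.i₁ → ax d x l = 0 := by
    intro l hl
    unfold ax
    rw [hco l hl]
    unfold ctr
    rw [hd, Function.update_of_ne hl]
    simp
  have hK : x ∈ K d := by
    intro l
    by_cases hl : l = pr.i₁
    · subst hl
      unfold ax ctr
      rw [hd, Function.update_self]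
      have h1 := Int.floor_le (x pr.i₁)
      have h2 := Int.lt_floor_add_one (x pr.i₁)
      rw [abs_le]
      constructor <;> linarith
    · rw [hax l hl]; norm_num
  refine clP_sub hdD (mem_cl_P hp hK ?_)
  by_cases hcase : ax d x pr.i₁ ≤ aa n
  · left
    intro l
    by_cases hl : l = pr.i₁
    · rw [hl]; exact hcase
    · rw [hax l hl]; exact (aa_pos hp.hn).le
  · right
    intro l hl
    rw [hax l hl]
    unfold om
    rw [h0, zero_add]
    push Not at hcase
    exact mul_nonneg hp.h1 (by linarith)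

/-- With pinched channels the tile is connected. -/
theorem connected_body (hp : pr.Good) (h0 : pr.w₀ = 0) (hq : 0 < q) (hs : s = q ∨ s = 0) :
    IsConnected (body pr (Fs pr.i₀ q w) (Ds pr.i₀ pr.i₁ q w s)) := by
  obtain ⟨ho1, ho2⟩ := own_mem (pr := pr) (w := w) hq hs
  set c₀ := Function.update w pr.i₀ (w pr.i₀ + s) with hc₀
  set B := body pr (Fs pr.i₀ q w) (Ds pr.i₀ pr.i₁ q w s) with hB
  have hbase : ∀ x ∈ W pr (Fs pr.i₀ q w) (Ds pr.i₀ pr.i₁ q w s), JoinedIn B (pt c₀ 0) x := by
    intro x hx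
    rcases mem_W.1 hx with ⟨c, hc, hx⟩ | ⟨c, hc, hx⟩
    · have j1 : JoinedIn B x (pt c (sc n)) := (frame_joined' hp h0 hx).mono (clG_sub hc)
      have j2 : JoinedIn B (pt w (sc n)) (pt c (sc n)) := bar_joined' hp h0 hc
      have j2' : JoinedIn B (pt w (sc n)) (pt c₀ (sc n)) := bar_joined' hp h0 ho1
      have j3 : JoinedIn B (pt c₀ (sc n)) (pt c₀ 0) := (own_joined hp ho1 ho2).mono interior_subset
      exact (((j1.trans j2.symm).trans j2').trans j3).symm
    · have j1 : JoinedIn B x (pt c 0) := (plug_joined' hp h0 hx).mono (clP_sub hc)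
      have j2 : JoinedIn B (pt c 0) (pt c₀ 0) := col_joined' hp h0 hc ho2
      exact (j1.trans j2).symm
  have hbB : pt c₀ 0 ∈ B := clP_sub ho2 (subset_closure (ctr_mem_P hp c₀))
  have hV : IsPathConnected (pathComponentIn B (pt c₀ 0)) := isPathConnected_pathComponentIn hbB
  have hWV : W pr (Fs pr.i₀ q w) (Ds pr.i₀ pr.i₁ q w s) ⊆ pathComponentIn B (pt c₀ 0) :=
    fun x hx => hbase x hx
  have hVB : pathComponentIn B (pt c₀ 0) ⊆ B := fun x hx => hx.target_mem
  refine ⟨⟨_, hbB⟩, hV.isConnected.isPreconnected.subset_closure hVB (closure_mono hWV)⟩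

end bar

end Pool.Agent.H389R3.HC
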