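import Mathlib

set_option autoImplicit false

/-! Atoms: open cubical frames and small open cubes attached to the cells of the integer lattice,
and the bodies that are closures of finite unions of atoms. -/

namespace Pool.Agent.H389R3.Heesch

open Set Metric

/-- Euclidean space -/
abbrev E (n : ℕ) := EuclideanSpace ℝ (Fin n)

/-- the coordinate map onto `ℝ ^ n` with the sup metric -/
noncomputable def φ (n : ℕ) : E n ≃L[ℝ] (Fin n → ℝ) := EuclideanSpace.equiv (Fin n) ℝ

lemma φ_apply {n : ℕ} (x : E n) (l : Fin n) : φ n x l = x l := rfl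

/-- centre of the unit cell with least corner `c` -/
noncomputable def ctr {n : ℕ} (c : Fin n → ℤ) : Fin n → ℝ := fun l => (c l : ℝ) + 1 / 2

/-- half side of the small cube -/
noncomputable def del (n : ℕ) : ℝ := 1 / (10 * n)

/-- small open cube in the middle of the cell `c` -/
def UD {n : ℕ} (c : Fin n → ℤ) : Set (E n) := φ n ⁻¹' ball (ctr c) (del n)

/-- open cell `c` -/
def UC {n : ℕ} (c : Fin n → ℤ) : Set (E n) := φ n ⁻¹' ball (ctr c) (1 / 2)

/-- open frame: the open cell minus the closed small cube -/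
def UF {n : ℕ} (c : Fin n → ℤ) : Set (E n) :=
  φ n ⁻¹' (ball (ctr c) (1 / 2) ∩ (closedBall (ctr c) (del n))ᶜ)

variable {n : ℕ}

lemma del_pos (hn : 2 ≤ n) : 0 < del n := by
  unfold del
  have : (0 : ℝ) < n := by exact_mod_cast (by omega : 0 < n)
  positivity

lemma del_lt (hn : 2 ≤ n) : del n < 1 / 10 := by
  unfold del
  have : (2 : ℝ) ≤ n := by exact_mod_cast hn
  rw [div_lt_div_iff₀ (by positivity) (by norm_num)]
  linarith

lemma isOpen_UD (c : Fin n → ℤ) : IsOpen (UD c) := isOpen_ball.preimage (φ n).continuous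

lemma isOpen_UC (c : Fin n → ℤ) : IsOpen (UC c) := isOpen_ball.preimage (φ n).continuous

lemma isOpen_UF (c : Fin n → ℤ) : IsOpen (UF c) :=
  (isOpen_ball.inter isClosed_closedBall.isOpen_compl).preimage (φ n).continuous

lemma UF_subset_UC (c : Fin n → ℤ) : UF c ⊆ UC c := fun _ hx => hx.1

lemma UD_subset_UC (hn : 2 ≤ n) (c : Fin n → ℤ) : UD c ⊆ UC c := by
  intro x hx
  exact ball_subset_ball (by have := del_lt hn; linarith) hx

lemma disjoint_UF_UD (c : Fin n → ℤ) : Disjoint (UF c) (UD c) := by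
  rw [Set.disjoint_left]
  intro x hx hx'
  exact hx.2 (ball_subset_closedBall hx')

lemma disjoint_UC {c c' : Fin n → ℤ} (h : c ≠ c') : Disjoint (UC c) (UC c') := by
  rw [Set.disjoint_left]
  intro x hx hx'
  obtain ⟨l, hl⟩ := Function.ne_iff.1 h
  have h1 : |x l - ((c l : ℝ) + 1 / 2)| < 1 / 2 := by
    have := (dist_pi_lt_iff (by norm_num : (0 : ℝ) < 1 / 2)).1 (mem_ball.1 hx) l
    simpa [Real.dist_eq, φ_apply, ctr] using this
  have h2 : |x l - ((c' l : ℝ) + 1 / 2)| < 1 / 2 := by
    have := (dist_pi_lt_iff (by norm_num : (0 : ℝ) < 1 / 2)).1 (mem_ball.1 hx') l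
    simpa [Real.dist_eq, φ_apply, ctr] using this
  rw [abs_lt] at h1 h2
  have h3 : ((c l : ℝ)) < c' l + 1 := by linarith
  have h4 : ((c' l : ℝ)) < c l + 1 := by linarith
  have h5 : c l < c' l + 1 := by exact_mod_cast h3
  have h6 : c' l < c l + 1 := by exact_mod_cast h4
  omega

lemma convex_UD (c : Fin n → ℤ) : Convex ℝ (UD c) :=
  (convex_ball _ _).linear_preimage (φ n).toLinearMap

lemma convex_UC (c : Fin n → ℤ) : Convex ℝ (UC c) :=
  (convex_ball _ _).linear_preimage (φ n).toLinearMap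

/-- the closed cell -/
def CC (c : Fin n → ℤ) : Set (E n) := φ n ⁻¹' closedBall (ctr c) (1 / 2)

lemma CC_subset (hn : 2 ≤ n) (c : Fin n → ℤ) : CC c ⊆ closure (UF c) ∪ closure (UD c) := by
  intro x hx
  have hcl : ∀ s : Set (Fin n → ℝ), φ n ⁻¹' closure s = closure (φ n ⁻¹' s) := fun s =>
    (φ n).toHomeomorph.preimage_closure s
  unfold UF UD
  rw [← hcl, ← hcl]
  by_cases h : φ n x ∈ closedBall (ctr c) (del n)
  · right
    rw [← closure_ball (ctr c) (del_pos hn).ne'] at h
    exact h
  · left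
    have h1 : φ n x ∈ closure (ball (ctr c) (1 / 2)) := by
      rw [closure_ball (ctr c) (by norm_num)]
      exact hx
    have h2 := isClosed_closedBall.isOpen_compl.inter_closure
      (s := (closedBall (ctr c) (del n))ᶜ) (t := ball (ctr c) (1 / 2)) ⟨h, h1⟩
    rw [inter_comm] at h2
    exact h2

lemma closure_UD_subset (hn : 2 ≤ n) (c : Fin n → ℤ) : closure (UD c) ⊆ UC c := by
  have hcl : ∀ s : Set (Fin n → ℝ), φ n ⁻¹' closure s = closure (φ n ⁻¹' s) := fun s =>
    (φ n).toHomeomorph.preimage_closure s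
  unfold UD
  rw [← hcl, closure_ball (ctr c) (del_pos hn).ne']
  intro x hx
  exact closedBall_subset_ball (by have := del_lt hn; linarith) hx

lemma UC_diff (hn : 2 ≤ n) (c : Fin n → ℤ) : UC c \ closure (UD c) = UF c := by
  have hcl : ∀ s : Set (Fin n → ℝ), φ n ⁻¹' closure s = closure (φ n ⁻¹' s) := fun s =>
    (φ n).toHomeomorph.preimage_closure s
  unfold UD UF UC
  rw [← hcl, closure_ball (ctr c) (del_pos hn).ne', preimage_inter, preimage_compl]
  rfl

lemma frontier_UD_subset (hn : 2 ≤ n) (c : Fin n → ℤ) : frontier (UD c) ⊆ closure (UF c) := by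
  have hcl : ∀ s : Set (Fin n → ℝ), φ n ⁻¹' closure s = closure (φ n ⁻¹' s) := fun s =>
    (φ n).toHomeomorph.preimage_closure s
  have hfr : ∀ s : Set (Fin n → ℝ), φ n ⁻¹' frontier s = frontier (φ n ⁻¹' s) := fun s =>
    (φ n).toHomeomorph.preimage_frontier s
  have h0 := (del_pos hn).ne'
  unfold UD UF
  rw [← hcl, ← hfr]
  apply preimage_mono
  rw [frontier_ball _ h0, ← frontier_closedBall _ h0]
  intro y hy
  have h1 : y ∈ closure (closedBall (ctr c) (del n))ᶜ := by
    rw [← frontier_compl] at hy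
    exact frontier_subset_closure hy
  have h2 : y ∈ ball (ctr c) (1 / 2) := by
    rw [frontier_closedBall _ h0, mem_sphere] at hy
    rw [mem_ball, hy]
    have := del_lt hn
    linarith
  exact isOpen_ball.inter_closure ⟨h2, h1⟩

/-- the open shape with frames `F` and small cubes `D` -/
def W (F D : Finset (Fin n → ℤ)) : Set (E n) := (⋃ c ∈ F, UF c) ∪ (⋃ c ∈ D, UD c)

/-- the body with frames `F` and small cubes `D` -/
def body (F D : Finset (Fin n → ℤ)) : Set (E n) := closure (W F D)

lemma isOpen_W (F D : Finset (Fin n → ℤ)) : IsOpen (W F D) :=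
  (isOpen_biUnion fun _ _ => isOpen_UF _).union (isOpen_biUnion fun _ _ => isOpen_UD _)

lemma mem_W {F D : Finset (Fin n → ℤ)} {x : E n} :
    x ∈ W F D ↔ (∃ c ∈ F, x ∈ UF c) ∨ (∃ c ∈ D, x ∈ UD c) := by
  simp [W]

lemma disjoint_W (hn : 2 ≤ n) {F D F' D' : Finset (Fin n → ℤ)} (h1 : Disjoint F F')
    (h2 : Disjoint D D') : Disjoint (W F D) (W F' D') := by
  rw [Set.disjoint_left]
  intro x hx hx'
  rw [mem_W] at hx hx'
  rcases hx with ⟨c, hc, hx⟩ | ⟨c, hc, hx⟩ <;> rcases hx' with ⟨c', hc', hx'⟩ | ⟨c', hc', hx'⟩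
  · by_cases h : c = c'
    · subst h; exact Finset.disjoint_left.1 h1 hc hc'
    · exact Set.disjoint_left.1 (disjoint_UC h) (UF_subset_UC _ hx) (UF_subset_UC _ hx')
  · by_cases h : c = c'
    · subst h; exact Set.disjoint_left.1 (disjoint_UF_UD _) hx hx'
    · exact Set.disjoint_left.1 (disjoint_UC h) (UF_subset_UC _ hx) (UD_subset_UC hn _ hx')
  · by_cases h : c = c'
    · subst h; exact Set.disjoint_left.1 (disjoint_UF_UD _) hx' hx
    · exact Set.disjoint_left.1 (disjoint_UC h) (UD_subset_UC hn _ hx) (UF_subset_UC _ hx')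
  · by_cases h : c = c'
    · subst h; exact Finset.disjoint_left.1 h2 hc hc'
    · exact Set.disjoint_left.1 (disjoint_UC h) (UD_subset_UC hn _ hx) (UD_subset_UC hn _ hx')

/-- closures of disjoint open sets have disjoint interiors -/
lemma disjoint_interior_closure {X : Type*} [TopologicalSpace X] {U V : Set X}
    (hV : IsOpen V) (h : Disjoint U V) : Disjoint (interior (closure U)) (interior (closure V)) := by
  have h1 : Disjoint (closure U) V := h.closure_left hV
  have h2 : Disjoint (interior (closure U)) (closure V) :=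
    (h1.mono_left interior_subset).closure_right isOpen_interior
  exact h2.mono_right interior_subset

/-- a preconnected set that meets an open set and not its frontier lies in it -/
lemma preconn_subset {X : Type*} [TopologicalSpace X] {S U : Set X} (hS : IsPreconnected S)
    (hU : IsOpen U) (h1 : (S ∩ U).Nonempty) (h2 : S ∩ frontier U = ∅) : S ⊆ U := by
  refine hS.subset_left_of_subset_union hU isClosed_closure.isOpen_compl
    (v := (closure U)ᶜ) ?_ ?_ h1
  · rw [Set.disjoint_left]
    intro x hx hx'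
    exact hx' (subset_closure hx)
  · intro x hx
    by_cases h : x ∈ closure U
    · left
      by_contra h3
      have : x ∈ S ∩ frontier U := ⟨hx, ⟨h, fun h4 => h3 (interior_subset h4)⟩⟩
      rw [h2] at this
      exact this
    · right; exact h

lemma exists_mem_UC_CC (x : E n) : x ∈ CC (fun l => ⌊x l⌋) := by
  show φ n x ∈ closedBall _ _
  rw [mem_closedBall, dist_pi_le_iff (by norm_num)]
  intro l
  rw [Real.dist_eq, φ_apply, ctr, abs_le]
  have h1 := Int.floor_le (x l)
  have h2 := Int.lt_floor_add_one (x l)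
  constructor <;> simp only <;> linarith

lemma norm_bound_CC {c : Fin n → ℤ} {x : E n} (hx : x ∈ CC c) (l : Fin n) :
    (c l : ℝ) ≤ x l ∧ x l ≤ c l + 1 := by
  have := (dist_pi_le_iff (by norm_num : (0 : ℝ) ≤ 1 / 2)).1 (mem_closedBall.1 hx) l
  rw [Real.dist_eq, φ_apply, ctr, abs_le] at this
  constructor <;> linarith [this.1, this.2]

lemma isClosed_CC (c : Fin n → ℤ) : IsClosed (CC c) := isClosed_closedBall.preimage (φ n).continuous

lemma UC_subset_CC (c : Fin n → ℤ) : UC c ⊆ CC c := fun _ hx => ball_subset_closedBall hx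

lemma body_subset (hn : 2 ≤ n) (F D : Finset (Fin n → ℤ)) :
    body F D ⊆ ⋃ c ∈ F ∪ D, CC c := by
  have hcl : IsClosed (⋃ c ∈ F ∪ D, CC (n := n) c) :=
    Set.Finite.isClosed_biUnion (F ∪ D).finite_toSet (fun c _ => isClosed_CC c)
  apply closure_minimal _ hcl
  intro x hx
  rw [mem_W] at hx
  simp only [mem_iUnion]
  rcases hx with ⟨c, hc, hx⟩ | ⟨c, hc, hx⟩
  · exact ⟨c, Finset.mem_union_left _ hc, UC_subset_CC _ (UF_subset_UC _ hx)⟩
  · exact ⟨c, Finset.mem_union_right _ hc, UC_subset_CC _ (UD_subset_UC hn _ hx)⟩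

lemma isCompact_CC (c : Fin n → ℤ) : IsCompact (CC c) :=
  (φ n).toHomeomorph.isCompact_preimage.2 (isCompact_closedBall _ _)

lemma isCompact_body (hn : 2 ≤ n) (F D : Finset (Fin n → ℤ)) : IsCompact (body F D) :=
  ((F ∪ D).finite_toSet.isCompact_biUnion (fun c _ => isCompact_CC c)).of_isClosed_subset
    isClosed_closure (body_subset hn F D)

lemma W_subset_interior (F D : Finset (Fin n → ℤ)) : W F D ⊆ interior (body F D) :=
  interior_maximal subset_closure (isOpen_W F D)

lemma closure_interior_body (F D : Finset (Fin n → ℤ)) :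
    closure (interior (body F D)) = body F D := by
  apply subset_antisymm
  · exact closure_minimal interior_subset isClosed_closure
  · exact closure_mono (W_subset_interior F D)

lemma UD_nonempty (hn : 2 ≤ n) (c : Fin n → ℤ) : (φ n).symm (ctr c) ∈ UD c := by
  show φ n _ ∈ ball _ _
  simp [del_pos hn]

lemma UF_nonempty (hn : 2 ≤ n) (c : Fin n → ℤ) :
    (φ n).symm (fun l => ctr c l + 1 / 4) ∈ UF c := by
  have h0 : 0 < n := by omega
  show φ n _ ∈ (ball (ctr c) (1 / 2) ∩ (closedBall (ctr c) (del n))ᶜ)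
  rw [ContinuousLinearEquiv.apply_symm_apply]
  constructor
  · rw [mem_ball, dist_pi_lt_iff (by norm_num)]
    intro l
    rw [Real.dist_eq]
    norm_num
  · rw [mem_compl_iff, mem_closedBall, dist_pi_le_iff (del_pos hn).le]
    push Not
    refine ⟨⟨0, h0⟩, ?_⟩
    rw [Real.dist_eq]
    have := del_lt hn
    norm_num
    linarith

end Pool.Agent.H389R3.Heesch
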