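import Pool.Agent.H389R3.HeeschPattern

set_option autoImplicit false

namespace Pool.Agent.H389R3.Heesch

open Set Metric

variable {n : ℕ}

/-- The `k`-th corona of `A` in the family `P`: the tiles of `P` reachable from `A` by a chain of
at most `k + 1` tiles of `P` (so at most `k` steps) in which consecutive tiles intersect. -/
def corona (P : Set (Set (E n))) (A : Set (E n)) (k : ℕ) : Set (Set (E n)) :=
  {Q | ∃ (m : ℕ) (c : ℕ → Set (E n)), m ≤ k ∧ c 0 = A ∧ c m = Q ∧ (∀ i ≤ m, c i ∈ P) ∧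
    ∀ i < m, (c i ∩ c (i + 1)).Nonempty}

/-- `A` can be completely surrounded `k` times by congruent copies of itself: there is a finite
patch of congruent copies of `A` that contains `A` in which, for every `j = 1, ..., k`, the union
of the `(j-1)`-st corona lies in the interior of the union of the `j`-th corona. -/
def Surrounded (A : Set (E n)) (k : ℕ) : Prop :=
  ∃ P : Set (Set (E n)), P.Finite ∧ IsPatch A P ∧ A ∈ P ∧
    ∀ j, 1 ≤ j → j ≤ k → ⋃₀ corona P A (j - 1) ⊆ interior (⋃₀ corona P A j)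

lemma congruent_trans {A B C : Set (E n)} (h1 : Congruent A B) (h2 : Congruent B C) :
    Congruent A C := by
  obtain ⟨g, rfl⟩ := h1
  obtain ⟨g', rfl⟩ := h2
  exact ⟨g.trans g', by rw [← image_comp]; rfl⟩

lemma congruent_symm {A B : Set (E n)} (h1 : Congruent A B) : Congruent B A := by
  obtain ⟨g, rfl⟩ := h1
  refine ⟨g.symm, ?_⟩
  rw [← image_comp]
  have : (g.symm : E n → E n) ∘ g = id := by
    ext1 x; simp
  rw [this, image_id]

lemma image_body (g : E n ≃ᵢ E n) (γ : (Fin n → ℤ) → (Fin n → ℤ))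
    (hγ : ∀ x c, dist (φ n (g x)) (ctr (γ c)) = dist (φ n x) (ctr c))
    (F D : Finset (Fin n → ℤ)) : g '' body F D = body (F.image γ) (D.image γ) := by
  have hF : ∀ x c, g x ∈ UF (γ c) ↔ x ∈ UF c := by
    intro x c
    show (dist (φ n (g x)) (ctr (γ c)) < 1 / 2 ∧ ¬ dist (φ n (g x)) (ctr (γ c)) ≤ del n) ↔
      (dist (φ n x) (ctr c) < 1 / 2 ∧ ¬ dist (φ n x) (ctr c) ≤ del n)
    rw [hγ]
  have hD : ∀ x c, g x ∈ UD (γ c) ↔ x ∈ UD c := by
    intro x c
    show dist (φ n (g x)) (ctr (γ c)) < del n ↔ dist (φ n x) (ctr c) < del n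
    rw [hγ]
  have hW : ∀ x, g x ∈ W (F.image γ) (D.image γ) ↔ x ∈ W F D := by
    intro x
    rw [mem_W, mem_W]
    simp only [Finset.mem_image, exists_exists_and_eq_and, hF, hD]
  have hW' : g '' W F D = W (F.image γ) (D.image γ) := by
    ext z
    constructor
    · rintro ⟨x, hx, rfl⟩
      exact (hW x).2 hx
    · intro hz
      refine ⟨g.symm z, (hW _).1 (by simpa using hz), by simp⟩
  have e := g.toHomeomorph.image_closure (W F D)
  change g '' closure (W F D) = closure (g '' W F D) at e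
  unfold body
  rw [e, hW']

lemma congruent_translate (F D : Finset (Fin n → ℤ)) (w : Fin n → ℤ) :
    Congruent (body F D) (body (F.image (fun c => c + w)) (D.image (fun c => c + w))) := by
  refine ⟨IsometryEquiv.addRight ((φ n).symm (fun l => (w l : ℝ))), image_body _ _ ?_ _ _⟩
  intro x c
  have h1 : ctr (c + w) = ctr c + (fun l => (w l : ℝ)) := by
    ext l
    simp [ctr]
    ring
  have h2 : φ n ((IsometryEquiv.addRight ((φ n).symm (fun l => (w l : ℝ)))) x) =
      φ n x + (fun l => (w l : ℝ)) := by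
    simp
  rw [h1, h2, dist_add_right]

lemma congruent_reflect (i₀ : Fin n) (F D : Finset (Fin n → ℤ)) (m : ℤ) :
    Congruent (body F D) (body (F.image (fun c => Function.update c i₀ (m - c i₀)))
      (D.image (fun c => Function.update c i₀ (m - c i₀)))) := by
  let g₁ : E n ≃ᵢ E n := (LinearIsometryEquiv.piLpCongrRight 2
    (fun l => if l = i₀ then LinearIsometryEquiv.neg ℝ else LinearIsometryEquiv.refl ℝ ℝ)).toIsometryEquiv
  have hg : ∀ (x : E n) l, (φ n (g₁ x)) l = if l = i₀ then - x l else x l := by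
    intro x l
    show (if l = i₀ then LinearIsometryEquiv.neg ℝ else LinearIsometryEquiv.refl ℝ ℝ :
      ℝ ≃ₗᵢ[ℝ] ℝ) (x l) = _
    by_cases h : l = i₀
    · simp [h]
    · simp [h]
  have h1 : g₁ '' body F D = body (F.image (fun c => Function.update c i₀ (-1 - c i₀)))
      (D.image (fun c => Function.update c i₀ (-1 - c i₀))) := by
    apply image_body
    intro x c
    rw [dist_pi_def, dist_pi_def]
    congr 2
    ext l
    rw [coe_nndist, coe_nndist, Real.dist_eq, Real.dist_eq, hg]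
    by_cases h : l = i₀
    · subst h
      rw [φ_apply, ← abs_neg]
      simp only [if_true, ctr, Function.update_self]
      congr 1
      push_cast
      ring
    · rw [φ_apply]
      simp [h, ctr]
  have h2 := congruent_translate (F.image (fun c => Function.update c i₀ (-1 - c i₀)))
    (D.image (fun c => Function.update c i₀ (-1 - c i₀))) (Function.update 0 i₀ (m + 1))
  have h3 : ∀ S : Finset (Fin n → ℤ), ((S.image (fun c => Function.update c i₀ (-1 - c i₀))).image
      (fun c => c + Function.update (0 : Fin n → ℤ) i₀ (m + 1))) =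
      S.image (fun c => Function.update c i₀ (m - c i₀)) := by
    intro S
    rw [Finset.image_image]
    congr 1
    ext c l
    by_cases h : l = i₀
    · subst h; simp; ring
    · simp [h]
  rw [h3, h3] at h2
  exact congruent_trans ⟨g₁, h1⟩ h2

variable {i₀ i₁ : Fin n} {q : ℤ}

lemma congruent_base (h01 : i₀ ≠ i₁) (w : Fin n → ℤ) {s : ℤ} (hs : s = q + 1 ∨ s = -1) :
    Congruent (body (Fs i₀ q 0) (Ds i₀ i₁ q 0 (q + 1)) : Set (E n))
      (body (Fs i₀ q w) (Ds i₀ i₁ q w s)) := by
  have h1 := congruent_translate (Fs i₀ q 0) (Ds i₀ i₁ q 0 (q + 1)) w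
  have e1 : (Fs i₀ q 0).image (fun c => c + w) = Fs i₀ q w := by
    ext c
    rw [Finset.mem_image, mem_Fs]
    constructor
    · rintro ⟨a, ha, rfl⟩
      rw [mem_Fs] at ha
      simp only [Pi.zero_apply] at ha
      refine ⟨fun l hl => by simp [ha.1 l hl], ?_, ?_⟩ <;> simp only [Pi.add_apply] <;> omega
    · rintro ⟨h1, h2, h3⟩
      refine ⟨c - w, ?_, by simp⟩
      rw [mem_Fs]
      simp only [Pi.zero_apply, Pi.sub_apply]
      refine ⟨fun l hl => by rw [h1 l hl]; simp, ?_, ?_⟩ <;> omega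
  have e2 : (Ds i₀ i₁ q 0 (q + 1)).image (fun c => c + w) = Ds i₀ i₁ q w (q + 1) := by
    ext c
    rw [Finset.mem_image, mem_Ds h01]
    constructor
    · rintro ⟨a, ha, rfl⟩
      rw [mem_Ds h01] at ha
      simp only [Pi.zero_apply] at ha
      refine ⟨fun l hl hl' => by simp [ha.1 l hl hl'], ?_, ?_, ?_⟩ <;>
        simp only [Pi.add_apply] <;> omega
    · rintro ⟨h1, h2, h3, h4⟩
      refine ⟨c - w, ?_, by simp⟩
      rw [mem_Ds h01]
      simp only [Pi.zero_apply, Pi.sub_apply]
      refine ⟨fun l hl hl' => by rw [h1 l hl hl']; simp, ?_, ?_, ?_⟩ <;> omega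
  rw [e1, e2] at h1
  rcases hs with rfl | rfl
  · exact h1
  · refine congruent_trans h1 ?_
    have h2 := congruent_reflect i₀ (Fs i₀ q w) (Ds i₀ i₁ q w (q + 1)) (2 * w i₀ + q)
    have e3 : (Fs i₀ q w).image (fun c => Function.update c i₀ (2 * w i₀ + q - c i₀)) =
        Fs i₀ q w := by
      ext c
      rw [Finset.mem_image]
      constructor
      · rintro ⟨a, ha, rfl⟩
        rw [mem_Fs] at ha ⊢
        refine ⟨fun l hl => by simp [hl, ha.1 l hl], ?_, ?_⟩ <;>
          simp only [Function.update_self] <;> omega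
      · intro hc
        rw [mem_Fs] at hc
        refine ⟨Function.update c i₀ (2 * w i₀ + q - c i₀), ?_, ?_⟩
        · rw [mem_Fs]
          refine ⟨fun l hl => by simp [hl, hc.1 l hl], ?_, ?_⟩ <;>
            simp only [Function.update_self] <;> omega
        · ext l
          by_cases h : l = i₀
          · subst h; simp
          · simp [h]
    have e4 : (Ds i₀ i₁ q w (q + 1)).image (fun c => Function.update c i₀ (2 * w i₀ + q - c i₀)) =
        Ds i₀ i₁ q w (-1) := by
      ext c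
      rw [Finset.mem_image]
      constructor
      · rintro ⟨a, ha, rfl⟩
        rw [mem_Ds h01] at ha ⊢
        refine ⟨fun l hl hl' => by simp [hl, ha.1 l hl hl'], ?_, ?_, ?_⟩ <;>
          simp only [Function.update_self, ne_eq, h01.symm, not_false_eq_true,
            Function.update_of_ne] <;> omega
      · intro hc
        rw [mem_Ds h01] at hc
        refine ⟨Function.update c i₀ (2 * w i₀ + q - c i₀), ?_, ?_⟩
        · rw [mem_Ds h01]
          refine ⟨fun l hl hl' => by simp [hl, hc.1 l hl hl'], ?_, ?_, ?_⟩ <;>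
            simp only [Function.update_self, ne_eq, h01.symm, not_false_eq_true,
            Function.update_of_ne] <;> omega
        · ext l
          by_cases h : l = i₀
          · subst h; simp
          · simp [h]
    rw [e3, e4] at h2
    exact h2

lemma sgn_or (v : Fin n → ℤ) : sgn i₀ i₁ q v = q + 1 ∨ sgn i₀ i₁ q v = -1 := by
  rcases sgn_cases (i₀ := i₀) (i₁ := i₁) (q := q) v with h | h
  · exact Or.inl h.2
  · exact Or.inr h.2

lemma congruent_tile (h01 : i₀ ≠ i₁) (v v' : Fin n → ℤ) :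
    Congruent (tile i₀ i₁ q v : Set (E n)) (tile i₀ i₁ q v') :=
  congruent_trans (congruent_symm (congruent_base h01 _ (sgn_or v)))
    (congruent_base h01 _ (sgn_or v'))

lemma tile_disjoint (hn : 2 ≤ n) (h01 : i₀ ≠ i₁) (hq : 0 < q) {v v' : Fin n → ℤ} (hne : v ≠ v') :
    Disjoint (interior (tile i₀ i₁ q v : Set (E n))) (interior (tile i₀ i₁ q v')) :=
  disjoint_interior_closure (isOpen_W _ _)
    (disjoint_W hn (disj_F h01 hq hne) (disj_D h01 hq hne))

lemma tile_extent (hn : 2 ≤ n) (h01 : i₀ ≠ i₁) (hq : 0 < q) {v : Fin n → ℤ} {x : E n}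
    (hx : x ∈ (tile i₀ i₁ q v : Set (E n))) (l : Fin n) :
    |x l - bse i₀ i₁ q v l| ≤ q + 2 := by
  have h1 := body_subset hn _ _ hx
  simp only [mem_iUnion, Finset.mem_union] at h1
  obtain ⟨c, hc, hxc⟩ := h1
  have h2 := norm_bound_CC hxc l
  set w := bse i₀ i₁ q v with hw
  have h3 : w l - 1 ≤ c l ∧ c l ≤ w l + q + 1 := by
    rcases hc with hc | hc
    · rw [mem_Fs] at hc
      by_cases hl : l = i₀
      · subst hl; constructor <;> omega
      · rw [hc.1 l hl]; constructor <;> omega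
    · rw [mem_Ds h01] at hc
      by_cases hl : l = i₀
      · subst hl
        rcases sgn_or (i₀ := l) (i₁ := i₁) (q := q) v with hs | hs <;> rw [hs] at hc <;>
          constructor <;> omega
      · by_cases hl' : l = i₁
        · subst hl'; constructor <;> omega
        · rw [hc.1 l hl hl']; constructor <;> omega
  have h4 : ((w l : ℝ)) - 1 ≤ c l := by exact_mod_cast h3.1
  have h5 : ((c l : ℝ)) ≤ w l + q + 1 := by exact_mod_cast h3.2
  rw [abs_le]
  have : (0 : ℝ) < q := by exact_mod_cast hq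
  constructor <;> linarith [h2.1, h2.2]

lemma corona_bound (hn : 2 ≤ n) (h01 : i₀ ≠ i₁) (hq : 0 < q) {S : Set (Fin n → ℤ)}
    {v₀ : Fin n → ℤ} {k : ℕ} {Q : Set (E n)}
    (hQ : Q ∈ corona (tile i₀ i₁ q '' S) (tile i₀ i₁ q v₀) k) :
    ∃ v, Q = tile i₀ i₁ q v ∧ ∀ l, |(bse i₀ i₁ q v l : ℝ) - bse i₀ i₁ q v₀ l| ≤ 2 * (q + 2) * k := by
  obtain ⟨m, c, hmk, h0, hmQ, hP, hint⟩ := hQ
  have hq' : (0 : ℝ) < q := by exact_mod_cast hq
  have key : ∀ i, i ≤ m → ∃ v, c i = tile i₀ i₁ q v ∧
      ∀ l, |(bse i₀ i₁ q v l : ℝ) - bse i₀ i₁ q v₀ l| ≤ 2 * (q + 2) * i := by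
    intro i
    induction i with
    | zero => intro _; exact ⟨v₀, h0, fun l => by simp⟩
    | succ i ih =>
      intro hi
      obtain ⟨v, hv, hb⟩ := ih (by omega)
      obtain ⟨v', -, hv'⟩ := hP (i + 1) hi
      obtain ⟨x, hx, hx'⟩ := hint i (by omega)
      rw [hv] at hx
      rw [← hv'] at hx'
      refine ⟨v', hv'.symm, fun l => ?_⟩
      have h1 := abs_le.1 (tile_extent hn h01 hq hx l)
      have h2 := abs_le.1 (tile_extent hn h01 hq hx' l)
      have h3 := abs_le.1 (hb l)
      push_cast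
      rw [abs_le]
      constructor <;> nlinarith [h1.1, h1.2, h2.1, h2.2, h3.1, h3.2]
  obtain ⟨v, hv, hb⟩ := key m le_rfl
  refine ⟨v, by rw [← hmQ, hv], fun l => (hb l).trans ?_⟩
  have : (m : ℝ) ≤ k := by exact_mod_cast hmk
  nlinarith

/-- all tiles with bounded index -/
def boxSet (n : ℕ) (N : ℤ) : Set (Fin n → ℤ) := {v | ∀ l, |v l| ≤ N}

lemma boxSet_finite (N : ℤ) : (boxSet n N).Finite := by
  have : boxSet n N ⊆ Set.Icc (fun _ => -N) (fun _ => N) := by
    intro v hv
    exact ⟨fun l => (abs_le.1 (hv l)).1, fun l => (abs_le.1 (hv l)).2⟩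
  exact (Set.finite_Icc _ _).subset this

lemma exists_tile (hn : 2 ≤ n) (h01 : i₀ ≠ i₁) {p : ℤ} (hp : 0 < p) {z : E n}
    (hz₀ : |z i₀ - (p * (2 * p + 1) : ℤ)| < (p * (2 * p + 1) : ℤ))
    (hz : ∀ l, l ≠ i₀ → |z l| < (p * (2 * p + 1) : ℤ)) :
    ∃ v ∈ boxSet n (2 * (p * (2 * p + 1)) + 2 * p + 2), z ∈ tile i₀ i₁ (2 * p) v := by
  set R : ℤ := p * (2 * p + 1) with hR
  set c : Fin n → ℤ := fun l => ⌊z l⌋ with hc
  have hzc := CC_subset hn c (exists_mem_UC_CC z)
  have hc0 : 0 ≤ c i₀ := by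
    rw [hc]
    apply Int.floor_nonneg.2
    have := (abs_lt.1 hz₀).1
    linarith
  have hc1 : c i₀ < 2 * R := by
    rw [hc]
    apply Int.floor_lt.2
    have := (abs_lt.1 hz₀).2
    push_cast at this ⊢
    linarith
  have hcl : ∀ l, l ≠ i₀ → |c l| ≤ R := by
    intro l hl
    have h1 := abs_lt.1 (hz l hl)
    rw [abs_le]
    constructor
    · apply Int.le_floor.2
      push_cast
      linarith [h1.1]
    · have : c l < R + 1 := by
        apply Int.floor_lt.2
        push_cast
        linarith [h1.2]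
      omega
  have hRp : 0 < R := by positivity
  rcases hzc with h | h
  · obtain ⟨v, hv, hv1, hv2⟩ := cover_F (q := 2 * p) h01 (by omega) c
    refine ⟨v, ?_, ?_⟩
    · intro l
      by_cases hl : l = i₀
      · subst hl
        rw [abs_of_nonneg hc0] at hv2
        omega
      · rw [hv1 l hl]
        have := hcl l hl
        omega
    · refine closure_mono ?_ h
      intro y hy
      exact mem_W.2 (Or.inl ⟨c, hv, hy⟩)
  · obtain ⟨v, hv, hv1, hv2⟩ := cover_D (q := 2 * p) h01 (by omega) c (by omega) (by linarith)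
    refine ⟨v, ?_, ?_⟩
    · intro l
      by_cases hl : l = i₀
      · subst hl
        omega
      · have h1 := hv1 l hl
        have h2 := hcl l hl
        omega
    · refine closure_mono ?_ h
      intro y hy
      exact mem_W.2 (Or.inr ⟨c, hv, hy⟩)

theorem surrounded (hn : 2 ≤ n) (h01 : i₀ ≠ i₁) (k : ℕ) {p : ℤ} (hp : p = 4 * k + 8) :
    Surrounded (tile i₀ i₁ (2 * p) (Function.update 0 i₀ p) : Set (E n)) k := by
  set v₀ : Fin n → ℤ := Function.update 0 i₀ p with hv₀
  set R : ℤ := p * (2 * p + 1) with hR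
  have hp0 : 0 < p := by omega
  have hv₀0 : v₀ i₀ = p := by simp [hv₀]
  have hv₀1 : ∀ l, l ≠ i₀ → v₀ l = 0 := fun l hl => by simp [hv₀, hl]
  have hb0 : bse i₀ i₁ (2 * p) v₀ i₀ = R := by
    rw [bse_i0, hv₀0, hv₀1 _ h01.symm]
    simp [hR]
  have hb1 : ∀ l, l ≠ i₀ → bse i₀ i₁ (2 * p) v₀ l = 0 := fun l hl => by
    rw [bse_ne _ hl, hv₀1 l hl]
  have hRp : p ≤ R := by nlinarith
  set N : ℤ := 2 * R + 2 * p + 2 with hN
  have hfin : (tile i₀ i₁ (2 * p) '' boxSet n N : Set (Set (E n))).Finite :=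
    (boxSet_finite N).image _
  refine ⟨tile i₀ i₁ (2 * p) '' boxSet n N, hfin, ⟨?_, ?_⟩, ⟨v₀, ?_, rfl⟩, ?_⟩
  · rintro _ ⟨v, -, rfl⟩
    exact congruent_tile h01 _ _
  · rintro _ ⟨v, -, rfl⟩ _ ⟨v', -, rfl⟩ hne
    exact tile_disjoint hn h01 (by omega) (fun h => hne (by rw [h]))
  · intro l
    by_cases hl : l = i₀
    · subst hl
      rw [hv₀0, abs_of_pos hp0]
      omega
    · rw [hv₀1 l hl]
      simp
      omega
  · intro j hj1 hjk x hx
    obtain ⟨Q, hQ, hxQ⟩ := hx
    have hQb := corona_bound hn h01 (by omega) hQ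
    obtain ⟨v, hv, hb⟩ := hQb
    -- `x` is well inside the covered region
    have hxb : ∀ l, |x l - bse i₀ i₁ (2 * p) v₀ l| < (R : ℝ) := by
      intro l
      have h1 := abs_le.1 (tile_extent hn h01 (by omega) (hv ▸ hxQ) l)
      have h2 := abs_le.1 (hb l)
      have h3 : ((j - 1 : ℕ) : ℝ) ≤ k := by exact_mod_cast (by omega : j - 1 ≤ k)
      have h4 : ((2 * (2 * p + 2) * k + (2 * p + 2) : ℤ) : ℝ) < (R : ℝ) := by
        have : 2 * (2 * p + 2) * k + (2 * p + 2) < R := by
          rw [hR, hp]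
          nlinarith
        exact_mod_cast this
      push_cast at h1 h2 h4 ⊢
      have hp' : (0 : ℝ) < p := by exact_mod_cast hp0
      have h5 : (2 : ℝ) * (2 * p + 2) * ((j - 1 : ℕ) : ℝ) ≤ 2 * (2 * p + 2) * k :=
        mul_le_mul_of_nonneg_left h3 (by positivity)
      rw [abs_lt]
      constructor <;> linarith [h1.1, h1.2, h2.1, h2.2]
    -- the neighbourhood
    set Z : Set (E n) := ⋃₀ {T ∈ tile i₀ i₁ (2 * p) '' boxSet n N | x ∉ T} with hZ
    have hZc : IsClosed Z := by
      rw [hZ, sUnion_eq_biUnion]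
      apply Set.Finite.isClosed_biUnion (hfin.subset (fun T hT => hT.1))
      rintro T ⟨⟨v', -, rfl⟩, -⟩
      exact isClosed_closure
    have hO : IsOpen (Zᶜ ∩ {z : E n | ∀ l, |z l - bse i₀ i₁ (2 * p) v₀ l| < (R : ℝ)}) := by
      refine hZc.isOpen_compl.inter ?_
      have : {z : E n | ∀ l, |z l - bse i₀ i₁ (2 * p) v₀ l| < (R : ℝ)} =
          ⋂ l, {z : E n | |z l - bse i₀ i₁ (2 * p) v₀ l| < (R : ℝ)} := by
        ext z; simp
      rw [this]
      apply isOpen_iInter_of_finite
      intro l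
      exact isOpen_lt (by fun_prop) continuous_const
    refine mem_interior.2 ⟨_, ?_, hO, ?_, hxb⟩
    · rintro z ⟨hzZ, hz⟩
      obtain ⟨v', hv', hzv'⟩ := exists_tile (i₁ := i₁) hn h01 hp0 (z := z)
        (by have := hz i₀; rw [hb0] at this; exact this)
        (fun l hl => by
          have := hz l
          rw [hb1 l hl, Int.cast_zero, sub_zero] at this
          exact this)
      refine ⟨tile i₀ i₁ (2 * p) v', ?_, hzv'⟩
      have hxv' : x ∈ tile i₀ i₁ (2 * p) v' := by
        by_contra hcon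
        exact hzZ ⟨_, ⟨⟨v', hv', rfl⟩, hcon⟩, hzv'⟩
      obtain ⟨m, c, hmk, h0, hmQ, hP, hint⟩ := hQ
      refine ⟨m + 1, fun i => if i ≤ m then c i else tile i₀ i₁ (2 * p) v', by omega, by simp [h0],
        by simp, ?_, ?_⟩
      · intro i hi
        by_cases h : i ≤ m
        · simp only [h, if_true]; exact hP i h
        · simp only [h, if_false]; exact ⟨v', hv', rfl⟩
      · intro i hi
        by_cases h : i + 1 ≤ m
        · simp only [h, if_true, (by omega : i ≤ m)]; exact hint i (by omega)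
        · have : i = m := by omega
          subst this
          simp only [le_refl, if_true, h, if_false]
          exact ⟨x, by rw [hmQ]; exact hxQ, hxv'⟩
    · rintro ⟨T, ⟨-, hT⟩, hxT⟩
      exact hT hxT

end Pool.Agent.H389R3.Heesch
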