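import Pool.Agent.H389R3.HeeschNoTile

set_option autoImplicit false

namespace Pool.Agent.H389R3.Heesch

open Set Metric MeasureTheory

variable {n : ℕ}

/-- A body: a compact set that equals the closure of its nonempty interior. -/
def IsBody (A : Set (E n)) : Prop :=
  IsCompact A ∧ (interior A).Nonempty ∧ closure (interior A) = A

/-- `Q` is congruent to `A`: some isometry of Euclidean space maps `A` onto `Q`. -/
def Congruent (A Q : Set (E n)) : Prop := ∃ g : E n ≃ᵢ E n, g '' A = Q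

/-- `P` is a patch of congruent copies of `A`: its members are congruent to `A` and have pairwise
disjoint interiors. -/
def IsPatch (A : Set (E n)) (P : Set (Set (E n))) : Prop :=
  (∀ Q ∈ P, Congruent A Q) ∧ ∀ Q ∈ P, ∀ Q' ∈ P, Q ≠ Q' → Disjoint (interior Q) (interior Q')

/-- `A` is the prototile of a monohedral tiling: some countable family of congruent copies of `A`
with pairwise disjoint interiors covers the space. -/
def TilesSpace (A : Set (E n)) : Prop :=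
  ∃ P : Set (Set (E n)), P.Countable ∧ IsPatch A P ∧ ⋃₀ P = univ

lemma card_bound {ι : Type*} (hn : 2 ≤ n) {X : ι → E n} {r₀ : ℝ} (hr₀ : 0 < r₀)
    (hdisj : ∀ i j, i ≠ j → Disjoint (ball (X i) r₀) (ball (X j) r₀)) {ρ : ℝ} (hρ : 0 ≤ ρ)
    (s : Finset ι) (hs : ∀ i ∈ s, dist (X i) 0 ≤ ρ) : (s.card : ℝ) ≤ ((ρ + r₀) / r₀) ^ n := by
  have hn0 : 0 < n := by omega
  have : Nonempty (Fin n) := ⟨⟨0, hn0⟩⟩
  have : Nontrivial (E n) := by
    refine ⟨0, (φ n).symm (fun _ => 1), ?_⟩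
    intro h
    have := congrArg (fun z : E n => z ⟨0, hn0⟩) h
    have h2 : ((φ n).symm (fun _ => (1 : ℝ))) ⟨0, hn0⟩ = 1 := rfl
    rw [h2] at this
    exact zero_ne_one this
  set μ : Measure (E n) := volume with hμ
  have h1 : ∑ i ∈ s, μ (ball (X i) r₀) ≤ μ (ball 0 (ρ + r₀)) := by
    rw [← measure_biUnion_finset]
    · apply measure_mono
      intro x hx
      simp only [mem_iUnion] at hx
      obtain ⟨i, hi, hx⟩ := hx
      rw [mem_ball] at hx ⊢
      calc dist x 0 ≤ dist x (X i) + dist (X i) 0 := dist_triangle _ _ _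
        _ < r₀ + ρ := add_lt_add_of_lt_of_le hx (hs i hi)
        _ = ρ + r₀ := add_comm _ _
    · intro i _ j _ hij
      exact hdisj i j hij
    · intro i _
      exact measurableSet_ball
  have h2 : ∀ i, μ (ball (X i) r₀) = ENNReal.ofReal (r₀ ^ n) * μ (ball 0 1) := by
    intro i
    have := Measure.addHaar_ball μ (X i) hr₀.le
    rw [finrank_euclideanSpace_fin] at this
    exact this
  have h3 : μ (ball 0 (ρ + r₀)) = ENNReal.ofReal ((ρ + r₀) ^ n) * μ (ball 0 1) := by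
    have := Measure.addHaar_ball μ (0 : E n) (show 0 ≤ ρ + r₀ by linarith)
    rw [finrank_euclideanSpace_fin] at this
    exact this
  have h4 : μ (ball (0 : E n) 1) ≠ 0 := (measure_ball_pos μ _ one_pos).ne'
  have h5 : μ (ball (0 : E n) 1) ≠ ⊤ := measure_ball_lt_top.ne
  simp only [h2, Finset.sum_const, nsmul_eq_mul, h3, ← mul_assoc] at h1
  rw [ENNReal.mul_le_mul_iff_left h4 h5] at h1
  have h6 : ((s.card : ENNReal)) = ENNReal.ofReal (s.card : ℝ) := by
    rw [ENNReal.ofReal_natCast]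
  rw [h6, ← ENNReal.ofReal_mul (by positivity), ENNReal.ofReal_le_ofReal_iff (by positivity)] at h1
  rw [div_pow, le_div_iff₀ (by positivity)]
  exact h1

lemma growth_contradiction {a b : ℕ} (hb : 0 < b) (hab : b < a) {M : ℕ → ℕ} (h0 : 1 ≤ M 0)
    (hrec : ∀ m, a * M m ≤ b * M (m + 1)) {C : ℝ}
    (hM : ∀ m, (M m : ℝ) ≤ (C * (m + 1)) ^ n) : False := by
  set r : ℝ := (a : ℝ) / b with hr
  have hb' : (0 : ℝ) < b := by exact_mod_cast hb
  have hr1 : 1 < r := by
    rw [hr, one_lt_div hb']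
    exact_mod_cast hab
  have h1 : ∀ m, r ^ m ≤ M m := by
    intro m
    induction m with
    | zero => simpa using h0
    | succ m ih =>
      have h2 : (a : ℝ) * M m ≤ b * M (m + 1) := by exact_mod_cast hrec m
      have h3 : r * M m ≤ M (m + 1) := by
        rw [hr, div_mul_eq_mul_div, div_le_iff₀ hb']
        linarith
      calc r ^ (m + 1) = r * r ^ m := by ring
        _ ≤ r * M m := by gcongr
        _ ≤ _ := h3
  have h2 := tendsto_pow_const_div_const_pow_of_one_lt n hr1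
  have h3 : Filter.Tendsto (fun m : ℕ => C ^ n * r * (((m + 1 : ℕ) : ℝ) ^ n / r ^ (m + 1)))
      Filter.atTop (nhds (C ^ n * r * 0)) :=
    ((Filter.tendsto_add_atTop_iff_nat 1).2 h2).const_mul _
  rw [mul_zero] at h3
  have h4 : ∀ m : ℕ, 1 ≤ C ^ n * r * (((m + 1 : ℕ) : ℝ) ^ n / r ^ (m + 1)) := by
    intro m
    have h5 : r ^ m ≤ (C * (m + 1)) ^ n := (h1 m).trans (hM m)
    have hpos : 0 < r ^ m := by positivity
    have : C ^ n * r * (((m + 1 : ℕ) : ℝ) ^ n / r ^ (m + 1)) = (C * (m + 1)) ^ n / r ^ m := by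
      rw [mul_pow, pow_succ]
      push_cast
      have : r ≠ 0 := by positivity
      field_simp
    rw [this, le_div_iff₀ hpos]
    linarith
  have h5 := ge_of_tendsto' h3 h4
  linarith

theorem not_tiles (hn : 2 ≤ n) {F D : Finset (Fin n → ℤ)} (hFD : Disjoint F D)
    (hcard : D.card < F.card) : ¬ TilesSpace (body F D : Set (E n)) := by
  rintro ⟨P, -, ⟨hcong, hdisj⟩, hcov⟩
  have hFne : F.Nonempty := Finset.card_pos.1 (by omega)
  obtain ⟨a₀, ha₀⟩ := hFne
  choose g hg using fun Q : P => hcong Q.1 Q.2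
  have hsep : ∀ Q Q' : P, Q ≠ Q' → ∀ x ∈ W F D, ∀ y ∈ W F D, g Q x ≠ g Q' y := by
    intro Q Q' hne x hx y hy h
    have h1 : ∀ R : P, ∀ z ∈ W F D, g R z ∈ interior R.1 := by
      intro R z hz
      have h2 : g R '' W F D ⊆ interior R.1 := by
        apply interior_maximal
        · rw [← hg R]
          exact image_mono subset_closure
        · exact (g R).toHomeomorph.isOpenMap _ (isOpen_W F D)
      exact h2 ⟨z, hz, rfl⟩
    have h2 := hdisj Q.1 Q.2 Q'.1 Q'.2 (fun h => hne (Subtype.ext h))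
    exact Set.disjoint_left.1 h2 (h1 Q x hx) (h ▸ h1 Q' y hy)
  -- the comparison isometries
  have hcomp : ∀ Q Q' : P, Q ≠ Q' → ∀ x ∈ W F D, ((g Q').trans (g Q).symm) x ∉ W F D := by
    intro Q Q' hne x hx hmem
    refine hsep Q Q' hne _ hmem x hx ?_
    simp
  -- base point
  obtain ⟨z₀, hz₀⟩ : (W F D : Set (E n)).Nonempty :=
    ⟨_, mem_W.2 (Or.inl ⟨a₀, ha₀, UF_nonempty hn a₀⟩)⟩
  obtain ⟨r₀, hr₀, hball⟩ := Metric.isOpen_iff.1 (isOpen_W F D) z₀ hz₀
  obtain ⟨d, hd⟩ : ∃ d : ℝ, (body F D ∪ ⋃ a ∈ F, CC a) ⊆ closedBall z₀ d := by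
    have : Bornology.IsBounded (body F D ∪ ⋃ a ∈ F, CC a : Set (E n)) :=
      (isCompact_body hn F D).isBounded.union
        (F.finite_toSet.isCompact_biUnion (fun c _ => isCompact_CC c)).isBounded
    exact this.subset_closedBall z₀
  have hd0 : 0 ≤ d := by
    have : z₀ ∈ closedBall z₀ d := hd (Or.inl (subset_closure hz₀))
    simpa using this
  -- every hole contains a point of a small cube
  have hfill : ∀ (Q : P) (a : F), ∃ (Q' : P) (b : D), Q' ≠ Q ∧
      ∃ y ∈ (UD b.1 : Set (E n)), ((g Q').trans (g Q).symm) y ∈ (UD a.1 : Set (E n)) := by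
    intro Q a
    have h1 : g Q ((φ n).symm (ctr a.1)) ∈ ⋃₀ P := hcov ▸ mem_univ _
    obtain ⟨R, hR, hmem⟩ := h1
    have h2 : g Q ((φ n).symm (ctr a.1)) ∈ closure (g ⟨R, hR⟩ '' W F D) := by
      have e := (g ⟨R, hR⟩).toHomeomorph.image_closure (W F D)
      have e2 := hg ⟨R, hR⟩
      change g ⟨R, hR⟩ '' closure (W F D) = R at e2
      change g ⟨R, hR⟩ '' closure (W F D) = closure (g ⟨R, hR⟩ '' W F D) at e
      rw [← e, e2]
      exact hmem
    have h3 : IsOpen (g Q '' UD a.1) := (g Q).toHomeomorph.isOpenMap _ (isOpen_UD a.1)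
    obtain ⟨_, ⟨x, hx, rfl⟩, ⟨y, hy, hyx⟩⟩ :=
      mem_closure_iff.1 h2 _ h3 ⟨_, UD_nonempty hn a.1, rfl⟩
    have h4 : ((g ⟨R, hR⟩).trans (g Q).symm) y = x := by
      change (g Q).symm (g ⟨R, hR⟩ y) = x
      rw [hyx, IsometryEquiv.symm_apply_apply]
    have hne : (⟨R, hR⟩ : P) ≠ Q := by
      intro h
      subst h
      have h5 : y = x := (g ⟨R, hR⟩).injective hyx
      subst h5
      rcases mem_W.1 hy with ⟨c, hc, hy⟩ | ⟨c, hc, hy⟩
      · by_cases h6 : c = a.1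
        · rw [h6] at hy
          exact Set.disjoint_left.1 (disjoint_UF_UD _) hy hx
        · exact Set.disjoint_left.1 (disjoint_UC h6) (UF_subset_UC _ hy) (UD_subset_UC hn _ hx)
      · by_cases h6 : c = a.1
        · exact Finset.disjoint_left.1 hFD a.2 (h6 ▸ hc)
        · exact Set.disjoint_left.1 (disjoint_UC h6) (UD_subset_UC hn _ hy) (UD_subset_UC hn _ hx)
    rcases mem_W.1 hy with ⟨c, hc, hy'⟩ | ⟨c, hc, hy'⟩
    · exact absurd (h4 ▸ hx) (frame_not_hole _ hn (hcomp Q ⟨R, hR⟩ hne.symm) a.2 hc hy')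
    · exact ⟨⟨R, hR⟩, ⟨c, hc⟩, hne, y, hy', h4 ▸ hx⟩
  choose Q' b hne y hy hyU using hfill
  -- injectivity
  have hinj : ∀ Q₁ a₁ Q₂ a₂, Q' Q₁ a₁ = Q' Q₂ a₂ → b Q₁ a₁ = b Q₂ a₂ → Q₁ = Q₂ ∧ a₁ = a₂ := by
    intro Q₁ a₁ Q₂ a₂ h1 h2
    -- the centre of the small cube lies in both holes
    set c := b Q₁ a₁ with hc
    have hin : ∀ Q a, b Q a = c → (((g (Q' Q a)).trans (g Q).symm) ((φ n).symm (ctr c.1))
        ∈ (UD a.1 : Set (E n))) := by
      intro Q a hb
      have := subset_hole ((g (Q' Q a)).trans (g Q).symm) hn (hcomp Q _ (hne Q a).symm) a.2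
        (convex_UD (b Q a).1).isPreconnected
        (fun z hz => mem_W.2 (Or.inr ⟨_, (b Q a).2, hz⟩)) (hy Q a) (hyU Q a)
      rw [hb] at this
      exact this _ (UD_nonempty hn c.1)
    have h3 := hin Q₁ a₁ rfl
    have h4 := hin Q₂ a₂ h2.symm
    rw [← h1] at h4
    by_cases hQ : Q₁ = Q₂
    · subst hQ
      refine ⟨rfl, ?_⟩
      by_contra ha
      exact Set.disjoint_left.1 (disjoint_UC (fun h => ha (Subtype.ext h)))
        (UD_subset_UC hn _ h3) (UD_subset_UC hn _ h4)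
    · exfalso
      have h5 : ((g Q₂).trans (g Q₁).symm) (((g (Q' Q₁ a₁)).trans (g Q₂).symm)
          ((φ n).symm (ctr c.1))) = ((g (Q' Q₁ a₁)).trans (g Q₁).symm) ((φ n).symm (ctr c.1)) := by
        simp
      rw [← h5] at h3
      exact hole_not_hole _ hn (hcomp Q₁ Q₂ hQ) a₁.2 a₂.2 h4 h3
  -- distances
  have hdist : ∀ Q a, dist (g (Q' Q a) z₀) (g Q z₀) ≤ 2 * d := by
    intro Q a
    have h1 : dist (g (Q' Q a) (y Q a)) (g (Q' Q a) z₀) ≤ d := by
      rw [(g (Q' Q a)).dist_eq]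
      exact mem_closedBall.1
        (hd (Or.inl (subset_closure (mem_W.2 (Or.inr ⟨_, (b Q a).2, hy Q a⟩)))))
    have h2 : dist (g Q ((g Q).symm (g (Q' Q a) (y Q a)))) (g Q z₀) ≤ d := by
      rw [(g Q).dist_eq]
      refine mem_closedBall.1 (hd (Or.inr ?_))
      simp only [mem_iUnion]
      exact ⟨a.1, a.2, UC_subset_CC _ (UD_subset_UC hn _ (hyU Q a))⟩
    rw [IsometryEquiv.apply_symm_apply] at h2
    calc dist (g (Q' Q a) z₀) (g Q z₀)
        ≤ dist (g (Q' Q a) (y Q a)) (g (Q' Q a) z₀) + dist (g (Q' Q a) (y Q a)) (g Q z₀) :=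
          dist_triangle_left _ _ _
      _ ≤ _ := by linarith
  have hballs : ∀ Q R : P, Q ≠ R → Disjoint (ball (g Q z₀) r₀) (ball (g R z₀) r₀) := by
    intro Q R hQR
    rw [Set.disjoint_left]
    intro x hx hx'
    rw [← (g Q).image_ball] at hx
    rw [← (g R).image_ball] at hx'
    obtain ⟨u, hu, rfl⟩ := hx
    obtain ⟨v, hv, hvu⟩ := hx'
    exact hsep R Q hQR.symm v (hball hv) u (hball hu) hvu
  -- the counting function
  obtain ⟨R₀, hR₀, -⟩ : z₀ ∈ ⋃₀ P := hcov ▸ mem_univ _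
  set ρ₀ : ℝ := dist (g ⟨R₀, hR₀⟩ z₀) 0 with hρ₀
  have hρ₀0 : 0 ≤ ρ₀ := dist_nonneg
  let N : ℕ → Set P := fun m => {Q | dist (g Q z₀) 0 ≤ ρ₀ + 2 * d * m}
  have hNb : ∀ m (s : Finset P), (∀ Q ∈ s, Q ∈ N m) →
      (s.card : ℝ) ≤ ((ρ₀ + 2 * d * m + r₀) / r₀) ^ n := by
    intro m s hs
    exact card_bound hn hr₀ hballs (by positivity) s hs
  have hNfin : ∀ m, (N m).Finite := by
    intro m
    by_contra hinf
    have hinf' : (N m).Infinite := hinf
    obtain ⟨s, hs1, hs2⟩ := hinf'.exists_subset_card_eq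
      (⌊((ρ₀ + 2 * d * m + r₀) / r₀) ^ n⌋₊ + 1)
    have h1 := hNb m s (fun Q hQ => hs1 hQ)
    rw [hs2] at h1
    have h2 := Nat.lt_floor_add_one (((ρ₀ + 2 * d * m + r₀) / r₀) ^ n)
    push_cast at h1
    linarith
  let M : ℕ → ℕ := fun m => (hNfin m).toFinset.card
  have hM0 : 1 ≤ M 0 := by
    refine Finset.card_pos.2 ⟨⟨R₀, hR₀⟩, ?_⟩
    rw [Set.Finite.mem_toFinset]
    show dist (g ⟨R₀, hR₀⟩ z₀) 0 ≤ ρ₀ + 2 * d * ((0 : ℕ) : ℝ)
    simp [hρ₀]
  have hrec : ∀ m, F.card * M m ≤ D.card * M (m + 1) := by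
    intro m
    have h1 : ((hNfin m).toFinset ×ˢ F.attach).card ≤
        ((hNfin (m + 1)).toFinset ×ˢ D.attach).card := by
      refine Finset.card_le_card_of_injOn (fun p => (Q' p.1 p.2, b p.1 p.2)) ?_ ?_
      · rintro ⟨Q, a⟩ hQa
        simp only [Finset.coe_product, Set.mem_prod, Finset.mem_coe, Set.Finite.mem_toFinset,
          Finset.mem_attach, and_true] at hQa ⊢
        have hQ : dist (g Q z₀) 0 ≤ ρ₀ + 2 * d * m := hQa
        have h2 := hdist Q a
        show dist (g (Q' Q a) z₀) 0 ≤ ρ₀ + 2 * d * ((m + 1 : ℕ) : ℝ)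
        push_cast
        calc dist (g (Q' Q a) z₀) 0 ≤ dist (g (Q' Q a) z₀) (g Q z₀) + dist (g Q z₀) 0 :=
              dist_triangle _ _ _
          _ ≤ _ := by linarith
      · rintro ⟨Q₁, a₁⟩ _ ⟨Q₂, a₂⟩ _ h
        simp only [Prod.mk.injEq] at h
        obtain ⟨h3, h4⟩ := hinj _ _ _ _ h.1 h.2
        rw [h3, h4]
    rw [Finset.card_product, Finset.card_product, Finset.card_attach, Finset.card_attach] at h1
    calc F.card * M m = (hNfin m).toFinset.card * F.card := mul_comm _ _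
      _ ≤ _ := h1
      _ = _ := mul_comm _ _
  have hDpos : 0 < D.card := by
    by_contra h
    have h1 : D.card = 0 := by omega
    have h2 := hrec 0
    rw [h1, zero_mul] at h2
    have h3 : 0 < F.card * M 0 := Nat.mul_pos (by omega) (by omega)
    omega
  refine growth_contradiction (n := n) hDpos hcard (M := M) hM0 hrec
    (C := (ρ₀ + 2 * d + r₀) / r₀) ?_
  intro m
  refine (hNb m _ (fun Q hQ => (Set.Finite.mem_toFinset _).1 hQ)).trans ?_
  apply pow_le_pow_left₀ (by positivity)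
  rw [div_mul_eq_mul_div]
  apply div_le_div_of_nonneg_right _ hr₀.le
  have hm : (0 : ℝ) ≤ m := Nat.cast_nonneg m
  nlinarith [mul_nonneg hρ₀0 hm, mul_nonneg hr₀.le hm, mul_nonneg hd0 hm]

end Pool.Agent.H389R3.Heesch
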