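import Pool.Agent.H389R3.HeeschAtoms

set_option autoImplicit false

namespace Pool.Agent.H389R3.Heesch

open Set Metric

variable {n : ℕ}

lemma abs_coord_le_dist (x y : E n) (l : Fin n) : |x l - y l| ≤ dist x y := by
  rw [dist_eq_norm]
  exact PiLp.norm_apply_le (x - y) l

lemma dist_UD (hn : 2 ≤ n) {c : Fin n → ℤ} {x y : E n} (hx : x ∈ UD c) (hy : y ∈ UD c) :
    dist x y ≤ 1 / 5 := by
  have h1 : ∀ l, dist (x l) (y l) ≤ 2 * del n := by
    intro l
    have h2 := (dist_pi_lt_iff (del_pos hn)).1 (mem_ball.1 hx) l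
    have h3 := (dist_pi_lt_iff (del_pos hn)).1 (mem_ball.1 hy) l
    rw [φ_apply] at h2 h3
    calc dist (x l) (y l) ≤ dist (x l) (ctr c l) + dist (y l) (ctr c l) := dist_triangle_right _ _ _
      _ ≤ _ := by linarith
  rw [EuclideanSpace.dist_eq]
  have hn' : (0 : ℝ) < n := by exact_mod_cast (by omega : 0 < n)
  have hn'' : (1 : ℝ) ≤ n := by exact_mod_cast (by omega : 1 ≤ n)
  have h2 : ∑ i, dist (x i) (y i) ^ 2 ≤ (1 / 5) ^ 2 := by
    calc ∑ i, dist (x i) (y i) ^ 2 ≤ ∑ _i : Fin n, (2 * del n) ^ 2 := by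
          apply Finset.sum_le_sum
          intro i _
          exact pow_le_pow_left₀ dist_nonneg (h1 i) 2
      _ = n * (2 * del n) ^ 2 := by simp
      _ ≤ (1 / 5) ^ 2 := by
          unfold del
          have e : (n : ℝ) * (2 * (1 / (10 * n))) ^ 2 = (1 / 5) ^ 2 * (1 / n) := by
            field_simp
            norm_num
          rw [e]
          have : 1 / (n : ℝ) ≤ 1 := by
            rw [div_le_one hn']
            exact hn''
          nlinarith
  calc √(∑ i, dist (x i) (y i) ^ 2) ≤ √((1 / 5) ^ 2) := Real.sqrt_le_sqrt h2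
    _ = 1 / 5 := Real.sqrt_sq (by norm_num)

/-- every point of a frame lies in a convex part of it of diameter more than `1 / 5` -/
lemma exists_slab (hn : 2 ≤ n) {c : Fin n → ℤ} {x : E n} (hx : x ∈ UF c) :
    ∃ B : Set (E n), Convex ℝ B ∧ B ⊆ UF c ∧ x ∈ B ∧ ∃ p ∈ B, ∃ q ∈ B, 1 / 5 < dist p q := by
  have hδ := del_pos hn
  have hδ' := del_lt hn
  obtain ⟨l, hl⟩ : ∃ l, del n < |x l - ctr c l| := by
    by_contra h
    push Not at h
    apply hx.2
    rw [mem_closedBall, dist_pi_le_iff hδ.le]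
    intro l
    rw [Real.dist_eq]
    exact h l
  obtain ⟨l', hl'⟩ : ∃ l' : Fin n, l' ≠ l := by
    have : Nontrivial (Fin n) := Fin.nontrivial_iff_two_le.2 hn
    exact exists_ne l
  -- the two test points
  have key : ∀ s : ℝ, |s| = 3 / 10 → ∀ t : ℝ, |t| = 2 / 5 →
      (φ n).symm (fun k => ctr c k + (if k = l then s else if k = l' then t else 0)) ∈ UC c := by
    intro s hs t ht
    show φ n _ ∈ ball _ _
    rw [ContinuousLinearEquiv.apply_symm_apply, mem_ball, dist_pi_lt_iff (by norm_num)]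
    intro k
    rw [Real.dist_eq]
    by_cases h1 : k = l
    · simp only [h1, if_true, add_sub_cancel_left, hs]; norm_num
    · by_cases h2 : k = l'
      · simp only [h2, if_neg hl', if_true, add_sub_cancel_left, ht]; norm_num
      · simp only [h1, h2, if_false, add_zero, sub_self, abs_zero]; norm_num
  have hcoord : ∀ (v : Fin n → ℝ) (k : Fin n), ((φ n).symm v) k = v k := fun v k => rfl
  have hlin : IsLinearMap ℝ (fun z : E n => z l) := by
    constructor
    · intro a b; rfl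
    · intro a b; rfl
  rcases lt_abs.1 hl with h | h
  · refine ⟨UC c ∩ {z | ctr c l + del n < z l}, (convex_UC c).inter (convex_halfSpace_gt hlin _),
      ?_, ⟨hx.1, by simp only [mem_ofPred_eq]; linarith⟩, _, ⟨key (3 / 10) (by norm_num) (2 / 5)
        (by norm_num), ?_⟩, _, ⟨key (3 / 10) (by norm_num) (-(2 / 5)) (by norm_num), ?_⟩, ?_⟩
    · rintro z ⟨hz1, hz2⟩
      refine ⟨hz1, ?_⟩
      rw [mem_compl_iff, mem_closedBall, dist_pi_le_iff hδ.le]
      push Not
      refine ⟨l, ?_⟩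
      rw [Real.dist_eq, lt_abs, φ_apply]
      left
      simp only [mem_ofPred_eq] at hz2
      linarith
    · simp only [mem_ofPred_eq, hcoord, if_true]; linarith
    · simp only [mem_ofPred_eq, hcoord, if_true]; linarith
    · refine lt_of_lt_of_le ?_ (abs_coord_le_dist _ _ l')
      simp only [hcoord, if_neg hl', if_true]
      rw [show ctr c l' + 2 / 5 - (ctr c l' + -(2 / 5)) = 4 / 5 by ring]
      norm_num
  · refine ⟨UC c ∩ {z | z l < ctr c l - del n}, (convex_UC c).inter (convex_halfSpace_lt hlin _),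
      ?_, ⟨hx.1, by simp only [mem_ofPred_eq]; linarith⟩, _, ⟨key (-(3 / 10)) (by norm_num) (2 / 5)
        (by norm_num), ?_⟩, _, ⟨key (-(3 / 10)) (by norm_num) (-(2 / 5)) (by norm_num), ?_⟩, ?_⟩
    · rintro z ⟨hz1, hz2⟩
      refine ⟨hz1, ?_⟩
      rw [mem_compl_iff, mem_closedBall, dist_pi_le_iff hδ.le]
      push Not
      refine ⟨l, ?_⟩
      rw [Real.dist_eq, lt_abs, φ_apply]
      right
      simp only [mem_ofPred_eq] at hz2
      linarith
    · simp only [mem_ofPred_eq, hcoord, if_true]; linarith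
    · simp only [mem_ofPred_eq, hcoord, if_true]; linarith
    · refine lt_of_lt_of_le ?_ (abs_coord_le_dist _ _ l')
      simp only [hcoord, if_neg hl', if_true]
      rw [show ctr c l' + 2 / 5 - (ctr c l' + -(2 / 5)) = 4 / 5 by ring]
      norm_num

section single

variable {F D : Finset (Fin n → ℤ)} (g : E n ≃ᵢ E n)

/-- a preconnected part of a copy that meets a hole lies in the hole -/
lemma subset_hole (hn : 2 ≤ n) (hg : ∀ x ∈ W F D, g x ∉ W F D) {a : Fin n → ℤ} (ha : a ∈ F)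
    {B : Set (E n)} (hB : IsPreconnected B) (hBW : B ⊆ W F D) {x : E n} (hx : x ∈ B)
    (hgx : g x ∈ UD a) : ∀ y ∈ B, g y ∈ UD a := by
  have h1 : IsPreconnected (g '' B) := hB.image g g.continuous.continuousOn
  have h2 : g '' B ∩ frontier (UD a) = ∅ := by
    rw [eq_empty_iff_forall_notMem]
    rintro _ ⟨⟨y, hy, rfl⟩, hfr⟩
    have h3 : g y ∈ closure (W F D) := by
      refine closure_mono ?_ (frontier_UD_subset hn a hfr)
      intro z hz
      exact mem_W.2 (Or.inl ⟨a, ha, hz⟩)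
    have h4 : IsOpen (g '' W F D) := g.toHomeomorph.isOpenMap _ (isOpen_W F D)
    obtain ⟨z, hz1, hz2⟩ := mem_closure_iff.1 h3 _ h4 ⟨y, hBW hy, rfl⟩
    obtain ⟨w, hw, rfl⟩ := hz1
    exact hg w hw hz2
  have h3 := preconn_subset h1 (isOpen_UD a) ⟨g x, ⟨x, hx, rfl⟩, hgx⟩ h2
  intro y hy
  exact h3 ⟨y, hy, rfl⟩

/-- frames of a copy do not meet holes -/
lemma frame_not_hole (hn : 2 ≤ n) (hg : ∀ x ∈ W F D, g x ∉ W F D) {a c : Fin n → ℤ}
    (ha : a ∈ F) (hc : c ∈ F) {x : E n} (hx : x ∈ UF c) : g x ∉ UD a := by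
  intro hgx
  obtain ⟨B, hB, hBs, hxB, p, hp, q, hq, hpq⟩ := exists_slab hn hx
  have h1 := subset_hole g hn hg ha hB.isPreconnected
    (fun z hz => mem_W.2 (Or.inl ⟨c, hc, hBs hz⟩)) hxB hgx
  have h2 := dist_UD hn (h1 p hp) (h1 q hq)
  rw [g.dist_eq] at h2
  linarith

lemma not_symm {g : E n ≃ᵢ E n} (hg : ∀ x ∈ W F D, g x ∉ W F D) :
    ∀ x ∈ W F D, g.symm x ∉ W F D := by
  intro x hx h
  exact hg _ h (by simpa using hx)

lemma hole_subset_hole (hn : 2 ≤ n) (hg : ∀ x ∈ W F D, g x ∉ W F D) {a b : Fin n → ℤ}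
    (ha : a ∈ F) (hb : b ∈ F) {x : E n} (hx : x ∈ UD b) (hgx : g x ∈ UD a) :
    ∀ y ∈ UD b, g y ∈ UD a := by
  have h1 : IsPreconnected (g '' UD b) :=
    (convex_UD b).isPreconnected.image g g.continuous.continuousOn
  have h2 : g '' UD b ∩ frontier (UD a) = ∅ := by
    rw [eq_empty_iff_forall_notMem]
    rintro _ ⟨⟨y, hy, rfl⟩, hfr⟩
    have h3 : g y ∈ closure (UF a) := frontier_UD_subset hn a hfr
    have h4 : IsOpen (g '' UD b) := g.toHomeomorph.isOpenMap _ (isOpen_UD b)
    obtain ⟨z, hz1, hz2⟩ := mem_closure_iff.1 h3 _ h4 ⟨y, hy, rfl⟩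
    obtain ⟨w, hw, rfl⟩ := hz1
    have := frame_not_hole g.symm hn (not_symm hg) hb ha hz2
    rw [g.symm_apply_apply] at this
    exact this hw
  have h3 := preconn_subset h1 (isOpen_UD a) ⟨g x, ⟨x, hx, rfl⟩, hgx⟩ h2
  intro y hy
  exact h3 ⟨y, hy, rfl⟩

/-- holes of a copy do not meet holes -/
lemma hole_not_hole (hn : 2 ≤ n) (hg : ∀ x ∈ W F D, g x ∉ W F D) {a b : Fin n → ℤ}
    (ha : a ∈ F) (hb : b ∈ F) {x : E n} (hx : x ∈ UD b) : g x ∉ UD a := by
  intro hgx
  have h1 := hole_subset_hole g hn hg ha hb hx hgx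
  have h2 := hole_subset_hole g.symm hn (not_symm hg) hb ha (x := g x) hgx (by simpa using hx)
  have himg : g '' UD b = UD a := by
    apply subset_antisymm
    · rintro _ ⟨y, hy, rfl⟩
      exact h1 y hy
    · intro y hy
      exact ⟨g.symm y, h2 y hy, by simp⟩
  have himgc : g '' closure (UD b) = closure (UD a) := by
    rw [← himg]
    exact g.toHomeomorph.image_closure _
  -- the two open cells around the common hole
  have hO : IsOpen (UC a ∩ g '' UC b) := (isOpen_UC a).inter (g.toHomeomorph.isOpenMap _ (isOpen_UC b))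
  have hsub1 : closure (UD a) ⊆ UC a ∩ g '' UC b := by
    apply subset_inter (closure_UD_subset hn a)
    rw [← himgc]
    exact image_mono (closure_UD_subset hn b)
  have hsub2 : UC a ∩ g '' UC b ⊆ closure (UD a) := by
    rintro _ ⟨hy1, ⟨y, hy2, rfl⟩⟩
    by_contra hcl
    have h3 : g y ∈ UF a := by
      rw [← UC_diff hn a]
      exact ⟨hy1, hcl⟩
    have h4 : y ∈ UF b := by
      rw [← UC_diff hn b]
      refine ⟨hy2, fun h => hcl ?_⟩
      rw [← himgc]
      exact ⟨y, h, rfl⟩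
    exact hg y (mem_W.2 (Or.inl ⟨b, hb, h4⟩)) (mem_W.2 (Or.inl ⟨a, ha, h3⟩))
  have heq : closure (UD a) = UC a ∩ g '' UC b := subset_antisymm hsub1 hsub2
  have hclopen : IsClopen (closure (UD a)) := ⟨isClosed_closure, heq ▸ hO⟩
  have : PreconnectedSpace (E n) := ⟨convex_univ.isPreconnected⟩
  rcases isClopen_iff.1 hclopen with h | h
  · have := subset_closure (UD_nonempty hn a)
    rw [h] at this
    exact this
  · have h5 : (φ n).symm (fun l => ctr a l + 1 / 4) ∈ closure (UD a) := h ▸ mem_univ _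
    have h6 := UF_nonempty hn a
    rw [← UC_diff hn a] at h6
    exact h6.2 h5

end single

end Pool.Agent.H389R3.Heesch
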