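import Pool.Agent.H389R3.HeeschCount

set_option autoImplicit false

namespace Pool.Agent.H389R3.Heesch

open Set Metric

variable {n : ℕ} (i₀ i₁ : Fin n) (q : ℤ)

/-- the cells of the bar with least cell `w` -/
noncomputable def Fs (w : Fin n → ℤ) : Finset (Fin n → ℤ) :=
  (Finset.Icc 0 q).image (fun j => Function.update w i₀ (w i₀ + j))

/-- the cells of the column of small cubes -/
noncomputable def Ds (w : Fin n → ℤ) (s : ℤ) : Finset (Fin n → ℤ) :=
  (Finset.Ico 0 q).image (fun j => Function.update (Function.update w i₀ (w i₀ + s)) i₁ (w i₁ + j))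

variable {i₀ i₁ q}

lemma mem_Fs {w c : Fin n → ℤ} :
    c ∈ Fs i₀ q w ↔ (∀ l, l ≠ i₀ → c l = w l) ∧ w i₀ ≤ c i₀ ∧ c i₀ ≤ w i₀ + q := by
  unfold Fs
  rw [Finset.mem_image]
  constructor
  · rintro ⟨j, hj, rfl⟩
    rw [Finset.mem_Icc] at hj
    refine ⟨fun l hl => by simp [hl], ?_, ?_⟩
    · simp; omega
    · simp; omega
  · rintro ⟨h1, h2, h3⟩
    refine ⟨c i₀ - w i₀, ?_, ?_⟩
    · rw [Finset.mem_Icc]; omega
    · ext l
      by_cases hl : l = i₀
      · subst hl; simp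
      · simp [hl, h1 l hl]

lemma mem_Ds (h01 : i₀ ≠ i₁) {w c : Fin n → ℤ} {s : ℤ} :
    c ∈ Ds i₀ i₁ q w s ↔ (∀ l, l ≠ i₀ → l ≠ i₁ → c l = w l) ∧ c i₀ = w i₀ + s ∧
      w i₁ ≤ c i₁ ∧ c i₁ < w i₁ + q := by
  unfold Ds
  rw [Finset.mem_image]
  constructor
  · rintro ⟨j, hj, rfl⟩
    rw [Finset.mem_Ico] at hj
    refine ⟨fun l hl hl' => by simp [hl, hl'], ?_, ?_, ?_⟩
    · simp [h01]
    · simp; omega
    · simp; omega
  · rintro ⟨h1, h2, h3, h4⟩
    refine ⟨c i₁ - w i₁, ?_, ?_⟩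
    · rw [Finset.mem_Ico]; omega
    · ext l
      by_cases hl : l = i₁
      · subst hl; simp
      · by_cases hl' : l = i₀
        · subst hl'; simp [hl, h2]
        · simp [hl, hl', h1 l hl' hl]

lemma card_Fs (hq : 0 ≤ q) (w : Fin n → ℤ) : ((Fs i₀ q w).card : ℤ) = q + 1 := by
  unfold Fs
  rw [Finset.card_image_of_injective]
  · rw [Int.card_Icc]
    omega
  · intro a b hab
    have := congrFun hab i₀
    simp at this
    exact this

lemma card_Ds (hq : 0 ≤ q) (w : Fin n → ℤ) (s : ℤ) : ((Ds i₀ i₁ q w s).card : ℤ) = q := by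
  unfold Ds
  rw [Finset.card_image_of_injective]
  · rw [Int.card_Ico]
    omega
  · intro a b hab
    have := congrFun hab i₁
    simp at this
    exact this

lemma disjoint_Fs_Ds (h01 : i₀ ≠ i₁) (w : Fin n → ℤ) {s : ℤ} (hs : s = q + 1 ∨ s = -1) :
    Disjoint (Fs i₀ q w) (Ds i₀ i₁ q w s) := by
  rw [Finset.disjoint_left]
  intro c hc hc'
  rw [mem_Fs] at hc
  rw [mem_Ds h01] at hc'
  rcases hs with rfl | rfl <;> omega

lemma eq_of_bounds {h κ κ' r r' : ℤ} (h1 : 0 ≤ r) (h2 : r < h) (h3 : 0 ≤ r') (h4 : r' < h)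
    (e : r + κ * h = r' + κ' * h) : κ = κ' ∧ r = r' := by
  have hκ : κ = κ' := by
    rcases lt_trichotomy κ κ' with hlt | heq | hgt
    · have : (κ + 1) * h ≤ κ' * h := mul_le_mul_of_nonneg_right (by omega) (by omega)
      nlinarith
    · exact heq
    · have : (κ' + 1) * h ≤ κ * h := mul_le_mul_of_nonneg_right (by omega) (by omega)
      nlinarith
  subst hκ
  exact ⟨rfl, by linarith⟩

variable (i₀ i₁ q)

/-- level of the row of the tile with index `v` -/
def lev (v : Fin n → ℤ) : ℤ := v i₁ % q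

/-- least cell of the bar of the tile with index `v` -/
def bse (v : Fin n → ℤ) : Fin n → ℤ := Function.update v i₀ (v i₁ % q + v i₀ * (q + 1))

/-- position of the column of the tile with index `v` -/
def sgn (v : Fin n → ℤ) : ℤ := if v i₀ < v i₁ % q then q + 1 else -1

/-- tile with index `v` -/
noncomputable def tile (v : Fin n → ℤ) : Set (E n) :=
  body (Fs i₀ q (bse i₀ i₁ q v)) (Ds i₀ i₁ q (bse i₀ i₁ q v) (sgn i₀ i₁ q v))

variable {i₀ i₁ q}

lemma bse_i0 (v : Fin n → ℤ) : bse i₀ i₁ q v i₀ = v i₁ % q + v i₀ * (q + 1) := by simp [bse]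

lemma bse_ne (v : Fin n → ℤ) {l : Fin n} (hl : l ≠ i₀) : bse i₀ i₁ q v l = v l := by
  simp [bse, hl]

lemma sgn_cases (v : Fin n → ℤ) :
    (v i₀ < v i₁ % q ∧ sgn i₀ i₁ q v = q + 1) ∨ (v i₁ % q ≤ v i₀ ∧ sgn i₀ i₁ q v = -1) := by
  unfold sgn
  by_cases h : v i₀ < v i₁ % q
  · left; exact ⟨h, if_pos h⟩
  · right; exact ⟨by omega, if_neg h⟩

lemma disj_F (h01 : i₀ ≠ i₁) (hq : 0 < q) {v v' : Fin n → ℤ} (hne : v ≠ v') :
    Disjoint (Fs i₀ q (bse i₀ i₁ q v)) (Fs i₀ q (bse i₀ i₁ q v')) := by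
  rw [Finset.disjoint_left]
  intro c hc hc'
  rw [mem_Fs, bse_i0] at hc hc'
  apply hne
  have h1 : ∀ l, l ≠ i₀ → v l = v' l := by
    intro l hl
    have e1 := hc.1 l hl
    have e2 := hc'.1 l hl
    rw [bse_ne _ hl] at e1 e2
    omega
  have h2 := h1 i₁ h01.symm
  rw [h2] at hc
  obtain ⟨-, h3, h4⟩ := hc
  obtain ⟨-, h5, h6⟩ := hc'
  have h7 : v i₀ = v' i₀ := by
    rcases lt_trichotomy (v i₀) (v' i₀) with hlt | heq | hgt
    · have : (v i₀ + 1) * (q + 1) ≤ v' i₀ * (q + 1) :=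
        mul_le_mul_of_nonneg_right (by omega) (by omega)
      nlinarith
    · exact heq
    · have : (v' i₀ + 1) * (q + 1) ≤ v i₀ * (q + 1) :=
        mul_le_mul_of_nonneg_right (by omega) (by omega)
      nlinarith
  ext l
  by_cases hl : l = i₀
  · subst hl; exact h7
  · exact h1 l hl

lemma row_eq {q a b c : ℤ} (h1 : a % q = b % q) (h2 : a ≤ c) (h3 : c < a + q)
    (h4 : b ≤ c) (h5 : c < b + q) : a = b := by
  have h6 : q ∣ a - b := Int.dvd_of_emod_eq_zero (Int.emod_eq_emod_iff_emod_sub_eq_zero.1 h1)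
  have h7 : a - b = 0 := by
    apply Int.eq_zero_of_abs_lt_dvd h6
    rw [abs_lt]
    constructor <;> omega
  omega

lemma disj_D (h01 : i₀ ≠ i₁) (hq : 0 < q) {v v' : Fin n → ℤ} (hne : v ≠ v') :
    Disjoint (Ds i₀ i₁ q (bse i₀ i₁ q v) (sgn i₀ i₁ q v))
      (Ds i₀ i₁ q (bse i₀ i₁ q v') (sgn i₀ i₁ q v')) := by
  rw [Finset.disjoint_left]
  intro c hc hc'
  rw [mem_Ds h01, bse_i0, bse_ne _ h01.symm] at hc hc'
  obtain ⟨h1, h2, h3, h4⟩ := hc
  obtain ⟨h1', h2', h3', h4'⟩ := hc'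
  apply hne
  have hrest : ∀ l, l ≠ i₀ → l ≠ i₁ → v l = v' l := by
    intro l hl hl'
    have e1 := h1 l hl hl'
    have e2 := h1' l hl hl'
    rw [bse_ne _ hl] at e1 e2
    omega
  have a1 := Int.emod_nonneg (v i₁) hq.ne'
  have a2 := Int.emod_lt_of_pos (v i₁) hq
  have b1 := Int.emod_nonneg (v' i₁) hq.ne'
  have b2 := Int.emod_lt_of_pos (v' i₁) hq
  have main : v i₀ = v' i₀ ∧ v i₁ % q = v' i₁ % q := by
    rcases sgn_cases (i₀ := i₀) (i₁ := i₁) (q := q) v with ⟨c1, c2⟩ | ⟨c1, c2⟩ <;>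
      rcases sgn_cases (i₀ := i₀) (i₁ := i₁) (q := q) v' with ⟨d1, d2⟩ | ⟨d1, d2⟩
    · apply eq_of_bounds (h := q + 1) a1 (by omega) b1 (by omega)
      linarith
    · exfalso
      have e : (v i₁ % q) + (v i₀ + 1) * (q + 1) = (v' i₁ % q - 1) + v' i₀ * (q + 1) := by
        linarith
      by_cases h0 : v' i₁ % q = 0
      · have := eq_of_bounds (h := q + 1) (κ := v i₀ + 1) (κ' := v' i₀ - 1) (r' := q) a1 (by omega)
          (by omega) (by omega) (by linarith)
        omega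
      · have := eq_of_bounds (h := q + 1) a1 (by omega) (by omega) (by omega) e
        omega
    · exfalso
      have e : (v' i₁ % q) + (v' i₀ + 1) * (q + 1) = (v i₁ % q - 1) + v i₀ * (q + 1) := by
        linarith
      by_cases h0 : v i₁ % q = 0
      · have := eq_of_bounds (h := q + 1) (κ := v' i₀ + 1) (κ' := v i₀ - 1) (r' := q) b1 (by omega)
          (by omega) (by omega) (by linarith)
        omega
      · have := eq_of_bounds (h := q + 1) b1 (by omega) (by omega) (by omega) e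
        omega
    · apply eq_of_bounds (h := q + 1) a1 (by omega) b1 (by omega)
      linarith
  have hrow := row_eq main.2 h3 h4 h3' h4'
  ext l
  by_cases hl : l = i₀
  · subst hl; exact main.1
  · by_cases hl' : l = i₁
    · subst hl'; exact hrow
    · exact hrest l hl hl'

/-- every cell belongs to the bar of some tile -/
lemma cover_F (h01 : i₀ ≠ i₁) (hq : 0 < q) (c : Fin n → ℤ) :
    ∃ v : Fin n → ℤ, c ∈ Fs i₀ q (bse i₀ i₁ q v) ∧ (∀ l, l ≠ i₀ → v l = c l) ∧
      |v i₀| ≤ |c i₀| + q := by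
  have b1 := Int.emod_nonneg (c i₁) hq.ne'
  have b2 := Int.emod_lt_of_pos (c i₁) hq
  have e1 := Int.emod_add_mul_ediv (c i₀ - c i₁ % q) (q + 1)
  have e2 := Int.emod_nonneg (c i₀ - c i₁ % q) (show q + 1 ≠ 0 by omega)
  have e3 := Int.emod_lt_of_pos (c i₀ - c i₁ % q) (show 0 < q + 1 by omega)
  refine ⟨Function.update c i₀ ((c i₀ - c i₁ % q) / (q + 1)), ?_, ?_, ?_⟩
  · rw [mem_Fs, bse_i0]
    refine ⟨fun l hl => by rw [bse_ne _ hl]; simp [hl], ?_, ?_⟩
    · simp only [Function.update_self, ne_eq, h01.symm, not_false_eq_true,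
        Function.update_of_ne]
      linarith
    · simp only [Function.update_self, ne_eq, h01.symm, not_false_eq_true,
        Function.update_of_ne]
      linarith
  · intro l hl; simp [hl]
  · simp only [Function.update_self]
    set d := (c i₀ - c i₁ % q) / (q + 1) with hd
    rw [abs_le]
    have hab := abs_nonneg (c i₀)
    have hle := le_abs_self (c i₀)
    have hneg := neg_abs_le (c i₀)
    constructor
    · by_contra hlt
      push Not at hlt
      nlinarith
    · by_contra hlt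
      push Not at hlt
      nlinarith

/-- every cell of the middle region belongs to the column of some tile -/
lemma cover_D (h01 : i₀ ≠ i₁) (hq : 0 < q) (c : Fin n → ℤ) (hc1 : -(q + 1) ≤ c i₀)
    (hc2 : c i₀ < q * (q + 1)) :
    ∃ v : Fin n → ℤ, c ∈ Ds i₀ i₁ q (bse i₀ i₁ q v) (sgn i₀ i₁ q v) ∧
      (∀ l, l ≠ i₀ → |v l| ≤ |c l| + q) ∧ |v i₀| ≤ q + 2 := by
  set K := c i₀ / (q + 1) with hK
  set a := c i₀ % (q + 1) with ha
  have e1 : a + (q + 1) * K = c i₀ := Int.emod_add_mul_ediv (c i₀) (q + 1)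
  have e2 : 0 ≤ a := Int.emod_nonneg (c i₀) (show q + 1 ≠ 0 by omega)
  have e3 : a < q + 1 := Int.emod_lt_of_pos (c i₀) (show 0 < q + 1 by omega)
  have hK1 : -1 ≤ K := by
    by_contra hlt
    push Not at hlt
    nlinarith
  have hK2 : K ≤ q - 1 := by
    by_contra hlt
    push Not at hlt
    nlinarith
  -- a general row of level `t` for the cell
  have hrow : ∀ t : ℤ, 0 ≤ t → t < q → ∃ y : ℤ, y % q = t ∧ y ≤ c i₁ ∧ c i₁ < y + q := by
    intro t h1 h2
    refine ⟨c i₁ - (c i₁ - t) % q, ?_, ?_, ?_⟩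
    · have : c i₁ - (c i₁ - t) % q = t + q * ((c i₁ - t) / q) := by
        have := Int.emod_add_mul_ediv (c i₁ - t) q
        linarith
      rw [this, Int.add_mul_emod_self_left]
      exact Int.emod_eq_of_lt h1 h2
    · have := Int.emod_nonneg (c i₁ - t) hq.ne'
      omega
    · have := Int.emod_lt_of_pos (c i₁ - t) hq
      omega
  -- general construction
  have hcon : ∀ κ t : ℤ, 0 ≤ t → t < q →
      c i₀ = t + κ * (q + 1) + (if κ < t then q + 1 else -1) → -(q + 2) ≤ κ → κ ≤ q + 2 →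
      ∃ v : Fin n → ℤ, c ∈ Ds i₀ i₁ q (bse i₀ i₁ q v) (sgn i₀ i₁ q v) ∧
        (∀ l, l ≠ i₀ → |v l| ≤ |c l| + q) ∧ |v i₀| ≤ q + 2 := by
    intro κ t h1 h2 h3 h4 h5
    obtain ⟨y, hy1, hy2, hy3⟩ := hrow t h1 h2
    have hv0 : Function.update (Function.update c i₁ y) i₀ κ i₀ = κ := by simp
    have hv1 : Function.update (Function.update c i₁ y) i₀ κ i₁ = y := by simp [h01.symm]
    refine ⟨Function.update (Function.update c i₁ y) i₀ κ, ?_, ?_, ?_⟩
    · rw [mem_Ds h01, bse_i0, bse_ne _ h01.symm]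
      unfold sgn
      rw [hv0, hv1, hy1]
      refine ⟨?_, h3, hy2, hy3⟩
      intro l hl hl'
      rw [bse_ne _ hl]
      simp [hl, hl']
    · intro l hl
      by_cases hl' : l = i₁
      · subst hl'
        rw [hv1]
        have := abs_nonneg (c l)
        have := le_abs_self (c l)
        have := neg_abs_le (c l)
        rw [abs_le]; constructor <;> omega
      · simp only [ne_eq, hl, not_false_eq_true, Function.update_of_ne, hl']
        omega
    · rw [hv0, abs_le]; constructor <;> omega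
  by_cases haq : a = q
  · apply hcon (K + 1) 0 le_rfl hq _ (by omega) (by omega)
    rw [if_neg (by omega)]
    nlinarith
  · by_cases hKa : K ≤ a
    · apply hcon (K - 1) a e2 (by omega) _ (by omega) (by omega)
      rw [if_pos (by omega)]
      nlinarith
    · apply hcon K (a + 1) (by omega) (by omega) _ (by omega) (by omega)
      rw [if_neg (by omega)]
      nlinarith

end Pool.Agent.H389R3.Heesch
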