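import Mathlib

/-!
# p-adic preliminaries
-/

set_option autoImplicit false

open Finset Polynomial

namespace Pool.Agent.H389R3.LP

variable {p : ℕ} [Fact p.Prime]

/-- principal units (congruent to `1` modulo `4` if `p = 2`) -/
def One' (s : ℤ_[p]) : Prop := (p : ℤ_[p]) ∣ s - 1 ∧ (p = 2 → (4 : ℤ_[p]) ∣ s - 1)

lemma One'.pow {s : ℤ_[p]} (h : One' s) (n : ℕ) : One' (s ^ n) := by
  have h1 : s - 1 ∣ s ^ n - 1 := by
    have := sub_dvd_pow_sub_pow s 1 n
    rwa [one_pow] at this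
  exact ⟨h.1.trans h1, fun h2 => (h.2 h2).trans h1⟩

lemma One'.not_dvd {s : ℤ_[p]} (h : One' s) : ¬ (p : ℤ_[p]) ∣ s := by
  intro h1
  have h2 : (p : ℤ_[p]) ∣ 1 := by
    have := dvd_sub h1 h.1
    simpa using this
  exact PadicInt.prime_p.not_unit (isUnit_of_dvd_one h2)

lemma One'.sub_dvd {s t : ℤ_[p]} (hs : One' s) (ht : One' t) : (p : ℤ_[p]) ∣ s - t := by
  have := dvd_sub hs.1 ht.1
  simpa using this

lemma pow_p_ne {s t : ℤ_[p]} (hs : One' s) (ht : One' t) (hst : s ≠ t) : s ^ p ≠ t ^ p := by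
  intro h
  have hp : p.Prime := Fact.out
  rcases hp.eq_two_or_odd' with h2 | hodd
  · subst h2
    have h3 : (s - t) * (s + t) = 0 := by
      have : (s - t) * (s + t) = s ^ 2 - t ^ 2 := by ring
      rw [this, h, sub_self]
    rcases mul_eq_zero.mp h3 with h4 | h4
    · exact hst (sub_eq_zero.mp h4)
    · have h5 : (4 : ℤ_[2]) ∣ 2 := by
        have h6 := dvd_add (hs.2 rfl) (ht.2 rfl)
        have h7 : s - 1 + (t - 1) = -2 := by linear_combination h4
        rw [h7] at h6
        exact (dvd_neg.mp h6)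
      have h8 : ((2:ℕ) : ℤ_[2]) ^ 2 ∣ ((2:ℤ) : ℤ_[2]) := by
        have e : ((2:ℕ) : ℤ_[2]) ^ 2 = 4 := by norm_num
        rw [e]
        simpa using h5
      rw [PadicInt.pow_p_dvd_int_iff] at h8
      norm_num at h8
  · have h1 := emultiplicity_pow_prime_sub_pow_prime (R := ℤ_[p]) PadicInt.prime_p hodd
      (hs.sub_dvd ht) hs.not_dvd
    rw [h, sub_self, emultiplicity_zero] at h1
    have h2 : FiniteMultiplicity (p : ℤ_[p]) (s - t) :=
      FiniteMultiplicity.of_prime_left PadicInt.prime_p (sub_ne_zero.mpr hst)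
    have h3 : emultiplicity (p : ℤ_[p]) (s - t) ≠ ⊤ := finiteMultiplicity_iff_emultiplicity_ne_top.mp h2
    have h4 : emultiplicity (p : ℤ_[p]) (s - t) + 1 ≠ ⊤ := by
      rw [ne_eq, ENat.add_eq_top]
      push Not
      exact ⟨h3, ENat.one_ne_top⟩
    exact h4 h1.symm

lemma pow_ne : ∀ (m : ℕ), 1 ≤ m → ∀ {s t : ℤ_[p]}, One' s → One' t → s ≠ t → s ^ m ≠ t ^ m := by
  intro m
  induction m using Nat.strong_induction_on with
  | _ m ih =>
    intro hm s t hs ht hst
    have hp : p.Prime := Fact.out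
    by_cases hpm : p ∣ m
    · obtain ⟨l, rfl⟩ := hpm
      have hl : 1 ≤ l := by
        rcases Nat.eq_zero_or_pos l with h | h
        · rw [h] at hm; omega
        · exact h
      have hlt : l < p * l := by
        have := hp.two_le
        nlinarith
      rw [pow_mul, pow_mul]
      exact ih l hlt hl (hs.pow p) (ht.pow p) (pow_p_ne hs ht hst)
    · intro h
      have h1 : (∑ i ∈ Finset.range m, s ^ i * t ^ (m - 1 - i)) * (s - t) = s ^ m - t ^ m :=
        (Commute.all s t).geom_sum₂_mul m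
      rw [h, sub_self] at h1
      rcases mul_eq_zero.mp h1 with h2 | h2
      · refine not_dvd_geom_sum₂ (n := m) (PadicInt.prime_p (p := p)) (hs.sub_dvd ht) hs.not_dvd ?_ ?_
        · intro h3
          apply hpm
          have h4 : (p : ℤ_[p]) ^ 1 ∣ ((m:ℤ) : ℤ_[p]) := by simpa using h3
          rw [PadicInt.pow_p_dvd_int_iff] at h4
          have h5 : (p : ℤ) ∣ (m : ℤ) := by simpa using h4
          exact_mod_cast h5
        · rw [h2]; exact dvd_zero _
      · exact hst (sub_eq_zero.mp h2)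

/-- the power `2 (p - 1)` of a unit is a principal unit -/
lemma unit_pow {r : ℤ_[p]} (hr : IsUnit r) : One' (r ^ (2 * (p - 1))) := by
  have hp : p.Prime := Fact.out
  have h1 : (p : ℤ_[p]) ∣ r ^ (p - 1) - 1 := by
    have h2 : PadicInt.toZMod (r ^ (p - 1) - 1) = 0 := by
      rw [map_sub, map_pow, map_one, ZMod.pow_card_sub_one_eq_one, sub_self]
      exact (hr.map (PadicInt.toZMod (p := p))).ne_zero
    have h3 : r ^ (p - 1) - 1 ∈ RingHom.ker (PadicInt.toZMod (p := p)) := h2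
    rw [PadicInt.ker_toZMod, PadicInt.maximalIdeal_eq_span_p, Ideal.mem_span_singleton] at h3
    exact h3
  have h4 : r ^ (2 * (p - 1)) - 1 = (r ^ (p - 1) - 1) * (r ^ (p - 1) + 1) := by
    rw [mul_comm 2, pow_mul]; ring
  refine ⟨?_, ?_⟩
  · rw [h4]; exact h1.mul_right _
  · intro h2
    subst h2
    rw [h4]
    obtain ⟨y, hy⟩ := h1
    have h5 : r ^ (2 - 1) + 1 = 2 * (y + 1) := by
      have : r ^ (2 - 1) = 2 * y + 1 := by
        rw [← sub_eq_iff_eq_add, hy]; norm_num
      rw [this]; ring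
    rw [hy, h5]
    exact ⟨y * (y + 1), by push_cast; ring⟩

end Pool.Agent.H389R3.LP
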