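import Mathlib
import Pool.Agent.H388SL.Field

/-!
# Integer polynomials with simple complex zeros: the discriminant and the product of the zeros
-/

set_option autoImplicit false

open Finset Polynomial Module

namespace Pool.Agent.H389R3.LR

open Pool.Agent.H388SL

lemma eval_deriv_prod [DecidableEq ℂ] (Z : Finset ℂ) {z : ℂ} (hz : z ∈ Z) :
    (derivative (∏ w ∈ Z, (X - C w))).eval z = ∏ w ∈ Z.erase z, (z - w) := by
  rw [← Finset.mul_prod_erase Z _ hz, derivative_mul, eval_add, eval_mul, eval_mul]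
  simp [eval_prod]

theorem one_le_disc_of [DecidableEq ℂ] (Q : ℤ[X]) (Z : Finset ℂ)
    (h : Q.map (Int.castRingHom ℂ) = ∏ z ∈ Z, (X - C z)) :
    1 ≤ ∏ z ∈ Z, ∏ w ∈ Z.erase z, ‖z - w‖ := by
  set φ := Int.castRingHom ℂ with hφ
  have hinj : Function.Injective φ := RingHom.injective_int φ
  set F := Q.map φ with hF
  have hmonic : F.Monic := by rw [h]; exact monic_prod_of_monic _ _ fun z _ => monic_X_sub_C z
  have hroots : F.roots = Z.val := by rw [h]; exact roots_prod_X_sub_C Z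
  have h1 := resultant_map_map Q (derivative Q) Q.natDegree (derivative Q).natDegree φ
  have h2 := resultant_eq_prod_eval F (derivative F) (derivative Q).natDegree (by
    rw [hF, derivative_map]
    exact natDegree_map_le) (IsAlgClosed.splits F)
  rw [hroots, hmonic.leadingCoeff, one_pow, one_mul] at h2
  have h3 : F.natDegree = Q.natDegree := natDegree_map_eq_of_injective hinj Q
  rw [h3] at h2
  rw [← hF, ← derivative_map, ← hF, h2] at h1
  have h4 : (Z.val.map (derivative F).eval).prod = ∏ z ∈ Z, ∏ w ∈ Z.erase z, (z - w) := by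
    change ∏ z ∈ Z, (derivative F).eval z = _
    refine Finset.prod_congr rfl fun z hz => ?_
    rw [h, eval_deriv_prod Z hz]
  rw [h4] at h1
  set r : ℤ := resultant Q (derivative Q) Q.natDegree (derivative Q).natDegree with hr
  have h5 : ∏ z ∈ Z, ∏ w ∈ Z.erase z, ‖z - w‖ = |(r : ℝ)| := by
    have h6 := congrArg norm h1
    rw [norm_prod] at h6
    simp_rw [norm_prod] at h6
    rw [h6]
    rw [hφ, eq_intCast, Complex.norm_intCast]
  have h6 : 0 < ∏ z ∈ Z, ∏ w ∈ Z.erase z, ‖z - w‖ := by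
    refine Finset.prod_pos fun z _ => Finset.prod_pos fun w hw => ?_
    rw [norm_pos_iff]
    exact sub_ne_zero.mpr (Finset.ne_of_mem_erase hw).symm
  rw [h5] at h6 ⊢
  have h7 : r ≠ 0 := by
    rintro h8
    rw [h8] at h6
    simp at h6
  exact_mod_cast Int.one_le_abs h7

theorem one_le_prod_of (Q : ℤ[X]) (Z : Finset ℂ)
    (h : Q.map (Int.castRingHom ℂ) = ∏ z ∈ Z, (X - C z)) (h0 : (0:ℂ) ∉ Z) :
    1 ≤ ∏ z ∈ Z, ‖z‖ := by
  have h1 : ((Q.coeff 0 : ℤ) : ℂ) = ∏ z ∈ Z, (0 - z) := by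
    have h2 : ((Q.coeff 0 : ℤ) : ℂ) = (Q.map (Int.castRingHom ℂ)).eval 0 := by
      rw [← Polynomial.coeff_zero_eq_eval_zero, Polynomial.coeff_map]; rfl
    rw [h2, h, eval_prod]
    simp
  have h2 : ∏ z ∈ Z, ‖z‖ = |((Q.coeff 0 : ℤ) : ℝ)| := by
    have h3 := congrArg norm h1
    rw [norm_prod, Complex.norm_intCast] at h3
    simpa using h3.symm
  have h3 : 0 < ∏ z ∈ Z, ‖z‖ :=
    Finset.prod_pos fun z hz => norm_pos_iff.mpr fun h => h0 (h ▸ hz)
  rw [h2] at h3 ⊢
  have h7 : Q.coeff 0 ≠ 0 := by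
    rintro h8
    rw [h8] at h3
    simp at h3
  exact_mod_cast Int.one_le_abs h7

variable {K : Type*} [Field K] [NumberField K]

/-- the set of conjugates -/
noncomputable def conjSet (β : K) : Finset ℂ := by
  classical exact (Finset.univ : Finset (K →ₐ[ℚ] ℂ)).image fun σ => σ β

lemma mem_conjSet {β : K} {z : ℂ} : z ∈ conjSet β ↔ ∃ σ : K →ₐ[ℚ] ℂ, σ β = z := by
  unfold conjSet
  rw [Finset.mem_image]
  simp

lemma conjSet_coe (β : K) : (conjSet β : Set ℂ) = (minpoly ℚ β).rootSet ℂ := by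
  rw [← (NumberField.isAlgebraic K).range_eval_eq_rootSet_minpoly ℂ β]
  ext z
  rw [Finset.mem_coe, mem_conjSet]
  rfl

lemma minpolyZ_map {β : K} (hβ : IsIntegral ℤ β) :
    (minpoly ℤ β).map (Int.castRingHom ℂ) = ∏ z ∈ conjSet β, (X - C z) := by
  classical
  have hint : IsIntegral ℚ β := Algebra.IsIntegral.isIntegral β
  have e : (minpoly ℤ β).map (Int.castRingHom ℂ) = (minpoly ℚ β).map (algebraMap ℚ ℂ) := by
    rw [minpoly.isIntegrallyClosed_eq_field_fractions' ℚ hβ, Polynomial.map_map]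
    rfl
  rw [e]
  have hs : ((minpoly ℚ β).map (algebraMap ℚ ℂ)).Splits := IsAlgClosed.splits _
  have hm : ((minpoly ℚ β).map (algebraMap ℚ ℂ)).Monic := (minpoly.monic hint).map _
  have hnd : ((minpoly ℚ β).map (algebraMap ℚ ℂ)).roots.Nodup :=
    nodup_roots (show (minpoly ℚ β).Separable from Algebra.IsSeparable.isSeparable ℚ β).map
  have h1 := hs.eq_prod_roots_of_monic hm
  have h2 : ((minpoly ℚ β).map (algebraMap ℚ ℂ)).roots = (conjSet β).val := by
    rw [Multiset.Nodup.ext hnd (conjSet β).nodup]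
    intro z
    have h4 : z ∈ (minpoly ℚ β).rootSet ℂ ↔ z ∈ ((minpoly ℚ β).map (algebraMap ℚ ℂ)).roots := by
      rw [Polynomial.rootSet_def, Finset.mem_coe, Multiset.mem_toFinset]
    rw [← h4, ← conjSet_coe]
    rfl
  rw [h1, h2]
  rfl

lemma card_conjSet_le (β : K) : (conjSet β).card ≤ finrank ℚ K := by
  classical
  unfold conjSet
  refine Finset.card_image_le.trans ?_
  rw [Finset.card_univ, AlgHom.card]

/-- nonnegative sums over the set of conjugates -/
lemma sum_conjSet_le (β : K) (F : ℂ → ℝ) (hF : ∀ z, 0 ≤ F z) :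
    ∑ z ∈ conjSet β, F z ≤ ∑ σ : K →ₐ[ℚ] ℂ, F (σ β) := by
  classical
  unfold conjSet
  rw [← Finset.sum_fiberwise_of_maps_to (s := (Finset.univ : Finset (K →ₐ[ℚ] ℂ)))
    (t := (Finset.univ : Finset (K →ₐ[ℚ] ℂ)).image fun σ => σ β) (g := fun σ => σ β)
    (fun σ hσ => Finset.mem_image_of_mem _ hσ) (fun σ => F (σ β))]
  refine Finset.sum_le_sum fun z hz => ?_
  obtain ⟨σ, _, rfl⟩ := Finset.mem_image.mp hz
  have h1 : σ ∈ (Finset.univ : Finset (K →ₐ[ℚ] ℂ)).filter (fun τ => τ β = σ β) := by simp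
  exact Finset.single_le_sum (f := fun τ : K →ₐ[ℚ] ℂ => F (τ β)) (fun τ _ => hF _) h1

end Pool.Agent.H389R3.LR
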