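import Mathlib
import Pool.Agent.H389R3.LR1
import Pool.Agent.H389R3.LR3
import Pool.Agent.H389R3.LP1

/-!
# The discriminant of an integer polynomial with many zeros in `ℤ_p` that are congruent mod `p`
-/

set_option autoImplicit false

open Finset Polynomial

namespace Pool.Agent.H389R3.LP

open Pool.Agent.H389R3.LR

lemma eval_deriv_prod' {R : Type*} [CommRing R] [DecidableEq R] (T : Finset R) {z : R}
    (hz : z ∈ T) : (derivative (∏ w ∈ T, (X - C w))).eval z = ∏ w ∈ T.erase z, (z - w) := by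
  rw [← Finset.mul_prod_erase T _ hz, derivative_mul, eval_add, eval_mul, eval_mul]
  simp [eval_prod]

/-- the product over pairs is the absolute value of the resultant of `Q` and `Q'` -/
theorem disc_eq [DecidableEq ℂ] (Q : ℤ[X]) (Z : Finset ℂ)
    (h : Q.map (Int.castRingHom ℂ) = ∏ z ∈ Z, (X - C z)) :
    ∏ z ∈ Z, ∏ w ∈ Z.erase z, ‖z - w‖ =
      |((resultant Q (derivative Q) Q.natDegree (derivative Q).natDegree : ℤ) : ℝ)| := by
  set φ := Int.castRingHom ℂ with hφ
  have hinj : Function.Injective φ := RingHom.injective_int φ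
  set F := Q.map φ with hF
  have hmonic : F.Monic := by rw [h]; exact monic_prod_of_monic _ _ fun z _ => monic_X_sub_C z
  have hroots : F.roots = Z.val := by rw [h]; exact roots_prod_X_sub_C Z
  have h1 := resultant_map_map Q (derivative Q) Q.natDegree (derivative Q).natDegree φ
  have h2 := resultant_eq_prod_eval F (derivative F) (derivative Q).natDegree (by
    rw [hF, derivative_map]
    exact natDegree_map_le) (IsAlgClosed.splits F)
  rw [hroots, hmonic.leadingCoeff, one_pow, one_mul] at h2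
  have h3 : F.natDegree = Q.natDegree := natDegree_map_eq_of_injective hinj Q
  rw [h3] at h2
  rw [← hF, ← derivative_map, ← hF, h2] at h1
  have h4 : (Z.val.map (derivative F).eval).prod = ∏ z ∈ Z, ∏ w ∈ Z.erase z, (z - w) := by
    change ∏ z ∈ Z, (derivative F).eval z = _
    refine Finset.prod_congr rfl fun z hz => ?_
    rw [h, eval_deriv_prod Z hz]
  rw [h4] at h1
  have h6 := congrArg norm h1
  rw [norm_prod] at h6
  simp_rw [norm_prod] at h6
  rw [h6, hφ, eq_intCast, Complex.norm_intCast]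

variable {p : ℕ} [Fact p.Prime]

/-- divisibility of the resultant -/
theorem dvd_res (Q : ℤ[X]) (hQ : Q.Monic) (T : Finset ℤ_[p])
    (hT : ∀ s ∈ T, (Q.map (Int.castRingHom ℤ_[p])).eval s = 0)
    (hc : ∀ s ∈ T, ∀ t ∈ T, (p : ℤ_[p]) ∣ s - t) :
    ((p : ℤ) ^ ((T.card - 1) * T.card)) ∣
      resultant Q (derivative Q) Q.natDegree (derivative Q).natDegree := by
  classical
  rw [← PadicInt.pow_p_dvd_int_iff]
  set φ := Int.castRingHom ℤ_[p] with hφ
  have hinj : Function.Injective φ := RingHom.injective_int φ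
  set F := Q.map φ with hF
  set r := resultant Q (derivative Q) Q.natDegree (derivative Q).natDegree with hr
  have hFm : F.Monic := hQ.map φ
  have h1 := resultant_map_map Q (derivative Q) Q.natDegree (derivative Q).natDegree φ
  rw [← hF, ← derivative_map, ← hF, ← hr] at h1
  have h3 : F.natDegree = Q.natDegree := natDegree_map_eq_of_injective hinj Q
  -- the factor
  set A : ℤ_[p][X] := ∏ s ∈ T, (X - C s) with hA
  have hAd : A ∣ F := by
    have h4 : T.val ≤ F.roots := by
      rw [Multiset.le_iff_subset T.nodup]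
      intro s hs
      rw [mem_roots hFm.ne_zero]
      exact hT s hs
    have h5 := (Multiset.prod_X_sub_C_dvd_iff_le_roots hFm.ne_zero T.val).mpr h4
    exact h5
  obtain ⟨G, hG⟩ := hAd
  have hAm : A.Monic := monic_prod_of_monic _ _ fun z _ => monic_X_sub_C z
  have hGm : G.Monic := hAm.of_mul_monic_left (hG ▸ hFm)
  have hdeg : A.natDegree + G.natDegree = Q.natDegree := by
    rw [← h3, hG, hAm.natDegree_mul hGm]
  have hn : (derivative F).natDegree ≤ (derivative Q).natDegree := by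
    rw [hF, derivative_map]
    exact natDegree_map_le
  have h6 := resultant_mul_left A G (derivative F) (derivative Q).natDegree hn
  rw [← hG, hdeg, h1] at h6
  have hAs : A.Splits := Splits.prod fun s _ => Splits.X_sub_C s
  have h7 := resultant_eq_prod_eval A (derivative F) (derivative Q).natDegree hn hAs
  have hroots : A.roots = T.val := roots_prod_X_sub_C T
  rw [hroots, hAm.leadingCoeff, one_pow, one_mul] at h7
  have h8 : (T.val.map (derivative F).eval).prod = ∏ s ∈ T, (derivative F).eval s := rfl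
  rw [h8] at h7
  have h9 : (p : ℤ_[p]) ^ ((T.card - 1) * T.card) ∣ ∏ s ∈ T, (derivative F).eval s := by
    rw [pow_mul, ← Finset.prod_const]
    refine Finset.prod_dvd_prod_of_dvd _ _ fun s hs => ?_
    have h10 : (derivative F).eval s = (∏ w ∈ T.erase s, (s - w)) * G.eval s := by
      rw [hG, derivative_mul, eval_add, eval_mul, eval_mul]
      have h11 : A.eval s = 0 := by
        rw [hA, eval_prod]
        exact Finset.prod_eq_zero hs (by simp)
      rw [h11, zero_mul, add_zero, hA, eval_deriv_prod' T hs]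
    rw [h10]
    refine Dvd.dvd.mul_right ?_ _
    rw [← Finset.card_erase_of_mem hs, ← Finset.prod_const]
    exact Finset.prod_dvd_prod_of_dvd _ _ fun w hw => hc s hs w (Finset.mem_of_mem_erase hw)
  have h12 : (r : ℤ_[p]) = φ r := rfl
  rw [h12, h6, h7]
  exact h9.mul_right _

/-- lower bound for the discriminant -/
theorem disc_ge [DecidableEq ℂ] (Q : ℤ[X]) (Z : Finset ℂ)
    (h : Q.map (Int.castRingHom ℂ) = ∏ z ∈ Z, (X - C z)) (T : Finset ℤ_[p])
    (hT : ∀ s ∈ T, (Q.map (Int.castRingHom ℤ_[p])).eval s = 0)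
    (hc : ∀ s ∈ T, ∀ t ∈ T, (p : ℤ_[p]) ∣ s - t) :
    ((T.card - 1 : ℕ) * T.card : ℝ) * Real.log 2 ≤
      ∑ z ∈ Z, ∑ w ∈ Z, (if z = w then 0 else Real.log ‖z - w‖) := by
  have hQm : Q.Monic := by
    have h1 : (Q.map (Int.castRingHom ℂ)).Monic := by
      rw [h]; exact monic_prod_of_monic _ _ fun z _ => monic_X_sub_C z
    exact monic_of_injective (RingHom.injective_int _) h1
  have h1 := disc_eq Q Z h
  have h2 := dvd_res Q hQm T hT hc
  set r : ℤ := resultant Q (derivative Q) Q.natDegree (derivative Q).natDegree with hr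
  have hne : ∀ z ∈ Z, ∀ w ∈ Z.erase z, ‖z - w‖ ≠ 0 := by
    intro z _ w hw
    rw [norm_ne_zero_iff]
    exact sub_ne_zero.mpr (Finset.ne_of_mem_erase hw).symm
  have h3 : Real.log (∏ z ∈ Z, ∏ w ∈ Z.erase z, ‖z - w‖) =
      ∑ z ∈ Z, ∑ w ∈ Z, (if z = w then 0 else Real.log ‖z - w‖) := by
    rw [Real.log_prod fun z hz => Finset.prod_ne_zero_iff.mpr (hne z hz)]
    refine Finset.sum_congr rfl fun z hz => ?_
    rw [Real.log_prod (hne z hz), ← Finset.add_sum_erase Z _ hz, if_pos rfl, zero_add]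
    refine Finset.sum_congr rfl fun w hw => ?_
    rw [if_neg (Finset.ne_of_mem_erase hw).symm]
  have hr0 : r ≠ 0 := by
    intro h4
    have h5 : ∏ z ∈ Z, ∏ w ∈ Z.erase z, ‖z - w‖ ≠ 0 :=
      Finset.prod_ne_zero_iff.mpr fun z hz => Finset.prod_ne_zero_iff.mpr (hne z hz)
    rw [h1, h4] at h5
    simp at h5
  rw [← h3, h1]
  have h6 : (p : ℤ) ^ ((T.card - 1) * T.card) ≤ |r| := Int.le_of_dvd (abs_pos.mpr hr0) (by
    rw [dvd_abs]; exact h2)
  have h7 : (p : ℝ) ^ ((T.card - 1) * T.card) ≤ |(r : ℝ)| := by exact_mod_cast h6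
  have hp : p.Prime := Fact.out
  have hp2 : (2:ℝ) ≤ p := by exact_mod_cast hp.two_le
  have h8 : (2:ℝ) ^ ((T.card - 1) * T.card) ≤ |(r : ℝ)| :=
    (pow_le_pow_left₀ (by norm_num) hp2 _).trans h7
  have h9 := Real.log_le_log (by positivity) h8
  rw [Real.log_pow] at h9
  push_cast at h9
  exact h9

/-- counting -/
theorem count_padic (Z : Finset ℂ) {P : ℕ} (hP : P ≤ Z.card)
    (hdisc : ((P - 1 : ℕ) * P : ℝ) * Real.log 2 ≤
      ∑ z ∈ Z, ∑ w ∈ Z, (if z = w then 0 else Real.log ‖z - w‖)) :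
    (P : ℝ) ^ 2 ≤ 130 * Z.card * (∑ z ∈ Z, Real.log (max 1 ‖z‖)) +
      52 * Z.card * (1 + Real.log Z.card) := by
  set N := Z.card with hN
  set Λ := ∑ z ∈ Z, Real.log (max 1 ‖z‖) with hΛ
  have hΛ0 : 0 ≤ Λ := Finset.sum_nonneg fun z _ => Real.log_nonneg (le_max_left _ _)
  have hlogN : 0 ≤ Real.log N := Real.log_natCast_nonneg N
  rcases Nat.eq_zero_or_pos P with hP0 | hPpos
  · rw [hP0]
    have : 0 ≤ 130 * (N:ℝ) * Λ + 52 * N * (1 + Real.log N) := by positivity
    simpa using this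
  have hN1 : 1 ≤ N := le_trans hPpos hP
  have hN1' : (1:ℝ) ≤ N := by exact_mod_cast hN1
  have hN0 : (0:ℝ) < N := by linarith
  set t : ℝ := 1 - 1 / N with ht
  have hNinv : 1 / (N:ℝ) ≤ 1 := by
    rw [div_le_one hN0]; exact hN1'
  have hNinv0 : 0 < 1 / (N:ℝ) := by positivity
  have ht0 : 0 ≤ t := by rw [ht]; linarith
  have ht1 : t < 1 := by rw [ht]; linarith
  have h1 := energyL Z ht0 ht1 0
  have h2 : Real.log (2 / (1 + t)) ≤ 1 / N := by
    have h3 : 0 < 2 / (1 + t) := by positivity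
    have h4 := Real.log_le_sub_one_of_pos h3
    have h5 : 2 / (1 + t) - 1 ≤ 1 / N := by
      have h6 : 2 / (1 + t) - 1 = (1 - t) / (1 + t) := by
        field_simp
        ring
      rw [h6]
      have h7 : 1 - t = 1 / N := by rw [ht]; ring
      rw [h7]
      exact div_le_self hNinv0.le (by linarith)
    linarith
  have h8 : Real.log (1 / (1 - t)) = Real.log N := by
    congr 1
    rw [ht]
    have : (N:ℝ) ≠ 0 := hN0.ne'
    field_simp
    ring
  have h9 : (N:ℝ) ^ 2 * Real.log (2 / (1 + t)) ≤ N := by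
    have := mul_le_mul_of_nonneg_left h2 (by positivity : (0:ℝ) ≤ (N:ℝ) ^ 2)
    have e : (N:ℝ) ^ 2 * (1 / N) = N := by
      have : (N:ℝ) ≠ 0 := hN0.ne'
      field_simp
    linarith
  rw [h8] at h1
  simp only [Finset.range_zero, Finset.sum_empty, add_zero] at h1
  have h10 : ((P - 1 : ℕ) * P : ℝ) * Real.log 2 ≤ 2 * N * Λ + N + N * Real.log N := by
    linarith
  have h11 : ((P - 1 : ℕ) : ℝ) = P - 1 := by
    rw [Nat.cast_sub hPpos]; simp
  rw [h11] at h10
  have hl2 := Real.log_two_gt_d9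
  have hPN : (P:ℝ) ≤ N := by exact_mod_cast hP
  have hP1 : (1:ℝ) ≤ P := by exact_mod_cast hPpos
  have h12 : 0 ≤ ((P:ℝ) - 1) * P := mul_nonneg (by linarith) (by linarith)
  have h13 : 0 ≤ (N:ℝ) * Λ := by positivity
  have h14 : 0 ≤ (N:ℝ) * Real.log N := by positivity
  nlinarith

end Pool.Agent.H389R3.LP
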