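import Mathlib
import Pool.Agent.H389R3.LR1

/-!
# Counting the positive real numbers in a finite set of complex numbers of small energy
-/

set_option autoImplicit false

open Complex Finset

namespace Pool.Agent.H389R3.LR

open Pool.Agent.H388SL

/-- the set of positive real members -/
noncomputable def posPart (Z : Finset ℂ) : Finset ℂ := by
  classical exact Z.filter (fun z => 0 < z.re ∧ z.im = 0)

/-- the part of the kernel at a point of the closed disc -/
lemma half_le_re {r : ℝ} (hr0 : 0 ≤ r) (hr1 : r < 1) {b : ℂ} (hb : ‖b‖ ≤ 1) :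
    1 / 2 ≤ ((1 - (r : ℂ) * b)⁻¹).re := by
  have hn : ‖(r : ℂ) * b‖ < 1 := by
    rw [norm_mul, Complex.norm_real, Real.norm_of_nonneg hr0]
    nlinarith [norm_nonneg b]
  set w : ℂ := (r : ℂ) * b with hw
  have hne : 1 - w ≠ 0 := by
    intro h
    have : w = 1 := (sub_eq_zero.mp h).symm
    rw [this, norm_one] at hn
    exact lt_irrefl _ hn
  rw [Complex.inv_re]
  have hpos : 0 < Complex.normSq (1 - w) := Complex.normSq_pos.mpr hne
  rw [div_le_div_iff₀ two_pos hpos, Complex.normSq_apply]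
  have e : ‖w‖ ^ 2 = w.re ^ 2 + w.im ^ 2 := by
    rw [← Complex.normSq_eq_norm_sq, Complex.normSq_apply]; ring
  have h2 : ‖w‖ ^ 2 < 1 := by nlinarith [norm_nonneg w]
  simp only [Complex.sub_re, Complex.one_re, Complex.sub_im, Complex.one_im]
  nlinarith

lemma sum_nat_mul_pow_le {r : ℝ} (hr0 : 0 ≤ r) (hr1 : r < 1) (L : ℕ) :
    ∑ k ∈ Finset.range L, (k : ℝ) * r ^ k ≤ 1 / (1 - r) ^ 2 := by
  have h := hasSum_coe_mul_geometric_of_norm_lt_one (𝕜 := ℝ) (r := r) (by
    rw [Real.norm_of_nonneg hr0]; exact hr1)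
  have h1 := sum_le_hasSum (Finset.range L) (fun n _ => by positivity) h
  refine h1.trans ?_
  have : 0 < (1 - r) ^ 2 := by
    have : 0 < 1 - r := by linarith
    positivity
  exact div_le_div_of_nonneg_right hr1.le this.le

/-- sum of the kernel over the set -/
lemma sum_kernel_le (Z : Finset ℂ) {r t : ℝ} (hr0 : 0 ≤ r) (hrt : r ≤ t) (ht1 : t < 1)
    {E : ℝ} (hE : ∀ L : ℕ, ∑ k ∈ Finset.range L, t ^ k / k * ‖∑ z ∈ Z, refl z ^ k‖ ^ 2 ≤ E)
    {ε : ℝ} (hε : 0 < ε) :
    ∑ z ∈ Z, ((1 - (r : ℂ) * refl z)⁻¹).re ≤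
      Z.card + ε / 2 * (1 / (1 - r) ^ 2) + 1 / (2 * ε) * E := by
  have hr1 : r < 1 := lt_of_le_of_lt hrt ht1
  have hs : HasSum (fun k : ℕ => ∑ z ∈ Z, (((r : ℂ) * refl z) ^ k).re)
      (∑ z ∈ Z, ((1 - (r : ℂ) * refl z)⁻¹).re) := by
    refine hasSum_sum fun z _ => ?_
    refine Complex.hasSum_re (hasSum_geometric_of_norm_lt_one ?_)
    rw [norm_mul, Complex.norm_real, Real.norm_of_nonneg hr0]
    nlinarith [norm_nonneg (refl z), norm_refl_le z]
  refine le_of_tendsto' hs.tendsto_sum_nat fun L => ?_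
  have hterm : ∀ k : ℕ, ∑ z ∈ Z, (((r : ℂ) * refl z) ^ k).re ≤
      (if k = 0 then (Z.card : ℝ) else 0) + ε / 2 * ((k : ℝ) * r ^ k)
        + 1 / (2 * ε) * (t ^ k / k * ‖∑ z ∈ Z, refl z ^ k‖ ^ 2) := by
    intro k
    rcases Nat.eq_zero_or_pos k with hk | hk
    · subst hk
      simp
    · rw [if_neg hk.ne', zero_add]
      set S : ℂ := ∑ z ∈ Z, refl z ^ k with hS
      have e1 : ∑ z ∈ Z, (((r : ℂ) * refl z) ^ k).re = ((r ^ k : ℝ) * S).re := by
        rw [hS, Finset.mul_sum, Complex.re_sum]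
        refine Finset.sum_congr rfl fun z _ => ?_
        rw [mul_pow]; push_cast; rfl
      rw [e1, Complex.re_ofReal_mul]
      have hrk : 0 ≤ r ^ k := pow_nonneg hr0 k
      have h1 : r ^ k * S.re ≤ r ^ k * ‖S‖ :=
        mul_le_mul_of_nonneg_left (Complex.re_le_norm S) hrk
      have hk0 : (0:ℝ) < k := by exact_mod_cast hk
      have h2 : ‖S‖ ≤ ε / 2 * k + 1 / (2 * ε) * (‖S‖ ^ 2 / k) := by
        have h3 : 0 ≤ (ε * k - ‖S‖) ^ 2 / (2 * ε * k) := by positivity
        have h4 : (ε * k - ‖S‖) ^ 2 / (2 * ε * k) = ε / 2 * k + 1 / (2 * ε) * (‖S‖ ^ 2 / k) - ‖S‖ := by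
          field_simp
          ring
        linarith
      have h5 : r ^ k * ‖S‖ ≤ r ^ k * (ε / 2 * k + 1 / (2 * ε) * (‖S‖ ^ 2 / k)) :=
        mul_le_mul_of_nonneg_left h2 hrk
      have h6 : r ^ k ≤ t ^ k := pow_le_pow_left₀ hr0 hrt k
      have h7 : r ^ k * (‖S‖ ^ 2 / k) ≤ t ^ k * (‖S‖ ^ 2 / k) :=
        mul_le_mul_of_nonneg_right h6 (by positivity)
      have h8 : 1 / (2 * ε) * (r ^ k * (‖S‖ ^ 2 / k)) ≤ 1 / (2 * ε) * (t ^ k * (‖S‖ ^ 2 / k)) :=
        mul_le_mul_of_nonneg_left h7 (by positivity)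
      calc r ^ k * S.re ≤ r ^ k * (ε / 2 * k + 1 / (2 * ε) * (‖S‖ ^ 2 / k)) := h1.trans h5
        _ = ε / 2 * (k * r ^ k) + 1 / (2 * ε) * (r ^ k * (‖S‖ ^ 2 / k)) := by ring
        _ ≤ ε / 2 * (k * r ^ k) + 1 / (2 * ε) * (t ^ k * (‖S‖ ^ 2 / k)) := by linarith
        _ = _ := by ring
  calc ∑ k ∈ Finset.range L, ∑ z ∈ Z, (((r : ℂ) * refl z) ^ k).re ≤
      ∑ k ∈ Finset.range L, ((if k = 0 then (Z.card : ℝ) else 0) + ε / 2 * ((k : ℝ) * r ^ k)
        + 1 / (2 * ε) * (t ^ k / k * ‖∑ z ∈ Z, refl z ^ k‖ ^ 2)) :=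
        Finset.sum_le_sum fun k _ => hterm k
    _ = ∑ k ∈ Finset.range L, (if k = 0 then (Z.card : ℝ) else 0)
        + ε / 2 * ∑ k ∈ Finset.range L, ((k : ℝ) * r ^ k)
        + 1 / (2 * ε) * ∑ k ∈ Finset.range L, (t ^ k / k * ‖∑ z ∈ Z, refl z ^ k‖ ^ 2) := by
        rw [Finset.sum_add_distrib, Finset.sum_add_distrib, Finset.mul_sum, Finset.mul_sum]
    _ ≤ _ := by
        have h1 : ∑ k ∈ Finset.range L, (if k = 0 then (Z.card : ℝ) else 0) ≤ Z.card := by
          rw [Finset.sum_ite_eq']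
          split_ifs
          · exact le_rfl
          · positivity
        have h2 := mul_le_mul_of_nonneg_left (sum_nat_mul_pow_le hr0 hr1 L)
          (by positivity : 0 ≤ ε / 2)
        have h3 := mul_le_mul_of_nonneg_left (hE L) (by positivity : 0 ≤ 1 / (2 * ε))
        linarith

/-- real point near 1 -/
lemma kernel_large {r : ℝ} (hr0 : 0 ≤ r) (hr1 : r < 1) {b : ℝ} (hb1 : b ≤ 1) (hb : r ≤ b) :
    1 / (2 * (1 - r)) ≤ ((1 - (r : ℂ) * (b : ℂ))⁻¹).re := by
  have h1 : r * b < 1 := by nlinarith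
  have e : ((1 - (r : ℂ) * (b : ℂ))⁻¹) = (((1 - r * b)⁻¹ : ℝ) : ℂ) := by push_cast; rfl
  rw [e, Complex.ofReal_re, ← one_div]
  have h2 : 0 < 1 - r := by linarith
  apply one_div_le_one_div_of_le (by linarith)
  nlinarith

lemma refl_ofReal {x : ℝ} (hx : 0 < x) : refl (x : ℂ) = ((if x ≤ 1 then x else x⁻¹ : ℝ) : ℂ) := by
  unfold Pool.Agent.H388SL.refl
  rw [Complex.norm_real, Real.norm_of_nonneg hx.le]
  split_ifs with h
  · rfl
  · rw [Complex.conj_ofReal]; push_cast; rfl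

/-- main counting inequality -/
theorem count_sq (Z : Finset ℂ) (h0 : (0:ℂ) ∉ Z)
    (hdisc : 0 ≤ ∑ z ∈ Z, ∑ w ∈ Z, (if z = w then 0 else Real.log ‖z - w‖))
    (hprod : 0 ≤ ∑ z ∈ Z, Real.log ‖z‖) :
    ((posPart Z).card : ℝ) ^ 2 ≤ 130 * Z.card * (∑ z ∈ Z, Real.log (max 1 ‖z‖)) +
      52 * Z.card * (1 + Real.log Z.card) := by
  classical
  set N := Z.card with hN
  set P := (posPart Z).card with hP
  set Λ := ∑ z ∈ Z, Real.log (max 1 ‖z‖) with hΛ
  have hΛ0 : 0 ≤ Λ := Finset.sum_nonneg fun z _ => Real.log_nonneg (le_max_left _ _)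
  have hPZ : posPart Z ⊆ Z := by
    unfold posPart; exact Finset.filter_subset _ _
  have hPN : P ≤ N := Finset.card_le_card hPZ
  have hlogN : 0 ≤ Real.log N := Real.log_natCast_nonneg N
  rcases Nat.eq_zero_or_pos P with hP0 | hPpos
  · rw [hP0]
    have : 0 ≤ 130 * (N:ℝ) * Λ + 52 * N * (1 + Real.log N) := by positivity
    simpa using this
  have hN1 : 1 ≤ N := le_trans hPpos hPN
  have hN1' : (1:ℝ) ≤ N := by exact_mod_cast hN1
  rcases Nat.lt_or_ge P 8 with hP8 | hP8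
  · have h1 : (P:ℝ) ≤ 7 := by exact_mod_cast Nat.lt_succ_iff.mp hP8
    have h2 : (P:ℝ) ^ 2 ≤ 49 := by nlinarith [Nat.cast_nonneg (α := ℝ) P]
    have h3 : 0 ≤ 130 * (N:ℝ) * Λ := by positivity
    have h4 : 0 ≤ 52 * (N:ℝ) * Real.log N := by positivity
    nlinarith
  have hP8' : (8:ℝ) ≤ P := by exact_mod_cast hP8
  have hPN' : (P:ℝ) ≤ N := by exact_mod_cast hPN
  have hN0 : (0:ℝ) < N := by linarith
  have hP0' : (0:ℝ) < P := by linarith
  set δ : ℝ := P / (8 * N) with hδ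
  have hδ0 : 0 < δ := by positivity
  have hδ1 : δ ≤ 1 / 8 := by
    rw [hδ, div_le_div_iff₀ (by positivity) (by norm_num)]; linarith
  set r : ℝ := 1 - δ with hr
  set t : ℝ := 1 - 1 / N with ht
  have hNinv : 1 / (N:ℝ) ≤ 1 := by
    rw [div_le_one hN0]; exact hN1'
  have hNinv0 : 0 < 1 / (N:ℝ) := by positivity
  have ht0 : 0 ≤ t := by rw [ht]; linarith
  have ht1 : t < 1 := by rw [ht]; linarith
  have hr0 : 0 ≤ r := by rw [hr]; linarith
  have hrt : r ≤ t := by
    rw [hr, ht, hδ]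
    have : 1 / (N:ℝ) ≤ P / (8 * N) := by
      rw [div_le_div_iff₀ hN0 (by positivity)]
      nlinarith
    linarith
  have hr1 : r < 1 := lt_of_le_of_lt hrt ht1
  -- the energy bound
  set E : ℝ := 2 * N * Λ + N + N * Real.log N with hE
  have hEb : ∀ L : ℕ, ∑ k ∈ Finset.range L, t ^ k / k * ‖∑ z ∈ Z, refl z ^ k‖ ^ 2 ≤ E := by
    intro L
    have h1 := energyL Z ht0 ht1 L
    have h2 : Real.log (2 / (1 + t)) ≤ 1 / N := by
      have h3 : 0 < 2 / (1 + t) := by positivity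
      have h4 := Real.log_le_sub_one_of_pos h3
      have h5 : 2 / (1 + t) - 1 ≤ 1 / N := by
        have h6 : 2 / (1 + t) - 1 = (1 - t) / (1 + t) := by
          field_simp
          ring
        rw [h6]
        have h7 : 1 - t = 1 / N := by rw [ht]; ring
        rw [h7]
        exact div_le_self hNinv0.le (by linarith)
      linarith
    have h8 : Real.log (1 / (1 - t)) = Real.log N := by
      congr 1
      rw [ht]
      have : (N:ℝ) ≠ 0 := hN0.ne'
      field_simp
      ring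
    have h9 : (N:ℝ) ^ 2 * Real.log (2 / (1 + t)) ≤ N := by
      have := mul_le_mul_of_nonneg_left h2 (by positivity : (0:ℝ) ≤ (N:ℝ) ^ 2)
      have e : (N:ℝ) ^ 2 * (1 / N) = N := by
        have : (N:ℝ) ≠ 0 := hN0.ne'
        field_simp
      linarith
    rw [h8] at h1
    rw [hE]
    linarith
  have hE0 : 0 ≤ E := by rw [hE]; positivity
  -- near and far
  set near := (posPart Z).filter (fun z => r ≤ ‖refl z‖) with hnear
  set far := (posPart Z).filter (fun z => ¬ r ≤ ‖refl z‖) with hfar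
  have hcard : near.card + far.card = P := by
    rw [hnear, hfar, hP]; exact Finset.card_filter_add_card_filter_not _
  have hpos_form : ∀ z ∈ posPart Z, ∃ x : ℝ, 0 < x ∧ z = x := by
    intro z hz
    unfold posPart at hz
    rw [Finset.mem_filter] at hz
    exact ⟨z.re, hz.2.1, by apply Complex.ext <;> simp [hz.2.2]⟩
  -- kernel lower bound
  set ε : ℝ := P / 16 * δ with hε
  have hε0 : 0 < ε := by positivity
  have hker := sum_kernel_le Z hr0 hrt ht1 hEb hε0
  have hlow : (near.card : ℝ) * (1 / (2 * δ)) + (N - near.card) * (1 / 2) ≤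
      ∑ z ∈ Z, ((1 - (r : ℂ) * refl z)⁻¹).re := by
    have hsub : near ⊆ Z := (Finset.filter_subset _ _).trans hPZ
    rw [← Finset.sum_sdiff hsub]
    have h1 : (near.card : ℝ) * (1 / (2 * δ)) ≤ ∑ z ∈ near, ((1 - (r : ℂ) * refl z)⁻¹).re := by
      rw [← nsmul_eq_mul, ← Finset.sum_const]
      refine Finset.sum_le_sum fun z hz => ?_
      rw [hnear, Finset.mem_filter] at hz
      obtain ⟨x, hx, rfl⟩ := hpos_form z hz.1
      have h2 := hz.2
      rw [refl_ofReal hx] at h2 ⊢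
      have h3 : 0 ≤ (if x ≤ 1 then x else x⁻¹ : ℝ) := by split_ifs <;> positivity
      rw [Complex.norm_real, Real.norm_of_nonneg h3] at h2
      have h4 : (if x ≤ 1 then x else x⁻¹ : ℝ) ≤ 1 := by
        split_ifs with h
        · exact h
        · exact inv_le_one_of_one_le₀ (not_le.mp h).le
      have h5 := kernel_large hr0 hr1 h4 h2
      have e : 1 - r = δ := by rw [hr]; ring
      rw [e] at h5
      exact h5
    have h2 : ((N:ℝ) - near.card) * (1 / 2) ≤ ∑ z ∈ Z \ near, ((1 - (r : ℂ) * refl z)⁻¹).re := by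
      have hc : ((Z \ near).card : ℝ) = N - near.card := by
        rw [Finset.card_sdiff_of_subset hsub, Nat.cast_sub (Finset.card_le_card hsub)]
      rw [← hc, ← nsmul_eq_mul, ← Finset.sum_const]
      exact Finset.sum_le_sum fun z _ => half_le_re hr0 hr1 (norm_refl_le z)
    linarith
  -- far
  have hfarb : (far.card : ℝ) * δ ≤ 2 * Λ := by
    have habs : ∑ z ∈ Z, |Real.log ‖z‖| ≤ 2 * Λ := by
      have h1 : ∀ z ∈ Z, |Real.log ‖z‖| = 2 * Real.log (max 1 ‖z‖) - Real.log ‖z‖ := by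
        intro z hz
        have hz0 : 0 < ‖z‖ := norm_pos_iff.mpr (fun h => h0 (h ▸ hz))
        rcases le_total ‖z‖ 1 with h | h
        · rw [max_eq_left h, Real.log_one, abs_of_nonpos (Real.log_nonpos hz0.le h)]; ring
        · rw [max_eq_right h, abs_of_nonneg (Real.log_nonneg h)]; ring
      rw [Finset.sum_congr rfl h1, Finset.sum_sub_distrib, ← Finset.mul_sum]
      linarith
    have h2 : (far.card : ℝ) * δ ≤ ∑ z ∈ far, |Real.log ‖z‖| := by
      rw [← nsmul_eq_mul, ← Finset.sum_const]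
      refine Finset.sum_le_sum fun z hz => ?_
      rw [hfar, Finset.mem_filter] at hz
      obtain ⟨x, hx, rfl⟩ := hpos_form z hz.1
      have h3 := hz.2
      push Not at h3
      rw [refl_ofReal hx] at h3
      have h4 : 0 ≤ (if x ≤ 1 then x else x⁻¹ : ℝ) := by split_ifs <;> positivity
      rw [Complex.norm_real, Real.norm_of_nonneg h4] at h3
      rw [Complex.norm_real, Real.norm_of_nonneg hx.le]
      split_ifs at h3 with h
      · have h5 := Real.log_le_sub_one_of_pos hx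
        rw [abs_of_nonpos (Real.log_nonpos hx.le h)]
        rw [hr] at h3
        linarith
      · have h5 := Real.log_le_sub_one_of_pos (inv_pos.mpr hx)
        rw [Real.log_inv] at h5
        rw [abs_of_nonneg (Real.log_nonneg (not_le.mp h).le)]
        rw [hr] at h3
        linarith
    have h3 : ∑ z ∈ far, |Real.log ‖z‖| ≤ ∑ z ∈ Z, |Real.log ‖z‖| :=
      Finset.sum_le_sum_of_subset_of_nonneg ((Finset.filter_subset _ _).trans hPZ)
        fun z _ _ => abs_nonneg _
    linarith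
  -- combination
  have hnc : (near.card : ℝ) + far.card = P := by exact_mod_cast hcard
  have e1 : ε / 2 * (1 / (1 - r) ^ 2) = P / (32 * δ) := by
    have e : 1 - r = δ := by rw [hr]; ring
    rw [e, hε]
    field_simp
    ring
  have e2 : 1 / (2 * ε) * E = 8 * E / (P * δ) := by
    rw [hε]
    field_simp
    ring
  rw [e1, e2] at hker
  have hmain : (near.card : ℝ) * (1 / (2 * δ)) + (N - near.card) * (1 / 2) ≤
      N + P / (32 * δ) + 8 * E / (P * δ) := hlow.trans hker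
  -- multiply by 2 δ
  have hmul := mul_le_mul_of_nonneg_left hmain (by positivity : 0 ≤ 2 * δ)
  have e3 : 2 * δ * ((near.card : ℝ) * (1 / (2 * δ)) + (N - near.card) * (1 / 2)) =
      near.card + δ * (N - near.card) := by
    field_simp
    try ring
  have e4 : 2 * δ * (N + P / (32 * δ) + 8 * E / (P * δ)) = 2 * δ * N + P / 16 + 16 * E / P := by
    field_simp
    ring
  rw [e3, e4] at hmul
  have e5 : δ * N = P / 8 := by
    rw [hδ]; field_simp
  have hnear0 : (0:ℝ) ≤ near.card := Nat.cast_nonneg _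
  have hfar0 : (0:ℝ) ≤ far.card := Nat.cast_nonneg _
  have h10 : (near.card : ℝ) * (7 / 8) ≤ P / 8 + P / 16 + 16 * E / P := by
    have h11 : δ * near.card ≤ 1 / 8 * near.card := mul_le_mul_of_nonneg_right hδ1 hnear0
    have h12 : δ * (N - near.card) = P / 8 - δ * near.card := by rw [mul_sub, e5]
    have h13 : 2 * δ * N = P / 4 := by
      have : 2 * δ * N = 2 * (δ * N) := by ring
      rw [this, e5]; ring
    rw [h12, h13] at hmul
    linarith
  have h14 : (far.card : ℝ) ≤ 16 * N * Λ / P := by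
    have h15 : (far.card : ℝ) ≤ 2 * Λ / δ := by
      rw [le_div_iff₀ hδ0]; exact hfarb
    have e6 : 2 * Λ / δ = 16 * N * Λ / P := by
      rw [hδ]; field_simp; ring
    rw [e6] at h15
    exact h15
  have h16 : (P:ℝ) * (7 / 8) ≤ 3 / 16 * P + 16 * E / P + 14 * N * Λ / P := by
    have h17 : (far.card : ℝ) * (7 / 8) ≤ 14 * N * Λ / P := by
      have : 14 * N * Λ / P = (16 * N * Λ / P) * (7 / 8) := by ring
      rw [this]
      exact mul_le_mul_of_nonneg_right h14 (by norm_num)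
    have : (P:ℝ) * (7 / 8) = (near.card : ℝ) * (7 / 8) + far.card * (7 / 8) := by
      rw [← hnc]; ring
    linarith
  have h18 : 11 / 16 * (P:ℝ) ^ 2 ≤ 16 * E + 14 * N * Λ := by
    have h19 := mul_le_mul_of_nonneg_right h16 hP0'.le
    have e7 : (3 / 16 * (P:ℝ) + 16 * E / P + 14 * N * Λ / P) * P =
        3 / 16 * (P:ℝ) ^ 2 + 16 * E + 14 * N * Λ := by
      field_simp
    rw [e7] at h19
    nlinarith
  rw [hE] at h18
  have h20 : 0 ≤ (N:ℝ) * Λ := by positivity
  have h21 : 0 ≤ (N:ℝ) * Real.log N := by positivity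
  nlinarith

end Pool.Agent.H389R3.LR
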