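import Mathlib
import Pool.Agent.H388SL.DobA
import Pool.Agent.H389R3.LR2
import Pool.Agent.H389R3.LR3

/-!
# The inequality for the conjugates of `α, α ^ 2, ..., α ^ k`
-/

set_option autoImplicit false

open Finset Polynomial Module

namespace Pool.Agent.H389R3.LR

open Pool.Agent.H388SL

variable {K : Type*} [Field K] [NumberField K]

lemma conjSet_eq_of_mem {β γ : K} {z : ℂ} (h1 : z ∈ conjSet β) (h2 : z ∈ conjSet γ) :
    conjSet β = conjSet γ := by
  obtain ⟨σ, hσ⟩ := mem_conjSet.mp h1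
  obtain ⟨τ, hτ⟩ := mem_conjSet.mp h2
  have e1 : minpoly ℚ (σ β) = minpoly ℚ β := minpoly.algHom_eq σ σ.injective _
  have e2 : minpoly ℚ (τ γ) = minpoly ℚ γ := minpoly.algHom_eq τ τ.injective _
  have e3 : minpoly ℚ β = minpoly ℚ γ := by rw [← e1, ← e2, hσ, hτ]
  apply Finset.coe_injective
  rw [conjSet_coe, conjSet_coe, e3]

lemma conj_disj {α : K} (hα : IsIntegral ℤ α) (h0 : α ≠ 0) (hroot : ∀ n : ℕ, 0 < n → α ^ n ≠ 1)
    {m l : ℕ} (hml : m < l) : conjSet (α ^ m) ≠ conjSet (α ^ l) := by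
  intro h
  have hne : (Finset.univ : Finset (K →ₐ[ℚ] ℂ)).Nonempty := by
    rw [← Finset.card_pos, Finset.card_univ, AlgHom.card]
    exact finrank_pos
  obtain ⟨σ0, _, hmax⟩ := Finset.exists_max_image Finset.univ (fun σ : K →ₐ[ℚ] ℂ => ‖σ α‖) hne
  have hgt : 1 < ‖σ0 α‖ := by
    by_contra hcon
    push Not at hcon
    have h1 := lam_pos hα h0 hroot
    have h2 : lam α = 0 := by
      unfold lam
      refine Finset.sum_eq_zero fun σ hσ => ?_
      rw [max_eq_left ((hmax σ hσ).trans hcon), Real.log_one]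
    linarith
  have h1 : σ0 (α ^ l) ∈ conjSet (α ^ l) := mem_conjSet.mpr ⟨σ0, rfl⟩
  rw [← h] at h1
  obtain ⟨τ, hτ⟩ := mem_conjSet.mp h1
  have h2 := congrArg norm hτ
  rw [map_pow, map_pow, norm_pow, norm_pow] at h2
  have h3 : ‖τ α‖ ^ m ≤ ‖σ0 α‖ ^ m := pow_le_pow_left₀ (norm_nonneg _) (hmax τ (Finset.mem_univ _)) m
  have h4 : ‖σ0 α‖ ^ m < ‖σ0 α‖ ^ l := pow_lt_pow_right₀ hgt hml
  linarith

lemma conj_disjoint {α : K} (hα : IsIntegral ℤ α) (h0 : α ≠ 0)
    (hroot : ∀ n : ℕ, 0 < n → α ^ n ≠ 1) {m l : ℕ} (hml : m ≠ l) :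
    Disjoint (conjSet (α ^ m)) (conjSet (α ^ l)) := by
  rw [Finset.disjoint_left]
  intro z h1 h2
  have h3 := conjSet_eq_of_mem h1 h2
  rcases lt_or_gt_of_ne hml with h | h
  · exact conj_disj hα h0 hroot h h3
  · exact conj_disj hα h0 hroot h h3.symm

lemma card_posPart_pow {α : K} {m : ℕ} (hm : 1 ≤ m) :
    (posPart (conjSet α)).card ≤ (posPart (conjSet (α ^ m))).card := by
  classical
  refine Finset.card_le_card_of_injOn (fun z => z ^ m) ?_ ?_
  · intro z hz
    rw [Finset.mem_coe] at hz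
    unfold posPart at hz
    rw [Finset.mem_filter] at hz
    obtain ⟨σ, hσ⟩ := mem_conjSet.mp hz.1
    have e : z = ((z.re : ℝ) : ℂ) := by apply Complex.ext <;> simp [hz.2.2]
    rw [Finset.mem_coe]
    unfold posPart
    rw [Finset.mem_filter]
    refine ⟨mem_conjSet.mpr ⟨σ, by rw [map_pow, hσ]⟩, ?_⟩
    dsimp only
    rw [e, ← Complex.ofReal_pow, Complex.ofReal_re, Complex.ofReal_im]
    exact ⟨pow_pos hz.2.1 m, rfl⟩
  · intro z hz w hw h
    rw [Finset.mem_coe] at hz hw
    unfold posPart at hz hw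
    rw [Finset.mem_filter] at hz hw
    have e1 : z = ((z.re : ℝ) : ℂ) := by apply Complex.ext <;> simp [hz.2.2]
    have e2 : w = ((w.re : ℝ) : ℂ) := by apply Complex.ext <;> simp [hw.2.2]
    dsimp only at h
    rw [e1, e2, ← Complex.ofReal_pow, ← Complex.ofReal_pow, Complex.ofReal_inj] at h
    have h3 := (pow_left_inj₀ hz.2.1.le hw.2.1.le (by omega)).mp h
    rw [e1, e2, h3]

theorem main_ineq {α : K} (hα : IsIntegral ℤ α) (h0 : α ≠ 0)
    (hroot : ∀ n : ℕ, 0 < n → α ^ n ≠ 1) (k : ℕ) (hk : 1 ≤ k) :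
    ((k : ℝ) * (posPart (conjSet α)).card) ^ 2 ≤
      130 * (finrank ℚ K * k) * (k ^ 2 * lam α) +
        52 * (finrank ℚ K * k) * (1 + Real.log (finrank ℚ K * k)) := by
  classical
  set Z : Finset ℂ := (Finset.Icc 1 k).biUnion fun m => conjSet (α ^ m) with hZ
  set n := finrank ℚ K with hn
  have hn0 : 0 < n := finrank_pos
  have hdisj : Set.PairwiseDisjoint (↑(Finset.Icc 1 k)) (fun m => conjSet (α ^ m)) := by
    intro m _ l _ hml
    exact conj_disjoint hα h0 hroot hml
  have hZ0 : (0:ℂ) ∉ Z := by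
    intro h
    rw [hZ, Finset.mem_biUnion] at h
    obtain ⟨m, _, hm⟩ := h
    obtain ⟨σ, hσ⟩ := mem_conjSet.mp hm
    rw [map_pow] at hσ
    have h2 : σ α = 0 := by
      exact pow_eq_zero_iff (M₀ := ℂ) (n := m) (by
        rintro rfl
        simp at hσ) |>.mp hσ
    exact h0 ((map_eq_zero σ).mp h2)
  set Q : ℤ[X] := ∏ m ∈ Finset.Icc 1 k, minpoly ℤ (α ^ m) with hQ
  have hQmap : Q.map (Int.castRingHom ℂ) = ∏ z ∈ Z, (X - C z) := by
    rw [hQ, Polynomial.map_prod, hZ, Finset.prod_biUnion hdisj]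
    exact Finset.prod_congr rfl fun m _ => minpolyZ_map (hα.pow m)
  have hd := one_le_disc_of Q Z hQmap
  have hp := one_le_prod_of Q Z hQmap hZ0
  have hdisc : 0 ≤ ∑ z ∈ Z, ∑ w ∈ Z, (if z = w then 0 else Real.log ‖z - w‖) := by
    have h1 : Real.log (∏ z ∈ Z, ∏ w ∈ Z.erase z, ‖z - w‖) =
        ∑ z ∈ Z, ∑ w ∈ Z, (if z = w then 0 else Real.log ‖z - w‖) := by
      have hne : ∀ z ∈ Z, ∀ w ∈ Z.erase z, ‖z - w‖ ≠ 0 := by
        intro z _ w hw
        rw [norm_ne_zero_iff]
        exact sub_ne_zero.mpr (Finset.ne_of_mem_erase hw).symm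
      rw [Real.log_prod fun z hz => Finset.prod_ne_zero_iff.mpr (hne z hz)]
      refine Finset.sum_congr rfl fun z hz => ?_
      rw [Real.log_prod (hne z hz), ← Finset.add_sum_erase Z _ hz, if_pos rfl, zero_add]
      refine Finset.sum_congr rfl fun w hw => ?_
      rw [if_neg (Finset.ne_of_mem_erase hw).symm]
    rw [← h1]
    exact Real.log_nonneg hd
  have hprod : 0 ≤ ∑ z ∈ Z, Real.log ‖z‖ := by
    rw [← Real.log_prod fun z hz => norm_ne_zero_iff.mpr fun h => hZ0 (h ▸ hz)]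
    exact Real.log_nonneg hp
  have hmain := count_sq Z hZ0 hdisc hprod
  -- the number of elements
  have hcard : Z.card ≤ n * k := by
    rw [hZ]
    refine Finset.card_biUnion_le.trans ?_
    refine (Finset.sum_le_sum fun m _ => card_conjSet_le (α ^ m)).trans ?_
    rw [Finset.sum_const, Nat.card_Icc, smul_eq_mul, ← hn]
    simp [mul_comm]
  -- the Mahler measure
  have hlam : ∑ z ∈ Z, Real.log (max 1 ‖z‖) ≤ k ^ 2 * lam α := by
    rw [hZ, Finset.sum_biUnion hdisj]
    have h1 : ∀ m ∈ Finset.Icc 1 k, ∑ z ∈ conjSet (α ^ m), Real.log (max 1 ‖z‖) ≤ k * lam α := by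
      intro m hm
      refine (sum_conjSet_le (α ^ m) _ fun z => Real.log_nonneg (le_max_left _ _)).trans ?_
      have h2 := lam_pow α m
      unfold lam at h2
      rw [h2]
      have h3 : (m:ℝ) ≤ k := by exact_mod_cast (Finset.mem_Icc.mp hm).2
      exact mul_le_mul_of_nonneg_right h3 (lam_nonneg α)
    refine (Finset.sum_le_sum h1).trans ?_
    rw [Finset.sum_const, Nat.card_Icc, nsmul_eq_mul]
    simp only [Nat.add_sub_cancel]
    apply le_of_eq
    ring
  -- the number of positive real elements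
  have hpos : k * (posPart (conjSet α)).card ≤ (posPart Z).card := by
    have h1 : (Finset.Icc 1 k).biUnion (fun m => posPart (conjSet (α ^ m))) ⊆ posPart Z := by
      intro z hz
      rw [Finset.mem_biUnion] at hz
      obtain ⟨m, hm, hz⟩ := hz
      unfold posPart at hz ⊢
      rw [Finset.mem_filter] at hz ⊢
      exact ⟨Finset.mem_biUnion.mpr ⟨m, hm, hz.1⟩, hz.2⟩
    have h2 : Set.PairwiseDisjoint (↑(Finset.Icc 1 k)) (fun m => posPart (conjSet (α ^ m))) := by
      intro m _ l _ hml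
      refine Finset.disjoint_of_subset_left ?_ (Finset.disjoint_of_subset_right ?_
        (conj_disjoint hα h0 hroot hml))
      · unfold posPart; exact Finset.filter_subset _ _
      · unfold posPart; exact Finset.filter_subset _ _
    refine le_trans ?_ (Finset.card_le_card h1)
    rw [Finset.card_biUnion (fun m hm l hl hml => h2 hm hl hml)]
    calc k * (posPart (conjSet α)).card = ∑ m ∈ Finset.Icc 1 k, (posPart (conjSet α)).card := by
          rw [Finset.sum_const, Nat.card_Icc]; simp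
      _ ≤ _ := Finset.sum_le_sum fun m hm => card_posPart_pow (Finset.mem_Icc.mp hm).1
  have hpos' : ((k : ℝ) * (posPart (conjSet α)).card) ^ 2 ≤ ((posPart Z).card : ℝ) ^ 2 := by
    have : (k : ℝ) * (posPart (conjSet α)).card ≤ (posPart Z).card := by exact_mod_cast hpos
    exact pow_le_pow_left₀ (by positivity) this 2
  refine hpos'.trans (hmain.trans ?_)
  have hcard' : (Z.card : ℝ) ≤ n * k := by exact_mod_cast hcard
  have hnk : (1:ℝ) ≤ n * k := by
    have : 1 ≤ n * k := Nat.mul_pos hn0 hk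
    exact_mod_cast this
  have hlogle : Real.log Z.card ≤ Real.log (n * k) := by
    rcases Nat.eq_zero_or_pos Z.card with h | h
    · rw [h]; simp only [Nat.cast_zero, Real.log_zero]; exact Real.log_nonneg hnk
    · exact Real.log_le_log (by exact_mod_cast h) hcard'
  have hl0 := lam_nonneg α
  have hs0 : 0 ≤ ∑ z ∈ Z, Real.log (max 1 ‖z‖) :=
    Finset.sum_nonneg fun z _ => Real.log_nonneg (le_max_left _ _)
  have hlc : 0 ≤ Real.log Z.card := Real.log_natCast_nonneg _
  have h1 : 130 * (Z.card : ℝ) * (∑ z ∈ Z, Real.log (max 1 ‖z‖)) ≤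
      130 * (n * k) * (k ^ 2 * lam α) := by
    have := mul_le_mul (mul_le_mul_of_nonneg_left hcard' (by norm_num : (0:ℝ) ≤ 130)) hlam hs0
      (by positivity)
    exact this
  have h2 : 52 * (Z.card : ℝ) * (1 + Real.log Z.card) ≤ 52 * (n * k) * (1 + Real.log (n * k)) := by
    exact mul_le_mul (mul_le_mul_of_nonneg_left hcard' (by norm_num : (0:ℝ) ≤ 52))
      (by linarith) (by linarith) (by positivity)
  linarith

end Pool.Agent.H389R3.LR
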