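import Mathlib
import Pool.Agent.H389R3.LR4

/-!
# The lower bound for the sum of `log⁺` of the conjugates
-/

set_option autoImplicit false

open Finset Polynomial Module

namespace Pool.Agent.H389R3.LR

open Pool.Agent.H388SL

/-- choice of the number of powers -/
lemma real_choice {n R l lam : ℝ} (hn : 1 ≤ n) (hR : 1 ≤ R) (hl : l = Real.log (2 * n))
    (hlam : 0 ≤ lam)
    (H : ∀ k : ℕ, 1 ≤ k → (k * R) ^ 2 ≤ 130 * (n * k) * (k ^ 2 * lam) +
      52 * (n * k) * (1 + Real.log (n * k))) :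
    min (R ^ 2 / n) (R ^ 4 / (n ^ 2 * l)) ≤ 1064960 * lam := by
  have hlog2 : 0.6931471803 < Real.log 2 := Real.log_two_gt_d9
  have hlog2' : Real.log 2 < 0.6931471808 := Real.log_two_lt_d9
  have hl2 : Real.log 2 ≤ l := by
    rw [hl]
    exact Real.log_le_log two_pos (by linarith)
  have hl0 : 0 < l := by linarith
  have hlle : l ≤ 2 * n := by
    rw [hl]
    have := Real.log_le_sub_one_of_pos (show 0 < 2 * n by linarith)
    linarith
  have hn0 : 0 < n := by linarith
  have hR0 : 0 < R := by linarith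
  set x : ℝ := 2048 * n * l / R ^ 2 with hx
  have hx0 : 0 < x := by positivity
  set k : ℕ := ⌈x⌉₊ with hk
  have hk1 : 1 ≤ k := Nat.one_le_iff_ne_zero.mpr (Nat.ceil_pos.mpr hx0).ne'
  have hkx : x ≤ k := Nat.le_ceil x
  have hkx1 : (k:ℝ) < x + 1 := Nat.ceil_lt_add_one hx0.le
  have hk1' : (1:ℝ) ≤ k := by exact_mod_cast hk1
  have hk0 : (0:ℝ) < k := by linarith
  -- size of k
  have hR2 : 1 ≤ R ^ 2 := one_le_pow₀ hR
  have hxle : x ≤ 2048 * n * l := by
    rw [hx]
    exact div_le_self (by positivity) hR2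
  have hnl : 1 ≤ 2 * (n * l) := by nlinarith
  have hkle : (k:ℝ) ≤ 2050 * (n * l) := by linarith
  have hnk : n * k ≤ 4100 * n ^ 3 := by
    have h1 : n * k ≤ n * (2050 * (n * l)) := mul_le_mul_of_nonneg_left hkle hn0.le
    have h2 : n * (2050 * (n * l)) ≤ n * (2050 * (n * (2 * n))) := by
      apply mul_le_mul_of_nonneg_left _ hn0.le
      apply mul_le_mul_of_nonneg_left _ (by norm_num)
      exact mul_le_mul_of_nonneg_left hlle hn0.le
    have h3 : n * (2050 * (n * (2 * n))) = 4100 * n ^ 3 := by ring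
    linarith
  have hlog : Real.log (n * k) ≤ 3 * l + 10 * Real.log 2 := by
    have h1 : Real.log (n * k) ≤ Real.log (4100 * n ^ 3) :=
      Real.log_le_log (by positivity) hnk
    have h2 : (4100:ℝ) * n ^ 3 ≤ (2 * n) ^ 3 * 2 ^ 10 := by
      have : 0 < n ^ 3 := by positivity
      nlinarith
    have h3 : Real.log (4100 * n ^ 3) ≤ Real.log ((2 * n) ^ 3 * 2 ^ 10) :=
      Real.log_le_log (by positivity) h2
    have h4 : Real.log ((2 * n) ^ 3 * 2 ^ 10) = 3 * l + 10 * Real.log 2 := by
      rw [Real.log_mul (by positivity) (by norm_num), Real.log_pow, Real.log_pow, hl]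
      push_cast
      ring
    linarith
  have h1log : 1 + Real.log (n * k) ≤ 15 * l := by nlinarith
  have hH := H k hk1
  have hbig : 52 * (n * k) * (1 + Real.log (n * k)) ≤ k * (k * R ^ 2) / 2 := by
    have h1 : 52 * (n * k) * (1 + Real.log (n * k)) ≤ 52 * (n * k) * (15 * l) :=
      mul_le_mul_of_nonneg_left h1log (by positivity)
    have h2 : 2048 * n * l ≤ k * R ^ 2 := by
      have h3 := mul_le_mul_of_nonneg_right hkx (by positivity : 0 ≤ R ^ 2)
      have h4 : x * R ^ 2 = 2048 * n * l := by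
        rw [hx]; field_simp
      linarith
    have h5 : k * (2048 * n * l) ≤ k * (k * R ^ 2) := mul_le_mul_of_nonneg_left h2 hk0.le
    have h6 : 0 ≤ k * n * l := by positivity
    nlinarith
  have h1 : k * (k * R ^ 2) / 2 ≤ 130 * (n * k) * (k ^ 2 * lam) := by
    have : (k * R) ^ 2 = k * (k * R ^ 2) := by ring
    rw [this] at hH
    linarith
  have h2 : R ^ 2 ≤ 260 * n * k * lam := by
    have h3 : k * (k * R ^ 2) ≤ k * (k * (260 * n * k * lam)) := by
      have : k * (k * (260 * n * k * lam)) = 2 * (130 * (n * k) * (k ^ 2 * lam)) := by ring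
      rw [this]; linarith
    exact le_of_mul_le_mul_left (le_of_mul_le_mul_left h3 hk0) hk0
  have h3 : R ^ 2 ≤ 260 * n * (x + 1) * lam := by
    have : 260 * n * k * lam ≤ 260 * n * (x + 1) * lam := by
      apply mul_le_mul_of_nonneg_right _ hlam
      exact mul_le_mul_of_nonneg_left hkx1.le (by positivity)
    linarith
  rcases le_total x 1 with hx1 | hx1
  · refine (min_le_left _ _).trans ?_
    rw [div_le_iff₀ hn0]
    have h4 : 260 * n * (x + 1) * lam ≤ 260 * n * 2 * lam := by
      apply mul_le_mul_of_nonneg_right _ hlam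
      exact mul_le_mul_of_nonneg_left (by linarith) (by positivity)
    have h5 : 0 ≤ n * lam := by positivity
    nlinarith
  · refine (min_le_right _ _).trans ?_
    rw [div_le_iff₀ (by positivity)]
    have h4 : 260 * n * (x + 1) * lam ≤ 260 * n * (2 * x) * lam := by
      apply mul_le_mul_of_nonneg_right _ hlam
      exact mul_le_mul_of_nonneg_left (by linarith) (by positivity)
    have h5 : R ^ 2 ≤ 520 * n * x * lam := by linarith
    have h6 := mul_le_mul_of_nonneg_right h5 (by positivity : 0 ≤ R ^ 2)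
    have h7 : 520 * n * x * lam * R ^ 2 = 1064960 * lam * (n ^ 2 * l) := by
      rw [hx]; field_simp; ring
    have h8 : R ^ 2 * R ^ 2 = R ^ 4 := by ring
    rw [h7, h8] at h6
    exact h6

variable {K : Type*} [Field K] [NumberField K]

theorem field_bound {β : K} (hβ : IsIntegral ℤ β) (h0 : β ≠ 0)
    (hroot : ∀ n : ℕ, 0 < n → β ^ n ≠ 1) :
    min (((posPart (conjSet β)).card : ℝ) ^ 2 / finrank ℚ K)
      (((posPart (conjSet β)).card : ℝ) ^ 4 / ((finrank ℚ K : ℝ) ^ 2 * Real.log (2 * finrank ℚ K)))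
      ≤ 1064960 * lam β := by
  have hn0 : 0 < finrank ℚ K := finrank_pos
  rcases Nat.eq_zero_or_pos (posPart (conjSet β)).card with h | h
  · rw [h]
    refine (min_le_left _ _).trans ?_
    have := lam_nonneg β
    simp only [Nat.cast_zero, ne_eq, OfNat.ofNat_ne_zero, not_false_eq_true, zero_pow, zero_div]
    positivity
  · refine real_choice (by exact_mod_cast hn0) (by exact_mod_cast h) rfl (lam_nonneg β) ?_
    intro k hk
    exact main_ineq hβ h0 hroot k hk

/-- the number of conjugates with real `q`-th power -/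
noncomputable def realPow (α : K) (q : ℕ) : ℕ := by
  classical exact ((conjSet α).filter fun z => (z ^ q).im = 0).card

lemma realPow_le {α : K} (h0 : α ≠ 0) {q : ℕ} (hq : 1 ≤ q) :
    realPow α q ≤ 2 * q * (posPart (conjSet (α ^ (2 * q)))).card := by
  classical
  unfold realPow
  have hq2 : 0 < 2 * q := by omega
  refine (Finset.card_le_mul_card_image_of_maps_to (f := fun z : ℂ => z ^ (2 * q))
    (t := posPart (conjSet (α ^ (2 * q)))) ?_ (2 * q) ?_)
  · intro z hz
    rw [Finset.mem_filter] at hz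
    obtain ⟨σ, hσ⟩ := mem_conjSet.mp hz.1
    have hz0 : z ≠ 0 := by
      rw [← hσ]
      exact (map_ne_zero σ).mpr h0
    have e : z ^ q = (((z ^ q).re : ℝ) : ℂ) := by apply Complex.ext <;> simp [hz.2]
    have hre : (z ^ q).re ≠ 0 := by
      intro h
      rw [h, Complex.ofReal_zero] at e
      exact pow_ne_zero q hz0 e
    unfold posPart
    rw [Finset.mem_filter]
    refine ⟨mem_conjSet.mpr ⟨σ, by rw [map_pow, hσ]⟩, ?_⟩
    have e2 : z ^ (2 * q) = (((z ^ q).re ^ 2 : ℝ) : ℂ) := by
      rw [mul_comm, pow_mul]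
      conv_lhs => rw [e]
      push_cast
      ring
    rw [e2, Complex.ofReal_re, Complex.ofReal_im]
    exact ⟨by positivity, rfl⟩
  · intro w _
    -- at most `2 q` solutions of `z ^ (2 q) = w`
    have h1 : (((conjSet α).filter fun z => (z ^ q).im = 0).filter fun z => z ^ (2 * q) = w) ⊆
        (Polynomial.nthRoots (2 * q) w).toFinset := by
      intro z hz
      rw [Finset.mem_filter] at hz
      rw [Multiset.mem_toFinset, Polynomial.mem_nthRoots hq2]
      exact hz.2
    refine (Finset.card_le_card h1).trans ?_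
    exact (Multiset.toFinset_card_le _).trans (Polynomial.card_nthRoots _ _)

theorem lines_bound {α : K} (hα : IsIntegral ℤ α) (h0 : α ≠ 0)
    (hroot : ∀ n : ℕ, 0 < n → α ^ n ≠ 1) {q : ℕ} (hq : 1 ≤ q) :
    min ((realPow α q : ℝ) ^ 2 / finrank ℚ K)
      ((realPow α q : ℝ) ^ 4 / ((finrank ℚ K : ℝ) ^ 2 * Real.log (2 * finrank ℚ K)))
      ≤ 34078720 * q ^ 5 * lam α := by
  have hn0 : 0 < finrank ℚ K := finrank_pos
  have hn1 : (1:ℝ) ≤ finrank ℚ K := by exact_mod_cast hn0
  have hq1 : (1:ℝ) ≤ q := by exact_mod_cast hq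
  have hlog : 0 < Real.log (2 * finrank ℚ K) := Real.log_pos (by linarith)
  have h1 := field_bound (hα.pow (2 * q)) (pow_ne_zero (2 * q) h0) (by
    intro m hm h
    rw [← pow_mul] at h
    exact hroot _ (Nat.mul_pos (by omega) hm) h)
  rw [lam_pow] at h1
  have h2 : (realPow α q : ℝ) ≤ 2 * q * (posPart (conjSet (α ^ (2 * q)))).card := by
    exact_mod_cast realPow_le h0 hq
  set R : ℝ := (realPow α q : ℝ) with hR
  set P : ℝ := ((posPart (conjSet (α ^ (2 * q)))).card : ℝ) with hP
  set n : ℝ := (finrank ℚ K : ℝ) with hn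
  have hR0 : 0 ≤ R := Nat.cast_nonneg _
  have hP0 : 0 ≤ P := Nat.cast_nonneg _
  have hn0' : 0 < n := by linarith
  have hR2 : R ^ 2 ≤ (4 * q ^ 2) * P ^ 2 := by
    have := pow_le_pow_left₀ hR0 h2 2
    calc R ^ 2 ≤ (2 * q * P) ^ 2 := this
      _ = _ := by ring
  have hR4 : R ^ 4 ≤ (16 * q ^ 4) * P ^ 4 := by
    have := pow_le_pow_left₀ hR0 h2 4
    calc R ^ 4 ≤ (2 * q * P) ^ 4 := this
      _ = _ := by ring
  have hq2 : (1:ℝ) ≤ (q:ℝ) ^ 2 := one_le_pow₀ hq1
  have h3 : min (R ^ 2 / n) (R ^ 4 / (n ^ 2 * Real.log (2 * n))) ≤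
      (16 * q ^ 4) * min (P ^ 2 / n) (P ^ 4 / (n ^ 2 * Real.log (2 * n))) := by
    rw [mul_min_of_nonneg _ _ (by positivity)]
    apply min_le_min
    · rw [← mul_div_assoc]
      apply div_le_div_of_nonneg_right _ hn0'.le
      refine hR2.trans ?_
      apply mul_le_mul_of_nonneg_right _ (by positivity)
      nlinarith
    · rw [← mul_div_assoc]
      exact div_le_div_of_nonneg_right hR4 (by positivity)
  refine h3.trans ?_
  have h4 := mul_le_mul_of_nonneg_left h1 (by positivity : (0:ℝ) ≤ 16 * q ^ 4)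
  refine h4.trans (le_of_eq ?_)
  push_cast
  ring

end Pool.Agent.H389R3.LR
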