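import Mathlib
import Pool.Agent.H389R3.LR5
import Pool.Agent.H389R3.LP2

/-!
# The inequality for the `p`-adic conjugates of `β, β ^ 2, ..., β ^ k`
-/

set_option autoImplicit false

open Finset Polynomial Module

namespace Pool.Agent.H389R3.LP

open Pool.Agent.H388SL Pool.Agent.H389R3.LR

variable {K : Type*} [Field K] [NumberField K] {p : ℕ} [Fact p.Prime]

/-- the conjugates in `ℤ_p` -/
noncomputable def pRoots (p : ℕ) [Fact p.Prime] (β : K) : Finset ℤ_[p] := by
  classical exact ((minpoly ℤ β).map (Int.castRingHom ℤ_[p])).roots.toFinset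

lemma mem_pRoots {β : K} (hβ : IsIntegral ℤ β) {x : ℤ_[p]} :
    x ∈ pRoots p β ↔ aeval x (minpoly ℤ β) = 0 := by
  classical
  unfold pRoots
  rw [Multiset.mem_toFinset, mem_roots ((minpoly.monic hβ).map _).ne_zero, IsRoot.def, eval_map]
  rfl

lemma pow_mem_pRoots {β : K} (hβ : IsIntegral ℤ β) {x : ℤ_[p]} (hx : x ∈ pRoots p β) (m : ℕ) :
    x ^ m ∈ pRoots p (β ^ m) := by
  rw [mem_pRoots hβ] at hx
  rw [mem_pRoots (hβ.pow m)]
  have h1 : aeval β (expand ℤ m (minpoly ℤ (β ^ m))) = 0 := by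
    rw [expand_aeval, minpoly.aeval]
  obtain ⟨g, hg⟩ := minpoly.isIntegrallyClosed_dvd hβ h1
  rw [← expand_aeval, hg, map_mul, hx, zero_mul]

lemma conjSet_eq_of_pRoots {β γ : K} (hβ : IsIntegral ℤ β) (hγ : IsIntegral ℤ γ) {x : ℤ_[p]}
    (h1 : x ∈ pRoots p β) (h2 : x ∈ pRoots p γ) : conjSet β = conjSet γ := by
  rw [mem_pRoots hβ] at h1
  rw [mem_pRoots hγ] at h2
  have key : ∀ δ : K, IsIntegral ℤ δ → aeval x (minpoly ℤ δ) = 0 →
      aeval (x : ℚ_[p]) (minpoly ℚ δ) = 0 := by
    intro δ hδ h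
    rw [minpoly.isIntegrallyClosed_eq_field_fractions' ℚ hδ, aeval_map_algebraMap]
    have h3 : aeval (x : ℚ_[p]) (minpoly ℤ δ) = ((aeval x (minpoly ℤ δ) : ℤ_[p]) : ℚ_[p]) := by
      have := Polynomial.hom_eval₂ (minpoly ℤ δ) (algebraMap ℤ ℤ_[p]) (PadicInt.Coe.ringHom (p := p)) x
      rw [aeval_def, aeval_def]
      rw [show ((eval₂ (algebraMap ℤ ℤ_[p]) x (minpoly ℤ δ) : ℤ_[p]) : ℚ_[p]) =
        PadicInt.Coe.ringHom (eval₂ (algebraMap ℤ ℤ_[p]) x (minpoly ℤ δ)) from rfl, this]
      congr 1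
    rw [h3, h]
    rfl
  have h3 := key β hβ h1
  have h4 := key γ hγ h2
  have hβQ : IsIntegral ℚ β := Algebra.IsIntegral.isIntegral β
  have hγQ : IsIntegral ℚ γ := Algebra.IsIntegral.isIntegral γ
  have heq : minpoly ℚ β = minpoly ℚ γ := by
    by_contra hne
    have hcop : IsCoprime (minpoly ℚ β) (minpoly ℚ γ) := by
      rw [(minpoly.irreducible hβQ).coprime_iff_not_dvd]
      intro h
      have h5 : Associated (minpoly ℚ β) (minpoly ℚ γ) :=
        (minpoly.irreducible hβQ).associated_of_dvd (minpoly.irreducible hγQ) h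
      exact hne (eq_of_monic_of_associated (minpoly.monic hβQ) (minpoly.monic hγQ) h5)
    obtain ⟨a, b, hab⟩ := hcop
    have h5 := congrArg (aeval (x : ℚ_[p])) hab
    rw [map_add, map_mul, map_mul, h3, h4, mul_zero, mul_zero, add_zero, map_one] at h5
    exact zero_ne_one h5
  apply Finset.coe_injective
  rw [conjSet_coe, conjSet_coe, heq]

/-- the `e`-th powers of the conjugates in `ℤ_p` -/
noncomputable def powRoots (p : ℕ) [Fact p.Prime] (α : K) : Finset ℤ_[p] := by
  classical exact (pRoots p α).image fun r => r ^ (2 * (p - 1))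

lemma card_pRoots_le {α : K} :
    (pRoots p α).card ≤ 2 * (p - 1) * (powRoots p α).card := by
  classical
  have hp : p.Prime := Fact.out
  have he : 0 < 2 * (p - 1) := by
    have := hp.two_le
    omega
  refine (Finset.card_le_mul_card_image_of_maps_to (f := fun z : ℤ_[p] => z ^ (2 * (p - 1)))
    (t := powRoots p α) ?_ (2 * (p - 1)) ?_)
  · intro z hz
    unfold powRoots
    exact Finset.mem_image_of_mem _ hz
  · intro w _
    have h1 : ((pRoots p α).filter fun z => z ^ (2 * (p - 1)) = w) ⊆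
        (Polynomial.nthRoots (2 * (p - 1)) w).toFinset := by
      intro z hz
      rw [Finset.mem_filter] at hz
      rw [Multiset.mem_toFinset, Polynomial.mem_nthRoots he]
      exact hz.2
    refine (Finset.card_le_card h1).trans ?_
    exact (Multiset.toFinset_card_le _).trans (Polynomial.card_nthRoots _ _)

lemma powRoots_one {α : K} (hα : IsIntegral ℤ α) (hu : IsUnit ((minpoly ℤ α).coeff 0))
    {s : ℤ_[p]} (hs : s ∈ powRoots p α) : One' s ∧ s ∈ pRoots p (α ^ (2 * (p - 1))) := by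
  classical
  unfold powRoots at hs
  rw [Finset.mem_image] at hs
  obtain ⟨r, hr, rfl⟩ := hs
  refine ⟨unit_pow ?_, pow_mem_pRoots hα hr _⟩
  rw [mem_pRoots hα] at hr
  have h1 : r ∣ ((minpoly ℤ α).map (Int.castRingHom ℤ_[p])).eval 0 := by
    have h2 := Polynomial.sub_dvd_eval_sub (0 : ℤ_[p]) r ((minpoly ℤ α).map (Int.castRingHom ℤ_[p]))
    have h3 : ((minpoly ℤ α).map (Int.castRingHom ℤ_[p])).eval r = 0 := by
      rw [eval_map]; exact hr
    rw [h3, sub_zero, zero_sub] at h2
    exact (neg_dvd.mp h2)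
  rw [← coeff_zero_eq_eval_zero, coeff_map] at h1
  exact isUnit_of_dvd_unit h1 (hu.map _)

theorem main_ineq_p {α : K} (hα : IsIntegral ℤ α) (h0 : α ≠ 0)
    (hroot : ∀ n : ℕ, 0 < n → α ^ n ≠ 1) (hu : IsUnit ((minpoly ℤ α).coeff 0))
    (k : ℕ) (hk : 1 ≤ k) :
    ((k : ℝ) * (powRoots p α).card) ^ 2 ≤
      130 * (finrank ℚ K * k) * (k ^ 2 * lam (α ^ (2 * (p - 1)))) +
        52 * (finrank ℚ K * k) * (1 + Real.log (finrank ℚ K * k)) := by
  classical
  have hp : p.Prime := Fact.out
  have he : 0 < 2 * (p - 1) := by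
    have := hp.two_le
    omega
  set β : K := α ^ (2 * (p - 1)) with hβdef
  have hβ : IsIntegral ℤ β := hα.pow _
  have hβ0 : β ≠ 0 := pow_ne_zero _ h0
  have hβroot : ∀ n : ℕ, 0 < n → β ^ n ≠ 1 := by
    intro m hm h
    rw [hβdef, ← pow_mul] at h
    exact hroot _ (Nat.mul_pos he hm) h
  set Z : Finset ℂ := (Finset.Icc 1 k).biUnion fun m => conjSet (β ^ m) with hZ
  set n := finrank ℚ K with hn
  have hn0 : 0 < n := finrank_pos
  have hdisj : Set.PairwiseDisjoint (↑(Finset.Icc 1 k)) (fun m => conjSet (β ^ m)) := by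
    intro m _ l _ hml
    exact conj_disjoint hβ hβ0 hβroot hml
  set Q : ℤ[X] := ∏ m ∈ Finset.Icc 1 k, minpoly ℤ (β ^ m) with hQ
  have hQm : Q.Monic := monic_prod_of_monic _ _ fun m _ => minpoly.monic (hβ.pow m)
  have hQmap : Q.map (Int.castRingHom ℂ) = ∏ z ∈ Z, (X - C z) := by
    rw [hQ, Polynomial.map_prod, hZ, Finset.prod_biUnion hdisj]
    exact Finset.prod_congr rfl fun m _ => minpolyZ_map (hβ.pow m)
  -- the p-adic zeros
  set S := powRoots p α with hS
  set T : Finset ℤ_[p] := (Finset.Icc 1 k ×ˢ S).image (fun x => x.2 ^ x.1) with hT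
  have hSone : ∀ s ∈ S, One' s ∧ s ∈ pRoots p β := fun s hs => powRoots_one hα hu hs
  have hTcard : T.card = k * S.card := by
    rw [hT, Finset.card_image_of_injOn, Finset.card_product, Nat.card_Icc]
    · simp
    · rintro ⟨m, s⟩ hx ⟨l, s'⟩ hy hxy
      rw [Finset.mem_coe, Finset.mem_product, Finset.mem_Icc] at hx hy
      dsimp only at hx hy hxy
      have hml : m = l := by
        by_contra hne
        have h1 := pow_mem_pRoots hβ (hSone s hx.2).2 m
        have h2 := pow_mem_pRoots hβ (hSone s' hy.2).2 l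
        rw [← hxy] at h2
        have h3 := conjSet_eq_of_pRoots (hβ.pow m) (hβ.pow l) h1 h2
        rcases lt_or_gt_of_ne hne with h | h
        · exact conj_disj hβ hβ0 hβroot h h3
        · exact conj_disj hβ hβ0 hβroot h h3.symm
      subst hml
      have hss : s = s' := by
        by_contra hne
        exact pow_ne m hx.1.1 (hSone s hx.2).1 (hSone s' hy.2).1 hne hxy
      rw [hss]
  have hTroot : ∀ s ∈ T, (Q.map (Int.castRingHom ℤ_[p])).eval s = 0 := by
    intro x hx
    rw [hT, Finset.mem_image] at hx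
    obtain ⟨⟨m, s⟩, hms, rfl⟩ := hx
    rw [Finset.mem_product] at hms
    have h1 := pow_mem_pRoots hβ (hSone s hms.2).2 m
    rw [mem_pRoots (hβ.pow m)] at h1
    rw [hQ, Polynomial.map_prod, eval_prod]
    refine Finset.prod_eq_zero hms.1 ?_
    rw [eval_map]
    exact h1
  have hTc : ∀ s ∈ T, ∀ t ∈ T, (p : ℤ_[p]) ∣ s - t := by
    have h1 : ∀ s ∈ T, One' s := by
      intro x hx
      rw [hT, Finset.mem_image] at hx
      obtain ⟨⟨m, s⟩, hms, rfl⟩ := hx
      rw [Finset.mem_product] at hms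
      exact (hSone s hms.2).1.pow m
    exact fun s hs t ht => (h1 s hs).sub_dvd (h1 t ht)
  have hdisc := disc_ge Q Z hQmap T hTroot hTc
  have hTZ : T.card ≤ Z.card := by
    have h1 : T.val ≤ (Q.map (Int.castRingHom ℤ_[p])).roots := by
      rw [Multiset.le_iff_subset T.nodup]
      intro s hs
      rw [mem_roots (hQm.map _).ne_zero]
      exact hTroot s hs
    have h2 := Multiset.card_le_card h1
    have h3 := (Polynomial.card_roots' (Q.map (Int.castRingHom ℤ_[p])))
    have h4 : (Q.map (Int.castRingHom ℤ_[p])).natDegree ≤ Q.natDegree := natDegree_map_le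
    have h5 : Q.natDegree = Z.card := by
      have h6 := congrArg natDegree hQmap
      have h8 : (∏ z ∈ Z, (X - C z : ℂ[X])).natDegree = Z.card := by
        rw [natDegree_prod_of_monic Z (fun z : ℂ => X - C z) (fun z _ => monic_X_sub_C z)]
        simp
      rw [h8] at h6
      rw [← h6]
      exact (natDegree_map_eq_of_injective (RingHom.injective_int _) Q).symm
    have h7 : T.card = Multiset.card T.val := rfl
    omega
  have hmain := count_padic Z hTZ hdisc
  rw [hTcard] at hmain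
  push_cast at hmain
  -- the number of elements
  have hcard : Z.card ≤ n * k := by
    rw [hZ]
    refine Finset.card_biUnion_le.trans ?_
    refine (Finset.sum_le_sum fun m _ => card_conjSet_le (β ^ m)).trans ?_
    rw [Finset.sum_const, Nat.card_Icc, smul_eq_mul, ← hn]
    simp [mul_comm]
  -- the Mahler measure
  have hlam : ∑ z ∈ Z, Real.log (max 1 ‖z‖) ≤ k ^ 2 * lam β := by
    rw [hZ, Finset.sum_biUnion hdisj]
    have h1 : ∀ m ∈ Finset.Icc 1 k, ∑ z ∈ conjSet (β ^ m), Real.log (max 1 ‖z‖) ≤ k * lam β := by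
      intro m hm
      refine (sum_conjSet_le (β ^ m) _ fun z => Real.log_nonneg (le_max_left _ _)).trans ?_
      have h2 := lam_pow β m
      unfold lam at h2
      rw [h2]
      have h3 : (m:ℝ) ≤ k := by exact_mod_cast (Finset.mem_Icc.mp hm).2
      exact mul_le_mul_of_nonneg_right h3 (lam_nonneg β)
    refine (Finset.sum_le_sum h1).trans ?_
    rw [Finset.sum_const, Nat.card_Icc, nsmul_eq_mul]
    simp only [Nat.add_sub_cancel]
    apply le_of_eq
    ring
  refine hmain.trans ?_
  have hcard' : (Z.card : ℝ) ≤ n * k := by exact_mod_cast hcard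
  have hnk : (1:ℝ) ≤ n * k := by
    have : 1 ≤ n * k := Nat.mul_pos hn0 hk
    exact_mod_cast this
  have hlogle : Real.log Z.card ≤ Real.log (n * k) := by
    rcases Nat.eq_zero_or_pos Z.card with h | h
    · rw [h]; simp only [Nat.cast_zero, Real.log_zero]; exact Real.log_nonneg hnk
    · exact Real.log_le_log (by exact_mod_cast h) hcard'
  have hl0 := lam_nonneg β
  have hs0 : 0 ≤ ∑ z ∈ Z, Real.log (max 1 ‖z‖) :=
    Finset.sum_nonneg fun z _ => Real.log_nonneg (le_max_left _ _)
  have hlc : 0 ≤ Real.log Z.card := Real.log_natCast_nonneg _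
  have h1 : 130 * (Z.card : ℝ) * (∑ z ∈ Z, Real.log (max 1 ‖z‖)) ≤
      130 * (n * k) * (k ^ 2 * lam β) := by
    have := mul_le_mul (mul_le_mul_of_nonneg_left hcard' (by norm_num : (0:ℝ) ≤ 130)) hlam hs0
      (by positivity)
    exact this
  have h2 : 52 * (Z.card : ℝ) * (1 + Real.log Z.card) ≤ 52 * (n * k) * (1 + Real.log (n * k)) := by
    exact mul_le_mul (mul_le_mul_of_nonneg_left hcard' (by norm_num : (0:ℝ) ≤ 52))
      (by linarith) (by linarith) (by positivity)
  linarith

theorem padic_bound {α : K} (hα : IsIntegral ℤ α) (h0 : α ≠ 0)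
    (hroot : ∀ n : ℕ, 0 < n → α ^ n ≠ 1) (hu : IsUnit ((minpoly ℤ α).coeff 0)) :
    min (((pRoots p α).card : ℝ) ^ 2 / finrank ℚ K)
      (((pRoots p α).card : ℝ) ^ 4 / ((finrank ℚ K : ℝ) ^ 2 * Real.log (2 * finrank ℚ K)))
      ≤ 34078720 * ((p : ℝ) - 1) ^ 5 * lam α := by
  have hp : p.Prime := Fact.out
  have hn0 : 0 < finrank ℚ K := finrank_pos
  have hn1 : (1:ℝ) ≤ finrank ℚ K := by exact_mod_cast hn0
  have hp2 : (2:ℝ) ≤ p := by exact_mod_cast hp.two_le
  have hlog : 0 < Real.log (2 * finrank ℚ K) := Real.log_pos (by linarith)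
  set R : ℝ := ((pRoots p α).card : ℝ) with hR
  set P : ℝ := ((powRoots p α).card : ℝ) with hP
  set n : ℝ := (finrank ℚ K : ℝ) with hn
  set q : ℝ := (p : ℝ) - 1 with hq
  have hq1 : 1 ≤ q := by rw [hq]; linarith
  have hR0 : 0 ≤ R := Nat.cast_nonneg _
  have hP0 : 0 ≤ P := Nat.cast_nonneg _
  have hcast : ((2 * (p - 1) : ℕ) : ℝ) = 2 * q := by
    rw [Nat.cast_mul, Nat.cast_sub hp.one_le, hq]; push_cast; ring
  have h2 : R ≤ 2 * q * P := by
    have h3 := card_pRoots_le (p := p) (α := α)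
    have h4 : ((pRoots p α).card : ℝ) ≤ ((2 * (p - 1) : ℕ) : ℝ) * (powRoots p α).card := by
      exact_mod_cast h3
    rw [hcast] at h4
    exact h4
  have hlampow : lam (α ^ (2 * (p - 1))) = 2 * q * lam α := by
    rw [lam_pow, hcast]
  have hn0' : 0 < n := by linarith
  have h1 : min (P ^ 2 / n) (P ^ 4 / (n ^ 2 * Real.log (2 * n))) ≤ 1064960 * (2 * q * lam α) := by
    rcases Nat.eq_zero_or_pos (powRoots p α).card with h | h
    · have hP00 : P = 0 := by rw [hP, h]; simp
      rw [hP00]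
      refine (min_le_left _ _).trans ?_
      have := lam_nonneg α
      simp only [ne_eq, OfNat.ofNat_ne_zero, not_false_eq_true, zero_pow, zero_div]
      positivity
    · refine real_choice hn1 (by rw [hP]; exact_mod_cast h) rfl ?_ ?_
      · have := lam_nonneg α
        positivity
      · intro k hk
        have := main_ineq_p (p := p) hα h0 hroot hu k hk
        rw [hlampow] at this
        exact this
  have hR2 : R ^ 2 ≤ (4 * q ^ 2) * P ^ 2 := by
    have := pow_le_pow_left₀ hR0 h2 2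
    calc R ^ 2 ≤ (2 * q * P) ^ 2 := this
      _ = _ := by ring
  have hR4 : R ^ 4 ≤ (16 * q ^ 4) * P ^ 4 := by
    have := pow_le_pow_left₀ hR0 h2 4
    calc R ^ 4 ≤ (2 * q * P) ^ 4 := this
      _ = _ := by ring
  have hq2 : (1:ℝ) ≤ q ^ 2 := one_le_pow₀ hq1
  have h3 : min (R ^ 2 / n) (R ^ 4 / (n ^ 2 * Real.log (2 * n))) ≤
      (16 * q ^ 4) * min (P ^ 2 / n) (P ^ 4 / (n ^ 2 * Real.log (2 * n))) := by
    rw [mul_min_of_nonneg _ _ (by positivity)]
    apply min_le_min
    · rw [← mul_div_assoc]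
      apply div_le_div_of_nonneg_right _ hn0'.le
      refine hR2.trans ?_
      apply mul_le_mul_of_nonneg_right _ (by positivity)
      nlinarith
    · rw [← mul_div_assoc]
      exact div_le_div_of_nonneg_right hR4 (by positivity)
  refine h3.trans ?_
  have h4 := mul_le_mul_of_nonneg_left h1 (by positivity : (0:ℝ) ≤ 16 * q ^ 4)
  refine h4.trans (le_of_eq ?_)
  ring

end Pool.Agent.H389R3.LP
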