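import Mathlib
import Pool.Agent.H389R3.LR5

/-!
# Transfer to integer polynomials
-/

set_option autoImplicit false

open Finset Polynomial Module IntermediateField

namespace Pool.Agent.H389R3.LR

open Pool.Agent.H388SL

/-- the number of complex zeros `z` of `f` (with multiplicity) whose `q`-th power is real -/
noncomputable def lineRoots (f : ℤ[X]) (q : ℕ) : ℕ := by
  classical exact Multiset.card ((f.map (Int.castRingHom ℂ)).roots.filter fun z => (z ^ q).im = 0)

lemma irr_bound (p : ℤ[X]) (hp : Irreducible p) (hm : p.Monic)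
    (hM : 1 < (p.map (Int.castRingHom ℂ)).mahlerMeasure) {q : ℕ} (hq : 1 ≤ q) :
    min ((lineRoots p q : ℝ) ^ 2 / p.natDegree)
      ((lineRoots p q : ℝ) ^ 4 / ((p.natDegree : ℝ) ^ 2 * Real.log (2 * p.natDegree)))
      ≤ 34078720 * q ^ 5 * Real.log (p.map (Int.castRingHom ℂ)).mahlerMeasure := by
  classical
  have hdeg : p.natDegree ≠ 0 := by
    intro h
    have := hm.natDegree_eq_zero.mp h
    exact hp.not_isUnit (this ▸ isUnit_one)
  obtain ⟨z, hz⟩ := IsAlgClosed.exists_aeval_eq_zero ℂ p (by
    intro h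
    exact hdeg (natDegree_eq_of_degree_eq_some h))
  have hzi : IsIntegral ℤ z := ⟨p, hm, by rw [← Polynomial.aeval_def]; exact hz⟩
  have hzQ : IsIntegral ℚ z := hzi.tower_top
  have hmin : minpoly ℤ z = p := by
    have h1 := minpoly.isIntegrallyClosed_dvd hzi hz
    have h2 : Associated (minpoly ℤ z) p :=
      (minpoly.irreducible hzi).associated_of_dvd hp h1
    exact eq_of_monic_of_associated (minpoly.monic hzi) hm h2
  set L := adjoin ℚ {z} with hL
  have hfin : FiniteDimensional ℚ L := adjoin.finiteDimensional hzQ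
  have : NumberField L := { to_charZero := inferInstance, to_finiteDimensional := hfin }
  set α : L := AdjoinSimple.gen ℚ z with hα
  have hαz : algebraMap L ℂ α = z := AdjoinSimple.algebraMap_gen ℚ z
  have hαi : IsIntegral ℤ α := by
    rw [← hαz] at hzi
    exact (isIntegral_algebraMap_iff (algebraMap L ℂ).injective).mp hzi
  have hαc : CInj α := by
    intro σ τ h
    apply adjoin_algHom_ext ℚ (s := {z})
    intro x hx
    rw [Set.mem_singleton_iff] at hx
    subst hx
    exact h
  have hminα : minpoly ℤ α = p := by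
    rw [← hmin, ← hαz]
    exact (minpoly.algebraMap_eq (algebraMap L ℂ).injective α).symm
  have hpmap : p.map (Int.castRingHom ℂ) = ∏ τ : L →ₐ[ℚ] ℂ, (X - C (τ α)) := by
    rw [← minpoly_map_eq hαc, minpoly.isIntegrallyClosed_eq_field_fractions' ℚ hαi, hminα,
      Polynomial.map_map]
    rfl
  have hMM : Real.log (p.map (Int.castRingHom ℂ)).mahlerMeasure = lam α := by
    rw [hpmap]
    have h1 : (∏ τ : L →ₐ[ℚ] ℂ, (X - C (τ α))).mahlerMeasure = ∏ τ : L →ₐ[ℚ] ℂ, max 1 ‖τ α‖ := by
      rw [Finset.prod_eq_multiset_prod, prod_mahlerMeasure_eq_mahlerMeasure_prod, Multiset.map_map,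
        Finset.prod_eq_multiset_prod]
      congr 1
      refine Multiset.map_congr rfl fun τ _ => ?_
      rw [Function.comp_apply, mahlerMeasure_X_sub_C]
    rw [h1, Real.log_prod]
    · rfl
    · intro τ _
      have : (0:ℝ) < max 1 ‖τ α‖ := lt_of_lt_of_le one_pos (le_max_left _ _)
      exact this.ne'
  have hfr : finrank ℚ L = p.natDegree := by
    rw [hL, adjoin.finrank hzQ, minpoly.isIntegrallyClosed_eq_field_fractions' ℚ hzi, hmin]
    exact natDegree_map_eq_of_injective (algebraMap ℤ ℚ).injective_int p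
  have hlampos : 0 < lam α := by
    rw [← hMM]; exact Real.log_pos hM
  have hα0 : α ≠ 0 := by
    intro h
    rw [h] at hlampos
    unfold lam at hlampos
    simp at hlampos
  have hαroot : ∀ n : ℕ, 0 < n → α ^ n ≠ 1 := by
    intro n hn h
    have h1 := lam_pow α n
    rw [h] at h1
    have h2 : lam (1 : L) = 0 := by unfold lam; simp
    rw [h2] at h1
    have h3 : (0:ℝ) < n := by exact_mod_cast hn
    have : 0 < (n:ℝ) * lam α := mul_pos h3 hlampos
    linarith
  have hR : lineRoots p q = realPow α q := by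
    unfold lineRoots realPow
    have h1 := minpolyZ_map hαi
    rw [hminα] at h1
    rw [h1, roots_prod_X_sub_C]
    rfl
  have h := lines_bound hαi hα0 hαroot hq
  rw [hfr, ← hMM, ← hR] at h
  exact h

lemma MM_neg' (f : ℤ[X]) : ((-f).map (Int.castRingHom ℂ)).mahlerMeasure =
    (f.map (Int.castRingHom ℂ)).mahlerMeasure := by
  have h : -f = C (-1) * f := by simp
  rw [h, Polynomial.map_mul, mahlerMeasure_mul, Polynomial.map_C, mahlerMeasure_const]
  simp

theorem final (p : ℤ[X]) (hp : Irreducible p) (hm : p.Monic)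
    (hM : 1 < (p.map (Int.castRingHom ℂ)).mahlerMeasure) (q : ℕ) (hq : 1 ≤ q) :
    Real.exp (min ((lineRoots p q : ℝ) ^ 2 / p.natDegree)
      ((lineRoots p q : ℝ) ^ 4 / ((p.natDegree : ℝ) ^ 2 * Real.log (2 * p.natDegree))) /
        (4 * 10 ^ 7 * q ^ 5)) ≤ (p.map (Int.castRingHom ℂ)).mahlerMeasure := by
  have h := irr_bound p hp hm hM hq
  have hM0 : 0 < (p.map (Int.castRingHom ℂ)).mahlerMeasure := by linarith
  have hlog : 0 < Real.log (p.map (Int.castRingHom ℂ)).mahlerMeasure := Real.log_pos hM
  have hq0 : (0:ℝ) < q := by exact_mod_cast hq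
  rw [← Real.le_log_iff_exp_le hM0, div_le_iff₀ (by positivity)]
  have h1 : 0 < (q:ℝ) ^ 5 * Real.log (p.map (Int.castRingHom ℂ)).mahlerMeasure := by positivity
  nlinarith

theorem lehmer_lines (p : ℤ[X]) (hp : Irreducible p)
    (hM : 1 < (p.map (Int.castRingHom ℂ)).mahlerMeasure) (q : ℕ) (hq : 1 ≤ q)
    (hR : (p.natDegree : ℝ) * Real.sqrt (Real.log (2 * p.natDegree)) ≤ (lineRoots p q : ℝ) ^ 2) :
    Real.exp (1 / (5 * 10 ^ 7 * q ^ 5)) ≤ (p.map (Int.castRingHom ℂ)).mahlerMeasure := by
  have hq0 : (0:ℝ) < q := by exact_mod_cast hq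
  have hq1 : (1:ℝ) ≤ q := by exact_mod_cast hq
  have hq5 : (1:ℝ) ≤ (q:ℝ) ^ 5 := one_le_pow₀ hq1
  -- leading coefficient
  have hp0 : p ≠ 0 := hp.ne_zero
  have hinj : Function.Injective (Int.castRingHom ℂ) := RingHom.injective_int _
  have hlead := leadingCoeff_le_mahlerMeasure (p.map (Int.castRingHom ℂ))
  rw [Polynomial.leadingCoeff_map_of_injective hinj, eq_intCast, Complex.norm_intCast] at hlead
  have hl0 : p.leadingCoeff ≠ 0 := leadingCoeff_ne_zero.mpr hp0
  have habs := Int.one_le_abs hl0
  rcases lt_or_eq_of_le habs with h1 | h1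
  · -- |leading coefficient| ≥ 2
    have h2 : (2:ℝ) ≤ |(p.leadingCoeff : ℝ)| := by
      have : (2:ℤ) ≤ |p.leadingCoeff| := h1
      exact_mod_cast this
    have h3 : Real.exp (1 / (5 * 10 ^ 7 * q ^ 5)) ≤ 2 := by
      rw [← Real.le_log_iff_exp_le two_pos]
      have h4 := Real.log_two_gt_d9
      have h5 : 1 / (5 * 10 ^ 7 * (q:ℝ) ^ 5) ≤ 1 / 2 := by
        apply one_div_le_one_div_of_le two_pos
        nlinarith
      linarith
    linarith
  · -- reduction to the monic case
    have key : ∀ f : ℤ[X], Irreducible f → f.Monic →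
        1 < (f.map (Int.castRingHom ℂ)).mahlerMeasure →
        (f.natDegree : ℝ) * Real.sqrt (Real.log (2 * f.natDegree)) ≤ (lineRoots f q : ℝ) ^ 2 →
        Real.exp (1 / (5 * 10 ^ 7 * q ^ 5)) ≤ (f.map (Int.castRingHom ℂ)).mahlerMeasure := by
      intro f hf hfm hfM hfR
      have hdeg : f.natDegree ≠ 0 := by
        intro h
        have := hfm.natDegree_eq_zero.mp h
        exact hf.not_isUnit (this ▸ isUnit_one)
      refine le_trans ?_ (final f hf hfm hfM q hq)
      apply Real.exp_le_exp.mpr
      set n : ℝ := (f.natDegree : ℝ) with hn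
      have hn1 : 1 ≤ n := by
        rw [hn]; exact_mod_cast Nat.one_le_iff_ne_zero.mpr hdeg
      set l : ℝ := Real.log (2 * n) with hl
      set s : ℝ := Real.sqrt l with hs
      have hl2 : (0.6931471803:ℝ) < l := by
        have h4 := Real.log_two_gt_d9
        have h5 : Real.log 2 ≤ l := Real.log_le_log two_pos (by linarith)
        linarith
      have hs2 : s ^ 2 = l := Real.sq_sqrt (by linarith)
      have hs0 : 0 ≤ s := Real.sqrt_nonneg _
      have hs8 : 0.83 ≤ s := by
        by_contra hcon
        push Not at hcon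
        nlinarith
      have hn0 : 0 < n := by linarith
      have hmin : 0.83 ≤ min ((lineRoots f q : ℝ) ^ 2 / n) ((lineRoots f q : ℝ) ^ 4 / (n ^ 2 * l)) := by
        apply le_min
        · rw [le_div_iff₀ hn0]
          nlinarith
        · rw [le_div_iff₀ (by positivity)]
          have h6 : (n * s) ^ 2 ≤ ((lineRoots f q : ℝ) ^ 2) ^ 2 :=
            pow_le_pow_left₀ (by positivity) hfR 2
          have h7 : (n * s) ^ 2 = n ^ 2 * l := by rw [mul_pow, hs2]
          have h8 : ((lineRoots f q : ℝ) ^ 2) ^ 2 = (lineRoots f q : ℝ) ^ 4 := by ring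
          rw [h7, h8] at h6
          have h9 : 0 ≤ n ^ 2 * l := by positivity
          nlinarith
      rw [div_le_div_iff₀ (by positivity) (by positivity), one_mul]
      have h10 : 0 < (q:ℝ) ^ 5 := by positivity
      nlinarith
    rcases (abs_eq (zero_le_one' ℤ)).mp h1.symm with h2 | h2
    · exact key p hp h2 hM hR
    · have hneg : (-p).map (Int.castRingHom ℂ) = - (p.map (Int.castRingHom ℂ)) := by
        rw [Polynomial.map_neg]
      have hMneg : ((-p).map (Int.castRingHom ℂ)).mahlerMeasure =
          (p.map (Int.castRingHom ℂ)).mahlerMeasure := by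
        have := MM_neg' p
        exact this
      have hlr : lineRoots (-p) q = lineRoots p q := by
        unfold lineRoots
        rw [hneg, Polynomial.roots_neg]
      rw [← hMneg]
      refine key (-p) ((Associated.irreducible_iff (Associated.neg_left (Associated.refl p))).mpr hp) ?_ (by rw [hMneg]; exact hM) (by rw [natDegree_neg, hlr]; exact hR)
      rw [Monic, leadingCoeff_neg, h2]
      rfl

end Pool.Agent.H389R3.LR
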