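import Mathlib
import Pool.Agent.H389R3.LR6
import Pool.Agent.H389R3.LP3

/-!
# Transfer to integer polynomials: the `p`-adic zeros
-/

set_option autoImplicit false

open Finset Polynomial Module IntermediateField

namespace Pool.Agent.H389R3.LP

open Pool.Agent.H388SL Pool.Agent.H389R3.LR

/-- the number of zeros of `f` in `ℚ_p` (with multiplicity) -/
noncomputable def padicRoots (f : ℤ[X]) (p : ℕ) [Fact p.Prime] : ℕ :=
  Multiset.card (f.map (Int.castRingHom ℚ_[p])).roots

lemma irr_bound_p (f : ℤ[X]) (hf : Irreducible f) (hm : f.Monic) (hu : IsUnit (f.coeff 0))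
    (hM : 1 < (f.map (Int.castRingHom ℂ)).mahlerMeasure) (p : ℕ) [Fact p.Prime] :
    min ((padicRoots f p : ℝ) ^ 2 / f.natDegree)
      ((padicRoots f p : ℝ) ^ 4 / ((f.natDegree : ℝ) ^ 2 * Real.log (2 * f.natDegree)))
      ≤ 34078720 * ((p : ℝ) - 1) ^ 5 * Real.log (f.map (Int.castRingHom ℂ)).mahlerMeasure := by
  classical
  have hdeg : f.natDegree ≠ 0 := by
    intro h
    have := hm.natDegree_eq_zero.mp h
    exact hf.not_isUnit (this ▸ isUnit_one)
  obtain ⟨z, hz⟩ := IsAlgClosed.exists_aeval_eq_zero ℂ f (by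
    intro h
    exact hdeg (natDegree_eq_of_degree_eq_some h))
  have hzi : IsIntegral ℤ z := ⟨f, hm, by rw [← Polynomial.aeval_def]; exact hz⟩
  have hzQ : IsIntegral ℚ z := hzi.tower_top
  have hmin : minpoly ℤ z = f := by
    have h1 := minpoly.isIntegrallyClosed_dvd hzi hz
    have h2 : Associated (minpoly ℤ z) f :=
      (minpoly.irreducible hzi).associated_of_dvd hf h1
    exact eq_of_monic_of_associated (minpoly.monic hzi) hm h2
  set L := adjoin ℚ {z} with hL
  have hfin : FiniteDimensional ℚ L := adjoin.finiteDimensional hzQ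
  have : NumberField L := { to_charZero := inferInstance, to_finiteDimensional := hfin }
  set α : L := AdjoinSimple.gen ℚ z with hα
  have hαz : algebraMap L ℂ α = z := AdjoinSimple.algebraMap_gen ℚ z
  have hαi : IsIntegral ℤ α := by
    rw [← hαz] at hzi
    exact (isIntegral_algebraMap_iff (algebraMap L ℂ).injective).mp hzi
  have hαc : CInj α := by
    intro σ τ h
    apply adjoin_algHom_ext ℚ (s := {z})
    intro x hx
    rw [Set.mem_singleton_iff] at hx
    subst hx
    exact h
  have hminα : minpoly ℤ α = f := by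
    rw [← hmin, ← hαz]
    exact (minpoly.algebraMap_eq (algebraMap L ℂ).injective α).symm
  have hpmap : f.map (Int.castRingHom ℂ) = ∏ τ : L →ₐ[ℚ] ℂ, (X - C (τ α)) := by
    rw [← minpoly_map_eq hαc, minpoly.isIntegrallyClosed_eq_field_fractions' ℚ hαi, hminα,
      Polynomial.map_map]
    rfl
  have hMM : Real.log (f.map (Int.castRingHom ℂ)).mahlerMeasure = lam α := by
    rw [hpmap]
    have h1 : (∏ τ : L →ₐ[ℚ] ℂ, (X - C (τ α))).mahlerMeasure = ∏ τ : L →ₐ[ℚ] ℂ, max 1 ‖τ α‖ := by
      rw [Finset.prod_eq_multiset_prod, prod_mahlerMeasure_eq_mahlerMeasure_prod, Multiset.map_map,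
        Finset.prod_eq_multiset_prod]
      congr 1
      refine Multiset.map_congr rfl fun τ _ => ?_
      rw [Function.comp_apply, mahlerMeasure_X_sub_C]
    rw [h1, Real.log_prod]
    · rfl
    · intro τ _
      have : (0:ℝ) < max 1 ‖τ α‖ := lt_of_lt_of_le one_pos (le_max_left _ _)
      exact this.ne'
  have hfr : finrank ℚ L = f.natDegree := by
    rw [hL, adjoin.finrank hzQ, minpoly.isIntegrallyClosed_eq_field_fractions' ℚ hzi, hmin]
    exact natDegree_map_eq_of_injective (algebraMap ℤ ℚ).injective_int f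
  have hlampos : 0 < lam α := by
    rw [← hMM]; exact Real.log_pos hM
  have hα0 : α ≠ 0 := by
    intro h
    rw [h] at hlampos
    unfold lam at hlampos
    simp at hlampos
  have hαroot : ∀ n : ℕ, 0 < n → α ^ n ≠ 1 := by
    intro n hn h
    have h1 := lam_pow α n
    rw [h] at h1
    have h2 : lam (1 : L) = 0 := by unfold lam; simp
    rw [h2] at h1
    have h3 : (0:ℝ) < n := by exact_mod_cast hn
    have : 0 < (n:ℝ) * lam α := mul_pos h3 hlampos
    linarith
  -- the zeros in `ℚ_p`
  have hR : padicRoots f p ≤ (pRoots p α).card := by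
    have hnd : (f.map (Int.castRingHom ℚ_[p])).roots.Nodup := by
      apply nodup_roots
      have h1 : (minpoly ℚ α).Separable := (minpoly.irreducible (hαi.tower_top)).separable
      have h2 : f.map (Int.castRingHom ℚ_[p]) = (minpoly ℚ α).map (algebraMap ℚ ℚ_[p]) := by
        rw [minpoly.isIntegrallyClosed_eq_field_fractions' ℚ hαi, hminα, Polynomial.map_map]
        congr 1
      rw [h2]
      exact h1.map
    unfold padicRoots
    rw [← Multiset.toFinset_card_of_nodup hnd]
    have hsub : (f.map (Int.castRingHom ℚ_[p])).roots.toFinset ⊆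
        (pRoots p α).image (algebraMap ℤ_[p] ℚ_[p]) := by
      intro x hx
      rw [Multiset.mem_toFinset, mem_roots (hm.map _).ne_zero, IsRoot.def, eval_map] at hx
      have hxi : IsIntegral ℤ x := ⟨f, hm, hx⟩
      have hxi' : IsIntegral ℤ_[p] x := hxi.tower_top
      obtain ⟨y, rfl⟩ := IsIntegrallyClosed.isIntegral_iff.mp hxi'
      rw [Finset.mem_image]
      refine ⟨y, ?_, rfl⟩
      rw [mem_pRoots hαi, hminα]
      have h3 := Polynomial.hom_eval₂ f (algebraMap ℤ ℤ_[p]) (algebraMap ℤ_[p] ℚ_[p]) y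
      have h4 : (algebraMap ℤ_[p] ℚ_[p]).comp (algebraMap ℤ ℤ_[p]) = Int.castRingHom ℚ_[p] :=
        RingHom.ext_int _ _
      rw [h4, hx] at h3
      rw [aeval_def]
      exact (IsFractionRing.injective ℤ_[p] ℚ_[p]) (by rw [h3, map_zero])
    exact (Finset.card_le_card hsub).trans Finset.card_image_le
  have h := padic_bound (p := p) hαi hα0 hαroot (by rw [hminα]; exact hu)
  rw [hfr, ← hMM] at h
  refine le_trans ?_ h
  have hR' : (padicRoots f p : ℝ) ≤ ((pRoots p α).card : ℝ) := by exact_mod_cast hR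
  have hR0 : (0:ℝ) ≤ padicRoots f p := Nat.cast_nonneg _
  have hn1 : (1:ℝ) ≤ f.natDegree := by exact_mod_cast Nat.one_le_iff_ne_zero.mpr hdeg
  have hlog : 0 < Real.log (2 * f.natDegree) := Real.log_pos (by linarith)
  apply min_le_min
  · exact div_le_div_of_nonneg_right (pow_le_pow_left₀ hR0 hR' 2) (by positivity)
  · exact div_le_div_of_nonneg_right (pow_le_pow_left₀ hR0 hR' 4) (by positivity)

/-- the constant coefficient is at most the Mahler measure -/
lemma coeff_zero_le (f : ℤ[X]) :
    |(f.coeff 0 : ℝ)| ≤ (f.map (Int.castRingHom ℂ)).mahlerMeasure := by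
  have h1 := norm_coeff_le_choose_mul_mahlerMeasure 0 (f.map (Int.castRingHom ℂ))
  rw [Nat.choose_zero_right, coeff_map, eq_intCast, Complex.norm_intCast] at h1
  simpa using h1

/-- an irreducible integer polynomial with Mahler measure less than `2` is monic up to sign,
with constant coefficient `±1` -/
lemma units_of_lt_two (f : ℤ[X]) (hf : Irreducible f)
    (hM : 1 < (f.map (Int.castRingHom ℂ)).mahlerMeasure)
    (hM2 : (f.map (Int.castRingHom ℂ)).mahlerMeasure < 2) :
    |f.leadingCoeff| = 1 ∧ |f.coeff 0| = 1 := by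
  have hinj : Function.Injective (Int.castRingHom ℂ) := RingHom.injective_int _
  constructor
  · have hlead := leadingCoeff_le_mahlerMeasure (f.map (Int.castRingHom ℂ))
    rw [Polynomial.leadingCoeff_map_of_injective hinj, eq_intCast, Complex.norm_intCast] at hlead
    have habs := Int.one_le_abs (leadingCoeff_ne_zero.mpr hf.ne_zero)
    have h3 : |(f.leadingCoeff : ℝ)| < 2 := by linarith
    have h4 : |f.leadingCoeff| < 2 := by exact_mod_cast h3
    omega
  · have h1 := coeff_zero_le f
    have h3 : |(f.coeff 0 : ℝ)| < 2 := by linarith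
    have h4 : |f.coeff 0| < 2 := by exact_mod_cast h3
    have h5 : f.coeff 0 ≠ 0 := by
      intro h0
      have h6 : X ∣ f := X_dvd_iff.mpr h0
      have h7 : Associated X f := (irreducible_X).associated_of_dvd hf h6
      obtain ⟨u, hu⟩ := h7
      obtain ⟨c, hc, hcu⟩ := Polynomial.isUnit_iff.mp u.isUnit
      have hX : (X : ℂ[X]).mahlerMeasure = 1 := by
        have := mahlerMeasure_X_sub_C 0
        simpa using this
      rw [← hu, ← hcu, Polynomial.map_mul, mahlerMeasure_mul, map_X, hX,
        Polynomial.map_C, mahlerMeasure_const, one_mul] at hM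
      rcases Int.isUnit_iff.mp hc with h | h
      · rw [h] at hM; simp at hM
      · rw [h] at hM; simp at hM
    have := Int.one_le_abs h5
    omega

theorem final_p (f : ℤ[X]) (hf : Irreducible f)
    (hM : 1 < (f.map (Int.castRingHom ℂ)).mahlerMeasure) (p : ℕ) [Fact p.Prime] :
    min 2 (Real.exp (min ((padicRoots f p : ℝ) ^ 2 / f.natDegree)
      ((padicRoots f p : ℝ) ^ 4 / ((f.natDegree : ℝ) ^ 2 * Real.log (2 * f.natDegree))) /
        (4 * 10 ^ 7 * ((p : ℝ) - 1) ^ 5))) ≤ (f.map (Int.castRingHom ℂ)).mahlerMeasure := by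
  rcases le_or_gt 2 (f.map (Int.castRingHom ℂ)).mahlerMeasure with h2 | h2
  · exact (min_le_left _ _).trans h2
  refine (min_le_right _ _).trans ?_
  obtain ⟨hlc, hc0⟩ := units_of_lt_two f hf hM h2
  have hp2 : (2:ℝ) ≤ p := by exact_mod_cast (Fact.out : p.Prime).two_le
  have hq0 : (0:ℝ) < (p:ℝ) - 1 := by linarith
  have key : ∀ g : ℤ[X], Irreducible g → g.Monic → |g.coeff 0| = 1 →
      1 < (g.map (Int.castRingHom ℂ)).mahlerMeasure →
      Real.exp (min ((padicRoots g p : ℝ) ^ 2 / g.natDegree)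
      ((padicRoots g p : ℝ) ^ 4 / ((g.natDegree : ℝ) ^ 2 * Real.log (2 * g.natDegree))) /
        (4 * 10 ^ 7 * ((p : ℝ) - 1) ^ 5)) ≤ (g.map (Int.castRingHom ℂ)).mahlerMeasure := by
    intro g hg hgm hg0 hgM
    have h := irr_bound_p g hg hgm (Int.isUnit_iff_abs_eq.mpr hg0) hgM p
    have hM0 : 0 < (g.map (Int.castRingHom ℂ)).mahlerMeasure := by linarith
    have hlog : 0 < Real.log (g.map (Int.castRingHom ℂ)).mahlerMeasure := Real.log_pos hgM
    rw [← Real.le_log_iff_exp_le hM0, div_le_iff₀ (by positivity)]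
    have h1 : 0 < ((p:ℝ) - 1) ^ 5 * Real.log (g.map (Int.castRingHom ℂ)).mahlerMeasure := by
      positivity
    nlinarith
  rcases (abs_eq (zero_le_one' ℤ)).mp hlc with h3 | h3
  · exact key f hf h3 hc0 hM
  · have hMneg := MM_neg' f
    have hpr : padicRoots (-f) p = padicRoots f p := by
      unfold padicRoots
      rw [Polynomial.map_neg, Polynomial.roots_neg]
    have := key (-f) ((Associated.irreducible_iff (Associated.neg_left (Associated.refl f))).mpr hf)
      (by rw [Monic, leadingCoeff_neg, h3]; rfl) (by rw [coeff_neg, abs_neg]; exact hc0)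
      (by rw [hMneg]; exact hM)
    rw [hMneg, hpr, natDegree_neg] at this
    exact this

theorem lehmer_p (f : ℤ[X]) (hf : Irreducible f)
    (hM : 1 < (f.map (Int.castRingHom ℂ)).mahlerMeasure) (p : ℕ) [Fact p.Prime]
    (hR : (f.natDegree : ℝ) * Real.sqrt (Real.log (2 * f.natDegree)) ≤ (padicRoots f p : ℝ) ^ 2) :
    Real.exp (1 / (5 * 10 ^ 7 * ((p : ℝ) - 1) ^ 5)) ≤
      (f.map (Int.castRingHom ℂ)).mahlerMeasure := by
  have hp2 : (2:ℝ) ≤ p := by exact_mod_cast (Fact.out : p.Prime).two_le
  set q : ℝ := (p:ℝ) - 1 with hq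
  have hq1 : (1:ℝ) ≤ q := by rw [hq]; linarith
  have hq0 : (0:ℝ) < q := by linarith
  have hq5 : (1:ℝ) ≤ q ^ 5 := one_le_pow₀ hq1
  have hexp2 : Real.exp (1 / (5 * 10 ^ 7 * q ^ 5)) ≤ 2 := by
    rw [← Real.le_log_iff_exp_le two_pos]
    have h4 := Real.log_two_gt_d9
    have h5 : 1 / (5 * 10 ^ 7 * q ^ 5) ≤ 1 / 2 := by
      apply one_div_le_one_div_of_le two_pos
      nlinarith
    linarith
  rcases eq_or_ne f.natDegree 0 with hdeg | hdeg
  · rw [natDegree_eq_zero] at hdeg
    obtain ⟨c, hc⟩ := hdeg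
    refine hexp2.trans ?_
    rw [← hc, Polynomial.map_C, mahlerMeasure_const, eq_intCast, Complex.norm_intCast] at hM ⊢
    have h1 : (1:ℤ) < |c| := by exact_mod_cast hM
    have h2 : (2:ℤ) ≤ |c| := h1
    exact_mod_cast h2
  have hfin := final_p f hf hM p
  rw [← hq] at hfin
  refine le_trans (le_min hexp2 ?_) hfin
  · apply Real.exp_le_exp.mpr
    set n : ℝ := (f.natDegree : ℝ) with hn
    have hn1 : 1 ≤ n := by
      rw [hn]; exact_mod_cast Nat.one_le_iff_ne_zero.mpr hdeg
    set l : ℝ := Real.log (2 * n) with hl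
    set s : ℝ := Real.sqrt l with hs
    have hl2 : (0.6931471803:ℝ) < l := by
      have h4 := Real.log_two_gt_d9
      have h5 : Real.log 2 ≤ l := Real.log_le_log two_pos (by linarith)
      linarith
    have hs2 : s ^ 2 = l := Real.sq_sqrt (by linarith)
    have hs0 : 0 ≤ s := Real.sqrt_nonneg _
    have hs8 : 0.83 ≤ s := by
      by_contra hcon
      push Not at hcon
      nlinarith
    have hn0 : 0 < n := by linarith
    have hmin : 0.83 ≤ min ((padicRoots f p : ℝ) ^ 2 / n)
        ((padicRoots f p : ℝ) ^ 4 / (n ^ 2 * l)) := by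
      apply le_min
      · rw [le_div_iff₀ hn0]
        nlinarith
      · rw [le_div_iff₀ (by positivity)]
        have h6 : (n * s) ^ 2 ≤ ((padicRoots f p : ℝ) ^ 2) ^ 2 :=
          pow_le_pow_left₀ (by positivity) hR 2
        have h7 : (n * s) ^ 2 = n ^ 2 * l := by rw [mul_pow, hs2]
        have h8 : ((padicRoots f p : ℝ) ^ 2) ^ 2 = (padicRoots f p : ℝ) ^ 4 := by ring
        rw [h7, h8] at h6
        have h9 : 0 ≤ n ^ 2 * l := by positivity
        nlinarith
    rw [div_le_div_iff₀ (by positivity) (by positivity), one_mul]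
    have h10 : 0 < q ^ 5 := by positivity
    nlinarith

end Pool.Agent.H389R3.LP
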