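import Mathlib
import Pool.Agent.H389R3.LP4

/-!
# Powers of Perron numbers that are Parry numbers
-/

set_option autoImplicit false

open Polynomial

namespace Pool.Agent.H389R3.PR

/-- the greedy digits of `1` in base `γ` -/
noncomputable def x (γ : ℝ) (k : ℕ) : ℝ := (fun y : ℝ => Int.fract (γ * y))^[k] (1 : ℝ)

lemma x_zero (γ : ℝ) : x γ 0 = 1 := rfl

lemma x_succ (γ : ℝ) (k : ℕ) : x γ (k + 1) = γ * x γ k - ⌊γ * x γ k⌋ := by
  unfold x
  rw [Function.iterate_succ_apply', Int.fract]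

lemma x_nonneg (γ : ℝ) (k : ℕ) : 0 ≤ x γ k := by
  cases k with
  | zero => rw [x_zero]; norm_num
  | succ k => rw [x_succ]; exact Int.fract_nonneg _

lemma x_le_one (γ : ℝ) (k : ℕ) : x γ k ≤ 1 := by
  cases k with
  | zero => rw [x_zero]
  | succ k => rw [x_succ]; exact (Int.fract_lt_one _).le

/-- the polynomials of the orbit -/
noncomputable def P (γ : ℝ) : ℕ → ℤ[X]
  | 0 => 1
  | k + 1 => X * P γ k - C ⌊γ * x γ k⌋

lemma P_eval (γ : ℝ) (k : ℕ) : aeval γ (P γ k) = x γ k := by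
  induction k with
  | zero => simp [P, x_zero]
  | succ k ih => rw [P, map_sub, map_mul, aeval_X, ih, x_succ]; simp

/-- the conjugate orbit minus the orbit -/
noncomputable def E (γ : ℝ) (w : ℂ) : ℕ → ℂ
  | 0 => 0
  | k + 1 => w * E γ w k + x γ k

lemma P_conj (γ : ℝ) (w : ℂ) (k : ℕ) :
    aeval w (P γ k) = (x γ k : ℂ) + (w - γ) * E γ w k := by
  induction k with
  | zero => simp [P, x_zero, E]
  | succ k ih =>
    rw [P, map_sub, map_mul, aeval_X, aeval_C, ih, x_succ, E]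
    simp only [algebraMap_int_eq, eq_intCast, Complex.ofReal_sub, Complex.ofReal_mul,
      Complex.ofReal_intCast]
    ring

lemma E_lower (γ : ℝ) {w : ℂ} (hw : 2 < ‖w‖) (k : ℕ) :
    ‖w‖ ^ k * (1 - 1 / (‖w‖ - 1)) ≤ ‖E γ w (k + 1)‖ - 1 / (‖w‖ - 1) := by
  induction k with
  | zero => simp [E, x_zero]
  | succ k ih =>
    have h1 : ‖w‖ * ‖E γ w (k + 1)‖ - 1 ≤ ‖E γ w (k + 1 + 1)‖ := by
      rw [show E γ w (k + 1 + 1) = w * E γ w (k + 1) + x γ (k + 1) from rfl]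
      have h2 := norm_sub_norm_le (w * E γ w (k + 1)) (-(x γ (k + 1) : ℂ))
      rw [sub_neg_eq_add, norm_neg, norm_mul, Complex.norm_real, Real.norm_eq_abs,
        abs_of_nonneg (x_nonneg _ _)] at h2
      have := x_le_one γ (k + 1)
      linarith
    have h3 : 0 < ‖w‖ - 1 := by linarith
    have h4 : ‖w‖ * (1 / (‖w‖ - 1)) = 1 + 1 / (‖w‖ - 1) := by field_simp; ring
    have h5 := mul_le_mul_of_nonneg_left ih (norm_nonneg w)
    rw [pow_succ]
    nlinarith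

/-- if the orbit of `1` is finite then all the other conjugates have modulus at most `2` -/
lemma conj_le_two {γ : ℝ} {w : ℂ} (hfin : Set.Finite (Set.range (x γ)))
    (hw : ∀ Q : ℤ[X], aeval γ Q = 0 → aeval w Q = 0) (hne : w ≠ γ) : ‖w‖ ≤ 2 := by
  by_contra hcon
  push Not at hcon
  obtain ⟨i, j, hij, hxij⟩ : ∃ i j : ℕ, i < j ∧ x γ i = x γ j := by
    by_contra hno
    push Not at hno
    have hinj : Function.Injective (x γ) := by
      intro a b hab
      rcases lt_trichotomy a b with h | h | h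
      · exact absurd hab (hno a b h)
      · exact h
      · exact absurd hab.symm (hno b a h)
    exact Set.infinite_range_of_injective hinj hfin
  obtain ⟨p, rfl⟩ := Nat.exists_eq_add_of_lt hij
  set q := p + 1 with hq
  have hq' : i + p + 1 = i + q := by omega
  rw [hq'] at hxij
  have h1 : ∀ s, x γ (i + s) = x γ (i + q + s) := by
    intro s
    induction s with
    | zero => exact hxij
    | succ s ih => rw [← add_assoc, ← add_assoc, x_succ, x_succ, ih]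
  have h2 : ∀ s, aeval w (P γ (i + s)) = aeval w (P γ (i + q + s)) := by
    intro s
    have h3 := hw (P γ (i + s) - P γ (i + q + s)) (by rw [map_sub, P_eval, P_eval, h1 s, sub_self])
    rw [map_sub] at h3
    exact sub_eq_zero.1 h3
  have h4 : ∀ s, aeval w (P γ (i + s * q)) = aeval w (P γ i) := by
    intro s
    induction s with
    | zero => simp
    | succ s ih =>
      rw [← ih, h2 (s * q)]
      congr 2
      ring
  -- growth
  set a := ‖w‖ with ha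
  set u := 1 - 1 / (a - 1) with hu
  have hu0 : 0 < u := by
    rw [hu, sub_pos, div_lt_one (by linarith)]
    linarith
  have hc : 0 < ‖w - γ‖ := norm_pos_iff.2 (sub_ne_zero.2 hne)
  obtain ⟨s, hs⟩ := pow_unbounded_of_one_lt ((‖aeval w (P γ i)‖ + 1) / (‖w - γ‖ * u))
    (show (1:ℝ) < a by linarith)
  have h5 := h4 (s + 1)
  have h6 : i + (s + 1) * q = (i + (s + 1) * q - 1) + 1 := by
    have : 1 ≤ (s + 1) * q := Nat.mul_pos (Nat.succ_pos _) (Nat.succ_pos _)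
    omega
  set k := i + (s + 1) * q - 1 with hk
  have hks : s ≤ k := by
    have : (s + 1) * 1 ≤ (s + 1) * q := Nat.mul_le_mul_left _ (Nat.succ_pos _)
    omega
  rw [h6] at h5
  have h7 := E_lower γ hcon k
  have h8 : a ^ s ≤ a ^ k := pow_le_pow_right₀ (by linarith) hks
  have h9 : ‖w - γ‖ * ‖E γ w (k + 1)‖ ≤ ‖aeval w (P γ (k + 1))‖ + 1 := by
    rw [P_conj, ← norm_mul]
    have h10 := norm_sub_norm_le ((w - γ) * E γ w (k + 1)) (-(x γ (k + 1) : ℂ))
    rw [sub_neg_eq_add, norm_neg, Complex.norm_real, Real.norm_eq_abs,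
      abs_of_nonneg (x_nonneg _ _), add_comm ((w - γ) * E γ w (k + 1))] at h10
    have := x_le_one γ (k + 1)
    linarith
  rw [h5] at h9
  rw [div_lt_iff₀ (by positivity)] at hs
  have h11 : 0 < 1 / (a - 1) := by
    have : 0 < a - 1 := by linarith
    positivity
  have h12 : a ^ s * u ≤ ‖E γ w (k + 1)‖ := by
    have : a ^ s * u ≤ a ^ k * u := mul_le_mul_of_nonneg_right h8 hu0.le
    linarith
  have h13 := mul_le_mul_of_nonneg_left h12 hc.le
  nlinarith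

lemma conj_pow {β : ℝ} (hβ : IsIntegral ℤ β) {z : ℂ} (hz : aeval z (minpoly ℤ β) = 0) (m : ℕ)
    (Q : ℤ[X]) (hQ : aeval (β ^ m) Q = 0) : aeval (z ^ m) Q = 0 := by
  have h1 : aeval β (expand ℤ m Q) = 0 := by rw [expand_aeval, hQ]
  obtain ⟨g, hg⟩ := minpoly.isIntegrallyClosed_dvd hβ h1
  rw [← expand_aeval, hg, map_mul, hz, zero_mul]

/-- the set of the `m` such that `β ^ m` is a Parry number -/
def parry (β : ℝ) : Set ℕ :=
  {m : ℕ | 1 ≤ m ∧ Set.Finite (Set.range (fun k : ℕ =>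
    (fun y : ℝ => Int.fract (β ^ m * y))^[k] (1 : ℝ)))}

lemma conj_le_one {β : ℝ} (hβ1 : 1 < β) (hβ : IsIntegral ℤ β)
    (hP : ∀ z : ℂ, aeval z (minpoly ℤ β) = 0 → z ≠ (β : ℂ) → ‖z‖ < β)
    (hinf : (parry β).Infinite) {z : ℂ} (hz : aeval z (minpoly ℤ β) = 0) (hne : z ≠ (β : ℂ)) :
    ‖z‖ ≤ 1 := by
  by_contra hcon
  push Not at hcon
  have hlt := hP z hz hne
  obtain ⟨M, hM⟩ := pow_unbounded_of_one_lt 2 hcon
  obtain ⟨m, hm, hMm⟩ := hinf.exists_gt M
  have h1 : ‖z ^ m‖ ≤ 2 := by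
    apply conj_le_two (γ := β ^ m) hm.2 (fun Q hQ => conj_pow hβ hz m Q hQ)
    intro h
    have h2 : ‖z ^ m‖ = ‖((β ^ m : ℝ) : ℂ)‖ := by rw [h]
    rw [norm_pow, Complex.norm_real, Real.norm_eq_abs, abs_of_pos (by positivity)] at h2
    have h3 : ‖z‖ ^ m < β ^ m := pow_lt_pow_left₀ hlt (norm_nonneg _) (by have := hm.1; omega)
    linarith
  rw [norm_pow] at h1
  have h4 : ‖z‖ ^ M ≤ ‖z‖ ^ m := pow_le_pow_right₀ hcon.le hMm.le
  linarith

lemma mahler_eq {β : ℝ} (hβ1 : 1 < β) (hβ : IsIntegral ℤ β)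
    (hone : ∀ z : ℂ, aeval z (minpoly ℤ β) = 0 → z ≠ (β : ℂ) → ‖z‖ ≤ 1) :
    ((minpoly ℤ β).map (Int.castRingHom ℂ)).mahlerMeasure = β := by
  classical
  set f := minpoly ℤ β with hf
  have hm : f.Monic := minpoly.monic hβ
  have hsep : (f.map (Int.castRingHom ℂ)).roots.Nodup := by
    apply nodup_roots
    have h1 : (minpoly ℚ β).Separable := (minpoly.irreducible (hβ.tower_top)).separable
    have h2 : f.map (Int.castRingHom ℂ) = (minpoly ℚ β).map (algebraMap ℚ ℂ) := by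
      rw [minpoly.isIntegrallyClosed_eq_field_fractions' ℚ hβ, Polynomial.map_map]
      congr 1
    rw [h2]
    exact h1.map
  have hmem : (β : ℂ) ∈ (f.map (Int.castRingHom ℂ)).roots := by
    rw [mem_roots (hm.map _).ne_zero, IsRoot.def, eval_map]
    have h1 : aeval (β : ℂ) f = ((aeval β f : ℝ) : ℂ) := by
      have := aeval_algebraMap_apply ℂ β f
      exact this
    have h2 : aeval (β : ℂ) f = 0 := by rw [h1, minpoly.aeval]; simp
    exact h2
  rw [mahlerMeasure_eq_leadingCoeff_mul_prod_roots, (hm.map _).leadingCoeff, norm_one, one_mul]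
  rw [← Multiset.cons_erase hmem, Multiset.map_cons, Multiset.prod_cons]
  have h3 : (((f.map (Int.castRingHom ℂ)).roots.erase (β : ℂ)).map fun a => max 1 ‖a‖).prod = 1 := by
    apply Multiset.prod_eq_one
    intro y hy
    rw [Multiset.mem_map] at hy
    obtain ⟨z, hz, rfl⟩ := hy
    have hz1 : z ∈ (f.map (Int.castRingHom ℂ)).roots := Multiset.mem_of_mem_erase hz
    have hz2 : z ≠ (β : ℂ) := by
      rintro rfl
      exact (hsep.notMem_erase) hz
    rw [mem_roots (hm.map _).ne_zero, IsRoot.def, eval_map] at hz1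
    exact max_eq_left (hone z hz1 hz2)
  rw [h3, mul_one, Complex.norm_real, Real.norm_eq_abs, abs_of_pos (by linarith)]
  exact max_eq_right hβ1.le

open Pool.Agent.H389R3.LP

theorem main {β : ℝ} (hβ1 : 1 < β) (hβ : IsIntegral ℤ β)
    (hP : ∀ z : ℂ, aeval z (minpoly ℤ β) = 0 → z ≠ (β : ℂ) → ‖z‖ < β) (p : ℕ) [Fact p.Prime]
    (hlt : β < min 2 (Real.exp (min ((padicRoots (minpoly ℤ β) p : ℝ) ^ 2 /
      (minpoly ℤ β).natDegree) ((padicRoots (minpoly ℤ β) p : ℝ) ^ 4 /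
        (((minpoly ℤ β).natDegree : ℝ) ^ 2 * Real.log (2 * (minpoly ℤ β).natDegree))) /
        (4 * 10 ^ 7 * ((p : ℝ) - 1) ^ 5)))) :
    (parry β).Finite := by
  by_contra hinf
  have hM := mahler_eq hβ1 hβ (fun z hz hne => conj_le_one hβ1 hβ hP hinf hz hne)
  have h1 := final_p (minpoly ℤ β) (minpoly.irreducible hβ) (by rw [hM]; exact hβ1) p
  rw [hM] at h1
  exact absurd hlt (not_lt.2 h1)

lemma lehmer_lt {τ : ℝ} (h1 : 1 < τ)
    (h : τ ^ 10 + τ ^ 9 - τ ^ 7 - τ ^ 6 - τ ^ 5 - τ ^ 4 - τ ^ 3 + τ + 1 = 0) : τ < 1.19 := by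
  by_contra hcon
  push Not at hcon
  obtain ⟨y, rfl⟩ : ∃ y : ℝ, τ = 1.19 + y := ⟨τ - 1.19, by ring⟩
  have hy : 0 ≤ y := by linarith
  ring_nf at h
  have : 0 < y * (1:ℝ) + 1 := by positivity
  nlinarith [pow_nonneg hy 2, pow_nonneg hy 3, pow_nonneg hy 4, pow_nonneg hy 5, pow_nonneg hy 6,
    pow_nonneg hy 7, pow_nonneg hy 8, pow_nonneg hy 9, pow_nonneg hy 10]

theorem main_lehmer {τ : ℝ} (hτ1 : 1 < τ)
    (hτ : τ ^ 10 + τ ^ 9 - τ ^ 7 - τ ^ 6 - τ ^ 5 - τ ^ 4 - τ ^ 3 + τ + 1 = 0)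
    {β : ℝ} (hβ1 : 1 < β) (hβτ : β < τ) (hβ : IsIntegral ℤ β)
    (hP : ∀ z : ℂ, aeval z (minpoly ℤ β) = 0 → z ≠ (β : ℂ) → ‖z‖ < β) (p : ℕ) [Fact p.Prime]
    (hR : 8 * 10 ^ 6 * ((p : ℝ) - 1) ^ 5 ≤ min ((padicRoots (minpoly ℤ β) p : ℝ) ^ 2 /
      (minpoly ℤ β).natDegree) ((padicRoots (minpoly ℤ β) p : ℝ) ^ 4 /
        (((minpoly ℤ β).natDegree : ℝ) ^ 2 * Real.log (2 * (minpoly ℤ β).natDegree)))) :
    (parry β).Finite := by
  apply main hβ1 hβ hP p
  have h1 := lehmer_lt hτ1 hτ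
  have hp2 : (2:ℝ) ≤ p := by exact_mod_cast (Fact.out : p.Prime).two_le
  have hq0 : (0:ℝ) < (p:ℝ) - 1 := by linarith
  have h2 : (0.2 : ℝ) ≤ min ((padicRoots (minpoly ℤ β) p : ℝ) ^ 2 /
      (minpoly ℤ β).natDegree) ((padicRoots (minpoly ℤ β) p : ℝ) ^ 4 /
        (((minpoly ℤ β).natDegree : ℝ) ^ 2 * Real.log (2 * (minpoly ℤ β).natDegree))) /
        (4 * 10 ^ 7 * ((p : ℝ) - 1) ^ 5) := by
    rw [le_div_iff₀ (by positivity)]
    linarith
  have h3 := Real.add_one_le_exp (0.2 : ℝ)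
  have h4 := Real.exp_le_exp.2 h2
  apply lt_min
  · linarith
  · linarith

end Pool.Agent.H389R3.PR
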