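import Mathlib

/-!
# `SO(3)`: transitivity on the sphere, product sets of caps
-/

set_option autoImplicit false

open Matrix MeasureTheory
open scoped Pointwise

namespace Pool.Agent.H389R3.SO

/-- the rotation group of `ℝ³` -/
abbrev SO3 : Type := Matrix.specialOrthogonalGroup (Fin 3) ℝ

/-- `ℝ³` -/
abbrev V := Fin 3 → ℝ

/-- the action of a rotation on a vector -/
def act (g : SO3) (x : V) : V := g.1 *ᵥ x

lemma mem_iff (A : Matrix (Fin 3) (Fin 3) ℝ) :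
    A ∈ Matrix.specialOrthogonalGroup (Fin 3) ℝ ↔ A * Aᵀ = 1 ∧ A.det = 1 := by
  rw [Matrix.mem_specialOrthogonalGroup_iff, Matrix.mem_orthogonalGroup_iff]

lemma act_mul (g h : SO3) (x : V) : act (g * h) x = act g (act h x) := by
  unfold act
  rw [Matrix.mulVec_mulVec]
  rfl

lemma act_one (x : V) : act 1 x = x := by
  unfold act
  exact Matrix.one_mulVec x

lemma act_neg (g : SO3) (x : V) : act g (-x) = - act g x := by
  unfold act
  exact Matrix.mulVec_neg _ _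

lemma dot_act (g : SO3) (x y : V) : act g x ⬝ᵥ act g y = x ⬝ᵥ y := by
  unfold act
  have h : (g.1)ᵀ * g.1 = 1 := mul_eq_one_comm.1 ((mem_iff g.1).1 g.2).1
  rw [Matrix.dotProduct_mulVec, ← Matrix.mulVec_transpose, Matrix.mulVec_mulVec, h,
    Matrix.one_mulVec]

lemma dot_act_left (g : SO3) (x y : V) : act g x ⬝ᵥ y = x ⬝ᵥ act g⁻¹ y := by
  have h := dot_act g x (act g⁻¹ y)
  rw [← act_mul, mul_inv_cancel, act_one] at h
  exact h

lemma exists_halfTurn (m : V) (hm : m ⬝ᵥ m = 1) :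
    ∃ g : SO3, ∀ x, act g x = (2 * (m ⬝ᵥ x)) • m - x := by
  have hm' : m 0 * m 0 + m 1 * m 1 + m 2 * m 2 = 1 := by
    rw [← hm]; simp [dotProduct, Fin.sum_univ_three]
  refine ⟨⟨Matrix.of ![![2 * m 0 * m 0 - 1, 2 * m 0 * m 1, 2 * m 0 * m 2],
    ![2 * m 1 * m 0, 2 * m 1 * m 1 - 1, 2 * m 1 * m 2],
    ![2 * m 2 * m 0, 2 * m 2 * m 1, 2 * m 2 * m 2 - 1]], ?_⟩, ?_⟩
  · rw [mem_iff]
    constructor
    · ext i j
      rw [Matrix.mul_apply, Fin.sum_univ_three]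
      fin_cases i <;> fin_cases j <;> simp
      · linear_combination 4 * m 0 * m 0 * hm'
      · linear_combination 4 * m 0 * m 1 * hm'
      · linear_combination 4 * m 0 * m 2 * hm'
      · linear_combination 4 * m 1 * m 0 * hm'
      · linear_combination 4 * m 1 * m 1 * hm'
      · linear_combination 4 * m 1 * m 2 * hm'
      · linear_combination 4 * m 2 * m 0 * hm'
      · linear_combination 4 * m 2 * m 1 * hm'
      · linear_combination 4 * m 2 * m 2 * hm'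
    · rw [Matrix.det_fin_three]
      simp
      linear_combination 2 * hm'
  · intro x
    unfold act
    ext i
    fin_cases i <;> simp [Matrix.mulVec, dotProduct, Fin.sum_univ_three] <;> ring

lemma dot_self_eq_zero {x : V} : x ⬝ᵥ x = 0 ↔ x = 0 := dotProduct_self_eq_zero

lemma dot_self_nonneg (x : V) : 0 ≤ x ⬝ᵥ x := by
  simp only [dotProduct, Fin.sum_univ_three]
  nlinarith [mul_self_nonneg (x 0), mul_self_nonneg (x 1), mul_self_nonneg (x 2)]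

lemma cauchy {u x : V} (hu : u ⬝ᵥ u = 1) (hx : x ⬝ᵥ x = 1) : (u ⬝ᵥ x) ^ 2 ≤ 1 := by
  have h : (u ⬝ᵥ u) * (x ⬝ᵥ x) - (u ⬝ᵥ x) ^ 2 = (u 0 * x 1 - u 1 * x 0) ^ 2 +
      (u 0 * x 2 - u 2 * x 0) ^ 2 + (u 1 * x 2 - u 2 * x 1) ^ 2 := by
    simp only [dotProduct, Fin.sum_univ_three]
    ring
  rw [hu, hx] at h
  nlinarith [sq_nonneg (u 0 * x 1 - u 1 * x 0), sq_nonneg (u 0 * x 2 - u 2 * x 0),
    sq_nonneg (u 1 * x 2 - u 2 * x 1)]

lemma trans_aux {u v : V} (hu : u ⬝ᵥ u = 1) (hv : v ⬝ᵥ v = 1) (huv : u + v ≠ 0) :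
    ∃ g : SO3, act g u = v := by
  have hs : (u + v) ⬝ᵥ (u + v) = 2 * ((u + v) ⬝ᵥ u) := by
    simp only [add_dotProduct, dotProduct_add, hu, hv, dotProduct_comm v u]; ring
  have hs0 : 0 < (u + v) ⬝ᵥ (u + v) := by
    rcases (dot_self_nonneg (u + v)).lt_or_eq with h | h
    · exact h
    · exact absurd (dot_self_eq_zero.1 h.symm) huv
  set s := (u + v) ⬝ᵥ (u + v) with hsdef
  have hsq : Real.sqrt s ^ 2 = s := Real.sq_sqrt hs0.le
  have hsq0 : 0 < Real.sqrt s := Real.sqrt_pos.2 hs0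
  obtain ⟨g, hg⟩ := exists_halfTurn ((Real.sqrt s)⁻¹ • (u + v)) (by
    rw [smul_dotProduct, dotProduct_smul, ← hsdef, smul_eq_mul, smul_eq_mul]
    field_simp
    exact hsq.symm)
  refine ⟨g, ?_⟩
  rw [hg, smul_dotProduct, smul_smul, smul_eq_mul]
  have h1 : 2 * ((Real.sqrt s)⁻¹ * ((u + v) ⬝ᵥ u)) * (Real.sqrt s)⁻¹ = 1 := by
    field_simp
    rw [hsq, hs]
  rw [h1, one_smul, add_sub_cancel_left]

/-- `SO(3)` is transitive on the unit sphere -/
lemma trans {u v : V} (hu : u ⬝ᵥ u = 1) (hv : v ⬝ᵥ v = 1) : ∃ g : SO3, act g u = v := by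
  by_cases huv : u + v = 0
  · have hvu : v = -u := by rw [eq_neg_iff_add_eq_zero, add_comm]; exact huv
    -- a unit vector different from `u` and `-u`
    obtain ⟨w, hw, h1, h2⟩ : ∃ w : V, w ⬝ᵥ w = 1 ∧ u + w ≠ 0 ∧ w + v ≠ 0 := by
      by_cases h0 : u 1 = 0 ∧ u 2 = 0
      · refine ⟨![0, 1, 0], by simp [dotProduct, Fin.sum_univ_three], ?_, ?_⟩
        · intro h
          have := congrFun h 1
          simp [h0.1] at this
        · intro h
          have := congrFun h 1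
          rw [hvu] at this
          simp [h0.1] at this
      · refine ⟨![1, 0, 0], by simp [dotProduct, Fin.sum_univ_three], ?_, ?_⟩
        · intro h
          apply h0
          have e1 := congrFun h 1
          have e2 := congrFun h 2
          simp at e1 e2
          exact ⟨e1, e2⟩
        · intro h
          apply h0
          have e1 := congrFun h 1
          have e2 := congrFun h 2
          rw [hvu] at e1 e2
          simp at e1 e2
          exact ⟨e1, e2⟩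
    obtain ⟨g, hg⟩ := trans_aux hu hw h1
    obtain ⟨h, hh⟩ := trans_aux hw hv h2
    exact ⟨h * g, by rw [act_mul, hg, hh]⟩
  · exact trans_aux hu hv huv

/-- the Gram determinant of three vectors is a square -/
lemma gram (u x y : V) : (u ⬝ᵥ u) * (x ⬝ᵥ x) * (y ⬝ᵥ y) + 2 * (u ⬝ᵥ x) * (x ⬝ᵥ y) * (u ⬝ᵥ y) -
    (u ⬝ᵥ x) ^ 2 * (y ⬝ᵥ y) - (x ⬝ᵥ y) ^ 2 * (u ⬝ᵥ u) - (u ⬝ᵥ y) ^ 2 * (x ⬝ᵥ x) ≥ 0 := by
  have : (u ⬝ᵥ u) * (x ⬝ᵥ x) * (y ⬝ᵥ y) + 2 * (u ⬝ᵥ x) * (x ⬝ᵥ y) * (u ⬝ᵥ y) -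
    (u ⬝ᵥ x) ^ 2 * (y ⬝ᵥ y) - (x ⬝ᵥ y) ^ 2 * (u ⬝ᵥ u) - (u ⬝ᵥ y) ^ 2 * (x ⬝ᵥ x) =
    (u 0 * (x 1 * y 2 - x 2 * y 1) - u 1 * (x 0 * y 2 - x 2 * y 0) +
      u 2 * (x 0 * y 1 - x 1 * y 0)) ^ 2 := by
    simp only [dotProduct, Fin.sum_univ_three]
    ring
  rw [this]
  positivity

/-- the triangle inequality on the sphere, for the doubled angle -/
lemma triangle {u x y : V} (hu : u ⬝ᵥ u = 1) (hx : x ⬝ᵥ x = 1) (hy : y ⬝ᵥ y = 1) {k : ℝ}
    (hk : 0 ≤ k) (h1 : k < u ⬝ᵥ x) (h2 : k < x ⬝ᵥ y) : 2 * k ^ 2 - 1 < u ⬝ᵥ y := by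
  have hg := gram u x y
  rw [hu, hx, hy] at hg
  set a := u ⬝ᵥ x
  set b := x ⬝ᵥ y
  set c := u ⬝ᵥ y
  by_contra hcon
  push Not at hcon
  -- `(ab - c)^2 ≤ (1 - a^2)(1 - b^2) ≤ (1 - k^2)^2`
  have e1 : (a * b - c) ^ 2 ≤ (1 - a ^ 2) * (1 - b ^ 2) := by nlinarith
  have hab : k ^ 2 < a * b := by nlinarith
  have ha1 : a ^ 2 ≤ 1 := cauchy hu hx
  have hb1 : b ^ 2 ≤ 1 := cauchy hx hy
  have ha2 : k ^ 2 < a ^ 2 := by nlinarith
  have hb2 : k ^ 2 < b ^ 2 := by nlinarith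
  have e2 : (1 - a ^ 2) * (1 - b ^ 2) ≤ (1 - k ^ 2) ^ 2 := by nlinarith
  have e3 : 1 - k ^ 2 < a * b - c := by nlinarith
  have e4 : 0 ≤ 1 - k ^ 2 := by nlinarith
  nlinarith

/-- the set of rotations moving `u` close to `v`: `⟨v, g u⟩ > c` -/
def cap (v u : V) (c : ℝ) : Set SO3 := {g | c < v ⬝ᵥ act g u}

/-- the square of a flipped cap -/
lemma cap_mul_cap {u : V} (hu : u ⬝ᵥ u = 1) {k : ℝ} (hk : 0 ≤ k) :
    cap (-u) u k * cap (-u) u k = cap u u (2 * k ^ 2 - 1) := by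
  ext g
  constructor
  · rintro ⟨a, ha, b, hb, rfl⟩
    have ha' : k < (-u) ⬝ᵥ act a u := ha
    have hb' : k < (-u) ⬝ᵥ act b u := hb
    show 2 * k ^ 2 - 1 < u ⬝ᵥ act (a * b) u
    rw [act_mul]
    refine triangle (x := act a (-u)) hu ?_ ?_ hk ?_ ?_
    · rw [dot_act, neg_dotProduct_neg, hu]
    · rw [dot_act, dot_act, hu]
    · rw [act_neg, dotProduct_neg, ← neg_dotProduct]; exact ha'
    · rw [dot_act]; exact hb'
  · intro hg
    have hg' : 2 * k ^ 2 - 1 < u ⬝ᵥ act g u := hg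
    set w := act g u with hw
    have hww : w ⬝ᵥ w = 1 := by rw [hw, dot_act, hu]
    have hs : (u + w) ⬝ᵥ (u + w) = 2 * (1 + u ⬝ᵥ w) := by
      simp only [add_dotProduct, dotProduct_add, hu, hww, dotProduct_comm w u]; ring
    have hpos : 0 < 1 + u ⬝ᵥ w := by nlinarith
    set s := (u + w) ⬝ᵥ (u + w) with hsdef
    have hs0 : 0 < s := by rw [hs]; linarith
    have hsq : Real.sqrt s ^ 2 = s := Real.sq_sqrt hs0.le
    have hsq0 : 0 < Real.sqrt s := Real.sqrt_pos.2 hs0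
    set m : V := (Real.sqrt s)⁻¹ • (u + w) with hm
    have hmm : m ⬝ᵥ m = 1 := by
      rw [hm, smul_dotProduct, dotProduct_smul, ← hsdef, smul_eq_mul, smul_eq_mul]
      field_simp
      exact hsq.symm
    -- `⟨u, m⟩ = √s / 2 > k`
    have hk2 : 2 * k < Real.sqrt s := by
      apply Real.lt_sqrt_of_sq_lt
      rw [hs]; nlinarith
    have hum : u ⬝ᵥ m = Real.sqrt s / 2 := by
      rw [hm, dotProduct_smul, dotProduct_add, hu, smul_eq_mul]
      have : 1 + u ⬝ᵥ w = Real.sqrt s ^ 2 / 2 := by rw [hsq, hs]; ring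
      rw [this]; field_simp
    have hmw : m ⬝ᵥ w = Real.sqrt s / 2 := by
      rw [hm, smul_dotProduct, add_dotProduct, hww, smul_eq_mul]
      have : u ⬝ᵥ w + 1 = Real.sqrt s ^ 2 / 2 := by rw [hsq, hs]; ring
      rw [this]; field_simp
    obtain ⟨a, ha⟩ := trans (u := u) (v := -m) hu (by rw [neg_dotProduct_neg, hmm])
    refine ⟨a, ?_, a⁻¹ * g, ?_, by simp⟩
    · show k < (-u) ⬝ᵥ act a u
      rw [ha, neg_dotProduct_neg, hum]; linarith
    · show k < (-u) ⬝ᵥ act (a⁻¹ * g) u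
      rw [act_mul, ← dot_act_left, act_neg, ha, neg_neg, ← hw, hmw]; linarith

end Pool.Agent.H389R3.SO
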