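import Mathlib

/-!
# The volume of a spherical sector
-/

set_option autoImplicit false

open Matrix MeasureTheory Set

namespace Pool.Agent.H389R3.SO

lemma dot2_nonneg (y : Fin 2 → ℝ) : 0 ≤ y ⬝ᵥ y := by
  simp only [dotProduct, Fin.sum_univ_two]
  nlinarith [mul_self_nonneg (y 0), mul_self_nonneg (y 1)]

lemma area (r : ℝ) : volume {y : Fin 2 → ℝ | y ⬝ᵥ y < r} = ENNReal.ofReal (Real.pi * r) := by
  rcases lt_or_ge r 0 with hr | hr
  · have h1 : {y : Fin 2 → ℝ | y ⬝ᵥ y < r} = ∅ := by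
      ext y
      simp only [mem_ofPred_eq, mem_empty_iff_false, iff_false, not_lt]
      exact hr.le.trans (dot2_nonneg y)
    rw [h1, measure_empty, ENNReal.ofReal_of_nonpos]
    exact mul_nonpos_of_nonneg_of_nonpos Real.pi_pos.le hr.le
  · have h1 : {y : Fin 2 → ℝ | y ⬝ᵥ y < r} =
        (WithLp.toLp 2) ⁻¹' (Metric.ball (0 : EuclideanSpace ℝ (Fin 2)) (Real.sqrt r)) := by
      ext y
      simp only [mem_ofPred_eq, mem_preimage, Metric.mem_ball, dist_zero_right]
      rw [EuclideanSpace.norm_eq, Real.sqrt_lt_sqrt_iff (by positivity)]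
      simp [dotProduct, Fin.sum_univ_two, sq]
    rw [h1, (PiLp.volume_preserving_toLp (Fin 2)).measure_preimage
      (measurableSet_ball.nullMeasurableSet), EuclideanSpace.volume_ball_fin_two]
    rw [← ENNReal.ofReal_pow (Real.sqrt_nonneg _), Real.sq_sqrt hr, ← ENNReal.ofReal_mul hr,
      mul_comm]

lemma ball_vol : volume {x : Fin 3 → ℝ | x ⬝ᵥ x < 1} = ENNReal.ofReal (Real.pi * 4 / 3) := by
  have h1 : {x : Fin 3 → ℝ | x ⬝ᵥ x < 1} =
      (WithLp.toLp 2) ⁻¹' (Metric.ball (0 : EuclideanSpace ℝ (Fin 3)) 1) := by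
    ext y
    simp only [mem_ofPred_eq, mem_preimage, Metric.mem_ball, dist_zero_right]
    rw [EuclideanSpace.norm_eq, Real.sqrt_lt' one_pos]
    simp [dotProduct, Fin.sum_univ_three, sq]
  rw [h1, (PiLp.volume_preserving_toLp (Fin 3)).measure_preimage
    (measurableSet_ball.nullMeasurableSet), EuclideanSpace.volume_ball_fin_three]
  simp

lemma lint {a b : ℝ} (hab : a ≤ b) {f : ℝ → ℝ} (hf : Continuous f)
    (hf0 : ∀ t ∈ Ioc a b, 0 ≤ f t) :
    ∫⁻ t in Ioc a b, ENNReal.ofReal (f t) = ENNReal.ofReal (∫ t in a..b, f t) := by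
  rw [intervalIntegral.integral_of_le hab, ofReal_integral_eq_lintegral_ofReal]
  · exact (hf.integrableOn_Icc (a := a) (b := b)).mono_set Ioc_subset_Icc_self
  · exact (ae_restrict_iff' measurableSet_Ioc).2 (Filter.Eventually.of_forall hf0)

/-- the sector in product coordinates -/
def T (c : ℝ) : Set (ℝ × (Fin 2 → ℝ)) :=
  {p | p.1 ^ 2 + p.2 ⬝ᵥ p.2 < 1 ∧ c * Real.sqrt (p.1 ^ 2 + p.2 ⬝ᵥ p.2) < p.1}

lemma continuous_dot2 : Continuous fun p : ℝ × (Fin 2 → ℝ) => p.1 ^ 2 + p.2 ⬝ᵥ p.2 := by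
  have h : (fun p : ℝ × (Fin 2 → ℝ) => p.1 ^ 2 + p.2 ⬝ᵥ p.2) =
      fun p => p.1 ^ 2 + (p.2 0 * p.2 0 + p.2 1 * p.2 1) := by
    funext p
    simp [dotProduct, Fin.sum_univ_two]
  rw [h]
  fun_prop

lemma isOpen_T (c : ℝ) : IsOpen (T c) := by
  have h1 : IsOpen {p : ℝ × (Fin 2 → ℝ) | p.1 ^ 2 + p.2 ⬝ᵥ p.2 < 1} :=
    isOpen_lt continuous_dot2 continuous_const
  have h2 : IsOpen {p : ℝ × (Fin 2 → ℝ) | c * Real.sqrt (p.1 ^ 2 + p.2 ⬝ᵥ p.2) < p.1} :=
    isOpen_lt (continuous_const.mul (Real.continuous_sqrt.comp continuous_dot2)) continuous_fst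
  exact h1.inter h2

lemma slice {c : ℝ} (hc0 : 0 < c) (hc1 : c ≤ 1) (t : ℝ) :
    volume (Prod.mk t ⁻¹' T c) =
      (Ioc 0 c).indicator (fun t => ENNReal.ofReal (Real.pi * ((1 / c ^ 2 - 1) * t ^ 2))) t +
      (Ioc c 1).indicator (fun t => ENNReal.ofReal (Real.pi * (1 - t ^ 2))) t := by
  rcases le_or_gt t 0 with h0 | h0
  · have h1 : Prod.mk t ⁻¹' T c = ∅ := by
      ext y
      simp only [mem_preimage, mem_empty_iff_false, iff_false]
      rintro ⟨_, h2⟩
      have : 0 ≤ c * Real.sqrt (t ^ 2 + y ⬝ᵥ y) := by positivity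
      simp only at h2
      linarith
    rw [h1, measure_empty, indicator_of_notMem (by simp [h0]), indicator_of_notMem (by
      intro h; exact absurd h.1 (by linarith)), add_zero]
  rcases le_or_gt t c with h1 | h1
  · rw [indicator_of_mem (show t ∈ Ioc 0 c from ⟨h0, h1⟩), indicator_of_notMem (by
      intro h; exact absurd h.1 (by linarith)), add_zero, ← area]
    congr 1
    ext y
    simp only [mem_preimage, mem_ofPred_eq, T]
    have hy := dot2_nonneg y
    have hc2 : 0 < c ^ 2 := by positivity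
    have hs : Real.sqrt (t ^ 2 + y ⬝ᵥ y) ^ 2 = t ^ 2 + y ⬝ᵥ y := Real.sq_sqrt (by positivity)
    have hs0 := Real.sqrt_nonneg (t ^ 2 + y ⬝ᵥ y)
    have key : (y ⬝ᵥ y < (1 / c ^ 2 - 1) * t ^ 2) ↔ c ^ 2 * (t ^ 2 + y ⬝ᵥ y) < t ^ 2 := by
      have e : (1 / c ^ 2 - 1) * t ^ 2 = t ^ 2 / c ^ 2 - t ^ 2 := by ring
      rw [e, lt_sub_iff_add_lt, lt_div_iff₀ hc2]
      constructor <;> intro h <;> nlinarith
    rw [key]
    constructor
    · rintro ⟨_, h3⟩
      have h4 : (c * Real.sqrt (t ^ 2 + y ⬝ᵥ y)) ^ 2 < t ^ 2 :=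
        pow_lt_pow_left₀ h3 (by positivity) two_ne_zero
      rw [mul_pow, hs] at h4
      exact h4
    · intro h3
      have h4 : (c * Real.sqrt (t ^ 2 + y ⬝ᵥ y)) ^ 2 < t ^ 2 := by rw [mul_pow, hs]; exact h3
      refine ⟨?_, lt_of_pow_lt_pow_left₀ 2 h0.le h4⟩
      have h5 : t ^ 2 ≤ c ^ 2 := pow_le_pow_left₀ h0.le h1 2
      nlinarith
  rcases le_or_gt t 1 with h2 | h2
  · rw [indicator_of_notMem (show t ∉ Ioc 0 c from fun h => absurd h.2 (by linarith)),
      indicator_of_mem (show t ∈ Ioc c 1 from ⟨h1, h2⟩), zero_add, ← area]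
    congr 1
    ext y
    simp only [mem_preimage, mem_ofPred_eq, T]
    constructor
    · rintro ⟨h3, _⟩
      linarith
    · intro h3
      refine ⟨by linarith, ?_⟩
      have h4 : Real.sqrt (t ^ 2 + y ⬝ᵥ y) ≤ 1 := by
        have h5 : t ^ 2 + y ⬝ᵥ y ≤ 1 := by linarith
        exact (Real.sqrt_le_sqrt h5).trans_eq Real.sqrt_one
      nlinarith
  · have h3 : Prod.mk t ⁻¹' T c = ∅ := by
      ext y
      simp only [mem_preimage, mem_empty_iff_false, iff_false]
      rintro ⟨h4, _⟩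
      have := dot2_nonneg y
      simp only at h4
      nlinarith
    rw [h3, measure_empty, indicator_of_notMem (fun h => absurd h.2 (by linarith)),
      indicator_of_notMem (fun h => absurd h.2 (by linarith)), add_zero]

lemma T_vol {c : ℝ} (hc0 : 0 < c) (hc1 : c ≤ 1) :
    volume (T c) = ENNReal.ofReal (Real.pi * (2 / 3) * (1 - c)) := by
  rw [Measure.volume_eq_prod, Measure.prod_apply (isOpen_T c).measurableSet]
  simp_rw [slice hc0 hc1]
  rw [lintegral_add_left (by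
    exact Measurable.indicator (by fun_prop) measurableSet_Ioc),
    lintegral_indicator measurableSet_Ioc, lintegral_indicator measurableSet_Ioc]
  have hc2 : 0 < c ^ 2 := by positivity
  have hc3 : 0 ≤ 1 / c ^ 2 - 1 := by
    rw [sub_nonneg, le_div_iff₀ hc2]
    nlinarith
  rw [lint hc0.le (by fun_prop) (fun t _ => by positivity),
    lint hc1 (by fun_prop) (fun t ht => by
      have : t ^ 2 ≤ 1 := by
        have := ht.1; have := ht.2
        nlinarith
      have : 0 ≤ 1 - t ^ 2 := by linarith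
      positivity)]
  rw [← ENNReal.ofReal_add]
  · congr 1
    rw [intervalIntegral.integral_const_mul, intervalIntegral.integral_const_mul,
      intervalIntegral.integral_const_mul, integral_pow, intervalIntegral.integral_sub,
      integral_pow, intervalIntegral.integral_const]
    · simp only [smul_eq_mul]
      field_simp
      ring
    · exact intervalIntegrable_const
    · exact (continuous_pow 2).intervalIntegrable _ _
  · refine intervalIntegral.integral_nonneg hc0.le fun t _ => by positivity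
  · refine intervalIntegral.integral_nonneg hc1 fun t ht => ?_
    have : t ^ 2 ≤ 1 := by
      have := ht.1; have := ht.2
      nlinarith
    have : 0 ≤ 1 - t ^ 2 := by linarith
    positivity

/-- the sector around the first coordinate axis -/
lemma sector_vol {c : ℝ} (hc0 : 0 < c) (hc1 : c ≤ 1) :
    volume {x : Fin 3 → ℝ | x ⬝ᵥ x < 1 ∧ c * Real.sqrt (x ⬝ᵥ x) < x 0} =
      ENNReal.ofReal (Real.pi * (2 / 3) * (1 - c)) := by
  have h1 : {x : Fin 3 → ℝ | x ⬝ᵥ x < 1 ∧ c * Real.sqrt (x ⬝ᵥ x) < x 0} =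
      (MeasurableEquiv.piFinSuccAbove (fun _ : Fin 3 => ℝ) 0) ⁻¹' T c := by
    ext x
    have e : x ⬝ᵥ x = (x 0) ^ 2 + (fun j : Fin 2 => x (Fin.succAbove 0 j)) ⬝ᵥ
        (fun j : Fin 2 => x (Fin.succAbove 0 j)) := by
      simp [dotProduct, Fin.sum_univ_three, Fin.sum_univ_two]
      ring
    rw [mem_preimage]
    show (x ⬝ᵥ x < 1 ∧ c * Real.sqrt (x ⬝ᵥ x) < x 0) ↔
      (x 0) ^ 2 + (fun j : Fin 2 => x (Fin.succAbove 0 j)) ⬝ᵥ
        (fun j : Fin 2 => x (Fin.succAbove 0 j)) < 1 ∧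
      c * Real.sqrt ((x 0) ^ 2 + (fun j : Fin 2 => x (Fin.succAbove 0 j)) ⬝ᵥ
        (fun j : Fin 2 => x (Fin.succAbove 0 j))) < x 0
    rw [← e]
  rw [h1, (volume_preserving_piFinSuccAbove (fun _ : Fin 3 => ℝ) 0).measure_preimage
    (isOpen_T c).measurableSet.nullMeasurableSet, T_vol hc0 hc1]

end Pool.Agent.H389R3.SO
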