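import Mathlib
import Pool.Agent.H389R3.SO1
import Pool.Agent.H389R3.SO2
import Pool.Agent.H762R3.Rot

/-!
# The Haar measure of the caps in `SO(3)`
-/

set_option autoImplicit false

open Matrix MeasureTheory Set
open scoped Pointwise

namespace Pool.Agent.H389R3.SO

instance : IsTopologicalGroup SO3 := inferInstanceAs (IsTopologicalGroup Pool.Agent.H762R3.Rot.SO3)

instance : CompactSpace SO3 := inferInstanceAs (CompactSpace Pool.Agent.H762R3.Rot.SO3)

instance : SecondCountableTopology SO3 := by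
  have : SecondCountableTopology (Matrix (Fin 3) (Fin 3) ℝ) :=
    inferInstanceAs (SecondCountableTopology (Fin 3 → Fin 3 → ℝ))
  exact TopologicalSpace.Subtype.secondCountableTopology _

lemma continuous_act (u : V) : Continuous fun g : SO3 => act g u := by
  unfold act
  exact Continuous.matrix_mulVec continuous_subtype_val continuous_const

lemma continuous_dot {X : Type*} [TopologicalSpace X] {f g : X → V} (hf : Continuous f)
    (hg : Continuous g) : Continuous fun x => f x ⬝ᵥ g x := by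
  exact Continuous.dotProduct hf hg

lemma isOpen_cap (v u : V) (c : ℝ) : IsOpen (cap v u c) :=
  isOpen_lt continuous_const (continuous_dot continuous_const (continuous_act u))

section haar

variable [MeasurableSpace SO3] [BorelSpace SO3] (μ : Measure SO3)

lemma haar_cap_eq [μ.IsMulLeftInvariant] {v v' : V} (hv : v ⬝ᵥ v = 1) (hv' : v' ⬝ᵥ v' = 1)
    (u : V) (c : ℝ) : μ (cap v' u c) = μ (cap v u c) := by
  obtain ⟨h, hh⟩ := trans hv hv'
  have e : cap v' u c = (fun g => h⁻¹ * g) ⁻¹' cap v u c := by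
    ext g
    show c < v' ⬝ᵥ act g u ↔ c < v ⬝ᵥ act (h⁻¹ * g) u
    rw [act_mul, ← dot_act_left, hh]
  rw [e, measure_preimage_mul]

lemma vol_act (h : SO3) {S : Set V} (hS : MeasurableSet S) : volume (act h ⁻¹' S) = volume S := by
  have hdet : (h.1).det = 1 := ((mem_iff h.1).1 h.2).2
  have h1 := Real.map_matrix_volume_pi_eq_smul_volume_pi (M := h.1) (by rw [hdet]; norm_num)
  rw [hdet] at h1
  simp only [inv_one, abs_one, ENNReal.ofReal_one, one_smul] at h1
  have h2 : (act h : V → V) = Matrix.toLin' h.1 := by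
    funext x
    simp [act, Matrix.toLin'_apply]
  have hm : Measurable (Matrix.toLin' h.1 : V → V) :=
    (LinearMap.continuous_of_finiteDimensional _).measurable
  rw [h2, ← Measure.map_apply hm hS, h1]

lemma sector_vol' {c : ℝ} (hc0 : 0 < c) (hc1 : c ≤ 1) {w : V} (hw : w ⬝ᵥ w = 1) :
    volume {x : V | x ⬝ᵥ x < 1 ∧ c * Real.sqrt (x ⬝ᵥ x) < x ⬝ᵥ w} =
      ENNReal.ofReal (Real.pi * (2 / 3) * (1 - c)) := by
  obtain ⟨h, hh⟩ := trans (u := ![1, 0, 0]) (v := w) (by simp [dotProduct, Fin.sum_univ_three]) hw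
  have e : {x : V | x ⬝ᵥ x < 1 ∧ c * Real.sqrt (x ⬝ᵥ x) < x ⬝ᵥ w} =
      act h⁻¹ ⁻¹' {x : V | x ⬝ᵥ x < 1 ∧ c * Real.sqrt (x ⬝ᵥ x) < x 0} := by
    ext x
    have e1 : x ⬝ᵥ w = act h⁻¹ x 0 := by
      rw [← hh, dotProduct_comm, dot_act_left]
      simp [dotProduct, Fin.sum_univ_three]
    have e2 : x ⬝ᵥ x = act h⁻¹ x ⬝ᵥ act h⁻¹ x := (dot_act _ _ _).symm
    show (x ⬝ᵥ x < 1 ∧ c * Real.sqrt (x ⬝ᵥ x) < x ⬝ᵥ w) ↔
      (act h⁻¹ x ⬝ᵥ act h⁻¹ x < 1 ∧ c * Real.sqrt (act h⁻¹ x ⬝ᵥ act h⁻¹ x) < act h⁻¹ x 0)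
    rw [← e1, ← e2]
  have hS : IsOpen {x : V | x ⬝ᵥ x < 1 ∧ c * Real.sqrt (x ⬝ᵥ x) < x 0} := by
    have h1 : IsOpen {x : V | x ⬝ᵥ x < 1} :=
      isOpen_lt (continuous_dot continuous_id continuous_id) continuous_const
    have h2 : IsOpen {x : V | c * Real.sqrt (x ⬝ᵥ x) < x 0} :=
      isOpen_lt (continuous_const.mul (Real.continuous_sqrt.comp
        (continuous_dot continuous_id continuous_id))) (continuous_apply 0)
    exact h1.inter h2
  rw [e, vol_act _ hS.measurableSet, sector_vol hc0 hc1]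

lemma haar_cap_pos [μ.IsMulLeftInvariant] [IsProbabilityMeasure μ] {c : ℝ} (hc0 : 0 < c)
    (hc1 : c ≤ 1) {u v : V} (hu : u ⬝ᵥ u = 1) (hv : v ⬝ᵥ v = 1) :
    μ.real (cap v u c) = (1 - c) / 2 := by
  set S : Set (V × SO3) := {p | p.1 ⬝ᵥ p.1 < 1 ∧ c * Real.sqrt (p.1 ⬝ᵥ p.1) < p.1 ⬝ᵥ act p.2 u}
    with hSdef
  have hS : IsOpen S := by
    have h1 : IsOpen {p : V × SO3 | p.1 ⬝ᵥ p.1 < 1} :=
      isOpen_lt (continuous_dot continuous_fst continuous_fst) continuous_const
    have h2 : IsOpen {p : V × SO3 | c * Real.sqrt (p.1 ⬝ᵥ p.1) < p.1 ⬝ᵥ act p.2 u} :=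
      isOpen_lt (continuous_const.mul (Real.continuous_sqrt.comp
        (continuous_dot continuous_fst continuous_fst)))
        (continuous_dot continuous_fst ((continuous_act u).comp continuous_snd))
    exact h1.inter h2
  have e1 : (volume.prod μ) S = ∫⁻ x, μ (Prod.mk x ⁻¹' S) ∂volume :=
    Measure.prod_apply hS.measurableSet
  have e2 : (volume.prod μ) S = ∫⁻ g, volume ((fun x => (x, g)) ⁻¹' S) ∂μ :=
    Measure.prod_apply_symm hS.measurableSet
  have e3 : ∀ g : SO3, volume ((fun x => (x, g)) ⁻¹' S) =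
      ENNReal.ofReal (Real.pi * (2 / 3) * (1 - c)) := by
    intro g
    exact sector_vol' hc0 hc1 (w := act g u) (by rw [dot_act, hu])
  simp_rw [e3] at e2
  rw [lintegral_const, measure_univ, mul_one] at e2
  have e4 : ∫⁻ x, μ (Prod.mk x ⁻¹' S) ∂volume =
      ∫⁻ x, {x : V | x ⬝ᵥ x < 1}.indicator (fun _ => μ (cap v u c)) x ∂volume := by
    apply lintegral_congr_ae
    have h0 : ∀ᵐ x : V ∂volume, x ≠ 0 := by
      rw [ae_iff]
      simp
    filter_upwards [h0] with x hx
    by_cases hx1 : x ⬝ᵥ x < 1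
    · rw [indicator_of_mem (show x ∈ {x : V | x ⬝ᵥ x < 1} from hx1)]
      have hs0 : 0 < x ⬝ᵥ x := by
        rcases (dot_self_nonneg x).lt_or_eq with h | h
        · exact h
        · exact absurd (dot_self_eq_zero.1 h.symm) hx
      have hsq : Real.sqrt (x ⬝ᵥ x) ^ 2 = x ⬝ᵥ x := Real.sq_sqrt hs0.le
      have hsq0 : 0 < Real.sqrt (x ⬝ᵥ x) := Real.sqrt_pos.2 hs0
      have h1 : ((Real.sqrt (x ⬝ᵥ x))⁻¹ • x) ⬝ᵥ ((Real.sqrt (x ⬝ᵥ x))⁻¹ • x) = 1 := by
        rw [smul_dotProduct, dotProduct_smul, smul_eq_mul, smul_eq_mul]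
        field_simp
        exact hsq.symm
      rw [← haar_cap_eq μ hv h1 u c]
      congr 1
      ext g
      show (x ⬝ᵥ x < 1 ∧ c * Real.sqrt (x ⬝ᵥ x) < x ⬝ᵥ act g u) ↔
        c < ((Real.sqrt (x ⬝ᵥ x))⁻¹ • x) ⬝ᵥ act g u
      rw [smul_dotProduct, smul_eq_mul, inv_mul_eq_div, lt_div_iff₀ hsq0]
      exact ⟨fun h => h.2, fun h => ⟨hx1, h⟩⟩
    · rw [indicator_of_notMem (show x ∉ {x : V | x ⬝ᵥ x < 1} from hx1)]
      have : Prod.mk x ⁻¹' S = ∅ := by
        ext g
        simp only [mem_preimage, mem_empty_iff_false, iff_false]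
        exact fun h => hx1 h.1
      rw [this, measure_empty]
  have hB : MeasurableSet {x : V | x ⬝ᵥ x < 1} :=
    (isOpen_lt (continuous_dot continuous_id continuous_id) continuous_const).measurableSet
  rw [e4, lintegral_indicator hB, setLIntegral_const, ball_vol] at e1
  rw [e2] at e1
  have e5 := congrArg ENNReal.toReal e1
  rw [ENNReal.toReal_mul, ENNReal.toReal_ofReal (by positivity), ENNReal.toReal_ofReal (by
    have : 0 ≤ 1 - c := by linarith
    positivity)] at e5
  have hpi := Real.pi_pos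
  have e6 : μ.real (cap v u c) = (μ (cap v u c)).toReal := rfl
  rw [e6]
  have e7 : Real.pi * ((1 - c) / 2) = Real.pi * (μ (cap v u c)).toReal := by linarith
  exact (mul_left_cancel₀ hpi.ne' e7).symm

/-- the Haar measure of a cap -/
lemma haar_cap [μ.IsMulLeftInvariant] [IsProbabilityMeasure μ] {c : ℝ} (hc : -1 ≤ c)
    (hc1 : c ≤ 1) {u v : V} (hu : u ⬝ᵥ u = 1) (hv : v ⬝ᵥ v = 1) :
    μ.real (cap v u c) = (1 - c) / 2 := by
  have hv' : (-v) ⬝ᵥ (-v) = 1 := by rw [neg_dotProduct_neg, hv]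
  -- negative `c`
  have hneg : ∀ d : ℝ, 0 < d → d ≤ 1 → μ.real (cap v u (-d)) = (1 + d) / 2 := by
    intro d hd0 hd1
    have hcompl : (cap v u (-d))ᶜ = {g : SO3 | d ≤ (-v) ⬝ᵥ act g u} := by
      ext g
      show ¬ (-d < v ⬝ᵥ act g u) ↔ d ≤ (-v) ⬝ᵥ act g u
      rw [neg_dotProduct]
      constructor <;> intro h <;> linarith
    have h1 : μ.real (cap v u (-d)) = 1 - μ.real (cap v u (-d))ᶜ := by
      rw [measureReal_compl (isOpen_cap _ _ _).measurableSet, probReal_univ]
      ring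
    have hlow : (1 - d) / 2 ≤ μ.real {g : SO3 | d ≤ (-v) ⬝ᵥ act g u} := by
      rw [← haar_cap_pos μ hd0 hd1 hu hv']
      exact measureReal_mono (fun g (hg : d < (-v) ⬝ᵥ act g u) => hg.le)
    have hup : μ.real {g : SO3 | d ≤ (-v) ⬝ᵥ act g u} ≤ (1 - d) / 2 := by
      by_contra hcon
      push Not at hcon
      set m := μ.real {g : SO3 | d ≤ (-v) ⬝ᵥ act g u} with hm
      -- choose `d' < d` close to `d`
      set d' := max (d / 2) (d - (m - (1 - d) / 2)) with hd'
      have h2 : d' < d := max_lt (by linarith) (by linarith)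
      have h3 : 0 < d' := lt_of_lt_of_le (by linarith) (le_max_left _ _)
      have h4 : d - (m - (1 - d) / 2) ≤ d' := le_max_right _ _
      have h5 : m ≤ (1 - d') / 2 := by
        rw [← haar_cap_pos μ h3 (by linarith) hu hv']
        exact measureReal_mono (fun g (hg : d ≤ (-v) ⬝ᵥ act g u) => lt_of_lt_of_le h2 hg)
      linarith
    rw [h1, hcompl]
    linarith
  rcases lt_trichotomy c 0 with h | h | h
  · have := hneg (-c) (by linarith) (by linarith)
    rw [neg_neg] at this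
    rw [this]; ring
  · rw [h]
    apply le_antisymm
    · by_contra hcon
      push Not at hcon
      set m := μ.real (cap v u 0) with hm
      set d := min 1 (m - (1 - 0) / 2) with hd
      have hd0 : 0 < d := lt_min one_pos (by linarith)
      have hd1 : d ≤ 1 := min_le_left _ _
      have hd2 : d ≤ m - (1 - 0) / 2 := min_le_right _ _
      have h5 : m ≤ (1 + d) / 2 := by
        rw [← hneg d hd0 hd1]
        exact measureReal_mono (fun g (hg : 0 < v ⬝ᵥ act g u) => by
          show -d < v ⬝ᵥ act g u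
          linarith)
      linarith
    · by_contra hcon
      push Not at hcon
      set m := μ.real (cap v u 0) with hm
      set d := min 1 ((1 - 0) / 2 - m) with hd
      have hd0 : 0 < d := lt_min one_pos (by linarith)
      have hd1 : d ≤ 1 := min_le_left _ _
      have hd2 : d ≤ (1 - 0) / 2 - m := min_le_right _ _
      have h5 : (1 - d) / 2 ≤ m := by
        rw [← haar_cap_pos μ hd0 hd1 hu hv]
        exact measureReal_mono (fun g (hg : d < v ⬝ᵥ act g u) => by
          show 0 < v ⬝ᵥ act g u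
          linarith)
      linarith
  · exact haar_cap_pos μ h hc1 hu hv

end haar

end Pool.Agent.H389R3.SO
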