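import Mathlib
import Pool.Agent.H389R3.SO3

/-!
# Flipped caps attain equality in the sharp doubling inequality of `SO(3)`
-/

set_option autoImplicit false

open Matrix MeasureTheory Set
open scoped Pointwise

namespace Pool.Agent.H389R3.SO

/-- the set of rotations moving the unit vector `u` by an angle less than `θ` -/
def C (u : Fin 3 → ℝ) (θ : ℝ) : Set SO3 := {g | Real.arccos (u ⬝ᵥ (g.1 *ᵥ u)) < θ}

/-- the set of rotations moving the unit vector `u` to a vector at an angle less than `θ`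
from `-u` -/
def flip (u : Fin 3 → ℝ) (θ : ℝ) : Set SO3 := {g | Real.arccos ((-u) ⬝ᵥ (g.1 *ᵥ u)) < θ}

lemma arccos_lt {x θ : ℝ} (hx : x ^ 2 ≤ 1) (h0 : 0 ≤ θ) (h1 : θ ≤ Real.pi) :
    Real.arccos x < θ ↔ Real.cos θ < x := by
  have hx1 : -1 ≤ x := by nlinarith
  have hx2 : x ≤ 1 := by nlinarith
  have hc := Real.cos_arccos hx1 hx2
  constructor
  · intro h
    rw [← hc]
    exact Real.cos_lt_cos_of_nonneg_of_le_pi (Real.arccos_nonneg x) h1 h
  · intro h
    by_contra hcon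
    push Not at hcon
    have := Real.cos_le_cos_of_nonneg_of_le_pi h0 (Real.arccos_le_pi x) hcon
    rw [hc] at this
    linarith

lemma flip_eq {u : Fin 3 → ℝ} (hu : u ⬝ᵥ u = 1) {θ : ℝ} (h0 : 0 ≤ θ) (h1 : θ ≤ Real.pi) :
    flip u θ = cap (-u) u (Real.cos θ) := by
  ext g
  show Real.arccos ((-u) ⬝ᵥ act g u) < θ ↔ Real.cos θ < (-u) ⬝ᵥ act g u
  exact arccos_lt (cauchy (by rw [neg_dotProduct_neg, hu]) (by rw [dot_act, hu])) h0 h1

lemma C_eq {u : Fin 3 → ℝ} (hu : u ⬝ᵥ u = 1) {θ : ℝ} (h0 : 0 ≤ θ) (h1 : θ ≤ Real.pi) :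
    C u θ = cap u u (Real.cos θ) := by
  ext g
  show Real.arccos (u ⬝ᵥ act g u) < θ ↔ Real.cos θ < u ⬝ᵥ act g u
  exact arccos_lt (cauchy hu (by rw [dot_act, hu])) h0 h1

lemma isOpen_C (u : Fin 3 → ℝ) (θ : ℝ) : IsOpen (C u θ) :=
  isOpen_lt (Real.continuous_arccos.comp (continuous_dot continuous_const (continuous_act u)))
    continuous_const

lemma one_mem_C {u : Fin 3 → ℝ} (hu : u ⬝ᵥ u = 1) {θ : ℝ} (h0 : 0 < θ) : (1 : SO3) ∈ C u θ := by
  show Real.arccos (u ⬝ᵥ act 1 u) < θ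
  rw [act_one, hu, Real.arccos_one]
  exact h0

lemma exists_haar [MeasurableSpace SO3] [BorelSpace SO3] :
    ∃ μ : Measure SO3, μ.IsHaarMeasure ∧ IsProbabilityMeasure μ := by
  refine ⟨Measure.haarMeasure ⊤, inferInstance, ⟨?_⟩⟩
  have := Measure.haarMeasure_self (K₀ := (⊤ : TopologicalSpace.PositiveCompacts SO3))
  simpa using this

theorem flip_main [MeasurableSpace SO3] [BorelSpace SO3] (μ : Measure SO3)
    (hμ : μ.IsHaarMeasure) (hμ1 : IsProbabilityMeasure μ) {u : Fin 3 → ℝ} (hu : u ⬝ᵥ u = 1)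
    {θ : ℝ} (h0 : 0 < θ) (h1 : θ < Real.pi / 2) :
    IsOpen (flip u θ) ∧ (flip u θ).Nonempty ∧ μ.real (flip u θ) = (1 - Real.cos θ) / 2 ∧
      μ.real (flip u θ) < 1 / 2 ∧
      μ.real (flip u θ * flip u θ) = 4 * μ.real (flip u θ) * (1 - μ.real (flip u θ)) ∧
      ∀ (v : Fin 3 → ℝ) (φ : ℝ), v ⬝ᵥ v = 1 → μ (symmDiff (flip u θ) (C v φ)) ≠ 0 := by
  have hpi := Real.pi_pos
  have hu' : (-u) ⬝ᵥ (-u) = 1 := by rw [neg_dotProduct_neg, hu]
  have hk0 : 0 < Real.cos θ := Real.cos_pos_of_mem_Ioo ⟨by linarith, h1⟩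
  have hk1 : Real.cos θ < 1 := by
    have := Real.cos_lt_cos_of_nonneg_of_le_pi (le_refl 0) (by linarith : θ ≤ Real.pi) h0
    rwa [Real.cos_zero] at this
  have hfl : flip u θ = cap (-u) u (Real.cos θ) := flip_eq hu h0.le (by linarith)
  set k := Real.cos θ with hk
  have hm : μ.real (cap (-u) u k) = (1 - k) / 2 := haar_cap μ (by linarith) hk1.le hu hu'
  have hm2 : μ.real (cap (-u) u k * cap (-u) u k) = 1 - k ^ 2 := by
    rw [cap_mul_cap hu hk0.le, haar_cap μ (by nlinarith) (by nlinarith) hu hu]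
    ring
  rw [hfl, hm, hm2]
  refine ⟨isOpen_cap _ _ _, ?_, rfl, by linarith, by ring, ?_⟩
  · obtain ⟨g, hg⟩ := trans hu hu'
    refine ⟨g, ?_⟩
    show k < (-u) ⬝ᵥ act g u
    rw [hg, hu']
    exact hk1
  · intro v φ hv hzero
    rcases le_or_gt φ 0 with hφ | hφ
    · have hC : C v φ = ∅ := by
        ext g
        simp only [mem_empty_iff_false, iff_false]
        intro h
        have h2 : Real.arccos (v ⬝ᵥ (g.1 *ᵥ v)) < φ := h
        have := Real.arccos_nonneg (v ⬝ᵥ (g.1 *ᵥ v))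
        linarith
      rw [hC] at hzero
      have h3 : symmDiff (cap (-u) u k) (∅ : Set SO3) = cap (-u) u k := by
        simp [symmDiff_def]
      rw [h3] at hzero
      have h4 : μ.real (cap (-u) u k) = 0 := by rw [measureReal_def, hzero]; rfl
      rw [hm] at h4
      linarith
    · -- an open neighbourhood of `1` inside `C v φ \ flip u θ`
      have hO : IsOpen (C v φ ∩ {g : SO3 | (-u) ⬝ᵥ act g u < k}) :=
        (isOpen_C v φ).inter
          (isOpen_lt (continuous_dot continuous_const (continuous_act u)) continuous_const)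
      have hne : (C v φ ∩ {g : SO3 | (-u) ⬝ᵥ act g u < k}).Nonempty := by
        refine ⟨1, one_mem_C hv hφ, ?_⟩
        show (-u) ⬝ᵥ act 1 u < k
        rw [act_one, neg_dotProduct, hu]
        linarith
      have hpos := hO.measure_pos μ hne
      have hsub : C v φ ∩ {g : SO3 | (-u) ⬝ᵥ act g u < k} ⊆ symmDiff (cap (-u) u k) (C v φ) := by
        rintro g ⟨hg1, hg2⟩
        right
        refine ⟨hg1, ?_⟩
        intro hg3
        have h5 : k < (-u) ⬝ᵥ act g u := hg3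
        have h6 : (-u) ⬝ᵥ act g u < k := hg2
        linarith
      have := measure_mono_null hsub hzero
      rw [this] at hpos
      exact lt_irrefl _ hpos

end Pool.Agent.H389R3.SO
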